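import Mathlib
import Pool.Agent.TetRel.Defs

/-! # Hill's family of tetrahedra that tile space (lower bound 2 of the dimension)

For `a > 0`, `a + 3 b > 0` let `M = a I + b J` (`J` the all-ones matrix). The simplex
`1 ≥ x 0 ≥ x 1 ≥ x 2 ≥ 0` and its images under the permutations of the coordinates and the
integer translations are the cells of the arrangement of the planes `x i ∈ ℤ`, `x i - x j ∈ ℤ`.
The matrix `M` commutes with the permutations, so the images of the cells under `M` are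
congruent. -/

set_option autoImplicit false

open Set Filter Topology
open Pool.Agent.TetRel

namespace Pool.Agent.TetDim.Hill

/-- The six linear forms `x i` and `x i - x j`. -/
def F (k : Fin 6) (x : E3) : ℝ := ![x 0, x 1, x 2, x 0 - x 1, x 1 - x 2, x 0 - x 2] k

/-- The (closed) cells of the arrangement of the planes `x i ∈ ℤ`, `x i - x j ∈ ℤ`. -/
def C (n : Fin 6 → ℤ) : Set E3 := {x | ∀ k, (n k : ℝ) ≤ F k x ∧ F k x ≤ n k + 1}

theorem mem_C (n : Fin 6 → ℤ) (x : E3) : x ∈ C n ↔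
    ((n 0 : ℝ) ≤ x 0 ∧ x 0 ≤ n 0 + 1) ∧
    ((n 1 : ℝ) ≤ x 1 ∧ x 1 ≤ n 1 + 1) ∧
    ((n 2 : ℝ) ≤ x 2 ∧ x 2 ≤ n 2 + 1) ∧
    ((n 3 : ℝ) ≤ x 0 - x 1 ∧ x 0 - x 1 ≤ n 3 + 1) ∧
    ((n 4 : ℝ) ≤ x 1 - x 2 ∧ x 1 - x 2 ≤ n 4 + 1) ∧
    ((n 5 : ℝ) ≤ x 0 - x 2 ∧ x 0 - x 2 ≤ n 5 + 1) := by
  constructor
  · intro h
    exact ⟨h 0, h 1, h 2, h 3, h 4, h 5⟩
  · rintro ⟨h0, h1, h2, h3, h4, h5⟩ k
    fin_cases k
    exacts [h0, h1, h2, h3, h4, h5]

theorem F_add (k : Fin 6) (x y : E3) : F k (x + y) = F k x + F k y := by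
  fin_cases k <;> simp [F] <;> ring

theorem F_smul (k : Fin 6) (c : ℝ) (x : E3) : F k (c • x) = c * F k x := by
  fin_cases k <;> simp [F] <;> ring

/-- A direction in which the form `F k` grows. -/
theorem exists_dir (k : Fin 6) : ∃ u : E3, F k u = 1 := by
  fin_cases k
  · exact ⟨!₂[1, 0, 0], by simp [F]⟩
  · exact ⟨!₂[0, 1, 0], by simp [F]⟩
  · exact ⟨!₂[0, 0, 1], by simp [F]⟩
  · exact ⟨!₂[1, 0, 0], by simp [F]⟩
  · exact ⟨!₂[0, 1, 0], by simp [F]⟩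
  · exact ⟨!₂[1, 0, 0], by simp [F]⟩

theorem lt_of_interior {n : Fin 6 → ℤ} {x : E3} (hx : x ∈ interior (C n)) (k : Fin 6) :
    F k x < n k + 1 := by
  obtain ⟨u, hu⟩ := exists_dir k
  have hc : Tendsto (fun t : ℝ => x + t • u) (𝓝 0) (𝓝 x) := by
    have : Continuous (fun t : ℝ => x + t • u) := by fun_prop
    simpa using this.tendsto 0
  have h1 : ∀ᶠ t : ℝ in 𝓝 0, x + t • u ∈ C n := hc (mem_interior_iff_mem_nhds.1 hx)
  have h2 : ∀ᶠ t : ℝ in 𝓝[>] 0, x + t • u ∈ C n := h1.filter_mono nhdsWithin_le_nhds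
  obtain ⟨t, ht, ht0⟩ := (h2.and self_mem_nhdsWithin).exists
  have h3 := (ht k).2
  rw [F_add, F_smul, hu] at h3
  have : 0 < t := ht0
  linarith

theorem disj {n m : Fin 6 → ℤ} (h : C n ≠ C m) : Disjoint (interior (C n)) (interior (C m)) := by
  have hne : n ≠ m := fun e => h (by rw [e])
  obtain ⟨k, hk⟩ := Function.ne_iff.1 hne
  have key : ∀ (a b : Fin 6 → ℤ), a k < b k → Disjoint (interior (C a)) (interior (C b)) := by
    intro a b hab
    rw [Set.disjoint_left]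
    intro x hx hx'
    have h1 := lt_of_interior hx k
    have h2 := (interior_subset hx' k).1
    have h3 : ((a k : ℤ) : ℝ) + 1 ≤ b k := by exact_mod_cast hab
    linarith
  rcases lt_or_gt_of_ne hk with h' | h'
  · exact key n m h'
  · exact (key m n h').symm

/-- The vertices of the standard simplex `1 ≥ x 0 ≥ x 1 ≥ x 2 ≥ 0`. -/
def q : Fin 4 → E3 := ![0, !₂[1, 0, 0], !₂[1, 1, 0], !₂[1, 1, 1]]

theorem C_convex (n : Fin 6 → ℤ) : Convex ℝ (C n) := by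
  intro x hx y hy a b ha hb hab k
  have h1 := hx k
  have h2 := hy k
  rw [F_add, F_smul, F_smul]
  have e1 : (n k : ℝ) = a * n k + b * n k := by rw [← add_mul, hab, one_mul]
  have e2 : (n k : ℝ) + 1 = a * (n k + 1) + b * (n k + 1) := by rw [← add_mul, hab, one_mul]
  constructor
  · rw [e1]
    exact add_le_add (mul_le_mul_of_nonneg_left h1.1 ha) (mul_le_mul_of_nonneg_left h2.1 hb)
  · rw [e2]
    exact add_le_add (mul_le_mul_of_nonneg_left h1.2 ha) (mul_le_mul_of_nonneg_left h2.2 hb)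

theorem hull_q : convexHull ℝ (range q) = C 0 := by
  apply Subset.antisymm
  · apply convexHull_min _ (C_convex 0)
    rintro _ ⟨i, rfl⟩
    rw [mem_C]
    fin_cases i <;> refine ⟨⟨?_, ?_⟩, ⟨?_, ?_⟩, ⟨?_, ?_⟩, ⟨?_, ?_⟩, ⟨?_, ?_⟩, ⟨?_, ?_⟩⟩ <;>
      simp [q]
  · intro x hx
    rw [mem_C] at hx
    simp only [Pi.zero_apply, Int.cast_zero, zero_add] at hx
    obtain ⟨⟨-, h0'⟩, -, ⟨h2, -⟩, ⟨h3, -⟩, ⟨h4, -⟩, -⟩ := hx
    let w : Fin 4 → ℝ := ![1 - x 0, x 0 - x 1, x 1 - x 2, x 2]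
    have hw : ∀ i ∈ Finset.univ, 0 ≤ w i := by
      intro i _
      fin_cases i
      · exact sub_nonneg.2 h0'
      · exact h3
      · exact h4
      · exact h2
    have hw1 : ∑ i, w i = 1 := by
      rw [Fin.sum_univ_four]
      change 1 - x 0 + (x 0 - x 1) + (x 1 - x 2) + x 2 = 1
      ring
    have hm := (convex_convexHull ℝ (range q)).sum_mem hw hw1
      (fun i _ => subset_convexHull ℝ _ (mem_range_self i))
    have e : ∑ i, w i • q i = x := by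
      rw [Fin.sum_univ_four]
      ext j
      fin_cases j
      all_goals simp [w, q]
    rwa [e] at hm

theorem q_indep : AffineIndependent ℝ q := by
  rw [affineIndependent_iff_of_fintype]
  intro w hw h
  rw [Finset.univ.weightedVSub_eq_linear_combination hw, Fin.sum_univ_four] at h
  rw [Fin.sum_univ_four] at hw
  have c0 := congrArg (fun x : E3 => x 0) h
  have c1 := congrArg (fun x : E3 => x 1) h
  have c2 := congrArg (fun x : E3 => x 2) h
  simp [q] at c0 c1 c2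
  intro i
  fin_cases i
  · change w 0 = 0
    linarith
  · change w 1 = 0
    linarith
  · change w 2 = 0
    linarith
  · exact c2

/-- The linear map `a I + b J`. -/
noncomputable def M (a b : ℝ) : E3 →ₗ[ℝ] E3 where
  toFun x := !₂[a * x 0 + b * (x 0 + x 1 + x 2), a * x 1 + b * (x 0 + x 1 + x 2),
    a * x 2 + b * (x 0 + x 1 + x 2)]
  map_add' x y := by
    ext i
    fin_cases i <;> simp <;> ring
  map_smul' c x := by
    ext i
    fin_cases i <;> simp <;> ring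

theorem M_apply (a b : ℝ) (x : E3) : M a b x = !₂[a * x 0 + b * (x 0 + x 1 + x 2),
    a * x 1 + b * (x 0 + x 1 + x 2), a * x 2 + b * (x 0 + x 1 + x 2)] := rfl

theorem M_M (a b c d : ℝ) (x : E3) (h1 : a * c = 1) (h2 : a * d + b * c + 3 * b * d = 0) :
    M a b (M c d x) = x := by
  ext i
  fin_cases i
  · simp [M_apply]
    linear_combination (x 0) * h1 + (x 0 + x 1 + x 2) * h2
  · simp [M_apply]
    linear_combination (x 1) * h1 + (x 0 + x 1 + x 2) * h2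
  · simp [M_apply]
    linear_combination (x 2) * h1 + (x 0 + x 1 + x 2) * h2

theorem inv_coeff {a b : ℝ} (ha : a ≠ 0) (hb : a + 3 * b ≠ 0) :
    a * (-b / (a * (a + 3 * b))) + b * (1 / a) + 3 * b * (-b / (a * (a + 3 * b))) = 0 := by
  have h1 : -b / (a * (a + 3 * b)) * (a * (a + 3 * b)) = -b := div_mul_cancel₀ _ (mul_ne_zero ha hb)
  have h2 : a * (1 / a) = 1 := mul_one_div_cancel ha
  refine (mul_eq_zero.1 (?_ : a * _ = 0)).resolve_left ha
  linear_combination h1 + b * h2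

/-- `M` as an equivalence. -/
noncomputable def ME (a b : ℝ) (ha : a ≠ 0) (hb : a + 3 * b ≠ 0) : E3 ≃ₗ[ℝ] E3 :=
  LinearEquiv.ofLinearMap (M a b) (M (1 / a) (-b / (a * (a + 3 * b))))
    (by
      ext1 x
      exact M_M _ _ _ _ x (mul_one_div_cancel ha) (inv_coeff ha hb))
    (by
      ext1 x
      refine M_M _ _ _ _ x (one_div_mul_cancel ha) ?_
      linear_combination inv_coeff ha hb)

theorem ME_apply (a b : ℝ) (ha : a ≠ 0) (hb : a + 3 * b ≠ 0) (x : E3) : ME a b ha hb x = M a b x :=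
  rfl

theorem isom_of (f : E3 → E3) (h : ∀ x y : E3, (f x 0 - f y 0) ^ 2 + (f x 1 - f y 1) ^ 2 +
    (f x 2 - f y 2) ^ 2 = (x 0 - y 0) ^ 2 + (x 1 - y 1) ^ 2 + (x 2 - y 2) ^ 2) : Isometry f := by
  refine Isometry.of_dist_eq fun x y => ?_
  rw [EuclideanSpace.dist_eq, EuclideanSpace.dist_eq, Fin.sum_univ_three, Fin.sum_univ_three]
  simp only [Real.dist_eq, sq_abs]
  rw [h]

def sw01 (x : E3) : E3 := !₂[x 1, x 0, x 2]
def sw12 (x : E3) : E3 := !₂[x 0, x 2, x 1]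

theorem sw01_sw01 (x : E3) : sw01 (sw01 x) = x := by
  ext i
  fin_cases i <;> simp [sw01]

theorem sw12_sw12 (x : E3) : sw12 (sw12 x) = x := by
  ext i
  fin_cases i <;> simp [sw12]

noncomputable def i01 : E3 ≃ᵢ E3 := IsometryEquiv.mk' sw01 sw01 sw01_sw01
  (by apply isom_of; intro x y; simp [sw01]; ring)

noncomputable def i12 : E3 ≃ᵢ E3 := IsometryEquiv.mk' sw12 sw12 sw12_sw12
  (by apply isom_of; intro x y; simp [sw12]; ring)

/-- Points in a cell whose image under `M a b` is congruent to the image of the cell `C 0`. -/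
def G (a b : ℝ) (x : E3) : Prop :=
  ∃ n, x ∈ C n ∧ ∃ φ : E3 ≃ᵢ E3, M a b '' C n = φ '' (M a b '' C 0)

/-- The pair `g`, `h` of a permutation of the cells and an isometry, intertwined by `M a b`. -/
theorem G_map {a b : ℝ} {g g' : E3 → E3} {h : E3 ≃ᵢ E3} (hg : ∀ x, h (M a b x) = M a b (g x))
    (hgg : ∀ x, g (g' x) = x) (hn : ∀ n, ∃ n', ∀ x, g x ∈ C n' ↔ x ∈ C n) {x : E3}
    (hx : G a b x) : G a b (g x) := by
  obtain ⟨n, hxn, φ, hφ⟩ := hx
  obtain ⟨n', hn'⟩ := hn n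
  refine ⟨n', (hn' x).2 hxn, φ.trans h, ?_⟩
  have e : M a b '' C n' = h '' (M a b '' C n) := by
    ext y
    constructor
    · rintro ⟨z, hz, rfl⟩
      refine ⟨_, ⟨g' z, (hn' _).1 (by rwa [hgg]), rfl⟩, ?_⟩
      rw [hg, hgg]
    · rintro ⟨_, ⟨z, hz, rfl⟩, rfl⟩
      exact ⟨g z, (hn' z).2 hz, (hg z).symm⟩
  rw [e, hφ, image_image]
  rfl

theorem G_sw01 {a b : ℝ} {x : E3} (hx : G a b (sw01 x)) : G a b x := by
  have h := G_map (a := a) (b := b) (g := sw01) (g' := sw01) (h := i01) ?_ sw01_sw01 ?_ hx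
  · rwa [sw01_sw01] at h
  · intro x
    change sw01 _ = _
    ext i
    fin_cases i <;> simp [sw01, M_apply] <;> exact Or.inl (by ring)
  · intro n
    refine ⟨![n 1, n 0, n 2, -n 3 - 1, n 5, n 4], fun x => ?_⟩
    rw [mem_C, mem_C]
    simp [sw01, -and_congr_right_iff, -and_congr_left_iff]
    constructor <;> rintro ⟨⟨_, _⟩, ⟨_, _⟩, ⟨_, _⟩, ⟨_, _⟩, ⟨_, _⟩, ⟨_, _⟩⟩ <;>
      refine ⟨⟨?_, ?_⟩, ⟨?_, ?_⟩, ⟨?_, ?_⟩, ⟨?_, ?_⟩, ⟨?_, ?_⟩, ⟨?_, ?_⟩⟩ <;> linarith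

theorem G_sw12 {a b : ℝ} {x : E3} (hx : G a b (sw12 x)) : G a b x := by
  have h := G_map (a := a) (b := b) (g := sw12) (g' := sw12) (h := i12) ?_ sw12_sw12 ?_ hx
  · rwa [sw12_sw12] at h
  · intro x
    change sw12 _ = _
    ext i
    fin_cases i <;> simp [sw12, M_apply] <;> exact Or.inl (by ring)
  · intro n
    refine ⟨![n 0, n 2, n 1, n 5, -n 4 - 1, n 3], fun x => ?_⟩
    rw [mem_C, mem_C]
    simp [sw12, -and_congr_right_iff, -and_congr_left_iff]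
    constructor <;> rintro ⟨⟨_, _⟩, ⟨_, _⟩, ⟨_, _⟩, ⟨_, _⟩, ⟨_, _⟩, ⟨_, _⟩⟩ <;>
      refine ⟨⟨?_, ?_⟩, ⟨?_, ?_⟩, ⟨?_, ?_⟩, ⟨?_, ?_⟩, ⟨?_, ?_⟩, ⟨?_, ?_⟩⟩ <;> linarith

/-- The lattice vectors. -/
def tr (m : Fin 3 → ℤ) : E3 := !₂[(m 0 : ℝ), (m 1 : ℝ), (m 2 : ℝ)]

theorem G_tr {a b : ℝ} (m : Fin 3 → ℤ) {x : E3} (hx : G a b (x + tr m)) : G a b x := by
  have h := G_map (a := a) (b := b) (g := fun x => x + tr (-m)) (g' := fun x => x + tr m)
    (h := IsometryEquiv.addRight (M a b (tr (-m)))) ?_ ?_ ?_ hx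
  · have e : x + tr m + tr (-m) = x := by
      ext i
      fin_cases i <;> simp [tr]
    change G a b (x + tr m + tr (-m)) at h
    rwa [e] at h
  · intro x
    change M a b x + M a b (tr (-m)) = M a b (x + tr (-m))
    rw [map_add]
  · intro x
    ext i
    fin_cases i <;> simp [tr]
  · intro n
    refine ⟨![n 0 - m 0, n 1 - m 1, n 2 - m 2, n 3 - (m 0 - m 1), n 4 - (m 1 - m 2),
      n 5 - (m 0 - m 2)], fun x => ?_⟩
    rw [mem_C, mem_C]
    simp [tr]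
    constructor <;> rintro ⟨⟨_, _⟩, ⟨_, _⟩, ⟨_, _⟩, ⟨_, _⟩, ⟨_, _⟩, ⟨_, _⟩⟩ <;>
      refine ⟨⟨?_, ?_⟩, ⟨?_, ?_⟩, ⟨?_, ?_⟩, ⟨?_, ?_⟩, ⟨?_, ?_⟩, ⟨?_, ?_⟩⟩ <;> linarith

theorem G_sorted {a b : ℝ} {x : E3} (h2 : 0 ≤ x 2) (h12 : x 2 ≤ x 1) (h01 : x 1 ≤ x 0)
    (h0 : x 0 ≤ 1) : G a b x := by
  refine ⟨0, ?_, IsometryEquiv.refl _, (image_id _).symm⟩
  rw [mem_C]
  simp only [Pi.zero_apply, Int.cast_zero, zero_add]
  refine ⟨⟨?_, ?_⟩, ⟨?_, ?_⟩, ⟨?_, ?_⟩, ⟨?_, ?_⟩, ⟨?_, ?_⟩, ⟨?_, ?_⟩⟩ <;> linarith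

theorem G_cube {a b : ℝ} {x : E3} (h : ∀ i, 0 ≤ x i ∧ x i ≤ 1) : G a b x := by
  -- sort by transpositions
  have key : ∀ y : E3, (∀ i, 0 ≤ y i ∧ y i ≤ 1) → y 2 ≤ y 1 → y 2 ≤ y 0 → G a b y := by
    intro y hy h1 h0
    rcases le_total (y 1) (y 0) with h | h
    · exact G_sorted (hy 2).1 h1 h (hy 0).2
    · apply G_sw01
      refine G_sorted ?_ ?_ ?_ ?_ <;> simp [sw01]
      exacts [(hy 2).1, h0, h, (hy 1).2]
  have key2 : ∀ y : E3, (∀ i, 0 ≤ y i ∧ y i ≤ 1) → (y 1 ≤ y 0 ∨ y 2 ≤ y 0) → G a b y := by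
    intro y hy h0
    rcases le_total (y 2) (y 1) with h | h
    · exact key y hy h (by rcases h0 with h0 | h0 <;> linarith)
    · apply G_sw12
      refine key _ ?_ ?_ ?_
      · intro i; fin_cases i <;> simp [sw12]
        exacts [hy 0, hy 2, hy 1]
      · simp [sw12]; exact h
      · simp [sw12]; rcases h0 with h0 | h0 <;> linarith
  by_cases hc : x 1 ≤ x 0 ∨ x 2 ≤ x 0
  · exact key2 x h hc
  · push Not at hc
    apply G_sw01
    refine key2 _ ?_ (Or.inl ?_)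
    · intro i; fin_cases i <;> simp [sw01]
      exacts [h 1, h 0, h 2]
    · simp [sw01]; exact hc.1.le

theorem G_all (a b : ℝ) (x : E3) : G a b x := by
  apply G_tr (fun i => -⌊x i⌋)
  apply G_cube
  have key : ∀ t : ℝ, 0 ≤ t + ((-⌊t⌋ : ℤ) : ℝ) ∧ t + ((-⌊t⌋ : ℤ) : ℝ) ≤ 1 := by
    intro t
    have h1 := Int.floor_le t
    have h2 := Int.lt_floor_add_one t
    push_cast
    constructor <;> linarith
  intro i
  fin_cases i
  · have := key (x 0); simpa [tr] using this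
  · have := key (x 1); simpa [tr] using this
  · have := key (x 2); simpa [tr] using this

/-- The vertices `0`, `e 1`, `e 1 + e 2`, `e 1 + e 2 + e 3`. -/
noncomputable def vert (a b : ℝ) (i : Fin 4) : E3 := M a b (q i)

theorem hull_vert (a b : ℝ) : convexHull ℝ (range (vert a b)) = M a b '' C 0 := by
  have e : range (vert a b) = M a b '' range q := by
    rw [← range_comp]
    rfl
  rw [e, ← hull_q]
  exact ((M a b).image_convexHull (range q)).symm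

theorem vert_indep {a b : ℝ} (ha : a ≠ 0) (hb : a + 3 * b ≠ 0) :
    AffineIndependent ℝ (vert a b) :=
  q_indep.map' (M a b).toAffineMap (ME a b ha hb).injective

theorem vert_tiles {a b : ℝ} (ha : a ≠ 0) (hb : a + 3 * b ≠ 0) : Tiles (vert a b) := by
  refine ⟨{A | (∃ n, A = M a b '' C n) ∧
    ∃ φ : E3 ≃ᵢ E3, A = φ '' convexHull ℝ (range (vert a b))}, ?_, ?_, ?_⟩
  · rintro A ⟨-, hA⟩
    exact hA
  · rw [sUnion_eq_univ_iff]
    intro y
    obtain ⟨x, rfl⟩ := (ME a b ha hb).surjective y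
    obtain ⟨n, hn, φ, hφ⟩ := G_all a b x
    exact ⟨M a b '' C n, ⟨⟨n, rfl⟩, φ, by rw [hull_vert, hφ]⟩, x, hn, rfl⟩
  · rintro _ ⟨⟨n, rfl⟩, -⟩ _ ⟨⟨m, rfl⟩, -⟩ hne
    have e : ∀ X : Set E3, interior (M a b '' X) = M a b '' interior X := fun X =>
      ((ME a b ha hb).toContinuousLinearEquiv.toHomeomorph.image_interior X).symm
    have inj : Function.Injective (M a b) := (ME a b ha hb).injective
    rw [e, e, Set.disjoint_image_iff inj]
    exact disj fun he => hne (by rw [he])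

theorem len_0 (a b : ℝ) : len (vert a b) 0 = √((a + b) ^ 2 + 2 * b ^ 2) := by
  change dist (M a b (q 0)) (M a b (q 1)) = _
  rw [EuclideanSpace.dist_eq, Fin.sum_univ_three]
  simp only [Real.dist_eq, sq_abs]
  congr 1
  simp [q, M_apply]
  ring

theorem len_1 (a b : ℝ) : len (vert a b) 1 = √(2 * (a + 2 * b) ^ 2 + 4 * b ^ 2) := by
  change dist (M a b (q 0)) (M a b (q 2)) = _
  rw [EuclideanSpace.dist_eq, Fin.sum_univ_three]
  simp only [Real.dist_eq, sq_abs]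
  congr 1
  simp [q, M_apply]
  ring

/-- Every pair `0 < x < y < 2 x` is the pair of the first two edge lengths of a member of Hill's
family. -/
theorem exists_len {x y : ℝ} (hx : 0 < x) (hxy : x < y) (hyx : y < 2 * x) :
    ∃ a b : ℝ, a ≠ 0 ∧ a + 3 * b ≠ 0 ∧ len (vert a b) 0 = x ∧ len (vert a b) 1 = y := by
  have h1 : 0 < 2 * x ^ 2 - y ^ 2 / 2 := by nlinarith
  have h2 : 0 < y ^ 2 - x ^ 2 := by nlinarith
  have s1 := Real.sq_sqrt h1.le
  have s2 := Real.sq_sqrt h2.le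
  have p1 := Real.sqrt_pos.2 h1
  have p2 := Real.sqrt_pos.2 h2
  set a := √(2 * x ^ 2 - y ^ 2 / 2)
  set c := √(y ^ 2 - x ^ 2)
  refine ⟨a, (c - a) / 3, p1.ne', ?_, ?_, ?_⟩
  · have : a + 3 * ((c - a) / 3) = c := by ring
    rw [this]
    exact p2.ne'
  · rw [len_0]
    have : (a + (c - a) / 3) ^ 2 + 2 * ((c - a) / 3) ^ 2 = x ^ 2 := by
      linear_combination (2 / 3) * s1 + (1 / 3) * s2
    rw [this, Real.sqrt_sq hx.le]
  · rw [len_1]
    have : 2 * (a + 2 * ((c - a) / 3)) ^ 2 + 4 * ((c - a) / 3) ^ 2 = y ^ 2 := by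
      linear_combination (2 / 3) * s1 + (4 / 3) * s2
    rw [this, Real.sqrt_sq (hx.trans hxy).le]

end Pool.Agent.TetDim.Hill

namespace Pool.Agent.TetDim

/-- The set of the edge length vectors of the tetrahedra that tile space has dimension at
least `2` (Hill's family). -/
theorem dim_ge : 2 ≤ dimH {l : Fin 6 → ℝ | ∃ v : Fin 4 → E3, AffineIndependent ℝ v ∧ Tiles v ∧
    l = len v} := by
  set L : Set (Fin 6 → ℝ) := {l | ∃ v : Fin 4 → E3, AffineIndependent ℝ v ∧ Tiles v ∧ l = len v}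
  let p : (Fin 6 → ℝ) → ℝ × ℝ := fun l => (l 0, l 1)
  have hp : LipschitzWith 1 p := by
    have h0 : LipschitzWith 1 (fun l : Fin 6 → ℝ => l 0) := LipschitzWith.eval 0
    have h1 : LipschitzWith 1 (fun l : Fin 6 → ℝ => l 1) := LipschitzWith.eval 1
    simpa using h0.prodMk h1
  have hsub : {z : ℝ × ℝ | 0 < z.1 ∧ z.1 < z.2 ∧ z.2 < 2 * z.1} ⊆ p '' L := by
    rintro ⟨x, y⟩ ⟨hx, hxy, hyx⟩
    obtain ⟨a, b, ha, hb, h0, h1⟩ := Hill.exists_len hx hxy hyx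
    exact ⟨len (Hill.vert a b), ⟨_, Hill.vert_indep ha hb, Hill.vert_tiles ha hb, rfl⟩,
      Prod.ext h0 h1⟩
  have hopen : IsOpen {z : ℝ × ℝ | 0 < z.1 ∧ z.1 < z.2 ∧ z.2 < 2 * z.1} := by
    refine (isOpen_lt continuous_const continuous_fst).inter
      ((isOpen_lt continuous_fst continuous_snd).inter (isOpen_lt continuous_snd (by fun_prop)))
  have hmem : ((2, 3) : ℝ × ℝ) ∈ {z : ℝ × ℝ | 0 < z.1 ∧ z.1 < z.2 ∧ z.2 < 2 * z.1} := by
    norm_num
  have h2 : dimH (p '' L) = 2 := by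
    rw [Real.dimH_of_mem_nhds (x := ((2, 3) : ℝ × ℝ))
      (Filter.mem_of_superset (hopen.mem_nhds hmem) hsub)]
    simp
  rw [← h2]
  exact hp.dimH_image_le L

end Pool.Agent.TetDim
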