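import Pool.Agent.TetDim.Defs
import Pool.Agent.TetRel.AreasV

/-! # Edge lengths, areas, volume and dihedral angles of a tetrahedron (package B, helper95)

The polynomial identity `F_mul`, positivity, cosine and sine of the explicit angles, and `basic`:
the edge lengths of a nondegenerate tetrahedron are `Good` and its dihedral angles are given by the
explicit function `Th`. -/

set_option autoImplicit false

open scoped InnerProductSpace

namespace Pool.Agent.TetDim

open Pool.Agent.TetRel

/-! ### Algebra -/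

/-- The identity between the faces at an edge, the numerator of the cosine and the volume. -/
theorem F_mul (l : Fin 6 → ℝ) (i : Fin 6) :
    F l (ec i) * F l (ed i) = N l i ^ 2 + 4 * l i ^ 2 * P l := by
  fin_cases i <;>
    simp only [F, N, P, num, heron, ec, ed, Fin.reduceFinMk, Fin.zero_eta, Fin.mk_one,
      Matrix.cons_val, Fin.isValue, Matrix.cons_val_zero, Matrix.cons_val_one] <;> ring

private theorem heron_pos' {a b c : ℝ} (h1 : a < b + c) (h2 : b < a + c) (h3 : c < a + b) :
    0 < heron a b c := by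
  unfold heron
  have e1 : 0 < a + b + c := by linarith
  have e2 : 0 < -a + b + c := by linarith
  have e3 : 0 < a - b + c := by linarith
  have e4 : 0 < a + b - c := by linarith
  positivity

/-- The numbers are positive, and so are the (16 times squared) areas. -/
theorem good_pos {l : Fin 6 → ℝ} (h : Tri l) : (∀ i, 0 < l i) ∧ ∀ c, 0 < F l c := by
  have h00 := h 0 0
  have h01 := h 0 1
  have h02 := h 0 2
  have h10 := h 1 0
  have h11 := h 1 1
  have h12 := h 1 2
  have h20 := h 2 0
  have h21 := h 2 1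
  have h22 := h 2 2
  have h30 := h 3 0
  have h31 := h 3 1
  have h32 := h 3 2
  simp only [S, D, Fin.isValue, Matrix.cons_val, Matrix.cons_val_zero, Matrix.cons_val_one] at h00 h01 h02 h10 h11 h12 h20 h21 h22 h30 h31 h32
  constructor
  · intro i
    fin_cases i <;> simp only [Fin.reduceFinMk, Fin.zero_eta, Fin.mk_one, Fin.isValue] <;>
      linarith
  · intro c
    fin_cases c <;>
      simp only [F, Fin.reduceFinMk, Fin.zero_eta, Fin.mk_one, Matrix.cons_val, Fin.isValue,
        Matrix.cons_val_zero, Matrix.cons_val_one] <;>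
      apply heron_pos' <;> linarith

/-- Cosine and sine of the explicit angle. -/
theorem Th_facts {l : Fin 6 → ℝ} (h : Good l) (i : Fin 6) :
    (0 < Th l i ∧ Th l i < Real.pi) ∧
    Real.cos (Th l i) = N l i / √(F l (ec i) * F l (ed i)) ∧
    Real.sin (Th l i) = 2 * l i * √(P l) / √(F l (ec i) * F l (ed i)) := by
  obtain ⟨hl, hF⟩ := good_pos h.1
  have hP := h.2
  have hm := F_mul l i
  have hW : 0 < F l (ec i) * F l (ed i) := mul_pos (hF _) (hF _)
  have hs : 0 < √(F l (ec i) * F l (ed i)) := Real.sqrt_pos.2 hW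
  have hs2 : √(F l (ec i) * F l (ed i)) ^ 2 = F l (ec i) * F l (ed i) := Real.sq_sqrt hW.le
  have hlt : N l i ^ 2 < √(F l (ec i) * F l (ed i)) ^ 2 := by
    rw [hs2, hm]
    have := hl i
    have : 0 < 4 * l i ^ 2 * P l := by positivity
    linarith
  have habs := abs_lt_of_sq_lt_sq' hlt hs.le
  have h1 : -1 < N l i / √(F l (ec i) * F l (ed i)) := by
    rw [lt_div_iff₀ hs]
    linarith [habs.1]
  have h2 : N l i / √(F l (ec i) * F l (ed i)) < 1 := by
    rw [div_lt_one hs]
    exact habs.2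
  refine ⟨⟨Real.arccos_pos.2 h2, ?_⟩, Real.cos_arccos h1.le h2.le, ?_⟩
  · unfold Th
    have h3 := Real.arccos_neg (N l i / √(F l (ec i) * F l (ed i)))
    have h4 : 0 < Real.arccos (-(N l i / √(F l (ec i) * F l (ed i)))) :=
      Real.arccos_pos.2 (by linarith)
    linarith
  · unfold Th
    rw [Real.sin_arccos]
    have h5 : 1 - (N l i / √(F l (ec i) * F l (ed i))) ^ 2
        = (2 * l i * √(P l) / √(F l (ec i) * F l (ed i))) ^ 2 := by
      rw [div_pow, div_pow, hs2, mul_pow, mul_pow, Real.sq_sqrt hP.le, eq_div_iff hW.ne',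
        sub_mul, div_mul_cancel₀ _ hW.ne', hm]
      ring
    rw [h5, Real.sqrt_sq]
    have := hl i
    positivity

/-! ### Geometry -/

/-- The inner product of the components orthogonal to `e`. -/
theorem inner_perp {e : E3} (he : e ≠ 0) (p q : E3) :
    ‖e‖ ^ 2 * ⟪perp e p, perp e q⟫_ℝ = ‖e‖ ^ 2 * ⟪p, q⟫_ℝ - ⟪e, p⟫_ℝ * ⟪e, q⟫_ℝ := by
  have hee : ⟪e, e⟫_ℝ ≠ 0 := by simpa using he
  have h1 : ⟪p, e⟫_ℝ = ⟪e, p⟫_ℝ := real_inner_comm _ _
  rw [← real_inner_self_eq_norm_sq e]
  unfold perp
  simp only [inner_sub_left, inner_sub_right, inner_smul_left, inner_smul_right,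
    RCLike.conj_to_real, h1]
  field_simp
  ring

/-- The three products in terms of the distances of four points. -/
theorem four_points {X Y Z W : E3} (h : Y - X ≠ 0) :
    4 * (dist X Y ^ 2 * ⟪perp (Y - X) (Z - X), perp (Y - X) (W - X)⟫_ℝ) =
      num (dist X Y) (dist X Z) (dist Y Z) (dist X W) (dist Y W) (dist Z W) ∧
    4 * (dist X Y ^ 2 * ‖perp (Y - X) (Z - X)‖ ^ 2) = heron (dist X Y) (dist X Z) (dist Y Z) ∧
    4 * (dist X Y ^ 2 * ‖perp (Y - X) (W - X)‖ ^ 2) = heron (dist X Y) (dist X W) (dist Y W) := by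
  have d1 : dist X Y = ‖Y - X‖ := by rw [dist_comm, dist_eq_norm]
  have d2 : dist X Z = ‖Z - X‖ := by rw [dist_comm, dist_eq_norm]
  have d3 : dist X W = ‖W - X‖ := by rw [dist_comm, dist_eq_norm]
  have s3 : dist Y Z ^ 2 = dist X Y ^ 2 + dist X Z ^ 2 - 2 * ⟪Y - X, Z - X⟫_ℝ := by
    have h1 : dist Y Z = ‖(Y - X) - (Z - X)‖ := by rw [sub_sub_sub_cancel_right, dist_eq_norm]
    rw [h1, norm_sub_sq_real, d1, d2]
    ring
  have s5 : dist Y W ^ 2 = dist X Y ^ 2 + dist X W ^ 2 - 2 * ⟪Y - X, W - X⟫_ℝ := by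
    have h1 : dist Y W = ‖(Y - X) - (W - X)‖ := by rw [sub_sub_sub_cancel_right, dist_eq_norm]
    rw [h1, norm_sub_sq_real, d1, d3]
    ring
  have s6 : dist Z W ^ 2 = dist X Z ^ 2 + dist X W ^ 2 - 2 * ⟪Z - X, W - X⟫_ℝ := by
    have h1 : dist Z W = ‖(Z - X) - (W - X)‖ := by rw [sub_sub_sub_cancel_right, dist_eq_norm]
    rw [h1, norm_sub_sq_real, d2, d3]
    ring
  have g1 := inner_perp h (Z - X) (W - X)
  have g2 := inner_perp h (Z - X) (Z - X)
  have g3 := inner_perp h (W - X) (W - X)
  rw [real_inner_self_eq_norm_sq, real_inner_self_eq_norm_sq] at g2 g3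
  rw [← d1] at g1 g2 g3
  rw [← d2] at g2
  rw [← d3] at g3
  refine ⟨?_, ?_, ?_⟩
  · rw [g1]
    unfold num
    rw [s3, s5, s6]
    ring
  · rw [g2]
    have : heron (dist X Y) (dist X Z) (dist Y Z) = 4 * (dist X Y ^ 2 * dist X Z ^ 2) -
        (dist X Y ^ 2 + dist X Z ^ 2 - dist Y Z ^ 2) ^ 2 := by
      unfold heron
      ring
    rw [this, s3]
    ring
  · rw [g3]
    have : heron (dist X Y) (dist X W) (dist Y W) = 4 * (dist X Y ^ 2 * dist X W ^ 2) -
        (dist X Y ^ 2 + dist X W ^ 2 - dist Y W ^ 2) ^ 2 := by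
      unfold heron
      ring
    rw [this, s5]
    ring

/-- The explicit functions at an edge in terms of the distances. -/
theorem edge_form (v : Fin 4 → E3) (i : Fin 6) :
    N (len v) i = num (dist (v (ea i)) (v (eb i))) (dist (v (ea i)) (v (ec i)))
      (dist (v (eb i)) (v (ec i))) (dist (v (ea i)) (v (ed i))) (dist (v (eb i)) (v (ed i)))
      (dist (v (ec i)) (v (ed i))) ∧
    F (len v) (ed i) = heron (dist (v (ea i)) (v (eb i))) (dist (v (ea i)) (v (ec i)))
      (dist (v (eb i)) (v (ec i))) ∧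
    F (len v) (ec i) = heron (dist (v (ea i)) (v (eb i))) (dist (v (ea i)) (v (ed i)))
      (dist (v (eb i)) (v (ed i))) := by
  have h10 : dist (v 1) (v 0) = dist (v 0) (v 1) := dist_comm _ _
  have h20 : dist (v 2) (v 0) = dist (v 0) (v 2) := dist_comm _ _
  have h30 : dist (v 3) (v 0) = dist (v 0) (v 3) := dist_comm _ _
  have h21 : dist (v 2) (v 1) = dist (v 1) (v 2) := dist_comm _ _
  have h31 : dist (v 3) (v 1) = dist (v 1) (v 3) := dist_comm _ _
  have h32 : dist (v 3) (v 2) = dist (v 2) (v 3) := dist_comm _ _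
  fin_cases i <;>
    simp only [F, N, num, heron, len, ea, eb, ec, ed, Fin.reduceFinMk, Fin.zero_eta, Fin.mk_one,
      Matrix.cons_val, Fin.isValue, Matrix.cons_val_zero, Matrix.cons_val_one, h10, h20, h30, h21,
      h31, h32] <;>
    refine ⟨?_, ?_, ?_⟩ <;> first | exact trivial | ring

private theorem heron_tri {a b c : ℝ} (h : 0 < heron a b c) (h1 : a ≤ b + c) (h2 : b ≤ a + c)
    (h3 : c ≤ a + b) : a < b + c ∧ b < a + c ∧ c < a + b := by
  unfold heron at h
  refine ⟨lt_of_le_of_ne h1 ?_, lt_of_le_of_ne h2 ?_, lt_of_le_of_ne h3 ?_⟩ <;> intro h4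
  · have : -a + b + c = 0 := by linarith
    rw [this] at h
    simp at h
  · have : a - b + c = 0 := by linarith
    rw [this] at h
    simp at h
  · have : a + b - c = 0 := by linarith
    rw [this] at h
    simp at h

/-- **The edge lengths of a nondegenerate tetrahedron are `Good` and its dihedral angles are the
explicit function `Th` of them.** -/
theorem basic (v : Fin 4 → E3) (hv : AffineIndependent ℝ v) :
    Good (len v) ∧ (∀ i, 0 < len v i) ∧ (∀ c, 0 < F (len v) c) ∧
      (∀ i, dih v i = Th (len v) i) ∧ ∀ i, 0 < dih v i ∧ dih v i < Real.pi := by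
  obtain ⟨b, rfl⟩ := exists_basis v hv
  have key : ∀ i : Fin 6, 0 < len b i ∧ 0 < F (len b) (ed i) ∧ 0 < F (len b) (ec i) ∧
      dih b i = Th (len b) i ∧ N (len b) i ^ 2 < F (len b) (ec i) * F (len b) (ed i) := by
    intro i
    obtain ⟨he, hP, hQ, h0, hπ⟩ := Pool.TetraTile.orth_facts (li b i)
    obtain ⟨e1, e2, e3⟩ := edge_form b i
    obtain ⟨f1, f2, f3⟩ := four_points (Z := b (ec i)) (W := b (ed i)) he
    rw [← e1] at f1
    rw [← e2] at f2
    rw [← e3] at f3
    have ha : 0 < dist (b (ea i)) (b (eb i)) := by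
      rw [dist_comm, dist_eq_norm]
      exact norm_pos_iff.2 he
    have hl : 0 < len b i := ha
    have hcos : Real.cos (dih b i) =
        ⟪perp (b (eb i) - b (ea i)) (b (ec i) - b (ea i)),
          perp (b (eb i) - b (ea i)) (b (ed i) - b (ea i))⟫_ℝ /
        (‖perp (b (eb i) - b (ea i)) (b (ec i) - b (ea i))‖ *
          ‖perp (b (eb i) - b (ea i)) (b (ed i) - b (ea i))‖) :=
      InnerProductGeometry.cos_angle _ _
    have hu : 0 < ‖perp (b (eb i) - b (ea i)) (b (ec i) - b (ea i))‖ := norm_pos_iff.2 hP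
    have hw : 0 < ‖perp (b (eb i) - b (ea i)) (b (ed i) - b (ea i))‖ := norm_pos_iff.2 hQ
    have h0' : 0 < dih b i := h0
    have hπ' : dih b i < Real.pi := hπ
    have hsin : 0 < Real.sin (dih b i) := Real.sin_pos_of_pos_of_lt_pi h0' hπ'
    have hsc := Real.sin_sq_add_cos_sq (dih b i)
    have hth : dih b i = Real.arccos (Real.cos (dih b i)) :=
      (Real.arccos_cos h0'.le hπ'.le).symm
    generalize ⟪perp (b (eb i) - b (ea i)) (b (ec i) - b (ea i)),
          perp (b (eb i) - b (ea i)) (b (ed i) - b (ea i))⟫_ℝ = I at *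
    generalize ‖perp (b (eb i) - b (ea i)) (b (ec i) - b (ea i))‖ = u at *
    generalize ‖perp (b (eb i) - b (ea i)) (b (ed i) - b (ea i))‖ = w at *
    generalize dist (b (ea i)) (b (eb i)) = a at *
    have hF1 : 0 < F (len b) (ed i) := by rw [← f2]; positivity
    have hF2 : 0 < F (len b) (ec i) := by rw [← f3]; positivity
    have hsq : √(F (len b) (ec i) * F (len b) (ed i)) = 4 * a ^ 2 * (u * w) := by
      have : F (len b) (ec i) * F (len b) (ed i) = (4 * a ^ 2 * (u * w)) ^ 2 := by
        rw [← f2, ← f3]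
        ring
      rw [this, Real.sqrt_sq (by positivity)]
    refine ⟨hl, hF1, hF2, ?_, ?_⟩
    · rw [hth, hcos]
      unfold Th
      rw [hsq, ← f1]
      congr 1
      field_simp
    · have hI : I = u * w * Real.cos (dih b i) := by
        rw [hcos]
        field_simp
      have h5 : F (len b) (ec i) * F (len b) (ed i) - N (len b) i ^ 2
          = (4 * a ^ 2 * (u * w) * Real.sin (dih b i)) ^ 2 := by
        rw [← f1, ← f2, ← f3, hI]
        linear_combination (-(16 * a ^ 4 * u ^ 2 * w ^ 2)) * hsc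
      have h7 : 0 < (4 * a ^ 2 * (u * w) * Real.sin (dih b i)) ^ 2 := by positivity
      linarith
  have hF : ∀ c, 0 < F (len b) c := by
    intro c
    fin_cases c
    · exact (key 3).2.2.1
    · exact (key 5).2.1
    · exact (key 2).2.1
    · exact (key 0).2.1
  have hl : ∀ i, 0 < len b i := fun i => (key i).1
  have hP : 0 < P (len b) := by
    have h1 := F_mul (len b) 0
    have h2 := (key 0).2.2.2.2
    have h3 := hl 0
    have h4 : 0 < 4 * len b 0 ^ 2 := by positivity
    have h5 : 0 < 4 * len b 0 ^ 2 * P (len b) := by linarith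
    exact pos_of_mul_pos_right h5 h4.le
  have hT : Tri (len b) := by
    have k0 := hF 0
    have k1 := hF 1
    have k2 := hF 2
    have k3 := hF 3
    simp only [F, Fin.isValue, Matrix.cons_val, Matrix.cons_val_zero, Matrix.cons_val_one]
      at k0 k1 k2 k3
    have h10 : dist (b 1) (b 0) = dist (b 0) (b 1) := dist_comm _ _
    have h20 : dist (b 2) (b 0) = dist (b 0) (b 2) := dist_comm _ _
    have h30 : dist (b 3) (b 0) = dist (b 0) (b 3) := dist_comm _ _
    have h21 : dist (b 2) (b 1) = dist (b 1) (b 2) := dist_comm _ _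
    have h31 : dist (b 3) (b 1) = dist (b 1) (b 3) := dist_comm _ _
    have h32 : dist (b 3) (b 2) = dist (b 2) (b 3) := dist_comm _ _
    have tr := fun x y z : Fin 4 => dist_triangle (b x) (b y) (b z)
    have l0 : len b 0 = dist (b 0) (b 1) := rfl
    have l1 : len b 1 = dist (b 0) (b 2) := rfl
    have l2 : len b 2 = dist (b 0) (b 3) := rfl
    have l3 : len b 3 = dist (b 1) (b 2) := rfl
    have l4 : len b 4 = dist (b 1) (b 3) := rfl
    have l5 : len b 5 = dist (b 2) (b 3) := rfl
    obtain ⟨a1, a2, a3⟩ := heron_tri k0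
      (by have := tr 1 3 2; rw [l3, l4, l5]; linarith)
      (by have := tr 1 2 3; rw [l3, l4, l5]; linarith)
      (by have := tr 2 1 3; rw [l3, l4, l5]; linarith)
    obtain ⟨b1, b2, b3⟩ := heron_tri k1
      (by have := tr 0 3 2; rw [l1, l2, l5]; linarith)
      (by have := tr 0 2 3; rw [l1, l2, l5]; linarith)
      (by have := tr 2 0 3; rw [l1, l2, l5]; linarith)
    obtain ⟨c1, c2, c3⟩ := heron_tri k2
      (by have := tr 0 3 1; rw [l0, l2, l4]; linarith)
      (by have := tr 0 1 3; rw [l0, l2, l4]; linarith)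
      (by have := tr 1 0 3; rw [l0, l2, l4]; linarith)
    obtain ⟨d1, d2, d3⟩ := heron_tri k3
      (by have := tr 0 2 1; rw [l0, l1, l3]; linarith)
      (by have := tr 0 1 2; rw [l0, l1, l3]; linarith)
      (by have := tr 1 0 2; rw [l0, l1, l3]; linarith)
    intro q k
    fin_cases q <;> fin_cases k <;>
      simp only [S, D, Fin.reduceFinMk, Fin.zero_eta, Fin.mk_one, Matrix.cons_val, Fin.isValue,
        Matrix.cons_val_zero, Matrix.cons_val_one] <;> linarith
  exact ⟨⟨hT, hP⟩, hl, hF, fun i => (key i).2.2.2.1, fun i => dih_pos_lt b i⟩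

end Pool.Agent.TetDim
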