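import Pool.Agent.TetDim.Defs

/-! # Six admissible numbers are the edge lengths of a tetrahedron (package R, helper82) -/

set_option autoImplicit false

namespace Pool.Agent.TetDim

open Pool.Agent.TetRel

theorem tri_facts {l : Fin 6 → ℝ} (h : Tri l) :
    l 5 < l 1 + l 2 ∧ l 4 < l 0 + l 2 ∧ l 3 < l 0 + l 1 ∧ l 5 < l 3 + l 4 ∧ l 1 < l 0 + l 3 ∧
    l 2 < l 0 + l 4 ∧ l 0 < l 1 + l 3 ∧ l 4 < l 3 + l 5 ∧ l 2 < l 1 + l 5 ∧ l 0 < l 2 + l 4 ∧
    l 1 < l 2 + l 5 ∧ l 3 < l 4 + l 5 := by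
  have h00 := h 0 0
  have h01 := h 0 1
  have h02 := h 0 2
  have h10 := h 1 0
  have h11 := h 1 1
  have h12 := h 1 2
  have h20 := h 2 0
  have h21 := h 2 1
  have h22 := h 2 2
  have h30 := h 3 0
  have h31 := h 3 1
  have h32 := h 3 2
  simp [S, D] at h00 h01 h02 h10 h11 h12 h20 h21 h22 h30 h31 h32
  refine ⟨?_, ?_, ?_, ?_, ?_, ?_, ?_, ?_, ?_, ?_, ?_, ?_⟩ <;> linarith

theorem heron_pos {a b c : ℝ} (h1 : a < b + c) (h2 : b < a + c) (h3 : c < a + b) :
    0 < heron a b c := by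
  unfold heron
  have e1 : 0 < a + b + c := by linarith
  have e2 : 0 < -a + b + c := by linarith
  have e3 : 0 < a - b + c := by linarith
  have e4 : 0 < a + b - c := by linarith
  positivity

theorem gram_id (l : Fin 6 → ℝ) :
    heron (l 0) (l 2) (l 4) * heron (l 0) (l 1) (l 3) =
      num (l 0) (l 1) (l 3) (l 2) (l 4) (l 5) ^ 2 + 4 * l 0 ^ 2 * P l := by
  unfold heron num P
  ring

theorem realize {l : Fin 6 → ℝ} (h : Good l) :
    ∃ v : Fin 4 → E3, AffineIndependent ℝ v ∧ len v = l := by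
  obtain ⟨hT, hP⟩ := h
  obtain ⟨t1, t2, t3, t4, t5, t6, t7, t8, t9, t10, t11, t12⟩ := tri_facts hT
  have l0 : 0 < l 0 := by linarith
  have l1 : 0 < l 1 := by linarith
  have l2 : 0 < l 2 := by linarith
  have l3 : 0 < l 3 := by linarith
  have l4 : 0 < l 4 := by linarith
  have l5 : 0 < l 5 := by linarith
  have hF : 0 < heron (l 0) (l 1) (l 3) := heron_pos (by linarith) (by linarith) (by linarith)
  obtain ⟨s, hs, hs2⟩ : ∃ s : ℝ, 0 < s ∧ s ^ 2 = heron (l 0) (l 1) (l 3) :=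
    ⟨√(heron (l 0) (l 1) (l 3)), Real.sqrt_pos.2 hF, Real.sq_sqrt hF.le⟩
  obtain ⟨w, hw, hw2⟩ : ∃ w : ℝ, 0 < w ∧ w ^ 2 = P l :=
    ⟨√(P l), Real.sqrt_pos.2 hP, Real.sq_sqrt hP.le⟩
  have hg := gram_id l
  set M := num (l 0) (l 1) (l 3) (l 2) (l 4) (l 5) with hM
  -- coordinates
  set x := (l 0 ^ 2 + l 1 ^ 2 - l 3 ^ 2) / (2 * l 0) with hx
  set y := s / (2 * l 0) with hy
  set p := (l 0 ^ 2 + l 2 ^ 2 - l 4 ^ 2) / (2 * l 0) with hp
  set q := M / (2 * l 0 * s) with hq
  set r := w / s with hr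
  have ypos : 0 < y := by positivity
  have rpos : 0 < r := by positivity
  have e1 : x ^ 2 + y ^ 2 = l 1 ^ 2 := by
    rw [hx, hy, div_pow, div_pow, hs2]
    unfold heron
    field_simp
    ring
  have e3 : (l 0 - x) ^ 2 + y ^ 2 = l 3 ^ 2 := by
    have : (l 0 - x) ^ 2 + y ^ 2 = l 0 ^ 2 - 2 * l 0 * x + (x ^ 2 + y ^ 2) := by ring
    rw [this, e1, hx]
    field_simp
    ring
  have e2 : p ^ 2 + q ^ 2 + r ^ 2 = l 2 ^ 2 := by
    have hqr : q ^ 2 + r ^ 2 = heron (l 0) (l 2) (l 4) / (4 * l 0 ^ 2) := by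
      rw [hq, hr, div_pow, div_pow, mul_pow, hs2, hw2]
      rw [div_add_div _ _ (by positivity) (by positivity), div_eq_div_iff (by positivity)
        (by positivity)]
      linear_combination (-4 * l 0 ^ 2 * heron (l 0) (l 1) (l 3)) * hg
    rw [add_assoc, hqr, hp]
    unfold heron
    field_simp
    ring
  have e4 : (l 0 - p) ^ 2 + q ^ 2 + r ^ 2 = l 4 ^ 2 := by
    have : (l 0 - p) ^ 2 + q ^ 2 + r ^ 2 = l 0 ^ 2 - 2 * l 0 * p + (p ^ 2 + q ^ 2 + r ^ 2) := by
      ring
    rw [this, e2, hp]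
    field_simp
    ring
  have e5 : (x - p) ^ 2 + (y - q) ^ 2 + r ^ 2 = l 5 ^ 2 := by
    have : (x - p) ^ 2 + (y - q) ^ 2 + r ^ 2 =
        (x ^ 2 + y ^ 2) + (p ^ 2 + q ^ 2 + r ^ 2) - 2 * (x * p) - 2 * (y * q) := by ring
    have hyq : y * q = M / (4 * l 0 ^ 2) := by
      rw [hy, hq]
      field_simp
      ring
    rw [this, e1, e2, hyq, hx, hp, hM]
    unfold num
    field_simp
    ring
  refine ⟨![!₂[0, 0, 0], !₂[l 0, 0, 0], !₂[x, y, 0], !₂[p, q, r]], ?_, ?_⟩
  · rw [affineIndependent_iff_of_fintype]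
    intro c hc h0
    rw [Finset.weightedVSub_eq_linear_combination _ hc] at h0
    simp only [Fin.sum_univ_four] at hc h0
    have k0 := congrArg (fun z : E3 => z 0) h0
    have k1 := congrArg (fun z : E3 => z 1) h0
    have k2 := congrArg (fun z : E3 => z 2) h0
    simp at k0 k1 k2
    have c3 : c 3 = 0 := by
      rcases k2 with h | h
      · exact h
      · exact absurd h rpos.ne'
    rw [c3] at k0 k1 hc
    simp at k0 k1 hc
    have c2 : c 2 = 0 := by
      rcases k1 with h | h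
      · exact h
      · exact absurd h ypos.ne'
    rw [c2] at k0 hc
    simp at k0 hc
    have c1 : c 1 = 0 := by
      rcases k0 with h | h
      · exact h
      · exact absurd h l0.ne'
    rw [c1] at hc
    simp at hc
    intro i
    fin_cases i
    · exact hc
    · exact c1
    · exact c2
    · exact c3
  · have sq : ∀ {a b : ℝ}, 0 < b → a = b ^ 2 → √a = b := by
      intro a b hb h
      rw [h]
      exact Real.sqrt_sq hb.le
    funext i
    fin_cases i
    · simp only [len, ea, eb, EuclideanSpace.dist_eq, Fin.sum_univ_three, Real.dist_eq, sq_abs]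
      refine sq l0 ?_
      simp
    · simp only [len, ea, eb, EuclideanSpace.dist_eq, Fin.sum_univ_three, Real.dist_eq, sq_abs]
      refine sq l1 ?_
      simp
      linarith
    · simp only [len, ea, eb, EuclideanSpace.dist_eq, Fin.sum_univ_three, Real.dist_eq, sq_abs]
      refine sq l2 ?_
      simp
      linarith
    · simp only [len, ea, eb, EuclideanSpace.dist_eq, Fin.sum_univ_three, Real.dist_eq, sq_abs]
      refine sq l3 ?_
      simp
      linarith
    · simp only [len, ea, eb, EuclideanSpace.dist_eq, Fin.sum_univ_three, Real.dist_eq, sq_abs]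
      refine sq l4 ?_
      simp
      linarith
    · simp only [len, ea, eb, EuclideanSpace.dist_eq, Fin.sum_univ_three, Real.dist_eq, sq_abs]
      refine sq l5 ?_
      simp
      linarith

end Pool.Agent.TetDim
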