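import Pool.Agent.TetDim.Defs
import Pool.Agent.TetRel.Bridge

/-! # The star inequalities for the dihedral angles of a tetrahedron

At every vertex the three dihedral angles are the angles of a nondegenerate spherical triangle.
Proof by volume fractions, as for Gaddum's inequality. -/

set_option autoImplicit false

open MeasureTheory Set Module Metric
open scoped Pointwise

namespace Pool.Agent.TetRel

variable (b : AffineBasis (Fin 4) ℝ E3)

/-- the volume of the unit ball, restricted -/
noncomputable def mub : Measure E3 := vol.restrict (ball (0 : E3) 1)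

instance : IsFiniteMeasure mub :=
  ⟨by rw [mub, Measure.restrict_apply_univ]; exact measure_ball_lt_top⟩

open Classical in
/-- indicator of the cone `Z` -/
noncomputable def ind (Z : Finset (Fin 4)) (w : E3) : ℝ :=
  if ∀ c ∈ Z, 0 ≤ lin b c w then 1 else 0

lemma cone_meas (Z : Finset (Fin 4)) : MeasurableSet {w : E3 | ∀ c ∈ Z, 0 ≤ lin b c w} := by
  have : {w : E3 | ∀ c ∈ Z, 0 ≤ lin b c w} = ⋂ c ∈ Z, {w | 0 ≤ lin b c w} := by
    ext w; simp
  rw [this]
  refine Finset.measurableSet_biInter _ fun c _ => ?_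
  exact (isClosed_le continuous_const (lin_cont b c)).measurableSet

lemma integral_ind (Z : Finset (Fin 4)) :
    ∫ w, ind b Z w ∂mub = fr b Z * vr (ball (0 : E3) 1) := by
  rw [← vr_W b Z one_pos]
  have : (fun w : E3 => ind b Z w) = {w : E3 | ∀ c ∈ Z, 0 ≤ lin b c w}.indicator 1 := by
    ext w; simp [indicator, ind]
  rw [this, integral_indicator_one (cone_meas b Z), mub]
  unfold vr Measure.real
  rw [Measure.restrict_apply (cone_meas b Z)]
  congr 2
  ext w; simp [W, and_comm]

lemma integrable_ind (Z : Finset (Fin 4)) : Integrable (fun w => ind b Z w) mub := by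
  have : (fun w : E3 => ind b Z w) =
      {w : E3 | ∀ c ∈ Z, 0 ≤ lin b c w}.indicator (fun _ => 1) := by
    ext w; simp [indicator, ind]
  rw [this]
  exact (integrable_const 1).indicator (cone_meas b Z)

lemma star_sum {x y z q : Fin 4} (hx : q ≠ x) (hy : q ≠ y) (hz : q ≠ z) :
    1 / 2 < fr b {x, y} + fr b {x, z} + fr b {y, z} := by
  classical
  have hpt : ∀ w : E3, ind b {x} w + ind b {y} w + ind b {z} w + ind b {x, y, z} w ≤
      ind b ∅ w + ind b {x, y} w + ind b {x, z} w + ind b {y, z} w := by
    intro w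
    simp only [ind, Finset.mem_singleton, forall_eq, Finset.mem_insert, forall_eq_or_imp,
      Finset.notMem_empty, false_imp_iff, implies_true, if_true]
    by_cases h1 : 0 ≤ lin b x w <;> by_cases h2 : 0 ≤ lin b y w <;>
      by_cases h3 : 0 ≤ lin b z w <;> simp [h1, h2, h3]
  have i1 : Integrable (fun w => ind b {x} w + ind b {y} w) mub :=
    (integrable_ind b {x}).add (integrable_ind b {y})
  have i2 : Integrable (fun w => ind b {x} w + ind b {y} w + ind b {z} w) mub :=
    i1.add (integrable_ind b {z})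
  have i3 : Integrable (fun w => ind b {x} w + ind b {y} w + ind b {z} w + ind b {x, y, z} w)
      mub := i2.add (integrable_ind b {x, y, z})
  have j1 : Integrable (fun w => ind b ∅ w + ind b {x, y} w) mub :=
    (integrable_ind b ∅).add (integrable_ind b {x, y})
  have j2 : Integrable (fun w => ind b ∅ w + ind b {x, y} w + ind b {x, z} w) mub :=
    j1.add (integrable_ind b {x, z})
  have j3 : Integrable (fun w => ind b ∅ w + ind b {x, y} w + ind b {x, z} w + ind b {y, z} w)
      mub := j2.add (integrable_ind b {y, z})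
  have hle := integral_mono (μ := mub) i3 j3 hpt
  rw [integral_add i2 (integrable_ind b {x, y, z}), integral_add i1 (integrable_ind b {z}),
    integral_add (integrable_ind b {x}) (integrable_ind b {y}),
    integral_add j2 (integrable_ind b {y, z}), integral_add j1 (integrable_ind b {x, z}),
    integral_add (integrable_ind b ∅) (integrable_ind b {x, y})] at hle
  simp only [integral_ind, fr_single, fr_empty] at hle
  have h5 := vr_ball_pos (0 : E3) (r := 1) one_pos
  have h6 : 0 < fr b {x, y, z} := fr_pos b (c0 := q) (by simp [hx, hy, hz])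
  have h7 : (1 / 2 + 1 / 2 + 1 / 2 + fr b {x, y, z}) * vr (ball (0 : E3) 1) ≤
      (1 + fr b {x, y} + fr b {x, z} + fr b {y, z}) * vr (ball (0 : E3) 1) := by
    rw [add_mul, add_mul, add_mul, add_mul, add_mul, add_mul]; exact hle
  have h8 := le_of_mul_le_mul_right h7 h5
  linarith

lemma star_two {x y z : Fin 4} (hy : y ≠ x) (hz : z ≠ x) :
    fr b {x, y} + fr b {x, z} < 1 / 2 + fr b {y, z} := by
  classical
  obtain ⟨w0, hw0, hw1⟩ := exists_neg b x
  let U : Set E3 := {w | w ∈ ball (0 : E3) 1 ∧ lin b x w < 0 ∧ 0 < lin b y w ∧ 0 < lin b z w}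
  have hUo : IsOpen U := by
    have : U = ball (0 : E3) 1 ∩ ({w | lin b x w < 0} ∩ ({w | 0 < lin b y w} ∩
        {w | 0 < lin b z w})) := by
      ext w
      exact ⟨fun ⟨h1, h2, h3, h4⟩ => ⟨h1, h2, h3, h4⟩, fun ⟨h1, h2, h3, h4⟩ => ⟨h1, h2, h3, h4⟩⟩
    rw [this]
    exact isOpen_ball.inter ((isOpen_lt (lin_cont b x) continuous_const).inter
      ((isOpen_lt continuous_const (lin_cont b y)).inter
        (isOpen_lt continuous_const (lin_cont b z))))
  have hUn : U.Nonempty := by
    have hd : 0 < ‖w0‖ + 1 := by positivity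
    have hi : 0 < (‖w0‖ + 1)⁻¹ := inv_pos.2 hd
    refine ⟨(‖w0‖ + 1)⁻¹ • w0, ?_, ?_, ?_, ?_⟩
    · rw [mem_ball, dist_zero_right, norm_smul, norm_inv, Real.norm_of_nonneg hd.le,
        inv_mul_lt_iff₀ hd]; linarith
    · rw [map_smul, smul_eq_mul]
      exact mul_neg_of_pos_of_neg hi hw1
    · rw [map_smul, smul_eq_mul]
      exact mul_pos hi (hw0 y hy)
    · rw [map_smul, smul_eq_mul]
      exact mul_pos hi (hw0 z hz)
  have hUp : 0 < vr U := vr_pos_of_open hUo hUn (r := 1) fun _ h => h.1
  have hUi : Integrable (fun w => U.indicator (1 : E3 → ℝ) w) mub := by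
    have : (fun w => U.indicator (1 : E3 → ℝ) w) = U.indicator (fun _ => (1 : ℝ)) := rfl
    rw [this]
    exact (integrable_const 1).indicator hUo.measurableSet
  have hUv : ∫ w, U.indicator (1 : E3 → ℝ) w ∂mub = vr U := by
    rw [integral_indicator_one hUo.measurableSet, mub]
    unfold vr Measure.real
    rw [Measure.restrict_apply hUo.measurableSet]
    congr 2
    exact inter_eq_left.2 fun _ h => h.1
  have hpt : ∀ w : E3, ind b {x, y} w + ind b {x, z} w + U.indicator (1 : E3 → ℝ) w ≤
      ind b {x} w + ind b {y, z} w := by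
    intro w
    by_cases hU : w ∈ U
    · rw [indicator_of_mem hU]
      obtain ⟨-, h1, h2, h3⟩ := hU
      simp only [ind, Finset.mem_singleton, forall_eq, Finset.mem_insert, forall_eq_or_imp,
        not_le.2 h1, h2.le, h3.le, and_self, false_and, if_true, if_false, Pi.one_apply]
      norm_num
    · rw [indicator_of_notMem hU]
      simp only [ind, Finset.mem_singleton, forall_eq, Finset.mem_insert, forall_eq_or_imp]
      by_cases h1 : 0 ≤ lin b x w <;> by_cases h2 : 0 ≤ lin b y w <;>
        by_cases h3 : 0 ≤ lin b z w <;> simp [h1, h2, h3]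
  have i1 : Integrable (fun w => ind b {x, y} w + ind b {x, z} w) mub :=
    (integrable_ind b {x, y}).add (integrable_ind b {x, z})
  have i2 : Integrable (fun w => ind b {x, y} w + ind b {x, z} w +
      U.indicator (1 : E3 → ℝ) w) mub := i1.add hUi
  have j1 : Integrable (fun w => ind b {x} w + ind b {y, z} w) mub :=
    (integrable_ind b {x}).add (integrable_ind b {y, z})
  have hle := integral_mono (μ := mub) i2 j1 hpt
  rw [integral_add i1 hUi, integral_add (integrable_ind b {x, y}) (integrable_ind b {x, z}),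
    integral_add (integrable_ind b {x}) (integrable_ind b {y, z}), hUv] at hle
  simp only [integral_ind, fr_single] at hle
  have h5 := vr_ball_pos (0 : E3) (r := 1) one_pos
  have h7 : (fr b {x, y} + fr b {x, z}) * vr (ball (0 : E3) 1) <
      (1 / 2 + fr b {y, z}) * vr (ball (0 : E3) 1) := by
    rw [add_mul, add_mul]; linarith
  exact lt_of_mul_lt_mul_right h7 h5.le

end Pool.Agent.TetRel

namespace Pool.Agent.TetDim

open Pool.Agent.TetRel

/-- **Star inequalities.** -/
theorem star (v : Fin 4 → E3) (hv : AffineIndependent ℝ v) : Star (dih v) := by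
  have htop : affineSpan ℝ (Set.range v) = ⊤ := by
    rw [hv.affineSpan_eq_top_iff_card_eq_finrank_add_one]
    simp
  obtain ⟨b, hb⟩ : ∃ b : AffineBasis (Fin 4) ℝ E3, (b : Fin 4 → E3) = v := ⟨⟨v, hv, htop⟩, rfl⟩
  have hpi := Real.pi_pos
  have hd : ∀ i, dih v i = 2 * Real.pi * fr b (fc i) := by
    intro i
    have h := om_eq b i
    rw [hb, om] at h
    rw [h]; field_simp
  have e0 : fc 0 = {2, 3} := rfl
  have e1 : fc 1 = {1, 3} := rfl
  have e2 : fc 2 = {1, 2} := rfl
  have e3 : fc 3 = {0, 3} := rfl
  have e4 : fc 4 = {0, 2} := rfl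
  have e5 : fc 5 = {0, 1} := by rw [fc]; decide
  have key : ∀ s t u : Fin 6, ∀ x y z q : Fin 4, fc s = {y, z} → fc t = {x, z} → fc u = {x, y} →
      q ≠ x → q ≠ y → q ≠ z → y ≠ x → z ≠ x → z ≠ y →
      Real.pi < dih v s + dih v t + dih v u ∧
      dih v s + dih v t + dih v u < Real.pi + 2 * dih v s ∧
      dih v s + dih v t + dih v u < Real.pi + 2 * dih v t ∧
      dih v s + dih v t + dih v u < Real.pi + 2 * dih v u := by
    intro s t u x y z q hs ht hu qx qy qz yx zx zy
    have h1 := star_sum b qx qy qz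
    have h2 := star_two b (x := x) (y := y) (z := z) yx zx
    have h3 := star_two b (x := y) (y := x) (z := z) yx.symm zy
    have h4 := star_two b (x := z) (y := x) (z := y) zx.symm zy.symm
    rw [Finset.pair_comm y x] at h3
    rw [Finset.pair_comm z x, Finset.pair_comm z y] at h4
    rw [hd, hd, hd, hs, ht, hu]
    refine ⟨by nlinarith, by nlinarith, by nlinarith, by nlinarith⟩
  intro q
  fin_cases q
  · obtain ⟨h1, h2, h3, h4⟩ := key 0 1 2 1 2 3 0 e0 e1 e2 (by decide) (by decide) (by decide)
      (by decide) (by decide) (by decide)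
    refine ⟨h1, fun j => ?_⟩
    fin_cases j
    exacts [h2, h3, h4]
  · obtain ⟨h1, h2, h3, h4⟩ := key 0 3 4 0 2 3 1 e0 e3 e4 (by decide) (by decide) (by decide)
      (by decide) (by decide) (by decide)
    refine ⟨h1, fun j => ?_⟩
    fin_cases j
    exacts [h2, h3, h4]
  · obtain ⟨h1, h2, h3, h4⟩ := key 1 3 5 0 1 3 2 e1 e3 e5 (by decide) (by decide) (by decide)
      (by decide) (by decide) (by decide)
    refine ⟨h1, fun j => ?_⟩
    fin_cases j
    exacts [h2, h3, h4]
  · obtain ⟨h1, h2, h3, h4⟩ := key 2 4 5 0 1 2 3 e2 e4 e5 (by decide) (by decide) (by decide)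
      (by decide) (by decide) (by decide)
    refine ⟨h1, fun j => ?_⟩
    fin_cases j
    exacts [h2, h3, h4]

end Pool.Agent.TetDim
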