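import Pool.Agent.TetDim.Cont3
import Pool.Agent.TetDim.BasicG
import Pool.Agent.TetDim.Realize
import Pool.Agent.TetDim.Star

/-!
# The continuation theorem, from the integral inequalities
-/

set_option autoImplicit false

namespace Pool.Agent.TetDim

open TetRel

/-- `cont3`, with the two inequalities for `∑ len * dih` as a hypothesis. -/
theorem cont3_of
    (hineq : ∀ v : Fin 4 → E3, AffineIndependent ℝ v →
      (∀ k, Real.pi * D (len v) k < ∑ e, len v e * dih v e) ∧
      (∀ q, ∑ e, len v e * dih v e < Real.pi * S (len v) q))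
    (n : Fin 3 → Fin 6 → ℕ) (c0 : Fin 3 → ℝ) (h0 : Good (J n c0))
    (h1 : ∀ i, ∑ e, (n i e : ℝ) * Th (J n c0) e = 2 * Real.pi)
    (h2 : ∀ c, Good (J n c) → ∀ i, Real.sin (∑ e, (n i e : ℝ) * Th (J n c) e) = 0) :
    ∀ c, Tri (J n c) → Good (J n c) ∧ ∀ i, ∑ e, (n i e : ℝ) * Th (J n c) e = 2 * Real.pi := by
  refine cont3_core (fun l hl => good_pos hl) F_mul ?_ ?_ n c0 h0 h1 h2
  · intro l hl
    obtain ⟨v, hv, rfl⟩ := realize hl
    have h3 : dih v = Th (len v) := funext (basic v hv).2.2.2.1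
    rw [← h3]
    exact star v hv
  · intro l hl
    obtain ⟨v, hv, rfl⟩ := realize hl
    have h3 : dih v = Th (len v) := funext (basic v hv).2.2.2.1
    rw [← h3]
    exact hineq v hv

end Pool.Agent.TetDim
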