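import Pool.Agent.TetDim.Defs

/-! # The final algebra of the three-type case (helper83) -/

set_option autoImplicit false

namespace Pool.Agent.TetDim

private theorem alg_012 (l : Fin 6 → ℝ) (f x0 x1 x2 : ℝ) (d0 : l 0 + l 5 = f - x0)
    (d1 : l 1 + l 4 = f - x1) (d2 : l 2 + l 3 = f - x2)
    (s0 : l 0 + l 1 + l 2 = f + x0)
    (s1 : l 0 + l 3 + l 4 = f + x1)
    (s2 : l 1 + l 3 + l 5 = f + x2) :
    (x0 = 0 → P l = -(x1 * x2 * (x1 + x2)) ^ 2) ∧ (x1 = 0 → P l = -(x0 * x2 * (x0 + x2)) ^ 2) ∧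
    (x2 = 0 → P l = -(x0 * x1 * (x0 + x1)) ^ 2) := by
  have h0 : l 0 = (1/2)*x0 + x1 + (1/2)*x2 := by linarith
  have h1 : l 1 = x0 + x2 := by linarith
  have h2 : l 2 = f + (-1/2)*x0 + (-1)*x1 + (-3/2)*x2 := by linarith
  have h3 : l 3 = (1/2)*x0 + x1 + (1/2)*x2 := by linarith
  have h4 : l 4 = f + (-1)*x0 + (-1)*x1 + (-1)*x2 := by linarith
  have h5 : l 5 = f + (-3/2)*x0 + (-1)*x1 + (-1/2)*x2 := by linarith
  refine ⟨?_, ?_, ?_⟩ <;> intro hx <;> subst hx <;> unfold P <;> rw [h0, h1, h2, h3, h4, h5] <;> ring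

private theorem alg_013 (l : Fin 6 → ℝ) (f x0 x1 x2 : ℝ) (d0 : l 0 + l 5 = f - x0)
    (d1 : l 1 + l 4 = f - x1) (d2 : l 2 + l 3 = f - x2)
    (s0 : l 0 + l 1 + l 2 = f + x0)
    (s1 : l 0 + l 3 + l 4 = f + x1)
    (s2 : l 2 + l 4 + l 5 = f + x2) :
    (x0 = 0 → P l = -(x1 * x2 * (x1 + x2)) ^ 2) ∧ (x1 = 0 → P l = -(x0 * x2 * (x0 + x2)) ^ 2) ∧
    (x2 = 0 → P l = -(x0 * x1 * (x0 + x1)) ^ 2) := by
  have h0 : l 0 = (1/2)*x0 + x1 + (1/2)*x2 := by linarith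
  have h1 : l 1 = f + (-1/2)*x0 + (-3/2)*x1 + (-1)*x2 := by linarith
  have h2 : l 2 = x0 + (1/2)*x1 + (1/2)*x2 := by linarith
  have h3 : l 3 = f + (-1)*x0 + (-1/2)*x1 + (-3/2)*x2 := by linarith
  have h4 : l 4 = (1/2)*x0 + (1/2)*x1 + x2 := by linarith
  have h5 : l 5 = f + (-3/2)*x0 + (-1)*x1 + (-1/2)*x2 := by linarith
  refine ⟨?_, ?_, ?_⟩ <;> intro hx <;> subst hx <;> unfold P <;> rw [h0, h1, h2, h3, h4, h5] <;> ring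

private theorem alg_021 (l : Fin 6 → ℝ) (f x0 x1 x2 : ℝ) (d0 : l 0 + l 5 = f - x0)
    (d1 : l 1 + l 4 = f - x1) (d2 : l 2 + l 3 = f - x2)
    (s0 : l 0 + l 1 + l 2 = f + x0)
    (s1 : l 1 + l 3 + l 5 = f + x1)
    (s2 : l 0 + l 3 + l 4 = f + x2) :
    (x0 = 0 → P l = -(x1 * x2 * (x1 + x2)) ^ 2) ∧ (x1 = 0 → P l = -(x0 * x2 * (x0 + x2)) ^ 2) ∧
    (x2 = 0 → P l = -(x0 * x1 * (x0 + x1)) ^ 2) := by
  have h0 : l 0 = (1/2)*x0 + (1/2)*x1 + x2 := by linarith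
  have h1 : l 1 = x0 + (1/2)*x1 + (1/2)*x2 := by linarith
  have h2 : l 2 = f + (-1/2)*x0 + (-1)*x1 + (-3/2)*x2 := by linarith
  have h3 : l 3 = (1/2)*x0 + x1 + (1/2)*x2 := by linarith
  have h4 : l 4 = f + (-1)*x0 + (-3/2)*x1 + (-1/2)*x2 := by linarith
  have h5 : l 5 = f + (-3/2)*x0 + (-1/2)*x1 + (-1)*x2 := by linarith
  refine ⟨?_, ?_, ?_⟩ <;> intro hx <;> subst hx <;> unfold P <;> rw [h0, h1, h2, h3, h4, h5] <;> ring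

private theorem alg_023 (l : Fin 6 → ℝ) (f x0 x1 x2 : ℝ) (d0 : l 0 + l 5 = f - x0)
    (d1 : l 1 + l 4 = f - x1) (d2 : l 2 + l 3 = f - x2)
    (s0 : l 0 + l 1 + l 2 = f + x0)
    (s1 : l 1 + l 3 + l 5 = f + x1)
    (s2 : l 2 + l 4 + l 5 = f + x2) :
    (x0 = 0 → P l = -(x1 * x2 * (x1 + x2)) ^ 2) ∧ (x1 = 0 → P l = -(x0 * x2 * (x0 + x2)) ^ 2) ∧
    (x2 = 0 → P l = -(x0 * x1 * (x0 + x1)) ^ 2) := by
  have h0 : l 0 = f + (-1)*x0 + (-1)*x1 + (-1)*x2 := by linarith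
  have h1 : l 1 = x0 + (1/2)*x1 + (1/2)*x2 := by linarith
  have h2 : l 2 = x0 + (1/2)*x1 + (1/2)*x2 := by linarith
  have h3 : l 3 = f + (-1)*x0 + (-1/2)*x1 + (-3/2)*x2 := by linarith
  have h4 : l 4 = f + (-1)*x0 + (-3/2)*x1 + (-1/2)*x2 := by linarith
  have h5 : l 5 = x1 + x2 := by linarith
  refine ⟨?_, ?_, ?_⟩ <;> intro hx <;> subst hx <;> unfold P <;> rw [h0, h1, h2, h3, h4, h5] <;> ring

private theorem alg_031 (l : Fin 6 → ℝ) (f x0 x1 x2 : ℝ) (d0 : l 0 + l 5 = f - x0)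
    (d1 : l 1 + l 4 = f - x1) (d2 : l 2 + l 3 = f - x2)
    (s0 : l 0 + l 1 + l 2 = f + x0)
    (s1 : l 2 + l 4 + l 5 = f + x1)
    (s2 : l 0 + l 3 + l 4 = f + x2) :
    (x0 = 0 → P l = -(x1 * x2 * (x1 + x2)) ^ 2) ∧ (x1 = 0 → P l = -(x0 * x2 * (x0 + x2)) ^ 2) ∧
    (x2 = 0 → P l = -(x0 * x1 * (x0 + x1)) ^ 2) := by
  have h0 : l 0 = (1/2)*x0 + (1/2)*x1 + x2 := by linarith
  have h1 : l 1 = f + (-1/2)*x0 + (-3/2)*x1 + (-1)*x2 := by linarith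
  have h2 : l 2 = x0 + x1 := by linarith
  have h3 : l 3 = f + (-1)*x0 + (-1)*x1 + (-1)*x2 := by linarith
  have h4 : l 4 = (1/2)*x0 + (1/2)*x1 + x2 := by linarith
  have h5 : l 5 = f + (-3/2)*x0 + (-1/2)*x1 + (-1)*x2 := by linarith
  refine ⟨?_, ?_, ?_⟩ <;> intro hx <;> subst hx <;> unfold P <;> rw [h0, h1, h2, h3, h4, h5] <;> ring

private theorem alg_032 (l : Fin 6 → ℝ) (f x0 x1 x2 : ℝ) (d0 : l 0 + l 5 = f - x0)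
    (d1 : l 1 + l 4 = f - x1) (d2 : l 2 + l 3 = f - x2)
    (s0 : l 0 + l 1 + l 2 = f + x0)
    (s1 : l 2 + l 4 + l 5 = f + x1)
    (s2 : l 1 + l 3 + l 5 = f + x2) :
    (x0 = 0 → P l = -(x1 * x2 * (x1 + x2)) ^ 2) ∧ (x1 = 0 → P l = -(x0 * x2 * (x0 + x2)) ^ 2) ∧
    (x2 = 0 → P l = -(x0 * x1 * (x0 + x1)) ^ 2) := by
  have h0 : l 0 = f + (-1)*x0 + (-1)*x1 + (-1)*x2 := by linarith
  have h1 : l 1 = x0 + x2 := by linarith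
  have h2 : l 2 = x0 + x1 := by linarith
  have h3 : l 3 = f + (-1)*x0 + (-1)*x1 + (-1)*x2 := by linarith
  have h4 : l 4 = f + (-1)*x0 + (-1)*x1 + (-1)*x2 := by linarith
  have h5 : l 5 = x1 + x2 := by linarith
  refine ⟨?_, ?_, ?_⟩ <;> intro hx <;> subst hx <;> unfold P <;> rw [h0, h1, h2, h3, h4, h5] <;> ring

private theorem alg_102 (l : Fin 6 → ℝ) (f x0 x1 x2 : ℝ) (d0 : l 0 + l 5 = f - x0)
    (d1 : l 1 + l 4 = f - x1) (d2 : l 2 + l 3 = f - x2)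
    (s0 : l 0 + l 3 + l 4 = f + x0)
    (s1 : l 0 + l 1 + l 2 = f + x1)
    (s2 : l 1 + l 3 + l 5 = f + x2) :
    (x0 = 0 → P l = -(x1 * x2 * (x1 + x2)) ^ 2) ∧ (x1 = 0 → P l = -(x0 * x2 * (x0 + x2)) ^ 2) ∧
    (x2 = 0 → P l = -(x0 * x1 * (x0 + x1)) ^ 2) := by
  have h0 : l 0 = (1/2)*x0 + x1 + (1/2)*x2 := by linarith
  have h1 : l 1 = (1/2)*x0 + (1/2)*x1 + x2 := by linarith
  have h2 : l 2 = f + (-1)*x0 + (-1/2)*x1 + (-3/2)*x2 := by linarith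
  have h3 : l 3 = x0 + (1/2)*x1 + (1/2)*x2 := by linarith
  have h4 : l 4 = f + (-1/2)*x0 + (-3/2)*x1 + (-1)*x2 := by linarith
  have h5 : l 5 = f + (-3/2)*x0 + (-1)*x1 + (-1/2)*x2 := by linarith
  refine ⟨?_, ?_, ?_⟩ <;> intro hx <;> subst hx <;> unfold P <;> rw [h0, h1, h2, h3, h4, h5] <;> ring

private theorem alg_103 (l : Fin 6 → ℝ) (f x0 x1 x2 : ℝ) (d0 : l 0 + l 5 = f - x0)
    (d1 : l 1 + l 4 = f - x1) (d2 : l 2 + l 3 = f - x2)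
    (s0 : l 0 + l 3 + l 4 = f + x0)
    (s1 : l 0 + l 1 + l 2 = f + x1)
    (s2 : l 2 + l 4 + l 5 = f + x2) :
    (x0 = 0 → P l = -(x1 * x2 * (x1 + x2)) ^ 2) ∧ (x1 = 0 → P l = -(x0 * x2 * (x0 + x2)) ^ 2) ∧
    (x2 = 0 → P l = -(x0 * x1 * (x0 + x1)) ^ 2) := by
  have h0 : l 0 = (1/2)*x0 + x1 + (1/2)*x2 := by linarith
  have h1 : l 1 = f + (-1)*x0 + (-1)*x1 + (-1)*x2 := by linarith
  have h2 : l 2 = (1/2)*x0 + x1 + (1/2)*x2 := by linarith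
  have h3 : l 3 = f + (-1/2)*x0 + (-1)*x1 + (-3/2)*x2 := by linarith
  have h4 : l 4 = x0 + x2 := by linarith
  have h5 : l 5 = f + (-3/2)*x0 + (-1)*x1 + (-1/2)*x2 := by linarith
  refine ⟨?_, ?_, ?_⟩ <;> intro hx <;> subst hx <;> unfold P <;> rw [h0, h1, h2, h3, h4, h5] <;> ring

private theorem alg_120 (l : Fin 6 → ℝ) (f x0 x1 x2 : ℝ) (d0 : l 0 + l 5 = f - x0)
    (d1 : l 1 + l 4 = f - x1) (d2 : l 2 + l 3 = f - x2)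
    (s0 : l 0 + l 3 + l 4 = f + x0)
    (s1 : l 1 + l 3 + l 5 = f + x1)
    (s2 : l 0 + l 1 + l 2 = f + x2) :
    (x0 = 0 → P l = -(x1 * x2 * (x1 + x2)) ^ 2) ∧ (x1 = 0 → P l = -(x0 * x2 * (x0 + x2)) ^ 2) ∧
    (x2 = 0 → P l = -(x0 * x1 * (x0 + x1)) ^ 2) := by
  have h0 : l 0 = (1/2)*x0 + (1/2)*x1 + x2 := by linarith
  have h1 : l 1 = (1/2)*x0 + (1/2)*x1 + x2 := by linarith
  have h2 : l 2 = f + (-1)*x0 + (-1)*x1 + (-1)*x2 := by linarith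
  have h3 : l 3 = x0 + x1 := by linarith
  have h4 : l 4 = f + (-1/2)*x0 + (-3/2)*x1 + (-1)*x2 := by linarith
  have h5 : l 5 = f + (-3/2)*x0 + (-1/2)*x1 + (-1)*x2 := by linarith
  refine ⟨?_, ?_, ?_⟩ <;> intro hx <;> subst hx <;> unfold P <;> rw [h0, h1, h2, h3, h4, h5] <;> ring

private theorem alg_123 (l : Fin 6 → ℝ) (f x0 x1 x2 : ℝ) (d0 : l 0 + l 5 = f - x0)
    (d1 : l 1 + l 4 = f - x1) (d2 : l 2 + l 3 = f - x2)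
    (s0 : l 0 + l 3 + l 4 = f + x0)
    (s1 : l 1 + l 3 + l 5 = f + x1)
    (s2 : l 2 + l 4 + l 5 = f + x2) :
    (x0 = 0 → P l = -(x1 * x2 * (x1 + x2)) ^ 2) ∧ (x1 = 0 → P l = -(x0 * x2 * (x0 + x2)) ^ 2) ∧
    (x2 = 0 → P l = -(x0 * x1 * (x0 + x1)) ^ 2) := by
  have h0 : l 0 = f + (-1)*x0 + (-1)*x1 + (-1)*x2 := by linarith
  have h1 : l 1 = f + (-1)*x0 + (-1)*x1 + (-1)*x2 := by linarith
  have h2 : l 2 = f + (-1)*x0 + (-1)*x1 + (-1)*x2 := by linarith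
  have h3 : l 3 = x0 + x1 := by linarith
  have h4 : l 4 = x0 + x2 := by linarith
  have h5 : l 5 = x1 + x2 := by linarith
  refine ⟨?_, ?_, ?_⟩ <;> intro hx <;> subst hx <;> unfold P <;> rw [h0, h1, h2, h3, h4, h5] <;> ring

private theorem alg_130 (l : Fin 6 → ℝ) (f x0 x1 x2 : ℝ) (d0 : l 0 + l 5 = f - x0)
    (d1 : l 1 + l 4 = f - x1) (d2 : l 2 + l 3 = f - x2)
    (s0 : l 0 + l 3 + l 4 = f + x0)
    (s1 : l 2 + l 4 + l 5 = f + x1)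
    (s2 : l 0 + l 1 + l 2 = f + x2) :
    (x0 = 0 → P l = -(x1 * x2 * (x1 + x2)) ^ 2) ∧ (x1 = 0 → P l = -(x0 * x2 * (x0 + x2)) ^ 2) ∧
    (x2 = 0 → P l = -(x0 * x1 * (x0 + x1)) ^ 2) := by
  have h0 : l 0 = (1/2)*x0 + (1/2)*x1 + x2 := by linarith
  have h1 : l 1 = f + (-1)*x0 + (-3/2)*x1 + (-1/2)*x2 := by linarith
  have h2 : l 2 = (1/2)*x0 + x1 + (1/2)*x2 := by linarith
  have h3 : l 3 = f + (-1/2)*x0 + (-1)*x1 + (-3/2)*x2 := by linarith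
  have h4 : l 4 = x0 + (1/2)*x1 + (1/2)*x2 := by linarith
  have h5 : l 5 = f + (-3/2)*x0 + (-1/2)*x1 + (-1)*x2 := by linarith
  refine ⟨?_, ?_, ?_⟩ <;> intro hx <;> subst hx <;> unfold P <;> rw [h0, h1, h2, h3, h4, h5] <;> ring

private theorem alg_132 (l : Fin 6 → ℝ) (f x0 x1 x2 : ℝ) (d0 : l 0 + l 5 = f - x0)
    (d1 : l 1 + l 4 = f - x1) (d2 : l 2 + l 3 = f - x2)
    (s0 : l 0 + l 3 + l 4 = f + x0)
    (s1 : l 2 + l 4 + l 5 = f + x1)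
    (s2 : l 1 + l 3 + l 5 = f + x2) :
    (x0 = 0 → P l = -(x1 * x2 * (x1 + x2)) ^ 2) ∧ (x1 = 0 → P l = -(x0 * x2 * (x0 + x2)) ^ 2) ∧
    (x2 = 0 → P l = -(x0 * x1 * (x0 + x1)) ^ 2) := by
  have h0 : l 0 = f + (-1)*x0 + (-1)*x1 + (-1)*x2 := by linarith
  have h1 : l 1 = f + (-1)*x0 + (-3/2)*x1 + (-1/2)*x2 := by linarith
  have h2 : l 2 = f + (-1)*x0 + (-1/2)*x1 + (-3/2)*x2 := by linarith
  have h3 : l 3 = x0 + (1/2)*x1 + (1/2)*x2 := by linarith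
  have h4 : l 4 = x0 + (1/2)*x1 + (1/2)*x2 := by linarith
  have h5 : l 5 = x1 + x2 := by linarith
  refine ⟨?_, ?_, ?_⟩ <;> intro hx <;> subst hx <;> unfold P <;> rw [h0, h1, h2, h3, h4, h5] <;> ring

private theorem alg_201 (l : Fin 6 → ℝ) (f x0 x1 x2 : ℝ) (d0 : l 0 + l 5 = f - x0)
    (d1 : l 1 + l 4 = f - x1) (d2 : l 2 + l 3 = f - x2)
    (s0 : l 1 + l 3 + l 5 = f + x0)
    (s1 : l 0 + l 1 + l 2 = f + x1)
    (s2 : l 0 + l 3 + l 4 = f + x2) :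
    (x0 = 0 → P l = -(x1 * x2 * (x1 + x2)) ^ 2) ∧ (x1 = 0 → P l = -(x0 * x2 * (x0 + x2)) ^ 2) ∧
    (x2 = 0 → P l = -(x0 * x1 * (x0 + x1)) ^ 2) := by
  have h0 : l 0 = x1 + x2 := by linarith
  have h1 : l 1 = x0 + (1/2)*x1 + (1/2)*x2 := by linarith
  have h2 : l 2 = f + (-1)*x0 + (-1/2)*x1 + (-3/2)*x2 := by linarith
  have h3 : l 3 = x0 + (1/2)*x1 + (1/2)*x2 := by linarith
  have h4 : l 4 = f + (-1)*x0 + (-3/2)*x1 + (-1/2)*x2 := by linarith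
  have h5 : l 5 = f + (-1)*x0 + (-1)*x1 + (-1)*x2 := by linarith
  refine ⟨?_, ?_, ?_⟩ <;> intro hx <;> subst hx <;> unfold P <;> rw [h0, h1, h2, h3, h4, h5] <;> ring

private theorem alg_203 (l : Fin 6 → ℝ) (f x0 x1 x2 : ℝ) (d0 : l 0 + l 5 = f - x0)
    (d1 : l 1 + l 4 = f - x1) (d2 : l 2 + l 3 = f - x2)
    (s0 : l 1 + l 3 + l 5 = f + x0)
    (s1 : l 0 + l 1 + l 2 = f + x1)
    (s2 : l 2 + l 4 + l 5 = f + x2) :
    (x0 = 0 → P l = -(x1 * x2 * (x1 + x2)) ^ 2) ∧ (x1 = 0 → P l = -(x0 * x2 * (x0 + x2)) ^ 2) ∧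
    (x2 = 0 → P l = -(x0 * x1 * (x0 + x1)) ^ 2) := by
  have h0 : l 0 = f + (-3/2)*x0 + (-1/2)*x1 + (-1)*x2 := by linarith
  have h1 : l 1 = x0 + (1/2)*x1 + (1/2)*x2 := by linarith
  have h2 : l 2 = (1/2)*x0 + x1 + (1/2)*x2 := by linarith
  have h3 : l 3 = f + (-1/2)*x0 + (-1)*x1 + (-3/2)*x2 := by linarith
  have h4 : l 4 = f + (-1)*x0 + (-3/2)*x1 + (-1/2)*x2 := by linarith
  have h5 : l 5 = (1/2)*x0 + (1/2)*x1 + x2 := by linarith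
  refine ⟨?_, ?_, ?_⟩ <;> intro hx <;> subst hx <;> unfold P <;> rw [h0, h1, h2, h3, h4, h5] <;> ring

private theorem alg_210 (l : Fin 6 → ℝ) (f x0 x1 x2 : ℝ) (d0 : l 0 + l 5 = f - x0)
    (d1 : l 1 + l 4 = f - x1) (d2 : l 2 + l 3 = f - x2)
    (s0 : l 1 + l 3 + l 5 = f + x0)
    (s1 : l 0 + l 3 + l 4 = f + x1)
    (s2 : l 0 + l 1 + l 2 = f + x2) :
    (x0 = 0 → P l = -(x1 * x2 * (x1 + x2)) ^ 2) ∧ (x1 = 0 → P l = -(x0 * x2 * (x0 + x2)) ^ 2) ∧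
    (x2 = 0 → P l = -(x0 * x1 * (x0 + x1)) ^ 2) := by
  have h0 : l 0 = x1 + x2 := by linarith
  have h1 : l 1 = x0 + x2 := by linarith
  have h2 : l 2 = f + (-1)*x0 + (-1)*x1 + (-1)*x2 := by linarith
  have h3 : l 3 = x0 + x1 := by linarith
  have h4 : l 4 = f + (-1)*x0 + (-1)*x1 + (-1)*x2 := by linarith
  have h5 : l 5 = f + (-1)*x0 + (-1)*x1 + (-1)*x2 := by linarith
  refine ⟨?_, ?_, ?_⟩ <;> intro hx <;> subst hx <;> unfold P <;> rw [h0, h1, h2, h3, h4, h5] <;> ring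

private theorem alg_213 (l : Fin 6 → ℝ) (f x0 x1 x2 : ℝ) (d0 : l 0 + l 5 = f - x0)
    (d1 : l 1 + l 4 = f - x1) (d2 : l 2 + l 3 = f - x2)
    (s0 : l 1 + l 3 + l 5 = f + x0)
    (s1 : l 0 + l 3 + l 4 = f + x1)
    (s2 : l 2 + l 4 + l 5 = f + x2) :
    (x0 = 0 → P l = -(x1 * x2 * (x1 + x2)) ^ 2) ∧ (x1 = 0 → P l = -(x0 * x2 * (x0 + x2)) ^ 2) ∧
    (x2 = 0 → P l = -(x0 * x1 * (x0 + x1)) ^ 2) := by
  have h0 : l 0 = f + (-3/2)*x0 + (-1/2)*x1 + (-1)*x2 := by linarith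
  have h1 : l 1 = f + (-1/2)*x0 + (-3/2)*x1 + (-1)*x2 := by linarith
  have h2 : l 2 = f + (-1)*x0 + (-1)*x1 + (-1)*x2 := by linarith
  have h3 : l 3 = x0 + x1 := by linarith
  have h4 : l 4 = (1/2)*x0 + (1/2)*x1 + x2 := by linarith
  have h5 : l 5 = (1/2)*x0 + (1/2)*x1 + x2 := by linarith
  refine ⟨?_, ?_, ?_⟩ <;> intro hx <;> subst hx <;> unfold P <;> rw [h0, h1, h2, h3, h4, h5] <;> ring

private theorem alg_230 (l : Fin 6 → ℝ) (f x0 x1 x2 : ℝ) (d0 : l 0 + l 5 = f - x0)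
    (d1 : l 1 + l 4 = f - x1) (d2 : l 2 + l 3 = f - x2)
    (s0 : l 1 + l 3 + l 5 = f + x0)
    (s1 : l 2 + l 4 + l 5 = f + x1)
    (s2 : l 0 + l 1 + l 2 = f + x2) :
    (x0 = 0 → P l = -(x1 * x2 * (x1 + x2)) ^ 2) ∧ (x1 = 0 → P l = -(x0 * x2 * (x0 + x2)) ^ 2) ∧
    (x2 = 0 → P l = -(x0 * x1 * (x0 + x1)) ^ 2) := by
  have h0 : l 0 = f + (-3/2)*x0 + (-1)*x1 + (-1/2)*x2 := by linarith
  have h1 : l 1 = x0 + x2 := by linarith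
  have h2 : l 2 = (1/2)*x0 + x1 + (1/2)*x2 := by linarith
  have h3 : l 3 = f + (-1/2)*x0 + (-1)*x1 + (-3/2)*x2 := by linarith
  have h4 : l 4 = f + (-1)*x0 + (-1)*x1 + (-1)*x2 := by linarith
  have h5 : l 5 = (1/2)*x0 + x1 + (1/2)*x2 := by linarith
  refine ⟨?_, ?_, ?_⟩ <;> intro hx <;> subst hx <;> unfold P <;> rw [h0, h1, h2, h3, h4, h5] <;> ring

private theorem alg_231 (l : Fin 6 → ℝ) (f x0 x1 x2 : ℝ) (d0 : l 0 + l 5 = f - x0)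
    (d1 : l 1 + l 4 = f - x1) (d2 : l 2 + l 3 = f - x2)
    (s0 : l 1 + l 3 + l 5 = f + x0)
    (s1 : l 2 + l 4 + l 5 = f + x1)
    (s2 : l 0 + l 3 + l 4 = f + x2) :
    (x0 = 0 → P l = -(x1 * x2 * (x1 + x2)) ^ 2) ∧ (x1 = 0 → P l = -(x0 * x2 * (x0 + x2)) ^ 2) ∧
    (x2 = 0 → P l = -(x0 * x1 * (x0 + x1)) ^ 2) := by
  have h0 : l 0 = f + (-3/2)*x0 + (-1)*x1 + (-1/2)*x2 := by linarith
  have h1 : l 1 = f + (-1/2)*x0 + (-3/2)*x1 + (-1)*x2 := by linarith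
  have h2 : l 2 = f + (-1)*x0 + (-1/2)*x1 + (-3/2)*x2 := by linarith
  have h3 : l 3 = x0 + (1/2)*x1 + (1/2)*x2 := by linarith
  have h4 : l 4 = (1/2)*x0 + (1/2)*x1 + x2 := by linarith
  have h5 : l 5 = (1/2)*x0 + x1 + (1/2)*x2 := by linarith
  refine ⟨?_, ?_, ?_⟩ <;> intro hx <;> subst hx <;> unfold P <;> rw [h0, h1, h2, h3, h4, h5] <;> ring

private theorem alg_301 (l : Fin 6 → ℝ) (f x0 x1 x2 : ℝ) (d0 : l 0 + l 5 = f - x0)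
    (d1 : l 1 + l 4 = f - x1) (d2 : l 2 + l 3 = f - x2)
    (s0 : l 2 + l 4 + l 5 = f + x0)
    (s1 : l 0 + l 1 + l 2 = f + x1)
    (s2 : l 0 + l 3 + l 4 = f + x2) :
    (x0 = 0 → P l = -(x1 * x2 * (x1 + x2)) ^ 2) ∧ (x1 = 0 → P l = -(x0 * x2 * (x0 + x2)) ^ 2) ∧
    (x2 = 0 → P l = -(x0 * x1 * (x0 + x1)) ^ 2) := by
  have h0 : l 0 = x1 + x2 := by linarith
  have h1 : l 1 = f + (-1)*x0 + (-1)*x1 + (-1)*x2 := by linarith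
  have h2 : l 2 = x0 + x1 := by linarith
  have h3 : l 3 = f + (-1)*x0 + (-1)*x1 + (-1)*x2 := by linarith
  have h4 : l 4 = x0 + x2 := by linarith
  have h5 : l 5 = f + (-1)*x0 + (-1)*x1 + (-1)*x2 := by linarith
  refine ⟨?_, ?_, ?_⟩ <;> intro hx <;> subst hx <;> unfold P <;> rw [h0, h1, h2, h3, h4, h5] <;> ring

private theorem alg_302 (l : Fin 6 → ℝ) (f x0 x1 x2 : ℝ) (d0 : l 0 + l 5 = f - x0)
    (d1 : l 1 + l 4 = f - x1) (d2 : l 2 + l 3 = f - x2)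
    (s0 : l 2 + l 4 + l 5 = f + x0)
    (s1 : l 0 + l 1 + l 2 = f + x1)
    (s2 : l 1 + l 3 + l 5 = f + x2) :
    (x0 = 0 → P l = -(x1 * x2 * (x1 + x2)) ^ 2) ∧ (x1 = 0 → P l = -(x0 * x2 * (x0 + x2)) ^ 2) ∧
    (x2 = 0 → P l = -(x0 * x1 * (x0 + x1)) ^ 2) := by
  have h0 : l 0 = f + (-3/2)*x0 + (-1/2)*x1 + (-1)*x2 := by linarith
  have h1 : l 1 = (1/2)*x0 + (1/2)*x1 + x2 := by linarith
  have h2 : l 2 = x0 + x1 := by linarith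
  have h3 : l 3 = f + (-1)*x0 + (-1)*x1 + (-1)*x2 := by linarith
  have h4 : l 4 = f + (-1/2)*x0 + (-3/2)*x1 + (-1)*x2 := by linarith
  have h5 : l 5 = (1/2)*x0 + (1/2)*x1 + x2 := by linarith
  refine ⟨?_, ?_, ?_⟩ <;> intro hx <;> subst hx <;> unfold P <;> rw [h0, h1, h2, h3, h4, h5] <;> ring

private theorem alg_310 (l : Fin 6 → ℝ) (f x0 x1 x2 : ℝ) (d0 : l 0 + l 5 = f - x0)
    (d1 : l 1 + l 4 = f - x1) (d2 : l 2 + l 3 = f - x2)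
    (s0 : l 2 + l 4 + l 5 = f + x0)
    (s1 : l 0 + l 3 + l 4 = f + x1)
    (s2 : l 0 + l 1 + l 2 = f + x2) :
    (x0 = 0 → P l = -(x1 * x2 * (x1 + x2)) ^ 2) ∧ (x1 = 0 → P l = -(x0 * x2 * (x0 + x2)) ^ 2) ∧
    (x2 = 0 → P l = -(x0 * x1 * (x0 + x1)) ^ 2) := by
  have h0 : l 0 = x1 + x2 := by linarith
  have h1 : l 1 = f + (-1)*x0 + (-3/2)*x1 + (-1/2)*x2 := by linarith
  have h2 : l 2 = x0 + (1/2)*x1 + (1/2)*x2 := by linarith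
  have h3 : l 3 = f + (-1)*x0 + (-1/2)*x1 + (-3/2)*x2 := by linarith
  have h4 : l 4 = x0 + (1/2)*x1 + (1/2)*x2 := by linarith
  have h5 : l 5 = f + (-1)*x0 + (-1)*x1 + (-1)*x2 := by linarith
  refine ⟨?_, ?_, ?_⟩ <;> intro hx <;> subst hx <;> unfold P <;> rw [h0, h1, h2, h3, h4, h5] <;> ring

private theorem alg_312 (l : Fin 6 → ℝ) (f x0 x1 x2 : ℝ) (d0 : l 0 + l 5 = f - x0)
    (d1 : l 1 + l 4 = f - x1) (d2 : l 2 + l 3 = f - x2)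
    (s0 : l 2 + l 4 + l 5 = f + x0)
    (s1 : l 0 + l 3 + l 4 = f + x1)
    (s2 : l 1 + l 3 + l 5 = f + x2) :
    (x0 = 0 → P l = -(x1 * x2 * (x1 + x2)) ^ 2) ∧ (x1 = 0 → P l = -(x0 * x2 * (x0 + x2)) ^ 2) ∧
    (x2 = 0 → P l = -(x0 * x1 * (x0 + x1)) ^ 2) := by
  have h0 : l 0 = f + (-3/2)*x0 + (-1/2)*x1 + (-1)*x2 := by linarith
  have h1 : l 1 = f + (-1)*x0 + (-3/2)*x1 + (-1/2)*x2 := by linarith
  have h2 : l 2 = f + (-1/2)*x0 + (-1)*x1 + (-3/2)*x2 := by linarith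
  have h3 : l 3 = (1/2)*x0 + x1 + (1/2)*x2 := by linarith
  have h4 : l 4 = x0 + (1/2)*x1 + (1/2)*x2 := by linarith
  have h5 : l 5 = (1/2)*x0 + (1/2)*x1 + x2 := by linarith
  refine ⟨?_, ?_, ?_⟩ <;> intro hx <;> subst hx <;> unfold P <;> rw [h0, h1, h2, h3, h4, h5] <;> ring

private theorem alg_320 (l : Fin 6 → ℝ) (f x0 x1 x2 : ℝ) (d0 : l 0 + l 5 = f - x0)
    (d1 : l 1 + l 4 = f - x1) (d2 : l 2 + l 3 = f - x2)
    (s0 : l 2 + l 4 + l 5 = f + x0)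
    (s1 : l 1 + l 3 + l 5 = f + x1)
    (s2 : l 0 + l 1 + l 2 = f + x2) :
    (x0 = 0 → P l = -(x1 * x2 * (x1 + x2)) ^ 2) ∧ (x1 = 0 → P l = -(x0 * x2 * (x0 + x2)) ^ 2) ∧
    (x2 = 0 → P l = -(x0 * x1 * (x0 + x1)) ^ 2) := by
  have h0 : l 0 = f + (-3/2)*x0 + (-1)*x1 + (-1/2)*x2 := by linarith
  have h1 : l 1 = (1/2)*x0 + (1/2)*x1 + x2 := by linarith
  have h2 : l 2 = x0 + (1/2)*x1 + (1/2)*x2 := by linarith
  have h3 : l 3 = f + (-1)*x0 + (-1/2)*x1 + (-3/2)*x2 := by linarith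
  have h4 : l 4 = f + (-1/2)*x0 + (-3/2)*x1 + (-1)*x2 := by linarith
  have h5 : l 5 = (1/2)*x0 + x1 + (1/2)*x2 := by linarith
  refine ⟨?_, ?_, ?_⟩ <;> intro hx <;> subst hx <;> unfold P <;> rw [h0, h1, h2, h3, h4, h5] <;> ring

private theorem alg_321 (l : Fin 6 → ℝ) (f x0 x1 x2 : ℝ) (d0 : l 0 + l 5 = f - x0)
    (d1 : l 1 + l 4 = f - x1) (d2 : l 2 + l 3 = f - x2)
    (s0 : l 2 + l 4 + l 5 = f + x0)
    (s1 : l 1 + l 3 + l 5 = f + x1)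
    (s2 : l 0 + l 3 + l 4 = f + x2) :
    (x0 = 0 → P l = -(x1 * x2 * (x1 + x2)) ^ 2) ∧ (x1 = 0 → P l = -(x0 * x2 * (x0 + x2)) ^ 2) ∧
    (x2 = 0 → P l = -(x0 * x1 * (x0 + x1)) ^ 2) := by
  have h0 : l 0 = f + (-3/2)*x0 + (-1)*x1 + (-1/2)*x2 := by linarith
  have h1 : l 1 = f + (-1)*x0 + (-1)*x1 + (-1)*x2 := by linarith
  have h2 : l 2 = f + (-1/2)*x0 + (-1)*x1 + (-3/2)*x2 := by linarith
  have h3 : l 3 = (1/2)*x0 + x1 + (1/2)*x2 := by linarith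
  have h4 : l 4 = x0 + x2 := by linarith
  have h5 : l 5 = (1/2)*x0 + x1 + (1/2)*x2 := by linarith
  refine ⟨?_, ?_, ?_⟩ <;> intro hx <;> subst hx <;> unfold P <;> rw [h0, h1, h2, h3, h4, h5] <;> ring

/-- The star sums `S_{q k} = f + x_k` and the sums of opposite edges `D_k = f - x_k`, at the point
`x_k = 0`, the other two equal to one, contradict `P = 0`. -/
theorem alg3 (l : Fin 6 → ℝ) (f : ℝ) (x : Fin 3 → ℝ) (q : Fin 3 → Fin 4)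
    (hinj : Function.Injective q) (hD : ∀ k, D l k = f - x k) (hS : ∀ k, S l (q k) = f + x k)
    (k : Fin 3) (hx : x k = 0) (hx' : ∀ i, i ≠ k → 0 < x i) (hP : P l = 0) : False := by
  have key : (x 0 = 0 → P l = -(x 1 * x 2 * (x 1 + x 2)) ^ 2) ∧
      (x 1 = 0 → P l = -(x 0 * x 2 * (x 0 + x 2)) ^ 2) ∧
      (x 2 = 0 → P l = -(x 0 * x 1 * (x 0 + x 1)) ^ 2) := by
    have h01 : q 0 ≠ q 1 := hinj.ne (by decide)
    have h02 : q 0 ≠ q 2 := hinj.ne (by decide)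
    have h12 : q 1 ≠ q 2 := hinj.ne (by decide)
    have d0 : l 0 + l 5 = f - x 0 := hD 0
    have d1 : l 1 + l 4 = f - x 1 := hD 1
    have d2 : l 2 + l 3 = f - x 2 := hD 2
    have s0 := hS 0
    have s1 := hS 1
    have s2 := hS 2
    generalize q 0 = a at *
    generalize q 1 = b at *
    generalize q 2 = c at *
    fin_cases a <;> fin_cases b <;> fin_cases c <;> first
      | exact absurd rfl h01
      | exact absurd rfl h02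
      | exact absurd rfl h12
      | exact alg_012 l f (x 0) (x 1) (x 2) d0 d1 d2 s0 s1 s2
      | exact alg_013 l f (x 0) (x 1) (x 2) d0 d1 d2 s0 s1 s2
      | exact alg_021 l f (x 0) (x 1) (x 2) d0 d1 d2 s0 s1 s2
      | exact alg_023 l f (x 0) (x 1) (x 2) d0 d1 d2 s0 s1 s2
      | exact alg_031 l f (x 0) (x 1) (x 2) d0 d1 d2 s0 s1 s2
      | exact alg_032 l f (x 0) (x 1) (x 2) d0 d1 d2 s0 s1 s2
      | exact alg_102 l f (x 0) (x 1) (x 2) d0 d1 d2 s0 s1 s2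
      | exact alg_103 l f (x 0) (x 1) (x 2) d0 d1 d2 s0 s1 s2
      | exact alg_120 l f (x 0) (x 1) (x 2) d0 d1 d2 s0 s1 s2
      | exact alg_123 l f (x 0) (x 1) (x 2) d0 d1 d2 s0 s1 s2
      | exact alg_130 l f (x 0) (x 1) (x 2) d0 d1 d2 s0 s1 s2
      | exact alg_132 l f (x 0) (x 1) (x 2) d0 d1 d2 s0 s1 s2
      | exact alg_201 l f (x 0) (x 1) (x 2) d0 d1 d2 s0 s1 s2
      | exact alg_203 l f (x 0) (x 1) (x 2) d0 d1 d2 s0 s1 s2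
      | exact alg_210 l f (x 0) (x 1) (x 2) d0 d1 d2 s0 s1 s2
      | exact alg_213 l f (x 0) (x 1) (x 2) d0 d1 d2 s0 s1 s2
      | exact alg_230 l f (x 0) (x 1) (x 2) d0 d1 d2 s0 s1 s2
      | exact alg_231 l f (x 0) (x 1) (x 2) d0 d1 d2 s0 s1 s2
      | exact alg_301 l f (x 0) (x 1) (x 2) d0 d1 d2 s0 s1 s2
      | exact alg_302 l f (x 0) (x 1) (x 2) d0 d1 d2 s0 s1 s2
      | exact alg_310 l f (x 0) (x 1) (x 2) d0 d1 d2 s0 s1 s2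
      | exact alg_312 l f (x 0) (x 1) (x 2) d0 d1 d2 s0 s1 s2
      | exact alg_320 l f (x 0) (x 1) (x 2) d0 d1 d2 s0 s1 s2
      | exact alg_321 l f (x 0) (x 1) (x 2) d0 d1 d2 s0 s1 s2
  obtain ⟨k0, k1, k2⟩ := key
  fin_cases k
  · have h1 := hx' 1 (by decide)
    have h2 := hx' 2 (by decide)
    have := k0 hx
    have h3 : 0 < (x 1 * x 2 * (x 1 + x 2)) ^ 2 := by positivity
    linarith
  · have h1 := hx' 0 (by decide)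
    have h2 := hx' 2 (by decide)
    have := k1 hx
    have h3 : 0 < (x 0 * x 2 * (x 0 + x 2)) ^ 2 := by positivity
    linarith
  · have h1 := hx' 0 (by decide)
    have h2 := hx' 1 (by decide)
    have := k2 hx
    have h3 : 0 < (x 0 * x 1 * (x 0 + x 1)) ^ 2 := by positivity
    linarith

end Pool.Agent.TetDim
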