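import Pool.Agent.TetDim.LimitDeg

/-! # The coefficient at a wall is two

Package T3b (iii) of helper83's proof (DIM2). -/

set_option autoImplicit false

open Filter Topology

namespace Pool.Agent.TetDim

/-! ### The symmetric group: the vertices `q, w, p, r` become `0, 1, 2, 3` -/

/-- The vertices `q`, `w`, `p`, `r` for the vertex `q` and the pair `k` of opposite edges; `qw` is
the edge of the pair at `q`. -/
def tau : Fin 4 → Fin 3 → Fin 4 → Fin 4 :=
  ![![![0, 1, 2, 3], ![0, 2, 1, 3], ![0, 3, 1, 2]],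
    ![![1, 0, 2, 3], ![1, 3, 0, 2], ![1, 2, 0, 3]],
    ![![2, 3, 0, 1], ![2, 0, 1, 3], ![2, 1, 0, 3]],
    ![![3, 2, 0, 1], ![3, 1, 0, 2], ![3, 0, 1, 2]]]

/-- The induced renumbering of the edges. -/
def sg : Fin 4 → Fin 3 → Fin 6 → Fin 6 :=
  ![![![0, 1, 2, 3, 4, 5], ![1, 0, 2, 3, 5, 4], ![2, 0, 1, 4, 5, 3]],
    ![![0, 3, 4, 1, 2, 5], ![4, 0, 3, 2, 5, 1], ![3, 0, 4, 1, 5, 2]],
    ![![5, 1, 3, 2, 4, 0], ![1, 3, 5, 0, 2, 4], ![3, 1, 5, 0, 4, 2]],
    ![![5, 2, 4, 1, 3, 0], ![4, 2, 5, 0, 3, 1], ![2, 4, 5, 0, 1, 3]]]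

/-- The induced renumbering of the pairs of opposite edges. -/
def kp : Fin 4 → Fin 3 → Fin 3 → Fin 3 :=
  ![![![0, 1, 2], ![1, 0, 2], ![2, 0, 1]],
    ![![0, 2, 1], ![1, 0, 2], ![2, 0, 1]],
    ![![0, 1, 2], ![1, 2, 0], ![2, 1, 0]],
    ![![0, 2, 1], ![1, 2, 0], ![2, 1, 0]]]

theorem sg_bij : ∀ q k, Function.Bijective (sg q k) := by decide

theorem tau_zero : ∀ q k, tau q k 0 = q := by decide

theorem kp_zero : ∀ q k, kp q k 0 = k := by decide

theorem kp_one : ∀ q k, kp q k 1 ≠ k := by decide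

theorem kp_two : ∀ q k, kp q k 2 ≠ k := by decide

/-- The renumbered lengths. -/
def rn (q : Fin 4) (k : Fin 3) (l : Fin 6 → ℝ) (e : Fin 6) : ℝ := l (sg q k e)

theorem S_rn (q : Fin 4) (k : Fin 3) (l : Fin 6 → ℝ) (q' : Fin 4) :
    S (rn q k l) q' = S l (tau q k q') := by
  fin_cases q <;> fin_cases k <;> fin_cases q' <;>
    simp only [S, rn, sg, tau, Fin.zero_eta, Fin.mk_one, Fin.reduceFinMk, Matrix.cons_val] <;>
    ring

theorem D_rn (q : Fin 4) (k : Fin 3) (l : Fin 6 → ℝ) (k' : Fin 3) :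
    D (rn q k l) k' = D l (kp q k k') := by
  fin_cases q <;> fin_cases k <;> fin_cases k' <;>
    simp only [D, rn, sg, kp, Fin.zero_eta, Fin.mk_one, Fin.reduceFinMk, Matrix.cons_val] <;>
    ring

theorem P_rn (q : Fin 4) (k : Fin 3) (l : Fin 6 → ℝ) : P (rn q k l) = P l := by
  fin_cases q <;> fin_cases k <;>
    simp only [P, rn, sg, Fin.zero_eta, Fin.mk_one, Fin.reduceFinMk, Matrix.cons_val] <;>
    ring

theorem N_rn (q : Fin 4) (k : Fin 3) (l : Fin 6 → ℝ) (i : Fin 6) :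
    N (rn q k l) i = N l (sg q k i) := by
  fin_cases q <;> fin_cases k <;> fin_cases i <;>
    simp only [N, num, rn, sg, Fin.zero_eta, Fin.mk_one, Fin.reduceFinMk, Matrix.cons_val] <;>
    ring

theorem F_rn (q : Fin 4) (k : Fin 3) (l : Fin 6 → ℝ) (i : Fin 6) :
    F (rn q k l) (TetRel.ec i) * F (rn q k l) (TetRel.ed i) =
      F l (TetRel.ec (sg q k i)) * F l (TetRel.ed (sg q k i)) := by
  fin_cases q <;> fin_cases k <;> fin_cases i <;>
    simp only [F, heron, rn, sg, TetRel.ec, TetRel.ed, Fin.zero_eta, Fin.mk_one, Fin.reduceFinMk,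
      Matrix.cons_val] <;>
    ring

theorem Th_rn (q : Fin 4) (k : Fin 3) (l : Fin 6 → ℝ) (i : Fin 6) :
    Th (rn q k l) i = Th l (sg q k i) := by
  unfold Th
  rw [N_rn, F_rn]

/-! ### The theorem -/

theorem nonneg_of_line {a b : ℝ} (h : ∀ t : ℝ, 0 < t → 0 < a + t * b) : 0 ≤ a := by
  by_contra hn
  rw [not_le] at hn
  have h1 : 0 < |b| + 1 := by positivity
  have h2 : 0 < -a / (|b| + 1) := div_pos (neg_pos.2 hn) h1
  have h3 := h _ h2
  have h4 : -a / (|b| + 1) * b ≤ -a / (|b| + 1) * |b| :=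
    mul_le_mul_of_nonneg_left (le_abs_self b) h2.le
  have h5 : -a / (|b| + 1) * (|b| + 1) = -a := div_mul_cancel₀ _ h1.ne'
  have h6 : -a / (|b| + 1) * |b| = -a - -a / (|b| + 1) := by
    linear_combination h5
  linarith

theorem continuous_P (u v : Fin 6 → ℝ) : Continuous fun t => P (ray u v t) := by
  simp only [P, ray]
  fun_prop

section

variable {j : (Fin 3 → ℝ) →ₗ[ℝ] (Fin 6 → ℝ)} {f : (Fin 3 → ℝ) →ₗ[ℝ] ℝ}

theorem j_line (y z : Fin 3 → ℝ) (t : ℝ) : j (y + t • z) = ray (j y) (j z) t := by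
  rw [map_add, map_smul]
  funext i
  rfl

theorem ray_rn (q : Fin 4) (k : Fin 3) (u v : Fin 6 → ℝ) (t : ℝ) :
    rn q k (ray u v t) = ray (rn q k u) (rn q k v) t := rfl

theorem S_ray (u v : Fin 6 → ℝ) (t : ℝ) (q : Fin 4) : S (ray u v t) q = S u q + t * S v q := by
  fin_cases q <;>
    simp only [S, ray, Fin.zero_eta, Fin.mk_one, Fin.reduceFinMk, Matrix.cons_val] <;> ring

/-- At a point `y` of the wall `y k = 0` the renumbered lengths are degenerate. -/
theorem deg_wall (hT : ∀ x, Tri (j x) ↔ ∀ k, 0 < x k) (hD : ∀ x k, D (j x) k = f x - x k)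
    (hH : ∀ x, Tri (j x) → 0 < P (j x) ∧ ∀ q, f x < S (j x) q)
    {q : Fin 4} {k : Fin 3} {al : ℝ} (hS : ∀ x, S (j x) q = f x + (al - 1) * x k)
    {y : Fin 3 → ℝ} (hy0 : y k = 0) (hy : ∀ i, i ≠ k → 0 < y i) : Deg (rn q k (j y)) := by
  have hline : ∀ t : ℝ, 0 < t → Tri (j (y + t • Pi.single k 1)) := by
    intro t ht
    rw [hT]
    intro i
    by_cases hi : i = k
    · subst hi
      simp [hy0, ht]
    · simp [hi, hy i hi]
  have hge : ∀ q', f y ≤ S (j y) q' := by
    intro q'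
    have : 0 ≤ S (j y) q' - f y := by
      apply nonneg_of_line (b := S (j (Pi.single k 1)) q' - f (Pi.single k 1))
      intro t ht
      have h1 := (hH _ (hline t ht)).2 q'
      rw [j_line, S_ray, map_add, map_smul, smul_eq_mul] at h1
      linarith
    linarith
  refine ⟨?_, fun q' => ?_, fun q' => ?_, fun q' => ?_, ?_⟩
  · have h1 : S (rn q k (j y)) 0 = f y := by
      rw [S_rn, tau_zero, hS, hy0, mul_zero, add_zero]
    have h2 : D (rn q k (j y)) 0 = f y := by
      rw [D_rn, kp_zero, hD, hy0, sub_zero]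
    simp only [S, D, Matrix.cons_val] at h1 h2
    linarith
  · rw [D_rn, S_rn, hD]
    have h1 := hy _ (kp_one q k)
    have h2 := hge (tau q k q')
    linarith
  · rw [D_rn, S_rn, hD]
    have h1 := hy _ (kp_two q k)
    have h2 := hge (tau q k q')
    linarith
  · rw [D_rn, S_rn, hD, kp_zero, hy0, sub_zero]
    exact hge _
  · rw [P_rn]
    have h1 : Tendsto (fun t => P (ray (j y) (j (Pi.single k 1)) t)) (𝓝[>] 0)
        (𝓝 (P (ray (j y) (j (Pi.single k 1)) 0))) :=
      (continuous_P _ _).continuousAt.tendsto.mono_left nhdsWithin_le_nhds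
    rw [ray_zero] at h1
    refine ge_of_tendsto h1 ?_
    have h4 : ∀ᶠ t in 𝓝[>] (0 : ℝ), 0 < t := self_mem_nhdsWithin
    filter_upwards [h4] with t ht
    have h2 := (hH _ (hline t ht)).1
    rw [j_line] at h2
    exact h2.le

/-- Package T3b (iii): the coefficient `al` is two, and the volume vanishes on the wall. -/
theorem limitHalf (hT : ∀ x, Tri (j x) ↔ ∀ k, 0 < x k) (hD : ∀ x k, D (j x) k = f x - x k)
    (hH : ∀ x, Tri (j x) → 0 < P (j x) ∧ (∀ k, D (j x) k < f x) ∧ (∀ q, f x < S (j x) q) ∧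
      ∀ m, ∑ e, j m e * Th (j x) e = Real.pi * f m)
    {q : Fin 4} {k : Fin 3} {al : ℝ} (hS : ∀ x, S (j x) q = f x + (al - 1) * x k) :
    al = 2 ∧ ∀ y : Fin 3 → ℝ, y k = 0 → (∀ i, i ≠ k → 0 < y i) →
      P (j y) = 0 ∧ ∀ e, 0 < j y e := by
  have hH' : ∀ x, Tri (j x) → 0 < P (j x) ∧ ∀ q, f x < S (j x) q :=
    fun x hx => ⟨(hH x hx).1, (hH x hx).2.2.1⟩
  refine ⟨?_, fun y hy0 hy => ?_⟩
  · -- the point of the wall with the other coordinates one
    set y : Fin 3 → ℝ := fun i => if i = k then 0 else 1 with hy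
    have hy0 : y k = 0 := by simp [hy]
    have hy1 : ∀ i, i ≠ k → 0 < y i := by
      intro i hi
      simp [hy, hi]
    set z : Fin 3 → ℝ := Pi.single k 1 with hz
    have hdeg := deg_wall hT hD hH' hS hy0 hy1
    have hline : ∀ t : ℝ, 0 < t → Tri (j (y + t • z)) := by
      intro t ht
      rw [hT]
      intro i
      by_cases hi : i = k
      · subst hi
        simp [hy0, hz, ht]
      · simp [hz, hi, hy1 i hi]
    have hal : 0 < al - 1 := by
      have h1 : Tri (j fun _ => 1) := by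
        rw [hT]
        intro i
        norm_num
      have h2 := (hH' _ h1).2 q
      rw [hS] at h2
      linarith
    have hzk : z k = 1 := by simp [hz]
    have hSz : S (j z) q = f z + (al - 1) := by rw [hS, hzk, mul_one]
    have hDz : D (j z) k = f z - 1 := by rw [hD, hzk]
    have hSr : S (rn q k (j z)) 0 = f z + (al - 1) := by rw [S_rn, tau_zero, hSz]
    have hDr : D (rn q k (j z)) 0 = f z - 1 := by rw [D_rn, kp_zero, hDz]
    have hv : 0 < rn q k (j z) 1 + rn q k (j z) 2 - rn q k (j z) 5 := by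
      simp only [S, D, Matrix.cons_val] at hSr hDr
      linarith
    have hlim := fun i => tendsto_Th hdeg hv i
    -- the relation with `m = z`
    have h1 : Tendsto (fun t => ∑ e, rn q k (j z) e *
        Th (ray (rn q k (j y)) (rn q k (j z)) t) e) (𝓝[>] 0)
        (𝓝 (∑ e, rn q k (j z) e *
          (![Real.pi, Real.pi / 2, Real.pi / 2, 0, 0, Real.pi / 2] : Fin 6 → ℝ) e)) :=
      tendsto_finsetSum _ fun e _ => (hlim e).const_mul _
    have h2 : ∀ t : ℝ, 0 < t → ∑ e, rn q k (j z) e *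
        Th (ray (rn q k (j y)) (rn q k (j z)) t) e = Real.pi * f z := by
      intro t ht
      have h3 := (hH _ (hline t ht)).2.2.2 z
      rw [← h3, ← Equiv.sum_comp (Equiv.ofBijective _ (sg_bij q k))
        fun e => j z e * Th (j (y + t • z)) e]
      refine Finset.sum_congr rfl fun e _ => ?_
      rw [← ray_rn, ← j_line, Th_rn]
      rfl
    have h4 : ∀ᶠ t in 𝓝[>] (0 : ℝ), ∑ e, rn q k (j z) e *
        Th (ray (rn q k (j y)) (rn q k (j z)) t) e = Real.pi * f z := by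
      have h5 : ∀ᶠ t in 𝓝[>] (0 : ℝ), 0 < t := self_mem_nhdsWithin
      filter_upwards [h5] with t ht
      exact h2 t ht
    have h6 := tendsto_nhds_unique (h1.congr' h4) tendsto_const_nhds
    simp only [Fin.sum_univ_six, Matrix.cons_val] at h6
    simp only [S, D, Matrix.cons_val] at hSr hDr
    have h7 : Real.pi * (rn q k (j z) 0 + (rn q k (j z) 1 + rn q k (j z) 2 + rn q k (j z) 5) / 2
        - f z) = 0 := by
      linear_combination h6
    have h8 := (mul_eq_zero.1 h7).resolve_left Real.pi_ne_zero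
    linarith
  · have hdeg := deg_wall hT hD hH' hS hy0 hy
    refine ⟨?_, fun e => ?_⟩
    · rw [← P_rn q k]
      exact hdeg.P0
    · obtain ⟨i, rfl⟩ := (sg_bij q k).2 e
      exact hdeg.pos i

end

end Pool.Agent.TetDim
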