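import Pool.Agent.TetDim.Facets
import Pool.Agent.TetDim.LimitHalf
import Pool.Agent.TetDim.Algebra3

/-! # The three-type case is impossible (package T3b) -/

set_option autoImplicit false

namespace Pool.Agent.TetDim

/-- package T3b: there is no three-dimensional space of lengths in which all angle relations are
constant -/
theorem no3 (j : (Fin 3 → ℝ) →ₗ[ℝ] (Fin 6 → ℝ)) (hj : Function.Injective j)
    (f : (Fin 3 → ℝ) →ₗ[ℝ] ℝ) (c0 : Fin 3 → ℝ) (h0 : Tri (j c0))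
    (H : ∀ c, Tri (j c) → 0 < P (j c) ∧ (∀ k, D (j c) k < f c) ∧ (∀ q, f c < S (j c) q) ∧
      ∀ m, ∑ e, j m e * Th (j c) e = Real.pi * f m) : False := by
  obtain ⟨T, hT, hD, _, hfac⟩ := facets h0 (fun c hc => ⟨(H c hc).2.1, (H c hc).2.2.1⟩) hj
  choose q al hal hq using hfac
  have hT' : ∀ x, Tri ((j ∘ₗ T.toLinearMap) x) ↔ ∀ k, 0 < x k := hT
  have hD' : ∀ x k, D ((j ∘ₗ T.toLinearMap) x) k = (f ∘ₗ T.toLinearMap) x - x k := hD
  have hH' : ∀ x, Tri ((j ∘ₗ T.toLinearMap) x) → 0 < P ((j ∘ₗ T.toLinearMap) x) ∧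
      (∀ k, D ((j ∘ₗ T.toLinearMap) x) k < (f ∘ₗ T.toLinearMap) x) ∧
      (∀ q, (f ∘ₗ T.toLinearMap) x < S ((j ∘ₗ T.toLinearMap) x) q) ∧
      ∀ m, ∑ e, (j ∘ₗ T.toLinearMap) m e * Th ((j ∘ₗ T.toLinearMap) x) e =
        Real.pi * (f ∘ₗ T.toLinearMap) m := by
    intro x hx
    obtain ⟨a, b, c, d⟩ := H (T x) hx
    exact ⟨a, b, c, fun m => d (T m)⟩
  have hq' : ∀ k x, S ((j ∘ₗ T.toLinearMap) x) (q k) =
      (f ∘ₗ T.toLinearMap) x + (al k - 1) * x k := hq
  have hal2 : ∀ k, al k = 2 := fun k => (limitHalf hT' hD' hH' (hq' k)).1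
  have hS : ∀ k x, S ((j ∘ₗ T.toLinearMap) x) (q k) = (f ∘ₗ T.toLinearMap) x + x k := by
    intro k x
    rw [hq' k x, hal2 k]
    ring
  have hinj : Function.Injective q := by
    intro a b hab
    by_contra hne
    have h1 := hS a (Pi.single a 1)
    have h2 := hS b (Pi.single a 1)
    rw [hab, h2] at h1
    rw [Pi.single_eq_same, Pi.single_eq_of_ne (Ne.symm hne)] at h1
    linarith
  have hw := (limitHalf hT' hD' hH' (hq' 0)).2 (fun i => if i = 0 then 0 else 1) (by simp)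
    (fun i hi => by simp [hi])
  exact alg3 _ ((f ∘ₗ T.toLinearMap) (fun i => if i = 0 then 0 else 1))
    (fun i => if i = 0 then 0 else 1) q hinj (fun k => hD' _ k) (fun k => hS k _) 0 (by simp)
    (fun i hi => by simp [hi]) hw.1

end Pool.Agent.TetDim
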