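import Pool.Agent.TetDim.Plane4

/-! # T4, part c: the limit step -/

set_option autoImplicit false

namespace Pool.Agent.TetDim

open Filter Topology

theorem cosv_le (t : Fin 6 → ℝ) (e : Fin 6) : cosv t e ^ 2 ≤ 1 := by
  simp only [cosv]
  have := Real.sin_sq_add_cos_sq (t e)
  nlinarith [sq_nonneg (Real.sin (t e))]

theorem psd_of {c : Fin 6 → ℝ} (hc : ∀ e, c e ^ 2 ≤ 1) (hd : 0 < adjd c 0) (a : Fin 4 → ℝ)
    (ha : a 0 ≠ 0) (hk : ∀ i, ∑ j, gm c i j * a j = 0) (x : Fin 4 → ℝ) :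
    0 ≤ ∑ i, ∑ j, gm c i j * x i * x j := by
  have h0 := hk 0
  have h1 := hk 1
  have h2 := hk 2
  have h3 := hk 3
  simp only [Fin.sum_univ_four, gm, Matrix.of_apply, Matrix.cons_val', Matrix.cons_val_zero,
    Matrix.cons_val_one, Matrix.cons_val] at h0 h1 h2 h3 ⊢
  simp only [adjd, st, Matrix.cons_val_zero, Matrix.cons_val_one, Matrix.cons_val] at hd
  obtain ⟨l, hl⟩ : ∃ l, x 0 = l * a 0 := ⟨x 0 / a 0, by field_simp⟩
  set y1 := x 1 - l * a 1 with hy1
  set y2 := x 2 - l * a 2 with hy2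
  set y3 := x 3 - l * a 3 with hy3
  have e1 : x 1 = y1 + l * a 1 := by rw [hy1]; ring
  have e2 : x 2 = y2 + l * a 2 := by rw [hy2]; ring
  have e3 : x 3 = y3 + l * a 3 := by rw [hy3]; ring
  have hp : 0 < 1 - c 2 ^ 2 := by
    have g1 := hc 1
    have g2 := hc 2
    rcases (sub_nonneg.2 g2).lt_or_eq with h | h
    · exact h
    · exfalso
      nlinarith [sq_nonneg (c 0 + c 1 * c 2)]
  have key : (1 - c 2 ^ 2) * (1 * x 0 * x 0 + -c 5 * x 0 * x 1 + -c 4 * x 0 * x 2 + -c 3 * x 0 * x 3 +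
      (-c 5 * x 1 * x 0 + 1 * x 1 * x 1 + -c 2 * x 1 * x 2 + -c 1 * x 1 * x 3) +
      (-c 4 * x 2 * x 0 + -c 2 * x 2 * x 1 + 1 * x 2 * x 2 + -c 0 * x 2 * x 3) +
      (-c 3 * x 3 * x 0 + -c 1 * x 3 * x 1 + -c 0 * x 3 * x 2 + 1 * x 3 * x 3)) =
      (1 - c 2 ^ 2) * (y1 - c 2 * y2 - c 1 * y3) ^ 2 +
      ((1 - c 2 ^ 2) * y2 - (c 0 + c 1 * c 2) * y3) ^ 2 +
      (1 - c 0 ^ 2 - c 1 ^ 2 - c 2 ^ 2 - 2 * (c 0 * c 1 * c 2)) * y3 ^ 2 := by
    rw [hl, e1, e2, e3]
    linear_combination (1 - c 2 ^ 2) * ((l ^ 2 * a 0) * h0 + (2 * l * y1 + l ^ 2 * a 1) * h1 +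
      (2 * l * y2 + l ^ 2 * a 2) * h2 + (2 * l * y3 + l ^ 2 * a 3) * h3)
  have hnn : 0 ≤ (1 - c 2 ^ 2) * (y1 - c 2 * y2 - c 1 * y3) ^ 2 +
      ((1 - c 2 ^ 2) * y2 - (c 0 + c 1 * c 2) * y3) ^ 2 +
      (1 - c 0 ^ 2 - c 1 ^ 2 - c 2 ^ 2 - 2 * (c 0 * c 1 * c 2)) * y3 ^ 2 := by
    have := hp.le
    have := hd.le
    positivity
  rw [← key] at hnn
  exact nonneg_of_mul_nonneg_right hnn hp

theorem continuous_cosv : Continuous cosv := by
  refine continuous_pi fun e => ?_
  simp only [cosv]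
  fun_prop

theorem continuous_gm (i j : Fin 4) : Continuous (fun c : Fin 6 → ℝ => gm c i j) := by
  fin_cases i <;> fin_cases j <;> simp [gm] <;> fun_prop

theorem continuous_adjd (q : Fin 4) : Continuous (fun c : Fin 6 → ℝ => adjd c q) := by
  simp only [adjd]
  fun_prop

/-- the limit step: at a limit of points in the interior the Gram matrix is positive
semidefinite with a nonnegative kernel vector -/
theorem limit_step {t : Fin 6 → ℝ} {w : ℕ → Fin 6 → ℝ} (hw : Tendsto w atTop (𝓝 t))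
    (hg : ∀ n, gram (cosv (w n)) = 0) (hx : ∀ n e, 0 < TET.xfun (cosv (w n)) e)
    (hd : ∀ n q, 0 < adjd (cosv (w n)) q) :
    (∀ x : Fin 4 → ℝ, 0 ≤ ∑ i, ∑ j, gm (cosv t) i j * x i * x j) ∧
      ∃ a : Fin 4 → ℝ, (∀ i, 0 ≤ a i) ∧ a ≠ 0 ∧ ∀ i, ∑ j, gm (cosv t) i j * a j = 0 := by
  -- normalised kernel vectors
  let b : ℕ → Fin 4 → ℝ := fun n j => adjm (cosv (w n)) j 0
  have hb : ∀ n j, 0 < b n j := by
    intro n j
    have h3 := hx n 3
    have h4 := hx n 4
    have h5 := hx n 5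
    have h0 := hd n 0
    fin_cases j <;> simp [b, adjm, h0, h3, h4, h5]
  let S : ℕ → ℝ := fun n => ∑ j, b n j
  have hS : ∀ n, 0 < S n := fun n => Finset.sum_pos (fun j _ => hb n j) Finset.univ_nonempty
  let a : ℕ → Fin 4 → ℝ := fun n j => b n j / S n
  have ha : ∀ n j, 0 < a n j := fun n j => div_pos (hb n j) (hS n)
  have hsum : ∀ n, ∑ j, a n j = 1 := by
    intro n
    simp only [a]
    rw [← Finset.sum_div]
    exact div_self (hS n).ne'
  have hker : ∀ n i, ∑ j, gm (cosv (w n)) i j * a n j = 0 := by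
    intro n i
    have h := gm_mul_adjm (cosv (w n)) i 0
    rw [hg n, ite_self] at h
    have : ∑ j, gm (cosv (w n)) i j * a n j = (∑ j, gm (cosv (w n)) i j * b n j) / S n := by
      rw [Finset.sum_div]
      refine Finset.sum_congr rfl fun j _ => ?_
      simp only [a]
      ring
    rw [this]
    change (∑ j, gm (cosv (w n)) i j * adjm (cosv (w n)) j 0) / S n = 0
    rw [h, zero_div]
  have hc : Tendsto (fun n => cosv (w n)) atTop (𝓝 (cosv t)) :=
    (continuous_cosv.tendsto t).comp hw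
  constructor
  · intro x
    have h1 : Tendsto (fun n => ∑ i, ∑ j, gm (cosv (w n)) i j * x i * x j) atTop
        (𝓝 (∑ i, ∑ j, gm (cosv t) i j * x i * x j)) := by
      refine tendsto_finsetSum _ fun i _ => tendsto_finsetSum _ fun j _ => ?_
      exact ((((continuous_gm i j).tendsto _).comp hc).mul_const _).mul_const _
    refine ge_of_tendsto' h1 fun n => ?_
    exact psd_of (cosv_le _) (hd n 0) (a n) (ha n 0).ne' (hker n) x
  · have hcomp : IsCompact (stdSimplex ℝ (Fin 4)) := isCompact_stdSimplex ℝ (Fin 4)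
    obtain ⟨a', ha', φ, hφ, hlim⟩ := hcomp.tendsto_subseq (x := a)
      (fun n => ⟨fun j => (ha n j).le, hsum n⟩)
    refine ⟨a', ha'.1, ?_, ?_⟩
    · rintro rfl
      have := ha'.2
      simp at this
    · intro i
      have h1 : Tendsto (fun n => ∑ j, gm (cosv (w (φ n))) i j * a (φ n) j) atTop
          (𝓝 (∑ j, gm (cosv t) i j * a' j)) := by
        refine tendsto_finsetSum _ fun j _ => ?_
        refine Tendsto.mul ?_ ?_
        · exact ((continuous_gm i j).tendsto _).comp (hc.comp hφ.tendsto_atTop)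
        · exact ((continuous_apply j).tendsto _).comp hlim
      have h2 : (fun n => ∑ j, gm (cosv (w (φ n))) i j * a (φ n) j) = fun _ => 0 := by
        funext n
        exact hker (φ n) i
      rw [h2] at h1
      exact tendsto_nhds_unique h1 tendsto_const_nhds

/-- `no4` from its three ingredients -/
theorem no4_of (t0 : Fin 6 → ℝ) (K : (Fin 2 → ℝ) →ₗ[ℝ] (Fin 6 → ℝ))
    (hK : Function.Injective K)
    (hG : ∀ s, gram (cosv (fun e => t0 e + K s e)) = 0)
    (h1 : Star t0)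
    (hint : ∀ s, Star (fun e => t0 e + K s e) →
      (∀ q, 0 < adjd (cosv (fun e => t0 e + K s e)) q) ∧
        ∀ e, 0 < TET.xfun (cosv (fun e => t0 e + K s e)) e)
    (hder : ∀ s, StarC (fun e => t0 e + K s e) → ¬ Star (fun e => t0 e + K s e) →
      ∀ d, 0 < adjd (cosv (fun e => t0 e + K s e)) d →
        ∃ c d', c ≠ d' ∧ A (fun e => t0 e + K s e) c = Real.pi ∧
          A (fun e => t0 e + K s e) d' = Real.pi)
    (hker : ∀ t : Fin 6 → ℝ, (∀ e, 0 ≤ t e ∧ t e ≤ Real.pi) →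
      (∀ x : Fin 4 → ℝ, 0 ≤ ∑ i, ∑ j, gm (cosv t) i j * x i * x j) →
      (∀ q, adjd (cosv t) q = 0) → ∀ a : Fin 4 → ℝ, (∀ i, 0 ≤ a i) → a ≠ 0 →
      (∀ i, ∑ j, gm (cosv t) i j * a j = 0) →
        ∃ c d, c ≠ d ∧ A t c = Real.pi ∧ A t d = Real.pi) : False := by
  refine plane_glue t0 K hK h1 ?_
  intro s hs hns
  by_cases hex : ∃ d, 0 < adjd (cosv (fun e => t0 e + K s e)) d
  · obtain ⟨d, hd⟩ := hex
    exact hder s hs hns d hd
  · push Not at hex
    -- points of the segment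
    let τ : ℕ → ℝ := fun n => 1 - 1 / ((n : ℝ) + 1)
    have hτ0 : ∀ n, 0 ≤ τ n := by
      intro n
      have h : (1 : ℝ) / ((n : ℝ) + 1) ≤ 1 := by
        rw [div_le_one (by positivity)]
        have : (0 : ℝ) ≤ n := n.cast_nonneg
        linarith
      simp only [τ]
      linarith
    have hτ1 : ∀ n, τ n < 1 := by
      intro n
      have : (0 : ℝ) < 1 / ((n : ℝ) + 1) := by positivity
      simp only [τ]
      linarith
    have hτ : Tendsto τ atTop (𝓝 1) := by
      have h := (tendsto_one_div_add_atTop_nhds_zero_nat (𝕜 := ℝ)).const_sub 1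
      simpa [τ] using h
    let w : ℕ → Fin 6 → ℝ := fun n e => t0 e + K (τ n • s) e
    have hstar : ∀ n, Star (w n) := by
      intro n q
      have h0 := h1 q
      have h2 := hs q
      have t0' := hτ0 n
      have t1' := hτ1 n
      simp only [A, w, map_smul, Pi.smul_apply, smul_eq_mul] at h0 h2 ⊢
      constructor
      · have e1 : 0 < (1 - τ n) * (t0 (st q 0) + t0 (st q 1) + t0 (st q 2) - Real.pi) :=
          mul_pos (by linarith) (by linarith [h0.1])
        have e2 : 0 ≤ τ n * (t0 (st q 0) + K s (st q 0) + (t0 (st q 1) + K s (st q 1)) +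
            (t0 (st q 2) + K s (st q 2)) - Real.pi) := mul_nonneg t0' (by linarith [h2.1])
        linarith
      · intro j
        have e1 : 0 < (1 - τ n) * (Real.pi + 2 * t0 (st q j) -
            (t0 (st q 0) + t0 (st q 1) + t0 (st q 2))) :=
          mul_pos (by linarith) (by linarith [h0.2 j])
        have e2 : 0 ≤ τ n * (Real.pi + 2 * (t0 (st q j) + K s (st q j)) -
            (t0 (st q 0) + K s (st q 0) + (t0 (st q 1) + K s (st q 1)) +
            (t0 (st q 2) + K s (st q 2)))) := mul_nonneg t0' (by linarith [h2.2 j])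
        linarith
    have hw : Tendsto w atTop (𝓝 (fun e => t0 e + K s e)) := by
      rw [tendsto_pi_nhds]
      intro e
      have h := ((hτ.mul_const (K s e)).const_add (t0 e))
      rw [one_mul] at h
      simpa only [w, map_smul, Pi.smul_apply, smul_eq_mul] using h
    have hg : ∀ n, gram (cosv (w n)) = 0 := fun n => hG (τ n • s)
    have hpos : ∀ n, (∀ q, 0 < adjd (cosv (w n)) q) ∧ ∀ e, 0 < TET.xfun (cosv (w n)) e :=
      fun n => hint (τ n • s) (hstar n)
    obtain ⟨hpsd, a, ha0, hane, hak⟩ := limit_step hw hg (fun n => (hpos n).2) (fun n => (hpos n).1)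
    refine hker _ (fun e => hs.range e) hpsd ?_ a ha0 hane hak
    intro q
    refine le_antisymm (hex q) ?_
    have h2 : Tendsto (fun n => adjd (cosv (w n)) q) atTop
        (𝓝 (adjd (cosv (fun e => t0 e + K s e)) q)) :=
      ((continuous_adjd q).tendsto _).comp ((continuous_cosv.tendsto _).comp hw)
    exact ge_of_tendsto' h2 fun n => ((hpos n).1 q).le

end Pool.Agent.TetDim
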