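import Pool.Agent.TetDim.Defs
import Pool.Agent.TET.Shape

/-! # The 4 x 4 Gram matrix, its adjugate, closed star inequalities (for T4) -/

set_option autoImplicit false

namespace Pool.Agent.TetDim

/-- closed star inequalities -/
def StarC (t : Fin 6 → ℝ) : Prop :=
  ∀ q, Real.pi ≤ A t q ∧ ∀ j, A t q ≤ Real.pi + 2 * t (st q j)

/-- Gram matrix of the four unit normals: the faces `c`, `d` share the edge `i` with
`{ec i, ed i} = {c, d}`, and the entry is `- c i` -/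
def gm (c : Fin 6 → ℝ) : Matrix (Fin 4) (Fin 4) ℝ :=
  !![1, -c 5, -c 4, -c 3; -c 5, 1, -c 2, -c 1; -c 4, -c 2, 1, -c 0; -c 3, -c 1, -c 0, 1]

/-- the principal `3 x 3` minor at the vertex `q` -/
def adjd (c : Fin 6 → ℝ) (q : Fin 4) : ℝ :=
  1 - c (st q 0) ^ 2 - c (st q 1) ^ 2 - c (st q 2) ^ 2
    - 2 * (c (st q 0) * c (st q 1) * c (st q 2))

/-- the adjugate of `gm c` -/
def adjm (c : Fin 6 → ℝ) : Matrix (Fin 4) (Fin 4) ℝ :=
  !![adjd c 0, TET.xfun c 5, TET.xfun c 4, TET.xfun c 3;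
    TET.xfun c 5, adjd c 1, TET.xfun c 2, TET.xfun c 1;
    TET.xfun c 4, TET.xfun c 2, adjd c 2, TET.xfun c 0;
    TET.xfun c 3, TET.xfun c 1, TET.xfun c 0, adjd c 3]

/-- cosines of the angles -/
noncomputable def cosv (t : Fin 6 → ℝ) (e : Fin 6) : ℝ := Real.cos (t e)

theorem gm_mul_adjm (c : Fin 6 → ℝ) (i k : Fin 4) :
    ∑ j, gm c i j * adjm c j k = if i = k then gram c else 0 := by
  fin_cases i <;> fin_cases k <;>
    simp [Fin.sum_univ_four, gm, adjm, adjd, TET.xfun, TET.xpoly, gram, st] <;> ring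

end Pool.Agent.TetDim
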