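import Pool.Agent.TetDim.Kernel4
import Pool.Agent.TetDim.Four

/-! # T4 part a in the notation of `Four.lean` -/

set_option autoImplicit false

namespace Pool.Agent.TetDim

theorem gm_cosv (t : Fin 6 → ℝ) : gm (cosv t) = G4 t := rfl

theorem adjd_cosv (t : Fin 6 → ℝ) (q : Fin 4) : adjd (cosv t) q = m3 t q := by
  unfold adjd m3 cosv
  ring

/-- (T4a) a degenerate Gram matrix with all four `3 × 3` minors zero and a nonnegative kernel
vector: two different vertices have angle sum `π`. -/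
theorem two_pi (t : Fin 6 → ℝ) (ht : ∀ e, 0 ≤ t e ∧ t e ≤ Real.pi)
    (hpsd : ∀ x : Fin 4 → ℝ, 0 ≤ ∑ i, ∑ j, gm (cosv t) i j * x i * x j)
    (hz : ∀ q, adjd (cosv t) q = 0) (a : Fin 4 → ℝ) (ha : ∀ i, 0 ≤ a i) (hne : a ≠ 0)
    (hk : ∀ i, ∑ j, gm (cosv t) i j * a j = 0) :
    ∃ c d, c ≠ d ∧ A t c = Real.pi ∧ A t d = Real.pi := by
  refine kernel_two (fun e => (ht e).1) (fun e => (ht e).2) (fun x => ?_)
    (fun c => by rw [← adjd_cosv]; exact hz c) ha hne ?_
  · have h := hpsd x
    rw [gm_cosv] at h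
    have h2 : dotProduct x ((G4 t).mulVec x) = ∑ i, ∑ j, G4 t i j * x i * x j := by
      simp only [dotProduct, Matrix.mulVec, Finset.mul_sum]
      refine Finset.sum_congr rfl fun i _ => Finset.sum_congr rfl fun j _ => ?_
      ring
    rw [h2]
    exact h
  · funext i
    have h := hk i
    rw [gm_cosv] at h
    exact h

end Pool.Agent.TetDim
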