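import Pool.Agent.TetDim.Boundary4
import Pool.Agent.TetDim.Limit4
import Pool.Agent.TetDim.TwoPi

/-! # T4: no plane of angle vectors -/

set_option autoImplicit false

open Real

namespace Pool.Agent.TetDim

theorem no4 (t0 : Fin 6 → ℝ) (K : (Fin 2 → ℝ) →ₗ[ℝ] (Fin 6 → ℝ)) (hK : Function.Injective K)
    (hG : ∀ s, gram (fun e => cos (t0 e + K s e)) = 0) (h1 : Star t0)
    (h2 : ∀ e, 0 < TET.xfun (fun i => cos (t0 i)) e) : False :=
  no4_of t0 K hK hG h1 (hint4 hG h1 h2) (hder4 hG h1 h2) two_pi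

end Pool.Agent.TetDim
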