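import Pool.Agent.TetDim.WeightInst

/-! # The pointwise inequalities for the shadow of a tetrahedron (package I2, helper41)

For a direction `w` let `rho y = √(|y|² |w|² - ⟪y, w⟫²)`, `|w|` times the length of the projection
of `y` along `w`.  An edge is hidden at `w` when the two barycentric coordinates of `w` which
belong to the other two vertices have the same sign.  If no coordinate vanishes, the sum of the
weights of the hidden edges is at least the sum over any pair of opposite edges and at most the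
sum over the star of any vertex. -/

set_option autoImplicit false

open Set
open scoped InnerProductSpace

namespace Pool.Agent.TetDim.Pt

open Pool.Agent.TetRel Pool.Agent.TetDim

/-- `|z|²` times the projection of `d` along `z` -/
noncomputable def pj (z d : E3) : E3 := ‖z‖ ^ 2 • d - ⟪d, z⟫_ℝ • z

theorem pj_add (z d e : E3) : pj z (d + e) = pj z d + pj z e := by
  unfold pj
  rw [inner_add_left]
  module

theorem pj_smul (z : E3) (t : ℝ) (d : E3) : pj z (t • d) = t • pj z d := by
  unfold pj
  rw [real_inner_smul_left]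
  module

theorem pj_self (z : E3) : pj z z = 0 := by
  unfold pj
  rw [real_inner_self_eq_norm_sq, sub_self]

theorem norm_pj (z d : E3) : ‖pj z d‖ = ‖z‖ * wt d z := by
  have h1 : ‖pj z d‖ ^ 2 = ‖z‖ ^ 2 * (‖d‖ ^ 2 * ‖z‖ ^ 2 - ⟪d, z⟫_ℝ ^ 2) := by
    rw [← real_inner_self_eq_norm_sq]
    unfold pj
    simp only [inner_sub_left, inner_sub_right, real_inner_smul_left, real_inner_smul_right,
      real_inner_comm d z]
    rw [real_inner_self_eq_norm_sq, real_inner_self_eq_norm_sq]
    ring
  have h2 : ‖pj z d‖ = √(‖pj z d‖ ^ 2) := (Real.sqrt_sq (norm_nonneg _)).symm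
  rw [h2, h1, Real.sqrt_mul (sq_nonneg _), Real.sqrt_sq (norm_nonneg _)]
  rfl

theorem wt_nonneg (d z : E3) : 0 ≤ wt d z := Real.sqrt_nonneg _

theorem wt_neg (d z : E3) : wt (-d) z = wt d z := by
  unfold wt
  rw [norm_neg, inner_neg_left, neg_sq]

theorem wt_smul (t : ℝ) (d : E3) {z : E3} (hz : z ≠ 0) : wt (t • d) z = |t| * wt d z := by
  have h : ‖z‖ * wt (t • d) z = ‖z‖ * (|t| * wt d z) := by
    rw [← norm_pj, pj_smul, norm_smul, Real.norm_eq_abs, norm_pj]
    ring
  exact mul_left_cancel₀ (norm_ne_zero_iff.2 hz) h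

theorem wt_add_le (d e : E3) {z : E3} (hz : z ≠ 0) : wt (d + e) z ≤ wt d z + wt e z := by
  have h : ‖z‖ * wt (d + e) z ≤ ‖z‖ * (wt d z + wt e z) := by
    rw [← norm_pj, pj_add, mul_add, ← norm_pj, ← norm_pj]
    exact norm_add_le _ _
  exact le_of_mul_le_mul_left h (norm_pos_iff.2 hz)

/-- adding a multiple of `z` changes nothing -/
theorem wt_add_self (d : E3) (t : ℝ) {z : E3} (hz : z ≠ 0) : wt (d + t • z) z = wt d z := by
  have h : ‖z‖ * wt (d + t • z) z = ‖z‖ * wt d z := by
    rw [← norm_pj, pj_add, pj_smul, pj_self, smul_zero, add_zero, norm_pj]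
  exact mul_left_cancel₀ (norm_ne_zero_iff.2 hz) h

theorem wt_add_lt {d e z : E3} (h : ¬ SameRay ℝ (pj z d) (pj z e)) :
    wt (d + e) z < wt d z + wt e z := by
  have h : ‖z‖ * wt (d + e) z < ‖z‖ * (wt d z + wt e z) := by
    rw [← norm_pj, pj_add, mul_add, ← norm_pj, ← norm_pj]
    exact norm_add_lt_of_not_sameRay h
  exact lt_of_mul_lt_mul_left h (norm_nonneg z)

variable (b : AffineBasis (Fin 4) ℝ E3) (w : E3)

/-- the weight of the edge between two vertices -/
noncomputable def R (p q : Fin 4) : ℝ := wt (b q - b p) w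

variable {b w}

theorem R_comm (p q : Fin 4) : R b w p q = R b w q p := by
  unfold R
  rw [← wt_neg, neg_sub]

theorem ne_zero_of_lin {s : Fin 4} (h : lin b s w ≠ 0) : w ≠ 0 := by
  rintro rfl
  exact h (map_zero _)

theorem R_nonneg (p q : Fin 4) : 0 ≤ R b w p q := wt_nonneg _ _

theorem R_tri (hw : w ≠ 0) (p q r : Fin 4) : R b w p q ≤ R b w p r + R b w r q := by
  have h : b q - b p = (b r - b p) + (b q - b r) := by abel
  unfold R
  rw [h]
  exact wt_add_le _ _ hw

theorem R_tri_lt {p q r s : Fin 4} (hpr : p ≠ r) (hpq : p ≠ q) (hps : s ≠ p) (hqs : s ≠ q)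
    (hrs : s ≠ r) (hqr : q ≠ r) (hs : lin b s w ≠ 0) :
    R b w p q < R b w p r + R b w r q := by
  have hw := ne_zero_of_lin hs
  have h : b q - b p = (b r - b p) + (b q - b r) := by abel
  have hn : ‖w‖ ^ 2 ≠ 0 := pow_ne_zero 2 (norm_ne_zero_iff.2 hw)
  have v1 : lin b s (b r - b p) = 0 := by
    rw [lin_sub, coord_vals, coord_vals, if_neg hrs, if_neg hps, sub_zero]
  have v2 : lin b s (b q - b r) = 0 := by
    rw [lin_sub, coord_vals, coord_vals, if_neg hqs, if_neg hrs, sub_zero]
  have v3 : lin b p (b r - b p) = -1 := by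
    rw [lin_sub, coord_vals, coord_vals, if_neg hpr, if_pos rfl, zero_sub]
  have v4 : lin b p (b q - b r) = 0 := by
    rw [lin_sub, coord_vals, coord_vals, if_neg hpq, if_neg hpr, sub_zero]
  have v5 : lin b q (b q - b r) = 1 := by
    rw [lin_sub, coord_vals, coord_vals, if_pos rfl, if_neg hqr, sub_zero]
  unfold R
  rw [h]
  refine wt_add_lt ?_
  have e1 : ∀ d : E3, lin b s d = 0 → ∀ x : Fin 4, lin b s (pj w d) = 0 →
      lin b x (pj w d) = ‖w‖ ^ 2 * lin b x d := by
    intro d hd x hx
    unfold pj at hx ⊢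
    simp only [map_sub, map_smul, smul_eq_mul] at hx ⊢
    rw [hd, mul_zero, zero_sub, neg_eq_zero, mul_eq_zero] at hx
    rcases hx with hx | hx
    · rw [hx, zero_mul, sub_zero]
    · exact absurd hx hs
  rintro (h0 | h0 | ⟨r1, r2, h1, h2, h0⟩)
  · have := e1 _ v1 p (by rw [h0, map_zero])
    rw [h0, map_zero, v3] at this
    apply hn
    linarith
  · have := e1 _ v2 q (by rw [h0, map_zero])
    rw [h0, map_zero, v5] at this
    apply hn
    linarith
  · have h3 : pj w (r1 • (b r - b p) + (-r2) • (b q - b r)) = 0 := by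
      rw [pj_add, pj_smul, pj_smul, h0, neg_smul, add_neg_cancel]
    have v6 : lin b s (r1 • (b r - b p) + (-r2) • (b q - b r)) = 0 := by
      rw [map_add, map_smul, map_smul, v1, v2, smul_zero, smul_zero, add_zero]
    have v7 : lin b p (r1 • (b r - b p) + (-r2) • (b q - b r)) = -r1 := by
      rw [map_add, map_smul, map_smul, v3, v4, smul_zero, add_zero, smul_eq_mul, mul_neg_one]
    have := e1 _ v6 p (by rw [h3, map_zero])
    rw [h3, map_zero, v7] at this
    have h4 : ‖w‖ ^ 2 * r1 = 0 := by linarith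
    rcases mul_eq_zero.1 h4 with h5 | h5
    · exact hn h5
    · exact h1.ne' h5

theorem sum4 {M : Type*} [AddCommMonoid M] (f : Fin 4 → M) {p q r s : Fin 4}
    (hu : ({p, q, r, s} : Finset (Fin 4)) = Finset.univ) :
    ∑ c, f c = f p + f q + f r + f s := by
  have hd : p ∉ ({q, r, s} : Finset (Fin 4)) ∧ q ∉ ({r, s} : Finset (Fin 4)) ∧
      r ∉ ({s} : Finset (Fin 4)) := by
    revert p q r s
    decide
  rw [← hu, Finset.sum_insert hd.1, Finset.sum_insert hd.2.1, Finset.sum_insert hd.2.2,
    Finset.sum_singleton]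
  simp only [add_assoc]

/-- the relation between the four vertices -/
theorem sum_rel {p q r s : Fin 4} (hu : ({p, q, r, s} : Finset (Fin 4)) = Finset.univ) :
    w = lin b p w • b p + lin b q w • b q + lin b r w • b r + lin b s w • b s ∧
    lin b p w + lin b q w + lin b r w + lin b s w = 0 := by
  constructor
  · rw [← sum4 (fun c => lin b c w • b c) hu]
    exact eq_sum_lin b w
  · rw [← sum4 (fun c => lin b c w) hu]
    exact sum_lin b w

/-- the relation as an inequality, seen from the vertex `p` -/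
theorem T_le {p q r s : Fin 4} (hw : w ≠ 0)
    (hu : ({p, q, r, s} : Finset (Fin 4)) = Finset.univ) :
    |lin b q w| * R b w p q ≤ |lin b r w| * R b w p r + |lin b s w| * R b w p s := by
  obtain ⟨h1, h2⟩ := sum_rel (b := b) (w := w) hu
  have h3 : lin b q w • (b q - b p) =
      ((-lin b r w) • (b r - b p) + (-lin b s w) • (b s - b p)) + (1 : ℝ) • w := by
    have h4 : lin b p w = -(lin b q w + lin b r w + lin b s w) := by linarith
    rw [h4] at h1
    generalize lin b q w = x at *
    generalize lin b r w = y at *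
    generalize lin b s w = z at *
    rw [h1]
    module
  unfold R
  rw [← wt_smul _ _ hw, h3, wt_add_self _ _ hw, ← abs_neg (lin b r w), ← abs_neg (lin b s w),
    ← wt_smul _ _ hw, ← wt_smul _ _ hw]
  exact wt_add_le _ _ hw

/-- two disjoint edges -/
theorem C_le {p q r s : Fin 4} (hw : w ≠ 0)
    (hu : ({p, q, r, s} : Finset (Fin 4)) = Finset.univ) :
    |lin b r w + lin b s w| * R b w p r ≤ |lin b q w| * R b w p q + |lin b s w| * R b w r s := by
  obtain ⟨h1, h2⟩ := sum_rel (b := b) (w := w) hu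
  have h3 : (lin b r w + lin b s w) • (b r - b p) =
      ((-lin b q w) • (b q - b p) + (-lin b s w) • (b s - b r)) + (1 : ℝ) • w := by
    have h4 : lin b p w = -(lin b q w + lin b r w + lin b s w) := by linarith
    rw [h4] at h1
    generalize lin b q w = x at *
    generalize lin b r w = y at *
    generalize lin b s w = z at *
    rw [h1]
    module
  unfold R
  rw [← wt_smul _ _ hw, h3, wt_add_self _ _ hw, ← abs_neg (lin b q w), ← abs_neg (lin b s w),
    ← wt_smul _ _ hw, ← wt_smul _ _ hw]
  exact wt_add_le _ _ hw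

theorem abs_add_same {x y : ℝ} (h : 0 < x * y) : |x + y| = |x| + |y| := by
  rcases mul_pos_iff.1 h with ⟨h1, h2⟩ | ⟨h1, h2⟩
  · rw [abs_of_pos h1, abs_of_pos h2, abs_of_pos (add_pos h1 h2)]
  · rw [abs_of_neg h1, abs_of_neg h2, abs_of_neg (add_neg h1 h2)]
    ring

/-- the diagonals of the shadow are together longer than two opposite sides -/
theorem cross {p q r s : Fin 4} (hu : ({p, q, r, s} : Finset (Fin 4)) = Finset.univ)
    (h1 : 0 < lin b p w * lin b q w) (h2 : 0 < lin b r w * lin b s w) :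
    R b w p r + R b w q s ≤ R b w p q + R b w r s := by
  have hp : lin b p w ≠ 0 := left_ne_zero_of_mul h1.ne'
  have hw := ne_zero_of_lin hp
  have hu' : ({q, p, s, r} : Finset (Fin 4)) = Finset.univ := by
    revert hu
    clear h1 h2 hp
    revert p q r s
    decide
  have e1 := C_le (b := b) hw hu
  have e2 := C_le (b := b) hw hu'
  obtain ⟨-, h0⟩ := sum_rel (b := b) (w := w) hu
  have e3 : |lin b p w + lin b q w| = |lin b r w + lin b s w| := by
    rw [← abs_neg (lin b r w + lin b s w)]
    congr 1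
    linarith
  have e4 : 0 < |lin b r w + lin b s w| := by
    rw [← e3, abs_add_same h1]
    have := abs_pos.2 hp
    positivity
  rw [abs_add_same h1] at e3
  rw [R_comm q p, R_comm s r, add_comm (lin b s w)] at e2
  rw [abs_add_same h2] at e1 e2 e3 e4
  refine le_of_mul_le_mul_left ?_ e4
  calc (|lin b r w| + |lin b s w|) * (R b w p r + R b w q s)
      ≤ (|lin b p w| + |lin b q w|) * R b w p q + (|lin b r w| + |lin b s w|) * R b w r s := by
        linarith
    _ = _ := by rw [e3]; ring

/-- a point inside a triangle -/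
theorem inner3 {p q r s : Fin 4} (hu : ({p, q, r, s} : Finset (Fin 4)) = Finset.univ)
    (h1 : 0 < lin b p w * lin b q w) (h2 : 0 < lin b p w * lin b r w) :
    R b w q s + R b w r s ≤ R b w p q + R b w p r := by
  have hp : lin b p w ≠ 0 := left_ne_zero_of_mul h1.ne'
  have hw := ne_zero_of_lin hp
  have hu' : ({q, s, p, r} : Finset (Fin 4)) = Finset.univ ∧
      ({r, s, p, q} : Finset (Fin 4)) = Finset.univ := by
    revert hu
    clear h1 h2 hp
    revert p q r s
    decide
  have e1 := T_le (b := b) hw hu'.1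
  have e2 := T_le (b := b) hw hu'.2
  obtain ⟨-, h0⟩ := sum_rel (b := b) (w := w) hu
  have e3 : |lin b s w| = |lin b p w| + |lin b q w| + |lin b r w| := by
    rw [show lin b s w = -(lin b p w + lin b q w + lin b r w) by linarith, abs_neg]
    rcases mul_pos_iff.1 h1 with ⟨ha, hb⟩ | ⟨ha, hb⟩
    · have hc : 0 < lin b r w := (mul_pos_iff_of_pos_left ha).1 h2
      rw [abs_of_pos ha, abs_of_pos hb, abs_of_pos hc, abs_of_pos (by positivity)]
    · have hc : lin b r w < 0 := by
        rcases mul_pos_iff.1 h2 with ⟨h3, h4⟩ | ⟨h3, h4⟩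
        · exact absurd h3 ha.not_gt
        · exact h4
      rw [abs_of_neg ha, abs_of_neg hb, abs_of_neg hc, abs_of_neg (by linarith)]
      ring
  have e4 : 0 < |lin b s w| := by
    rw [e3]
    have := abs_pos.2 hp
    positivity
  have e5 := R_tri (b := b) hw q r p
  rw [R_comm q p] at e1 e5
  rw [R_comm r p, R_comm r q] at e2
  refine le_of_mul_le_mul_left ?_ e4
  have e6 : (|lin b q w| + |lin b r w|) * R b w q r ≤
      (|lin b q w| + |lin b r w|) * (R b w p q + R b w p r) :=
    mul_le_mul_of_nonneg_left e5 (by positivity)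
  calc |lin b s w| * (R b w q s + R b w r s)
      ≤ |lin b p w| * (R b w p q + R b w p r) + (|lin b q w| + |lin b r w|) * R b w q r := by
        linarith
    _ ≤ |lin b p w| * (R b w p q + R b w p r) +
        (|lin b q w| + |lin b r w|) * (R b w p q + R b w p r) := by linarith
    _ = _ := by rw [e3]; ring

theorem sum_zero (b : AffineBasis (Fin 4) ℝ E3) (w : E3) :
    lin b 0 w + lin b 1 w + lin b 2 w + lin b 3 w = 0 :=
  (sum_rel (b := b) (w := w) (p := 0) (q := 1) (r := 2) (s := 3) (by decide)).2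

theorem hs_eq (b : AffineBasis (Fin 4) ℝ E3) (w : E3) : hs wt b w =
    (if 0 < lin b 2 w * lin b 3 w then R b w 0 1 else 0) +
    (if 0 < lin b 1 w * lin b 3 w then R b w 0 2 else 0) +
    (if 0 < lin b 1 w * lin b 2 w then R b w 0 3 else 0) +
    (if 0 < lin b 0 w * lin b 3 w then R b w 1 2 else 0) +
    (if 0 < lin b 0 w * lin b 2 w then R b w 1 3 else 0) +
    (if 0 < lin b 0 w * lin b 1 w then R b w 2 3 else 0) := by
  unfold hs
  rw [Fin.sum_univ_six]
  have h : ∀ i : Fin 6, (Hid b i).indicator (wt (ev b i)) w =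
      if 0 < lin b (ec i) w * lin b (ed i) w then wt (b (eb i) - b (ea i)) w else 0 := by
    intro i
    by_cases h : 0 < lin b (ec i) w * lin b (ed i) w
    · rw [if_pos h]
      exact Set.indicator_of_mem (show w ∈ Hid b i from h) _
    · rw [if_neg h]
      exact Set.indicator_of_notMem (show w ∉ Hid b i from h) _
  simp only [h]
  rfl

theorem pair_eq (b : AffineBasis (Fin 4) ℝ E3) (w : E3) (k : Fin 3) :
    wt (ev b (fst3 k)) w + wt (ev b (opp k)) w =
      ![R b w 0 1 + R b w 2 3, R b w 0 2 + R b w 1 3, R b w 0 3 + R b w 1 2] k := by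
  fin_cases k <;> rfl

theorem star_eq (b : AffineBasis (Fin 4) ℝ E3) (w : E3) (q : Fin 4) :
    ∑ j, wt (ev b (st q j)) w =
      ![R b w 0 1 + R b w 0 2 + R b w 0 3, R b w 0 1 + R b w 1 2 + R b w 1 3,
        R b w 0 2 + R b w 1 2 + R b w 2 3, R b w 0 3 + R b w 1 3 + R b w 2 3] q := by
  rw [Fin.sum_univ_three]
  fin_cases q <;> rfl

theorem pair_le (hx : w ∈ Gen b) (k : Fin 3) :
    wt (ev b (fst3 k)) w + wt (ev b (opp k)) w ≤ hs wt b w := by
  have hw := ne_zero_of_lin (hx 0)
  have hs := sum_zero b w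
  have t1 := R_tri (b := b) hw 0 1 2
  have t2 := R_tri (b := b) hw 0 1 3
  have t3 := R_tri (b := b) hw 0 2 1
  have t4 := R_tri (b := b) hw 0 2 3
  have t5 := R_tri (b := b) hw 0 3 1
  have t6 := R_tri (b := b) hw 0 3 2
  have t7 := R_tri (b := b) hw 1 2 0
  have t8 := R_tri (b := b) hw 1 2 3
  have t9 := R_tri (b := b) hw 1 3 0
  have t10 := R_tri (b := b) hw 1 3 2
  have t11 := R_tri (b := b) hw 2 3 0
  have t12 := R_tri (b := b) hw 2 3 1
  have c1 := cross (b := b) (w := w) (p := 0) (q := 1) (r := 2) (s := 3) (by decide)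
  have c2 := cross (b := b) (w := w) (p := 0) (q := 1) (r := 3) (s := 2) (by decide)
  have c3 := cross (b := b) (w := w) (p := 0) (q := 2) (r := 1) (s := 3) (by decide)
  have c4 := cross (b := b) (w := w) (p := 0) (q := 2) (r := 3) (s := 1) (by decide)
  have c5 := cross (b := b) (w := w) (p := 0) (q := 3) (r := 1) (s := 2) (by decide)
  have c6 := cross (b := b) (w := w) (p := 0) (q := 3) (r := 2) (s := 1) (by decide)
  have n1 := R_comm (b := b) (w := w) 1 0
  have n2 := R_comm (b := b) (w := w) 2 0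
  have n3 := R_comm (b := b) (w := w) 3 0
  have n4 := R_comm (b := b) (w := w) 2 1
  have n5 := R_comm (b := b) (w := w) 3 1
  have n6 := R_comm (b := b) (w := w) 3 2
  rw [pair_eq, hs_eq]
  rcases lt_or_gt_of_ne (hx 0) with h0 | h0 <;> rcases lt_or_gt_of_ne (hx 1) with h1 | h1 <;>
    rcases lt_or_gt_of_ne (hx 2) with h2 | h2 <;> rcases lt_or_gt_of_ne (hx 3) with h3 | h3 <;>
    simp only [mul_pos_iff, h0, h1, h2, h3, h0.not_gt, h1.not_gt, h2.not_gt, h3.not_gt, and_true,
      and_false, or_false, false_or, or_self, if_true, if_false, true_imp_iff, false_imp_iff]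
      at c1 c2 c3 c4 c5 c6 ⊢ <;>
    first
    | (exfalso; linarith)
    | (fin_cases k <;> simp <;> linarith)

theorem le_star (hx : w ∈ Gen b) (q : Fin 4) : hs wt b w ≤ ∑ j, wt (ev b (st q j)) w := by
  have hw := ne_zero_of_lin (hx 0)
  have hs := sum_zero b w
  have t1 := R_tri (b := b) hw 0 1 2
  have t2 := R_tri (b := b) hw 0 1 3
  have t3 := R_tri (b := b) hw 0 2 1
  have t4 := R_tri (b := b) hw 0 2 3
  have t5 := R_tri (b := b) hw 0 3 1
  have t6 := R_tri (b := b) hw 0 3 2
  have t7 := R_tri (b := b) hw 1 2 0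
  have t8 := R_tri (b := b) hw 1 2 3
  have t9 := R_tri (b := b) hw 1 3 0
  have t10 := R_tri (b := b) hw 1 3 2
  have t11 := R_tri (b := b) hw 2 3 0
  have t12 := R_tri (b := b) hw 2 3 1
  have c1 := inner3 (b := b) (w := w) (p := 0) (q := 1) (r := 2) (s := 3) (by decide)
  have c2 := inner3 (b := b) (w := w) (p := 0) (q := 1) (r := 3) (s := 2) (by decide)
  have c3 := inner3 (b := b) (w := w) (p := 0) (q := 2) (r := 3) (s := 1) (by decide)
  have c4 := inner3 (b := b) (w := w) (p := 1) (q := 0) (r := 2) (s := 3) (by decide)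
  have c5 := inner3 (b := b) (w := w) (p := 1) (q := 0) (r := 3) (s := 2) (by decide)
  have c6 := inner3 (b := b) (w := w) (p := 1) (q := 2) (r := 3) (s := 0) (by decide)
  have c7 := inner3 (b := b) (w := w) (p := 2) (q := 0) (r := 1) (s := 3) (by decide)
  have c8 := inner3 (b := b) (w := w) (p := 2) (q := 0) (r := 3) (s := 1) (by decide)
  have c9 := inner3 (b := b) (w := w) (p := 2) (q := 1) (r := 3) (s := 0) (by decide)
  have c10 := inner3 (b := b) (w := w) (p := 3) (q := 0) (r := 1) (s := 2) (by decide)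
  have c11 := inner3 (b := b) (w := w) (p := 3) (q := 0) (r := 2) (s := 1) (by decide)
  have c12 := inner3 (b := b) (w := w) (p := 3) (q := 1) (r := 2) (s := 0) (by decide)
  have n1 := R_comm (b := b) (w := w) 1 0
  have n2 := R_comm (b := b) (w := w) 2 0
  have n3 := R_comm (b := b) (w := w) 3 0
  have n4 := R_comm (b := b) (w := w) 2 1
  have n5 := R_comm (b := b) (w := w) 3 1
  have n6 := R_comm (b := b) (w := w) 3 2
  rw [star_eq, hs_eq]
  rcases lt_or_gt_of_ne (hx 0) with h0 | h0 <;> rcases lt_or_gt_of_ne (hx 1) with h1 | h1 <;>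
    rcases lt_or_gt_of_ne (hx 2) with h2 | h2 <;> rcases lt_or_gt_of_ne (hx 3) with h3 | h3 <;>
    simp only [mul_pos_iff, h0, h1, h2, h3, h0.not_gt, h1.not_gt, h2.not_gt, h3.not_gt, and_true,
      and_false, or_false, false_or, or_self, if_true, if_false, true_imp_iff, false_imp_iff]
      at c1 c2 c3 c4 c5 c6 c7 c8 c9 c10 c11 c12 ⊢ <;>
    first
    | (exfalso; linarith)
    | (fin_cases q <;> simp <;> linarith)

/-- a direction with given coordinates -/
theorem exists_dir (b : AffineBasis (Fin 4) ℝ E3) (x y z : ℝ) : ∃ w : E3,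
    lin b 0 w = -(x + y + z) ∧ lin b 1 w = x ∧ lin b 2 w = y ∧ lin b 3 w = z := by
  obtain ⟨h1, h2, h3⟩ := lin_comb b 0 x y z
  refine ⟨x • (b (eb 0) - b (ea 0)) + y • (b (ec 0) - b (ea 0)) + z • (b (ed 0) - b (ea 0)),
    ?_, h1, h2, h3⟩
  have h0 := sum_zero b
    (x • (b (eb 0) - b (ea 0)) + y • (b (ec 0) - b (ea 0)) + z • (b (ed 0) - b (ea 0)))
  change lin b 1 _ = x at h1
  change lin b 2 _ = y at h2
  change lin b 3 _ = z at h3
  linarith

theorem exists_pair_lt (b : AffineBasis (Fin 4) ℝ E3) (k : Fin 3) :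
    ∃ w ∈ Gen b, wt (ev b (fst3 k)) w + wt (ev b (opp k)) w < hs wt b w := by
  obtain ⟨w, h0, h1, h2, h3⟩ := exists_dir b 1 1 1
  refine ⟨w, fun c => ?_, ?_⟩
  · fin_cases c
    · change lin b 0 w ≠ 0
      rw [h0]; norm_num
    · change lin b 1 w ≠ 0
      rw [h1]; norm_num
    · change lin b 2 w ≠ 0
      rw [h2]; norm_num
    · change lin b 3 w ≠ 0
      rw [h3]; norm_num
  · have l1 : lin b 1 w ≠ 0 := by rw [h1]; norm_num
    have l2 : lin b 2 w ≠ 0 := by rw [h2]; norm_num
    have l3 : lin b 3 w ≠ 0 := by rw [h3]; norm_num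
    have t1 := R_tri_lt (b := b) (w := w) (p := 1) (q := 2) (r := 0) (s := 3) (by decide)
      (by decide) (by decide) (by decide) (by decide) (by decide) l3
    have t2 := R_tri_lt (b := b) (w := w) (p := 1) (q := 3) (r := 0) (s := 2) (by decide)
      (by decide) (by decide) (by decide) (by decide) (by decide) l2
    have t3 := R_tri_lt (b := b) (w := w) (p := 2) (q := 3) (r := 0) (s := 1) (by decide)
      (by decide) (by decide) (by decide) (by decide) (by decide) l1
    have n1 := R_comm (b := b) (w := w) 1 0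
    have n2 := R_comm (b := b) (w := w) 2 0
    rw [pair_eq, hs_eq, h0, h1, h2, h3]
    norm_num
    fin_cases k <;> simp <;> linarith

theorem exists_lt_star (b : AffineBasis (Fin 4) ℝ E3) (q : Fin 4) :
    ∃ w ∈ Gen b, hs wt b w < ∑ j, wt (ev b (st q j)) w := by
  obtain ⟨w, h0, h1, h2, h3⟩ := exists_dir b 1 (-1) (-1)
  refine ⟨w, fun c => ?_, ?_⟩
  · fin_cases c
    · change lin b 0 w ≠ 0
      rw [h0]; norm_num
    · change lin b 1 w ≠ 0
      rw [h1]; norm_num
    · change lin b 2 w ≠ 0
      rw [h2]; norm_num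
    · change lin b 3 w ≠ 0
      rw [h3]; norm_num
  · have l0 : lin b 0 w ≠ 0 := by rw [h0]; norm_num
    have l1 : lin b 1 w ≠ 0 := by rw [h1]; norm_num
    have l2 : lin b 2 w ≠ 0 := by rw [h2]; norm_num
    have l3 : lin b 3 w ≠ 0 := by rw [h3]; norm_num
    have t1 := R_tri_lt (b := b) (w := w) (p := 2) (q := 3) (r := 0) (s := 1) (by decide)
      (by decide) (by decide) (by decide) (by decide) (by decide) l1
    have t2 := R_tri_lt (b := b) (w := w) (p := 2) (q := 3) (r := 1) (s := 0) (by decide)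
      (by decide) (by decide) (by decide) (by decide) (by decide) l0
    have t3 := R_tri_lt (b := b) (w := w) (p := 0) (q := 1) (r := 2) (s := 3) (by decide)
      (by decide) (by decide) (by decide) (by decide) (by decide) l3
    have t4 := R_tri_lt (b := b) (w := w) (p := 0) (q := 1) (r := 3) (s := 2) (by decide)
      (by decide) (by decide) (by decide) (by decide) (by decide) l2
    have n2 := R_comm (b := b) (w := w) 2 0
    have n4 := R_comm (b := b) (w := w) 2 1
    have n5 := R_comm (b := b) (w := w) 3 1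
    rw [star_eq, hs_eq, h0, h1, h2, h3]
    norm_num
    fin_cases q <;> simp <;> linarith

/-- The two families of inequalities between lengths and dihedral angles. -/
theorem ineq_basis (b : AffineBasis (Fin 4) ℝ E3) :
    (∀ k, Real.pi * D (len b) k < ∑ e, len b e * dih b e) ∧
    (∀ q, ∑ e, len b e * dih b e < Real.pi * S (len b) q) := by
  obtain ⟨κ, hκ⟩ := weight
  exact ineq_of b hκ (fun z hz k => pair_le hz k) (fun z hz q => le_star hz q)
    (exists_pair_lt b) (exists_lt_star b)

end Pool.Agent.TetDim.Pt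

namespace Pool.Agent.TetDim

open Pool.Agent.TetRel

/-- For a nondegenerate tetrahedron, the sum of the lengths times the dihedral angles lies
strictly between `π` times the sum of two opposite edges and `π` times the sum of the three edges
at a vertex. -/
theorem ineq (v : Fin 4 → E3) (hv : AffineIndependent ℝ v) :
    (∀ k, Real.pi * D (len v) k < ∑ e, len v e * dih v e) ∧
    (∀ q, ∑ e, len v e * dih v e < Real.pi * S (len v) q) :=
  Pt.ineq_basis ⟨v, hv, hv.affineSpan_eq_top_iff_card_eq_finrank_add_one.2 (by simp)⟩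

end Pool.Agent.TetDim
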