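import Pool.Agent.TetDim.BasicG

/-!
# Relations between the dihedral angles are analytic equations in the edge lengths
-/

set_option autoImplicit false

namespace Pool.Agent.TetDim

open Set

theorem N_analytic (i : Fin 6) (x : Fin 6 → ℝ) : AnalyticAt ℝ (fun l => N l i) x := by
  have h : ∀ j : Fin 6, AnalyticAt ℝ (fun l : Fin 6 → ℝ => l j) x := fun j =>
    (ContinuousLinearMap.proj (R := ℝ) (φ := fun _ : Fin 6 => ℝ) j).analyticAt x
  have key : ∀ a b c d e g : Fin 6,
      AnalyticAt ℝ (fun l : Fin 6 → ℝ => num (l a) (l b) (l c) (l d) (l e) (l g)) x := by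
    intro a b c d e g
    have ha := h a
    have hb := h b
    have hc := h c
    have hd := h d
    have he := h e
    have hg := h g
    unfold num
    repeat' first
      | assumption
      | exact analyticAt_const
      | refine AnalyticAt.fun_add ?_ ?_
      | refine AnalyticAt.fun_sub ?_ ?_
      | refine AnalyticAt.fun_mul ?_ ?_
      | refine AnalyticAt.fun_pow ?_ _
      | refine AnalyticAt.fun_neg ?_
  fin_cases i
  · exact key 0 1 3 2 4 5
  · exact key 1 0 3 2 5 4
  · exact key 2 0 4 1 5 3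
  · exact key 3 0 1 4 5 2
  · exact key 4 0 2 3 5 1
  · exact key 5 1 2 3 4 0

theorem P_analytic (x : Fin 6 → ℝ) : AnalyticAt ℝ (fun l => P l) x := by
  have h : ∀ j : Fin 6, AnalyticAt ℝ (fun l : Fin 6 → ℝ => l j) x := fun j =>
    (ContinuousLinearMap.proj (R := ℝ) (φ := fun _ : Fin 6 => ℝ) j).analyticAt x
  have h0 := h 0
  have h1 := h 1
  have h2 := h 2
  have h3 := h 3
  have h4 := h 4
  have h5 := h 5
  unfold P
  repeat' first
    | assumption
    | exact analyticAt_const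
    | refine AnalyticAt.fun_add ?_ ?_
    | refine AnalyticAt.fun_sub ?_ ?_
    | refine AnalyticAt.fun_mul ?_ ?_
    | refine AnalyticAt.fun_pow ?_ _
    | refine AnalyticAt.fun_neg ?_

/-- The angle function `θ` is represented: `A l = ρ cos θ`, `2 √P B l = ρ sin θ`, `ρ > 0`, with
analytic functions `A`, `B`. -/
def Rep (θ : (Fin 6 → ℝ) → ℝ) : Prop :=
  ∃ A B : (Fin 6 → ℝ) → ℝ, (∀ x, AnalyticAt ℝ A x) ∧ (∀ x, AnalyticAt ℝ B x) ∧
    ∀ l, Good l → ∃ ρ : ℝ, 0 < ρ ∧ A l = ρ * Real.cos (θ l) ∧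
      2 * √(P l) * B l = ρ * Real.sin (θ l)

theorem Rep.zero : Rep fun _ => 0 :=
  ⟨fun _ => 1, fun _ => 0, fun _ => analyticAt_const, fun _ => analyticAt_const,
    fun l _ => ⟨1, one_pos, by simp, by simp⟩⟩

theorem Rep.add {θ : (Fin 6 → ℝ) → ℝ} (h : Rep θ) (i : Fin 6) : Rep fun l => θ l + Th l i := by
  obtain ⟨A, B, hA, hB, hAB⟩ := h
  have hp : ∀ x, AnalyticAt ℝ (fun l : Fin 6 → ℝ => l i) x := fun x =>
    (ContinuousLinearMap.proj (R := ℝ) (φ := fun _ : Fin 6 => ℝ) i).analyticAt x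
  refine ⟨fun l => A l * N l i - 4 * P l * B l * l i, fun l => A l * l i + B l * N l i,
    fun x => ?_, fun x => ?_, fun l hl => ?_⟩
  · exact ((hA x).mul (N_analytic i x)).sub
      (((analyticAt_const.mul (P_analytic x)).mul (hB x)).mul (hp x))
  · exact ((hA x).mul (hp x)).add ((hB x).mul (N_analytic i x))
  · obtain ⟨ρ, hρ, h1, h2⟩ := hAB l hl
    obtain ⟨_, hc, hs⟩ := Th_facts hl i
    have hF := (good_pos hl.1).2
    have hr : 0 < √(F l (TetRel.ec i) * F l (TetRel.ed i)) :=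
      Real.sqrt_pos.2 (mul_pos (hF _) (hF _))
    set r := √(F l (TetRel.ec i) * F l (TetRel.ed i)) with hrdef
    have hc' : N l i = r * Real.cos (Th l i) := by
      rw [hc]
      field_simp
    have hs' : 2 * l i * √(P l) = r * Real.sin (Th l i) := by
      rw [hs]
      field_simp
    have hP : √(P l) * √(P l) = P l := Real.mul_self_sqrt hl.2.le
    refine ⟨ρ * r, mul_pos hρ hr, ?_, ?_⟩
    · rw [Real.cos_add]
      calc A l * N l i - 4 * P l * B l * l i
          = A l * N l i - (2 * √(P l) * B l) * (2 * l i * √(P l)) := by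
            linear_combination (-4 * B l * l i) * hP.symm
        _ = ρ * r * (Real.cos (θ l) * Real.cos (Th l i) - Real.sin (θ l) * Real.sin (Th l i)) := by
            rw [h2, hs', h1, hc']
            ring
    · rw [Real.sin_add]
      calc 2 * √(P l) * (A l * l i + B l * N l i)
          = A l * (2 * l i * √(P l)) + (2 * √(P l) * B l) * N l i := by ring
        _ = ρ * r * (Real.sin (θ l) * Real.cos (Th l i) + Real.cos (θ l) * Real.sin (Th l i)) := by
            rw [h2, hs', h1, hc']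
            ring

theorem Rep.add_nat {θ : (Fin 6 → ℝ) → ℝ} (h : Rep θ) (i : Fin 6) :
    ∀ m : ℕ, Rep fun l => θ l + m * Th l i
  | 0 => by simpa using h
  | m + 1 => by
    have := (Rep.add_nat h i m).add i
    have e : (fun l => θ l + ((m + 1 : ℕ) : ℝ) * Th l i) =
        fun l => θ l + (m : ℝ) * Th l i + Th l i := by
      funext l
      push_cast
      ring
    rw [e]
    exact this

/-- PACKAGE PK. -/
theorem poly_rel (n : Fin 6 → ℕ) : ∃ B : (Fin 6 → ℝ) → ℝ, AnalyticOnNhd ℝ B univ ∧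
    ∀ l, Good l → (B l = 0 ↔ Real.sin (∑ e, (n e : ℝ) * Th l e) = 0) := by
  have h := (((((Rep.zero.add_nat 0 (n 0)).add_nat 1 (n 1)).add_nat 2 (n 2)).add_nat 3
    (n 3)).add_nat 4 (n 4)).add_nat 5 (n 5)
  obtain ⟨A, B, _, hB, hAB⟩ := h
  refine ⟨B, fun x _ => hB x, fun l hl => ?_⟩
  obtain ⟨ρ, hρ, _, h2⟩ := hAB l hl
  have hw : 0 < 2 * √(P l) := mul_pos two_pos (Real.sqrt_pos.2 hl.2)
  have he : ∑ e, (n e : ℝ) * Th l e = 0 + n 0 * Th l 0 + n 1 * Th l 1 + n 2 * Th l 2 +
      n 3 * Th l 3 + n 4 * Th l 4 + n 5 * Th l 5 := by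
    rw [Fin.sum_univ_six, zero_add]
  rw [he]
  constructor
  · intro h0
    rw [h0, mul_zero] at h2
    rcases mul_eq_zero.1 h2.symm with h3 | h3
    · exact absurd h3 hρ.ne'
    · exact h3
  · intro h0
    rw [h0, mul_zero] at h2
    rcases mul_eq_zero.1 h2 with h3 | h3
    · exact absurd h3 hw.ne'
    · exact h3

end Pool.Agent.TetDim
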