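import Pool.Agent.TetDim.ZeroSet
import Pool.Agent.TetDim.BasicG
import Pool.Agent.TetDim.Realize
import Pool.Agent.TetDim.Star
import Pool.Agent.TetDim.PolyRel
import Pool.Agent.TetDim.Cont3Of
import Pool.Agent.TetDim.No3
import Pool.Agent.TetDim.NoFour
import Pool.Agent.TetDim.HillFamily
import Pool.Agent.TetDim.Pointwise
import Pool.Agent.TetRel.Main
import Pool.Agent.TET.Dim

/-! # Assembly: the edge vectors of tetrahedra that tile have Hausdorff dimension two (helper83) -/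

set_option autoImplicit false

namespace Pool.Agent.TetDim

open Pool.Agent.TetRel MeasureTheory Set Module

/-- the edge length vectors of the tetrahedra that tile -/
def tileLens : Set (Fin 6 → ℝ) :=
  {l | ∃ v : Fin 4 → E3, AffineIndependent ℝ v ∧ Tiles v ∧ l = len v}

/-! ## The continuation argument -/

theorem cont3 (n : Fin 3 → Fin 6 → ℕ) (c0 : Fin 3 → ℝ) (h0 : Good (J n c0))
    (h1 : ∀ i, ∑ e, (n i e : ℝ) * Th (J n c0) e = 2 * Real.pi)
    (h2 : ∀ c, Good (J n c) → ∀ i, Real.sin (∑ e, (n i e : ℝ) * Th (J n c) e) = 0) :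
    ∀ c, Tri (J n c) → Good (J n c) ∧ ∀ i, ∑ e, (n i e : ℝ) * Th (J n c) e = 2 * Real.pi :=
  cont3_of ineq n c0 h0 h1 h2

/-! ## The Gram determinant vanishes -/

theorem face_sum (l : Fin 6 → ℝ) : F l 0 = N l 3 + N l 4 + N l 5 ∧ F l 1 = N l 1 + N l 2 + N l 5 ∧
    F l 2 = N l 0 + N l 2 + N l 4 ∧ F l 3 = N l 0 + N l 1 + N l 3 := by
  refine ⟨?_, ?_, ?_, ?_⟩ <;> simp only [F, N, heron, num, Matrix.cons_val] <;> ring

theorem gram_of_kernel {c : Fin 6 → ℝ} {a0 a1 a2 a3 : ℝ} (h0 : a0 = c 5 * a1 + c 4 * a2 + c 3 * a3)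
    (h1 : a1 = c 5 * a0 + c 2 * a2 + c 1 * a3) (h2 : a2 = c 4 * a0 + c 2 * a1 + c 0 * a3)
    (h3 : a3 = c 3 * a0 + c 1 * a1 + c 0 * a2) (ha : a0 ≠ 0) : gram c = 0 := by
  have key : gram c * a0 = 0 := by
    unfold gram
    linear_combination (1 - c 0 ^ 2 - c 1 ^ 2 - c 2 ^ 2 - 2 * c 0 * c 1 * c 2) * h0 +
      (c 5 * (1 - c 0 ^ 2) + c 4 * c 2 + c 3 * c 1 + c 0 * (c 4 * c 1 + c 3 * c 2)) * h1 +
      (c 4 * (1 - c 1 ^ 2) + c 5 * c 2 + c 3 * c 0 + c 1 * (c 5 * c 0 + c 3 * c 2)) * h2 +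
      (c 3 * (1 - c 2 ^ 2) + c 5 * c 1 + c 4 * c 0 + c 2 * (c 5 * c 0 + c 4 * c 1)) * h3
  exact (mul_eq_zero.1 key).resolve_right ha

theorem gram_eq_zero (v : Fin 4 → E3) (hv : AffineIndependent ℝ v) :
    gram (fun e => Real.cos (dih v e)) = 0 := by
  obtain ⟨hG, hl, hF, hdih, _⟩ := basic v hv
  set l := len v with hlen
  have hs : ∀ c, 0 < √(F l c) := fun c => Real.sqrt_pos.2 (hF c)
  have hsq : ∀ c, √(F l c) * √(F l c) = F l c := fun c => Real.mul_self_sqrt (hF c).le
  have hcos : ∀ e, Real.cos (dih v e) = N l e / (√(F l (ec e)) * √(F l (ed e))) := by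
    intro e
    have h1 : √(F l (ec e) * F l (ed e)) = √(F l (ec e)) * √(F l (ed e)) :=
      Real.sqrt_mul (hF _).le _
    rw [hdih e, Th, h1]
    have hp : 0 < √(F l (ec e)) * √(F l (ed e)) := mul_pos (hs _) (hs _)
    have h2 : N l e ^ 2 ≤ (√(F l (ec e)) * √(F l (ed e))) ^ 2 := by
      have h3 := F_mul l e
      have h4 : (√(F l (ec e)) * √(F l (ed e))) ^ 2 = F l (ec e) * F l (ed e) := by
        rw [mul_pow, sq, sq, hsq, hsq]
      rw [h4, h3]
      have := hG.2
      have : 0 ≤ 4 * l e ^ 2 * P l := by positivity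
      linarith
    have h5 := abs_le_of_sq_le_sq' h2 hp.le
    apply Real.cos_arccos
    · rw [le_div_iff₀ hp]; linarith [h5.1]
    · rw [div_le_iff₀ hp]; linarith [h5.2]
  obtain ⟨f0, f1, f2, f3⟩ := face_sum l
  have hx : ∀ c d : Fin 4, ∀ x : ℝ, x / (√(F l c) * √(F l d)) * √(F l d) = x / √(F l c) := by
    intro c d x
    have := (hs d).ne'
    have := (hs c).ne'
    field_simp
  have hy : ∀ c d : Fin 4, ∀ x : ℝ, x / (√(F l d) * √(F l c)) * √(F l d) = x / √(F l c) := by
    intro c d x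
    have := (hs d).ne'
    have := (hs c).ne'
    field_simp
  have hz : ∀ c : Fin 4, F l c / √(F l c) = √(F l c) := by
    intro c
    rw [div_eq_iff (hs c).ne']; exact (hsq c).symm
  have e0 : ec 0 = 2 ∧ ed 0 = 3 := by decide
  have e1 : ec 1 = 1 ∧ ed 1 = 3 := by decide
  have e2 : ec 2 = 1 ∧ ed 2 = 2 := by decide
  have e3 : ec 3 = 0 ∧ ed 3 = 3 := by decide
  have e4 : ec 4 = 0 ∧ ed 4 = 2 := by decide
  have e5 : ec 5 = 0 ∧ ed 5 = 1 := by decide
  refine gram_of_kernel (a0 := √(F l 0)) (a1 := √(F l 1)) (a2 := √(F l 2)) (a3 := √(F l 3))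
    ?_ ?_ ?_ ?_ (hs 0).ne'
  · rw [hcos, hcos, hcos, e5.1, e5.2, e4.1, e4.2, e3.1, e3.2, hx, hx, hx, ← add_div, ← add_div,
      eq_div_iff (hs 0).ne', hsq]
    linarith
  · rw [hcos, hcos, hcos, e5.1, e5.2, e2.1, e2.2, e1.1, e1.2, hy, hx, hx, ← add_div, ← add_div,
      eq_div_iff (hs 1).ne', hsq]
    linarith
  · rw [hcos, hcos, hcos, e4.1, e4.2, e2.1, e2.2, e0.1, e0.2, hy, hy, hx, ← add_div, ← add_div,
      eq_div_iff (hs 2).ne', hsq]
    linarith
  · rw [hcos, hcos, hcos, e3.1, e3.2, e1.1, e1.2, e0.1, e0.2, hy, hy, hy, ← add_div, ← add_div,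
      eq_div_iff (hs 3).ne', hsq]
    linarith
/-! ## Cofactors are positive -/

theorem xfun_pos (v : Fin 4 → E3) (hv : AffineIndependent ℝ v) (e : Fin 6) :
    0 < TET.xfun (fun i => Real.cos (dih v i)) e := by
  obtain ⟨_, hl, _, _, hd⟩ := basic v hv
  obtain ⟨s, hs, h⟩ := TET.len_eq v hv
  have h1 := h e
  unfold TET.phi at h1
  have h2 : 0 < Real.sin (dih v e) := Real.sin_pos_of_pos_of_lt_pi (hd e).1 (hd e).2
  have h3 : 0 < s * (Real.sin (dih v e) * TET.xfun (fun i => Real.cos (dih v i)) e) := by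
    rw [← h1]; exact hl e
  have h4 := (mul_pos_iff_of_pos_left hs).1 h3
  exact (mul_pos_iff_of_pos_left h2).1 h4

/-! ## Dimension of images -/

theorem dimH_image_le' {m : ℕ} {g : (Fin m → ℝ) → (Fin 6 → ℝ)} (hg : ContDiff ℝ 1 g)
    (s : Set (Fin m → ℝ)) : dimH (g '' s) ≤ dimH s :=
  hg.contDiffOn.dimH_image_le convex_univ (subset_univ s)

/-- `J n` is linear in the coefficients -/
def Jl {k : ℕ} (n : Fin k → Fin 6 → ℕ) : (Fin k → ℝ) →ₗ[ℝ] (Fin 6 → ℝ) where
  toFun := J n
  map_add' x y := by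
    ext e; simp [J, add_mul, Finset.sum_add_distrib]
  map_smul' r x := by
    ext e; simp [J, mul_assoc, Finset.mul_sum]

theorem Jl_apply {k : ℕ} (n : Fin k → Fin 6 → ℕ) (c : Fin k → ℝ) : Jl n c = J n c := rfl

theorem contDiff_J {k : ℕ} (n : Fin k → Fin 6 → ℕ) : ContDiff ℝ 1 (J n) := by
  have : J n = fun c => Jl n c := rfl
  rw [this]
  exact (LinearMap.toContinuousLinearMap (Jl n)).contDiff

theorem J_injective {k : ℕ} (n : Fin k → Fin 6 → ℕ)
    (hn : LinearIndependent ℝ (fun i e => (n i e : ℝ))) : Function.Injective (Jl n) := by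
  rw [← LinearMap.ker_eq_bot, LinearMap.ker_eq_bot']
  intro c hc
  rw [Fintype.linearIndependent_iff] at hn
  funext i
  refine hn c ?_ i
  ext e
  have := congrFun hc e
  simpa [Jl_apply, J, Finset.sum_apply] using this

/-! ## Two types -/

theorem dim_two (n : Fin 2 → Fin 6 → ℕ) : dimH (range (J n)) ≤ 2 := by
  have := (contDiff_J n).dimH_range_le
  simpa using this

/-! ## Three types -/

/-- tetrahedra whose edge vector is a combination of three types -/
def X3 (n : Fin 3 → Fin 6 → ℕ) : Set (Fin 6 → ℝ) :=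
  {l | ∃ c, l = J n c ∧ Good l ∧ ∀ i, ∑ e, (n i e : ℝ) * Th l e = 2 * Real.pi}

theorem dim_three (n : Fin 3 → Fin 6 → ℕ) (hn : LinearIndependent ℝ (fun i e => (n i e : ℝ))) :
    dimH (X3 n) ≤ 2 := by
  choose B hB hB2 using fun i => poly_rel (n i)
  by_cases hne : ∃ i c, B i (J n c) ≠ 0
  · obtain ⟨i, c, hc⟩ := hne
    have hsub : X3 n ⊆ J n '' {c | B i (J n c) = 0} := by
      rintro l ⟨c, rfl, hG, hs⟩
      refine ⟨c, ?_, rfl⟩
      have := (hB2 i (J n c) hG).2
      apply this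
      rw [hs i]; exact Real.sin_two_pi
    refine (dimH_mono hsub).trans ((dimH_image_le' (contDiff_J n) _).trans ?_)
    have hA : AnalyticOnNhd ℝ (fun c => B i (J n c)) univ := by
      have h1 : AnalyticOnNhd ℝ (J n) univ := by
        have : J n = fun c => LinearMap.toContinuousLinearMap (Jl n) c := rfl
        rw [this]
        exact ContinuousLinearMap.analyticOnNhd _ _
      exact (hB i).comp h1 (mapsTo_univ _ _)
    exact dimH_zero_le (n := 2) _ hA ⟨c, hc⟩
  · push Not at hne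
    have hempty : X3 n = ∅ := by
      by_contra hcon
      obtain ⟨l, c0, rfl, hG, hs⟩ := nonempty_iff_ne_empty.2 hcon
      have h2 : ∀ c, Good (J n c) → ∀ i, Real.sin (∑ e, (n i e : ℝ) * Th (J n c) e) = 0 :=
        fun c hc i => (hB2 i _ hc).1 (hne i c)
      have h3 := cont3 n c0 hG hs h2
      let f : (Fin 3 → ℝ) →ₗ[ℝ] ℝ := (2 : ℝ) • ∑ i, LinearMap.proj i
      have hf : ∀ c, f c = 2 * ∑ i, c i := by
        intro c; simp [f]
      have hrel : ∀ c, Tri (J n c) → ∀ m, ∑ e, J n m e * Th (J n c) e = Real.pi * f m := by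
        intro c hc m
        obtain ⟨_, h4⟩ := h3 c hc
        have : ∑ e, J n m e * Th (J n c) e = ∑ i, m i * ∑ e, (n i e : ℝ) * Th (J n c) e := by
          simp only [J, Finset.sum_mul, Finset.mul_sum]
          rw [Finset.sum_comm]
          exact Finset.sum_congr rfl fun i _ => Finset.sum_congr rfl fun e _ => by ring
        rw [this, hf]
        simp only [h4]
        rw [← Finset.sum_mul]; ring
      refine no3 (Jl n) (J_injective n hn) f c0 hG.1 fun c hc => ?_
      obtain ⟨hGc, _⟩ := h3 c hc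
      obtain ⟨v, hv, hvl⟩ := realize hGc
      obtain ⟨_, _, _, hdih, _⟩ := basic v hv
      obtain ⟨hI1, hI2⟩ := ineq v hv
      have h5 : ∑ e, len v e * dih v e = Real.pi * f c := by
        rw [← hrel c hc c]
        refine Finset.sum_congr rfl fun e _ => ?_
        rw [hdih e, hvl]
      rw [h5, hvl] at hI1 hI2
      have hpi := Real.pi_pos
      refine ⟨hGc.2, fun k => ?_, fun q => ?_, fun m => hrel c hc m⟩
      · exact lt_of_mul_lt_mul_left (hI1 k) hpi.le
      · exact lt_of_mul_lt_mul_left (hI2 q) hpi.le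
    rw [hempty]; simp

/-! ## Four types -/

/-- tetrahedra with four independent types -/
def X4 (n : Fin 4 → Fin 6 → ℕ) : Set (Fin 6 → ℝ) :=
  {l | ∃ (s : ℝ) (t : Fin 6 → ℝ), (∀ i, ∑ e, (n i e : ℝ) * t e = 2 * Real.pi) ∧
    gram (fun e => Real.cos (t e)) = 0 ∧ Star t ∧ (∀ e, 0 < TET.xfun (fun i => Real.cos (t i)) e) ∧
    l = fun e => s * TET.phi t e}

theorem dim_four (n : Fin 4 → Fin 6 → ℕ) (hn : LinearIndependent ℝ (fun i e => (n i e : ℝ))) :
    dimH (X4 n) ≤ 2 := by
  classical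
  by_cases hne : ∃ t0 : Fin 6 → ℝ, ∀ i, ∑ e, (n i e : ℝ) * t0 e = 2 * Real.pi
  swap
  · have : X4 n = ∅ := by
      ext l
      constructor
      · rintro ⟨s, t, ht, -⟩
        exact (hne ⟨t, ht⟩).elim
      · exact fun h => h.elim
    rw [this]; simp
  obtain ⟨t0, ht0⟩ := hne
  let M : Matrix (Fin 4) (Fin 6) ℝ := Matrix.of fun i e => (n i e : ℝ)
  have hrank : M.rank = 4 := by
    have h1 : LinearIndependent ℝ M.row := hn
    simpa using h1.rank_matrix
  have hker : finrank ℝ (LinearMap.ker M.mulVecLin) = 2 := by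
    have h1 := M.mulVecLin.finrank_range_add_finrank_ker
    have h2 : finrank ℝ (LinearMap.range M.mulVecLin) = 4 := hrank
    rw [h2] at h1
    simp at h1
    omega
  let b : Basis (Fin 2) ℝ (LinearMap.ker M.mulVecLin) := finBasisOfFinrankEq ℝ _ hker
  let K : (Fin 2 → ℝ) →ₗ[ℝ] (Fin 6 → ℝ) :=
    (LinearMap.ker M.mulVecLin).subtype ∘ₗ b.equivFun.symm.toLinearMap
  have hK : Function.Injective K :=
    (Submodule.subtype_injective _).comp b.equivFun.symm.injective
  have hmem : ∀ t : Fin 6 → ℝ, (∀ i, ∑ e, (n i e : ℝ) * t e = 2 * Real.pi) →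
      ∃ s, t = t0 + K s := by
    intro t ht
    have hmem : t - t0 ∈ LinearMap.ker M.mulVecLin := by
      rw [LinearMap.mem_ker]
      ext i
      rw [Matrix.mulVecLin_apply, Matrix.mulVec_sub]
      simp only [Pi.sub_apply, Matrix.mulVec, dotProduct, M, Matrix.of_apply, Pi.zero_apply]
      rw [ht i, ht0 i, sub_self]
    refine ⟨b.equivFun ⟨t - t0, hmem⟩, ?_⟩
    simp [K]
  by_cases hg : ∃ s, gram (fun e => Real.cos (t0 e + K s e)) ≠ 0
  · obtain ⟨s, hs⟩ := hg
    -- zero set in `ℝ³` (scale and two parameters)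
    let pr : (Fin 3 → ℝ) →ₗ[ℝ] (Fin 2 → ℝ) := LinearMap.pi fun i => LinearMap.proj i.succ
    let T : (Fin 3 → ℝ) → (Fin 6 → ℝ) := fun y e => t0 e + K (pr y) e
    let g : (Fin 3 → ℝ) → (Fin 6 → ℝ) := fun y e => y 0 * TET.phi (T y) e
    have hT : ContDiff ℝ 1 T := by
      have h1 : ContDiff ℝ 1 (fun y => K (pr y)) :=
        (LinearMap.toContinuousLinearMap (K ∘ₗ pr)).contDiff
      rw [contDiff_pi]
      intro e
      exact contDiff_const.add (contDiff_pi.1 h1 e)
    have hgc : ContDiff ℝ 1 g := by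
      rw [contDiff_pi]
      intro e
      exact (contDiff_apply ℝ ℝ (0 : Fin 3)).mul (TET.contDiff_phi_comp hT e)
    have hsub : X4 n ⊆ g '' {y | gram (fun e => Real.cos (T y e)) = 0} := by
      rintro l ⟨r, t, ht, hgr, _, _, rfl⟩
      obtain ⟨s', rfl⟩ := hmem t ht
      refine ⟨Fin.cons r s', ?_, ?_⟩
      · have h1 : pr (Fin.cons r s') = s' := by
          ext i; simp [pr]
        simp only [mem_ofPred_eq, T, h1]
        exact hgr
      · have h1 : pr (Fin.cons r s') = s' := by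
          ext i; simp [pr]
        simp only [g, T, h1, Fin.cons_zero]
        rfl
    refine (dimH_mono hsub).trans ((dimH_image_le' hgc _).trans ?_)
    have hA : AnalyticOnNhd ℝ (fun y => gram (fun e => Real.cos (T y e))) univ := by
      have hTe : ∀ e, AnalyticOnNhd ℝ (fun y => T y e) univ := by
        intro e
        have h1 : AnalyticOnNhd ℝ (fun y : Fin 3 → ℝ => K (pr y) e) univ := by
          have : (fun y : Fin 3 → ℝ => K (pr y) e) = fun y =>
            LinearMap.toContinuousLinearMap ((LinearMap.proj e : (Fin 6 → ℝ) →ₗ[ℝ] ℝ) ∘ₗ K ∘ₗ pr) y := rfl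
          rw [this]
          exact ContinuousLinearMap.analyticOnNhd _ _
        exact analyticOnNhd_const.add h1
      have hc : ∀ e, AnalyticOnNhd ℝ (fun y => Real.cos (T y e)) univ := by
        intro e y _
        exact (Real.analyticAt_cos).comp (hTe e y (mem_univ y))
      unfold gram
      intro y _
      have h := fun e => hc e y (mem_univ y)
      have h0 := h 0
      have h1 := h 1
      have h2 := h 2
      have h3 := h 3
      have h4 := h 4
      have h5 := h 5
      fun_prop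
    refine dimH_zero_le (n := 2) _ hA ⟨Fin.cons 0 s, ?_⟩
    have h1 : pr (Fin.cons 0 s) = s := by
      ext i; simp [pr]
    simp only [T, h1]
    exact hs
  · push Not at hg
    have hempty : X4 n = ∅ := by
      ext l
      constructor
      · rintro ⟨r, t, ht, hgr, hst, hx, rfl⟩
        exfalso
        obtain ⟨s', rfl⟩ := hmem t ht
        refine no4 (t0 + K s') K hK (fun s => ?_) hst hx
        have := hg (s' + s)
        rw [map_add] at this
        simp only [Pi.add_apply] at this ⊢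
        rw [← this]
        congr 1
        funext e
        rw [add_assoc]
      · exact fun h => h.elim
    rw [hempty]; simp

/-! ## The theorem -/

theorem dim_le : dimH tileLens ≤ 2 := by
  let A2 : Set (Fin 6 → ℝ) := ⋃ n : Fin 2 → Fin 6 → ℕ, range (J n)
  let P3 : Set (Fin 3 → Fin 6 → ℕ) := {n | LinearIndependent ℝ (fun i e => (n i e : ℝ))}
  let P4 : Set (Fin 4 → Fin 6 → ℕ) := {n | LinearIndependent ℝ (fun i e => (n i e : ℝ))}
  let A3 : Set (Fin 6 → ℝ) := ⋃ n ∈ P3, X3 n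
  let A4 : Set (Fin 6 → ℝ) := ⋃ n ∈ P4, X4 n
  have h2 : dimH A2 ≤ 2 := by
    rw [dimH_iUnion]; exact iSup_le dim_two
  have h3 : dimH A3 ≤ 2 := by
    rw [dimH_bUnion P3.to_countable]
    exact iSup₂_le fun n hn => dim_three n hn
  have h4 : dimH A4 ≤ 2 := by
    rw [dimH_bUnion P4.to_countable]
    exact iSup₂_le fun n hn => dim_four n hn
  have hsub : tileLens ⊆ A2 ∪ (A3 ∪ A4) := by
    rintro l ⟨v, hv, hT, rfl⟩
    obtain ⟨k, n, c, hk, hlin, htype, hc, hlen⟩ := cone v hv hT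
    obtain ⟨hG, hl, hF, hdih, _⟩ := basic v hv
    have hlenJ : len v = J n c := by
      ext e; rw [hlen e]; rfl
    rcases lt_or_ge k 3 with hk3 | hk3
    · obtain rfl : k = 2 := by omega
      left
      exact mem_iUnion.2 ⟨n, c, hlenJ.symm⟩
    rcases hk3.eq_or_lt with hk3 | hk3
    · subst hk3
      right; left
      refine mem_iUnion₂.2 ⟨n, hlin, c, hlenJ, hG, fun i => ?_⟩
      rw [← htype i]
      exact Finset.sum_congr rfl fun e _ => by rw [hdih e]
    · have hk4 : 4 ≤ k := hk3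
      right; right
      obtain ⟨s, hs, hphi⟩ := TET.len_eq v hv
      refine mem_iUnion₂.2 ⟨fun i => n (Fin.castLE hk4 i), ?_, s, dih v, fun i => htype _,
        gram_eq_zero v hv, star v hv, xfun_pos v hv, ?_⟩
      · exact hlin.comp (Fin.castLE hk4) (Fin.castLE_injective hk4)
      · funext e; exact hphi e
  calc dimH tileLens ≤ dimH (A2 ∪ (A3 ∪ A4)) := dimH_mono hsub
    _ = max (dimH A2) (max (dimH A3) (dimH A4)) := by rw [dimH_union, dimH_union]
    _ ≤ 2 := max_le h2 (max_le h3 h4)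

/-- **The edge length vectors of the tetrahedra that tile space have Hausdorff dimension two.** -/
theorem dim_eq : dimH tileLens = 2 := le_antisymm dim_le dim_ge

end Pool.Agent.TetDim
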