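import Pool.Agent.TetDim.Four

/-! # The cofactors of the Gram matrix of a tetrahedron -/

set_option autoImplicit false

namespace Pool.Agent.TetDim

open Real Pool.Agent.TetRel

/-- the edge opposite to the edge `e` -/
def opp (e : Fin 6) : Fin 6 := ![5, 4, 3, 2, 1, 0] e

/-- Jacobi's identity for the cofactors of the Gram matrix -/
theorem adj_jacobi (c : Fin 6 → ℝ) (e : Fin 6) :
    adjd c (ec e) * adjd c (ed e) - TET.xfun c e ^ 2 = gram c * (1 - c (opp e) ^ 2) := by
  fin_cases e <;>
    simp [adjd, ec, ed, st, TET.xfun, TET.xpoly, gram, opp] <;> ring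

theorem adj_mul {c : Fin 6 → ℝ} (h : gram c = 0) (e : Fin 6) :
    adjd c (ec e) * adjd c (ed e) = TET.xfun c e ^ 2 := by
  have := adj_jacobi c e
  rw [h, zero_mul] at this
  linarith

/-- the excess at the vertex `q` -/
noncomputable def exc (t : Fin 6 → ℝ) (q : Fin 4) : ℝ := A t q - π

/-- the slack of the star inequality of the edge `st q j` -/
noncomputable def slk (t : Fin 6 → ℝ) (q : Fin 4) (j : Fin 3) : ℝ := π + 2 * t (st q j) - A t q

theorem four_cos (a b c : ℝ) :
    1 - cos a ^ 2 - cos b ^ 2 - cos c ^ 2 - 2 * (cos a * cos b * cos c) =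
      -(4 * (cos ((a + b + c) / 2) * cos ((a + b + c) / 2 - a) * cos ((a + b + c) / 2 - b) *
        cos ((a + b + c) / 2 - c))) := by
  have h : ∀ x y : ℝ, 2 * (cos x * cos y) = cos (x + y) + cos (x - y) := by
    intro x y
    rw [cos_add, cos_sub]; ring
  have e1 : 2 * (cos ((a + b + c) / 2) * cos ((a + b + c) / 2 - a)) =
      cos (b + c) + cos a := by
    rw [h]; congr 1 <;> congr 1 <;> ring
  have e2 : 2 * (cos ((a + b + c) / 2 - b) * cos ((a + b + c) / 2 - c)) =
      cos a + cos (b - c) := by
    rw [h, ← cos_neg ((a + b + c) / 2 - b - ((a + b + c) / 2 - c))]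
    congr 1 <;> congr 1 <;> ring
  have e3 : 4 * (cos ((a + b + c) / 2) * cos ((a + b + c) / 2 - a) *
      cos ((a + b + c) / 2 - b) * cos ((a + b + c) / 2 - c)) =
      (cos (b + c) + cos a) * (cos a + cos (b - c)) := by
    rw [← e1, ← e2]; ring
  rw [e3, cos_add, cos_sub]
  have hb := sin_sq_add_cos_sq b
  have hc := sin_sq_add_cos_sq c
  have hb' : sin b ^ 2 = 1 - cos b ^ 2 := by linarith
  have hc' : sin c ^ 2 = 1 - cos c ^ 2 := by linarith
  have : (cos b * cos c - sin b * sin c + cos a) * (cos a + (cos b * cos c + sin b * sin c)) =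
      cos a ^ 2 + 2 * (cos a * cos b * cos c) + cos b ^ 2 * cos c ^ 2 -
        sin b ^ 2 * sin c ^ 2 := by ring
  rw [this, hb', hc']
  ring

/-- the cofactor at a vertex is four times the product of the sines of half the excess and half
the three slacks -/
theorem adjd_cosv (t : Fin 6 → ℝ) (q : Fin 4) :
    adjd (cosv t) q = 4 * (sin (exc t q / 2) * sin (slk t q 0 / 2) *
      sin (slk t q 1 / 2) * sin (slk t q 2 / 2)) := by
  have h0 : sin (exc t q / 2) = - cos (A t q / 2) := by
    unfold exc
    rw [show (A t q - π) / 2 = A t q / 2 - π / 2 by ring, sin_sub_pi_div_two]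
  have h1 : ∀ j : Fin 3, sin (slk t q j / 2) = cos (A t q / 2 - t (st q j)) := by
    intro j
    unfold slk
    rw [show (π + 2 * t (st q j) - A t q) / 2 = π / 2 - (A t q / 2 - t (st q j)) by ring,
      sin_pi_div_two_sub]
  rw [h0, h1, h1, h1]
  unfold adjd cosv
  rw [four_cos (t (st q 0)) (t (st q 1)) (t (st q 2))]
  unfold A
  ring

/-- if the Gram determinant is zero then the square of an entry of the adjugate is the product of
the two diagonal entries -/
theorem adjm_sq {c : Fin 6 → ℝ} (h : gram c = 0) (i j : Fin 4) :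
    adjm c i i * adjm c j j = adjm c i j ^ 2 := by
  have h0 := adj_mul h 0
  have h1 := adj_mul h 1
  have h2 := adj_mul h 2
  have h3 := adj_mul h 3
  have h4 := adj_mul h 4
  have h5 := adj_mul h 5
  simp [ec, ed] at h0 h1 h2 h3 h4 h5
  fin_cases i <;> fin_cases j <;> simp [adjm] <;> linarith

end Pool.Agent.TetDim
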