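import Pool.Agent.TetDim.Four

/-! # Four types: the star forms, the minors as sine products, a simple zero (for T4, part b) -/

set_option autoImplicit false

namespace Pool.Agent.TetDim

open Real

namespace B4

/-- the four star forms at a vertex -/
noncomputable def z (t : Fin 6 → ℝ) (q : Fin 4) : Fin 4 → ℝ :=
  ![A t q - π, π + 2 * t (st q 0) - A t q, π + 2 * t (st q 1) - A t q,
    π + 2 * t (st q 2) - A t q]

theorem star_iff (t : Fin 6 → ℝ) : Star t ↔ ∀ q i, 0 < z t q i := by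
  constructor
  · intro h q i
    obtain ⟨h1, h2⟩ := h q
    fin_cases i
    · exact sub_pos.2 h1
    · exact sub_pos.2 (h2 0)
    · exact sub_pos.2 (h2 1)
    · exact sub_pos.2 (h2 2)
  · intro h q
    refine ⟨sub_pos.1 (h q 0), fun j => ?_⟩
    fin_cases j
    · exact sub_pos.1 (h q 1)
    · exact sub_pos.1 (h q 2)
    · exact sub_pos.1 (h q 3)

theorem starC_iff (t : Fin 6 → ℝ) : StarC t ↔ ∀ q i, 0 ≤ z t q i := by
  constructor
  · intro h q i
    obtain ⟨h1, h2⟩ := h q
    fin_cases i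
    · exact sub_nonneg.2 h1
    · exact sub_nonneg.2 (h2 0)
    · exact sub_nonneg.2 (h2 1)
    · exact sub_nonneg.2 (h2 2)
  · intro h q
    refine ⟨sub_nonneg.1 (h q 0), fun j => ?_⟩
    fin_cases j
    · exact sub_nonneg.1 (h q 1)
    · exact sub_nonneg.1 (h q 2)
    · exact sub_nonneg.1 (h q 3)

theorem z_sum (t : Fin 6 → ℝ) (q : Fin 4) : ∑ i, z t q i = 2 * π := by
  rw [Fin.sum_univ_four]
  change (A t q - π) + (π + 2 * t (st q 0) - A t q) + (π + 2 * t (st q 1) - A t q) +
    (π + 2 * t (st q 2) - A t q) = 2 * π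
  rw [A]
  ring

theorem z_line (t k : Fin 6 → ℝ) (τ : ℝ) (q i : Fin 4) :
    z (fun e => t e + τ * k e) q i =
      (1 - τ) * z t q i + τ * z (fun e => t e + 1 * k e) q i := by
  fin_cases i
  · change (A (fun e => t e + τ * k e) q - π) = (1 - τ) * (A t q - π) +
      τ * (A (fun e => t e + 1 * k e) q - π)
    simp only [A]
    ring
  · change (π + 2 * (t (st q 0) + τ * k (st q 0)) - A (fun e => t e + τ * k e) q) =
      (1 - τ) * (π + 2 * t (st q 0) - A t q) +
      τ * (π + 2 * (t (st q 0) + 1 * k (st q 0)) - A (fun e => t e + 1 * k e) q)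
    simp only [A]
    ring
  · change (π + 2 * (t (st q 1) + τ * k (st q 1)) - A (fun e => t e + τ * k e) q) =
      (1 - τ) * (π + 2 * t (st q 1) - A t q) +
      τ * (π + 2 * (t (st q 1) + 1 * k (st q 1)) - A (fun e => t e + 1 * k e) q)
    simp only [A]
    ring
  · change (π + 2 * (t (st q 2) + τ * k (st q 2)) - A (fun e => t e + τ * k e) q) =
      (1 - τ) * (π + 2 * t (st q 2) - A t q) +
      τ * (π + 2 * (t (st q 2) + 1 * k (st q 2)) - A (fun e => t e + 1 * k e) q)
    simp only [A]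
    ring

theorem trig (a b c : ℝ) :
    1 - cos a ^ 2 - cos b ^ 2 - cos c ^ 2 - 2 * (cos a * cos b * cos c) =
      4 * (sin ((a + b + c - π) / 2) * sin ((π + 2 * a - (a + b + c)) / 2) *
        sin ((π + 2 * b - (a + b + c)) / 2) * sin ((π + 2 * c - (a + b + c)) / 2)) := by
  have e0 : sin ((a + b + c - π) / 2) = -cos ((b + c + a) / 2) := by
    rw [show (a + b + c - π) / 2 = (b + c + a) / 2 - π / 2 by ring, sin_sub_pi_div_two]
  have e1 : sin ((π + 2 * a - (a + b + c)) / 2) = cos ((b + c - a) / 2) := by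
    rw [show (π + 2 * a - (a + b + c)) / 2 = π / 2 - (b + c - a) / 2 by ring,
      sin_pi_div_two_sub]
  have e2 : sin ((π + 2 * b - (a + b + c)) / 2) = cos ((a - (b - c)) / 2) := by
    rw [show (π + 2 * b - (a + b + c)) / 2 = π / 2 - (a - (b - c)) / 2 by ring,
      sin_pi_div_two_sub]
  have e3 : sin ((π + 2 * c - (a + b + c)) / 2) = cos ((a + (b - c)) / 2) := by
    rw [show (π + 2 * c - (a + b + c)) / 2 = π / 2 - (a + (b - c)) / 2 by ring,
      sin_pi_div_two_sub]
  have h1 := cos_add_cos (b + c) a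
  have h2 := cos_add_cos a (b - c)
  rw [e0, e1, e2, e3]
  have h3 : (cos (b + c) + cos a) * (cos a + cos (b - c)) =
      4 * (cos ((b + c + a) / 2) * cos ((b + c - a) / 2) * cos ((a - (b - c)) / 2) *
        cos ((a + (b - c)) / 2)) := by
    rw [h1, h2]
    ring
  have hb := sin_sq_add_cos_sq b
  have hc := sin_sq_add_cos_sq c
  rw [cos_add, cos_sub] at h3
  have h4 : (sin b * sin c) ^ 2 = (1 - cos b ^ 2) * (1 - cos c ^ 2) := by
    rw [mul_pow]
    have : sin b ^ 2 = 1 - cos b ^ 2 := by linarith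
    have : sin c ^ 2 = 1 - cos c ^ 2 := by linarith
    rw [‹sin b ^ 2 = _›, ‹sin c ^ 2 = _›]
  linear_combination -h3 - h4

theorem adjd_eq (t : Fin 6 → ℝ) (q : Fin 4) :
    adjd (cosv t) q = 4 * ∏ i, sin (z t q i / 2) := by
  have h := trig (t (st q 0)) (t (st q 1)) (t (st q 2))
  rw [Fin.prod_univ_four]
  exact h

theorem jac (c : Fin 6 → ℝ) (e : Fin 6) :
    adjd c (TetRel.ec e) * adjd c (TetRel.ed e) =
      TET.xfun c e ^ 2 + gram c * (1 - c (5 - e) ^ 2) := by
  fin_cases e <;>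
    simp [adjd, TetRel.ec, TetRel.ed, TET.xfun, TET.xpoly, gram, st] <;> ring

/-- a simple zero is impossible -/
theorem simple_zero {S W x : ℝ → ℝ} {s' : ℝ} (hS : HasDerivAt S s' 1)
    (hW : DifferentiableAt ℝ W 1) (hx : DifferentiableAt ℝ x 1)
    (h : ∀ τ, S τ * W τ = x τ ^ 2) (hS0 : S 1 = 0) : s' * W 1 = 0 := by
  have hx0 : x 1 = 0 := by
    have := h 1
    rw [hS0, zero_mul, eq_comm] at this
    exact pow_eq_zero_iff (two_ne_zero) |>.1 this
  have h1 := hS.mul hW.hasDerivAt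
  have h2 := hx.hasDerivAt.pow 2
  have h3 : (fun τ => S τ * W τ) = fun τ => x τ ^ 2 := funext h
  have h4 : HasDerivAt (fun τ => S τ * W τ) (((2 : ℕ) : ℝ) * x 1 ^ (2 - 1) * deriv x 1) 1 := by
    rw [h3]
    exact h2
  have h5 := h1.unique h4
  rw [hx0, hS0] at h5
  simpa using h5

end B4

end Pool.Agent.TetDim
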