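import Pool.Agent.TetDim.BasicG
import Pool.Agent.TetDim.Realize
import Pool.Agent.TetRel.Dihedral

/-! # Lengths, faces, dihedral angles of a tetrahedron: `basic` (package B, helper82) -/

set_option autoImplicit false

open Real
open scoped InnerProductSpace

namespace Pool.Agent.TetDim

open Pool.Agent.TetRel

theorem pos_of_tri {l : Fin 6 → ℝ} (h : Tri l) (i : Fin 6) : 0 < l i := (good_pos h).1 i

theorem F_pos {l : Fin 6 → ℝ} (h : Tri l) (c : Fin 4) : 0 < F l c := (good_pos h).2 c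

theorem FF_pos {l : Fin 6 → ℝ} (h : Tri l) (i : Fin 6) : 0 < F l (ec i) * F l (ed i) :=
  mul_pos (F_pos h _) (F_pos h _)

/-- cosine and sine of `Th`, also in the limit case `P = 0` -/
theorem Th_facts' {l : Fin 6 → ℝ} (h : Tri l) (hP : 0 ≤ P l) (i : Fin 6) :
    cos (Th l i) = N l i / √(F l (ec i) * F l (ed i)) ∧
    sin (Th l i) = 2 * l i * √(P l) / √(F l (ec i) * F l (ed i)) := by
  have hF := FF_pos h i
  have hs : 0 < √(F l (ec i) * F l (ed i)) := Real.sqrt_pos.2 hF
  have hs2 : √(F l (ec i) * F l (ed i)) ^ 2 = F l (ec i) * F l (ed i) := Real.sq_sqrt hF.le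
  have hm := F_mul l i
  have hl := pos_of_tri h i
  have hq : (N l i / √(F l (ec i) * F l (ed i))) ^ 2 ≤ 1 := by
    rw [div_pow, hs2, div_le_one hF, hm]
    nlinarith [mul_nonneg (sq_nonneg (l i)) hP]
  have hab := abs_le.1 ((sq_le_one_iff_abs_le_one _).1 hq)
  constructor
  · exact Real.cos_arccos hab.1 hab.2
  · unfold Th
    rw [Real.sin_arccos]
    have : 1 - (N l i / √(F l (ec i) * F l (ed i))) ^ 2 =
        (2 * l i * √(P l) / √(F l (ec i) * F l (ed i))) ^ 2 := by
      rw [div_pow, div_pow, hs2, mul_pow, mul_pow, Real.sq_sqrt hP]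
      rw [eq_div_iff hF.ne', sub_mul, div_mul_cancel₀ _ hF.ne', hm]
      ring
    rw [this, Real.sqrt_sq (by positivity)]

/-- the computation at one edge: `e = Y - X`, `p = Z - X`, `q = W - X` -/
theorem edge_calc {X Y Z W : E3} (he : Y - X ≠ 0) :
    heron (dist X Y) (dist X Z) (dist Y Z) =
      4 * dist X Y ^ 2 * ‖perp (Y - X) (Z - X)‖ ^ 2 ∧
    num (dist X Y) (dist X Z) (dist Y Z) (dist X W) (dist Y W) (dist Z W) =
      4 * dist X Y ^ 2 * ⟪perp (Y - X) (Z - X), perp (Y - X) (W - X)⟫_ℝ := by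
  have d1 : ∀ A B : E3, dist (A : E3) B ^ 2 = ⟪B - A, B - A⟫_ℝ := by
    intro A B
    rw [dist_comm, dist_eq_norm, real_inner_self_eq_norm_sq]
  have hee : ⟪Y - X, Y - X⟫_ℝ ≠ 0 := by simpa using he
  have YZ : dist Y Z ^ 2 = ⟪(Z - X) - (Y - X), (Z - X) - (Y - X)⟫_ℝ := by
    rw [d1]
    congr 1 <;> abel
  have YW : dist Y W ^ 2 = ⟪(W - X) - (Y - X), (W - X) - (Y - X)⟫_ℝ := by
    rw [d1]
    congr 1 <;> abel
  have ZW : dist Z W ^ 2 = ⟪(W - X) - (Z - X), (W - X) - (Z - X)⟫_ℝ := by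
    rw [d1]
    congr 1 <;> abel
  have XY := d1 X Y
  have XZ := d1 X Z
  have XW := d1 X W
  generalize Y - X = e at *
  generalize Z - X = p at *
  generalize W - X = q at *
  have c1 : ⟪p, e⟫_ℝ = ⟪e, p⟫_ℝ := real_inner_comm _ _
  have c2 : ⟪q, e⟫_ℝ = ⟪e, q⟫_ℝ := real_inner_comm _ _
  have c3 : ⟪q, p⟫_ℝ = ⟪p, q⟫_ℝ := real_inner_comm _ _
  simp only [inner_sub_left, inner_sub_right, c1, c2, c3] at YZ YW ZW
  constructor
  · rw [← real_inner_self_eq_norm_sq]
    unfold perp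
    simp only [inner_sub_left, inner_sub_right, inner_smul_left, inner_smul_right,
      RCLike.conj_to_real, c1]
    have hh : heron (dist X Y) (dist X Z) (dist Y Z) =
        4 * dist X Y ^ 2 * dist X Z ^ 2 - (dist X Y ^ 2 + dist X Z ^ 2 - dist Y Z ^ 2) ^ 2 := by
      unfold heron
      ring
    rw [hh, XY, XZ, YZ]
    field_simp
    ring
  · unfold perp
    simp only [inner_sub_left, inner_sub_right, inner_smul_left, inner_smul_right,
      RCLike.conj_to_real, c1, c2]
    unfold num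
    rw [XY, XZ, YZ, XW, YW, ZW]
    field_simp
    ring

theorem forms (v : Fin 4 → E3) (i : Fin 6) :
    len v i = dist (v (ea i)) (v (eb i)) ∧
    F (len v) (ed i) = heron (dist (v (ea i)) (v (eb i))) (dist (v (ea i)) (v (ec i)))
      (dist (v (eb i)) (v (ec i))) ∧
    F (len v) (ec i) = heron (dist (v (ea i)) (v (eb i))) (dist (v (ea i)) (v (ed i)))
      (dist (v (eb i)) (v (ed i))) ∧
    N (len v) i = num (dist (v (ea i)) (v (eb i))) (dist (v (ea i)) (v (ec i)))
      (dist (v (eb i)) (v (ec i))) (dist (v (ea i)) (v (ed i))) (dist (v (eb i)) (v (ed i)))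
      (dist (v (ec i)) (v (ed i))) := by
  have c10 : dist (v 1) (v 0) = dist (v 0) (v 1) := dist_comm _ _
  have c20 : dist (v 2) (v 0) = dist (v 0) (v 2) := dist_comm _ _
  have c30 : dist (v 3) (v 0) = dist (v 0) (v 3) := dist_comm _ _
  have c21 : dist (v 2) (v 1) = dist (v 1) (v 2) := dist_comm _ _
  have c31 : dist (v 3) (v 1) = dist (v 1) (v 3) := dist_comm _ _
  have c32 : dist (v 3) (v 2) = dist (v 2) (v 3) := dist_comm _ _
  fin_cases i <;> simp [F, N, len, ea, eb, ec, ed, c10, c20, c30, c21, c31, c32] <;>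
    unfold heron <;> (try unfold num) <;> (try constructor) <;> ring

end Pool.Agent.TetDim
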