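import Pool.Agent.TetDim.B4Base

/-! # T4, part b: on the segment to a boundary point (helper46, on helper34's base) -/

set_option autoImplicit false

open Real

namespace Pool.Agent.TetDim

/-- the point at time `τ` -/
def seg4 (t0 k : Fin 6 → ℝ) (τ : ℝ) : Fin 6 → ℝ := fun e => t0 e + τ * k e

namespace B4

theorem z_lt {t : Fin 6 → ℝ} {q i : Fin 4} (h : ∀ j, 0 ≤ z t q j) {j : Fin 4} (hji : j ≠ i)
    (hj : 0 < z t q j) : z t q i < 2 * π := by
  have hs := z_sum t q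
  have h1 : z t q i + z t q j ≤ ∑ l, z t q l := by
    rw [← Finset.sum_pair hji.symm]
    exact Finset.sum_le_sum_of_subset_of_nonneg (Finset.subset_univ _) fun l _ _ => h l
  linarith

theorem z_le {t : Fin 6 → ℝ} {q i : Fin 4} (h : ∀ j, 0 ≤ z t q j) : z t q i ≤ 2 * π := by
  have hs := z_sum t q
  have h1 : z t q i ≤ ∑ l, z t q l :=
    Finset.single_le_sum (fun l _ => h l) (Finset.mem_univ i)
  linarith

theorem sin_z_nonneg {t : Fin 6 → ℝ} (hC : StarC t) (q i : Fin 4) : 0 ≤ sin (z t q i / 2) := by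
  have h := (starC_iff t).1 hC q
  have := h i
  have := z_le (i := i) h
  exact sin_nonneg_of_nonneg_of_le_pi (by linarith) (by linarith)

theorem adjd_nonneg {t : Fin 6 → ℝ} (hC : StarC t) (q : Fin 4) : 0 ≤ adjd (cosv t) q := by
  rw [adjd_eq]
  exact mul_nonneg (by norm_num) (Finset.prod_nonneg fun i _ => sin_z_nonneg hC q i)

theorem exists_ne (i : Fin 4) : ∃ j, j ≠ i := by revert i; decide

theorem exists_third : ∀ i i0 : Fin 4, ∃ j, j ≠ i ∧ j ≠ i0 := by decide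

theorem pair_cases : ∀ i j : Fin 4, i < j → (i = 0 ∧ j = 1) ∨ (i = 0 ∧ j = 2) ∨
    (i = 0 ∧ j = 3) ∨ (i = 1 ∧ j = 2) ∨ (i = 1 ∧ j = 3) ∨ (i = 2 ∧ j = 3) := by decide

theorem adjd_pos {t : Fin 6 → ℝ} (hS : Star t) (q : Fin 4) : 0 < adjd (cosv t) q := by
  rw [adjd_eq]
  have h := (star_iff t).1 hS q
  refine mul_pos (by norm_num) (Finset.prod_pos fun i _ => ?_)
  obtain ⟨j, hj⟩ := exists_ne i
  have h1 := h i
  have h2 := z_lt (fun l => (h l).le) hj (h j)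
  exact sin_pos_of_pos_of_lt_pi (by linarith) (by linarith)

variable {t0 k : Fin 6 → ℝ}

theorem seg_one : seg4 t0 k 1 = fun e => t0 e + 1 * k e := rfl

theorem seg_star (h1 : Star t0) (hC : StarC (seg4 t0 k 1)) {τ : ℝ} (h0 : 0 ≤ τ) (hτ : τ < 1) :
    Star (seg4 t0 k τ) := by
  rw [star_iff]
  intro q i
  have e := z_line t0 k τ q i
  change z (seg4 t0 k τ) q i = (1 - τ) * z t0 q i + τ * z (seg4 t0 k 1) q i at e
  rw [e]
  have a := (star_iff t0).1 h1 q i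
  have b := (starC_iff _).1 hC q i
  have : 0 < (1 - τ) * z t0 q i := mul_pos (by linarith) a
  have : 0 ≤ τ * z (seg4 t0 k 1) q i := mul_nonneg h0 b
  linarith

theorem differentiable_xfun (e : Fin 6) :
    Differentiable ℝ (fun τ => TET.xfun (cosv (seg4 t0 k τ)) e) := by
  fin_cases e <;> simp [TET.xfun, TET.xpoly, cosv, seg4] <;> fun_prop

theorem differentiable_adjd (q : Fin 4) :
    Differentiable ℝ (fun τ => adjd (cosv (seg4 t0 k τ)) q) := by
  unfold adjd cosv seg4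
  fun_prop

theorem seg_zero : seg4 t0 k 0 = t0 := by
  funext e
  simp [seg4]

theorem xfun_ne (hG : ∀ τ : ℝ, gram (cosv (seg4 t0 k τ)) = 0) {τ : ℝ}
    (hS : Star (seg4 t0 k τ)) (e : Fin 6) : TET.xfun (cosv (seg4 t0 k τ)) e ≠ 0 := by
  intro h
  have hj := jac (cosv (seg4 t0 k τ)) e
  rw [hG τ, h] at hj
  have := mul_pos (adjd_pos hS (TetRel.ec e)) (adjd_pos hS (TetRel.ed e))
  rw [hj] at this
  norm_num at this

theorem xfun_pos (hG : ∀ τ : ℝ, gram (cosv (seg4 t0 k τ)) = 0) (h1 : Star t0)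
    (h2 : ∀ e, 0 < TET.xfun (cosv t0) e) (hC : StarC (seg4 t0 k 1)) {τ : ℝ} (h0 : 0 ≤ τ)
    (hτ : τ < 1) (e : Fin 6) : 0 < TET.xfun (cosv (seg4 t0 k τ)) e := by
  by_contra hcon
  push Not at hcon
  have hc := (differentiable_xfun (t0 := t0) (k := k) e).continuous
  have := intermediate_value_Icc' h0 hc.continuousOn
  have hm : (0 : ℝ) ∈ Set.Icc (TET.xfun (cosv (seg4 t0 k τ)) e)
      (TET.xfun (cosv (seg4 t0 k 0)) e) := by
    refine ⟨hcon, ?_⟩
    rw [seg_zero]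
    exact (h2 e).le
  obtain ⟨s, hs, hs0⟩ := this hm
  exact xfun_ne hG (seg_star h1 hC hs.1 (hs.2.trans_lt hτ)) e hs0

theorem xfun_nonneg (hG : ∀ τ : ℝ, gram (cosv (seg4 t0 k τ)) = 0) (h1 : Star t0)
    (h2 : ∀ e, 0 < TET.xfun (cosv t0) e) (hC : StarC (seg4 t0 k 1)) (e : Fin 6) :
    0 ≤ TET.xfun (cosv (seg4 t0 k 1)) e := by
  by_contra hcon
  push Not at hcon
  have hc := (differentiable_xfun (t0 := t0) (k := k) e).continuous
  have := intermediate_value_Icc' (zero_le_one) hc.continuousOn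
  have hm : (0 : ℝ) ∈ Set.Icc (TET.xfun (cosv (seg4 t0 k 1)) e)
      (TET.xfun (cosv (seg4 t0 k 0)) e) := by
    refine ⟨hcon.le, ?_⟩
    rw [seg_zero]
    exact (h2 e).le
  obtain ⟨s, hs, hs0⟩ := this hm
  rcases hs.2.lt_or_eq with h | h
  · exact xfun_ne hG (seg_star h1 hC hs.1 h) e hs0
  · rw [h] at hs0
    have hs0' : TET.xfun (cosv (seg4 t0 k 1)) e = 0 := hs0
    linarith

theorem edge_of : ∀ q d : Fin 4, q ≠ d →
    ∃ e : Fin 6, (TetRel.ec e = q ∧ TetRel.ed e = d) ∨ (TetRel.ec e = d ∧ TetRel.ed e = q) := by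
  decide

/-- if one form vanishes at `q` and the minor at another vertex is positive, a second form
vanishes at `q` -/
theorem second_zero (hG : ∀ τ : ℝ, gram (cosv (seg4 t0 k τ)) = 0) (h1 : Star t0)
    (hC : StarC (seg4 t0 k 1)) {q d i0 : Fin 4} (hq : z (seg4 t0 k 1) q i0 = 0)
    (hd : 0 < adjd (cosv (seg4 t0 k 1)) d) : ∃ i1, i1 ≠ i0 ∧ z (seg4 t0 k 1) q i1 = 0 := by
  by_contra hcon
  push Not at hcon
  have hC' := (starC_iff _).1 hC q
  have hpos : ∀ i, i ≠ i0 → 0 < z (seg4 t0 k 1) q i := fun i hi =>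
    lt_of_le_of_ne (hC' i) (Ne.symm (hcon i hi))
  have hqd : q ≠ d := by
    rintro rfl
    rw [adjd_eq, Finset.prod_eq_zero (Finset.mem_univ i0)] at hd
    · simp at hd
    · rw [hq]; simp
  obtain ⟨e, he⟩ := edge_of q d hqd
  have hz : ∀ τ i, z (seg4 t0 k τ) q i = (1 - τ) * z t0 q i + τ * z (seg4 t0 k 1) q i :=
    fun τ i => z_line t0 k τ q i
  let S : ℝ → ℝ := fun τ => sin (((1 - τ) * z t0 q i0 + τ * z (seg4 t0 k 1) q i0) / 2)
  let W : ℝ → ℝ := fun τ =>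
    (4 * ∏ i ∈ Finset.univ.erase i0, sin (((1 - τ) * z t0 q i + τ * z (seg4 t0 k 1) q i) / 2)) *
      adjd (cosv (seg4 t0 k τ)) d
  have hSd : HasDerivAt S (-(z t0 q i0) / 2) 1 := by
    have e1 : HasDerivAt (fun τ : ℝ => ((1 - τ) * z t0 q i0 + τ * z (seg4 t0 k 1) q i0) / 2)
        (-(z t0 q i0) / 2) 1 := by
      have a1 : HasDerivAt (fun τ : ℝ => (1 - τ) * z t0 q i0) (-(z t0 q i0)) 1 := by
        have := ((hasDerivAt_id' (1 : ℝ)).const_sub 1).mul_const (z t0 q i0)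
        simpa using this
      have a2 : HasDerivAt (fun τ : ℝ => τ * z (seg4 t0 k 1) q i0) 0 1 := by
        have := (hasDerivAt_id' (1 : ℝ)).mul_const (z (seg4 t0 k 1) q i0)
        rw [hq] at this ⊢
        simpa using this
      have := (a1.add a2).div_const 2
      simpa using this
    have e2 := e1.sin
    have e3 : cos (((1 - (1 : ℝ)) * z t0 q i0 + 1 * z (seg4 t0 k 1) q i0) / 2) = 1 := by
      rw [hq]; simp
    rw [e3, one_mul] at e2
    exact e2
  have hWd : DifferentiableAt ℝ W 1 := by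
    have h3 := (differentiable_adjd (t0 := t0) (k := k) d) 1
    have h4 : DifferentiableAt ℝ (fun τ : ℝ => 4 * ∏ i ∈ Finset.univ.erase i0,
        sin (((1 - τ) * z t0 q i + τ * z (seg4 t0 k 1) q i) / 2)) 1 := by
      refine DifferentiableAt.const_mul ?_ _
      refine DifferentiableAt.fun_finsetProd fun i _ => ?_
      fun_prop
    exact h4.mul h3
  have hxd := (differentiable_xfun (t0 := t0) (k := k) e) 1
  have hkey : ∀ τ, S τ * W τ = (TET.xfun (cosv (seg4 t0 k τ)) e) ^ 2 := by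
    intro τ
    have hj := jac (cosv (seg4 t0 k τ)) e
    rw [hG τ, zero_mul, add_zero] at hj
    have h3 : adjd (cosv (seg4 t0 k τ)) q * adjd (cosv (seg4 t0 k τ)) d =
        (TET.xfun (cosv (seg4 t0 k τ)) e) ^ 2 := by
      rcases he with ⟨h4, h5⟩ | ⟨h4, h5⟩
      · rw [h4, h5] at hj; exact hj
      · rw [h4, h5] at hj; rw [mul_comm]; exact hj
    rw [← h3, adjd_eq (seg4 t0 k τ) q]
    simp only [S, W]
    rw [← Finset.mul_prod_erase Finset.univ _ (Finset.mem_univ i0)]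
    simp only [hz τ]
    ring
  have hS1 : S 1 = 0 := by
    simp only [S]; rw [hq]; simp
  have hfin := simple_zero hSd hWd hxd hkey hS1
  have hW1 : 0 < W 1 := by
    simp only [W]
    refine mul_pos (mul_pos (by norm_num) (Finset.prod_pos fun i hi => ?_)) hd
    have hi' : i ≠ i0 := Finset.ne_of_mem_erase hi
    have h3 := hpos i hi'
    have h4 : z (seg4 t0 k 1) q i < 2 * π := by
      obtain ⟨j, hj1, hj2⟩ := exists_third i i0
      exact z_lt hC' hj1 (hpos j hj2)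
    have e3 : ((1 - (1 : ℝ)) * z t0 q i + 1 * z (seg4 t0 k 1) q i) / 2 =
        z (seg4 t0 k 1) q i / 2 := by ring
    rw [e3]
    exact sin_pos_of_pos_of_lt_pi (by linarith) (by linarith)
  have h3 := (star_iff t0).1 h1 q i0
  rcases mul_eq_zero.1 hfin with h4 | h4
  · linarith
  · linarith

/-- the other two edges at the first end of an edge -/
def oa : Fin 6 → Fin 6 × Fin 6 := ![(1, 2), (0, 2), (0, 1), (0, 4), (0, 3), (1, 3)]

/-- the other two edges at the second end of an edge -/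
def ob : Fin 6 → Fin 6 × Fin 6 := ![(3, 4), (3, 5), (4, 5), (1, 5), (2, 5), (2, 4)]

theorem starC_pi {t : Fin 6 → ℝ} (hC : StarC t) {e : Fin 6} (he : t e = π) :
    t (oa e).1 = t (oa e).2 ∧ t (ob e).1 = t (ob e).2 := by
  have c0 := (hC 0).2
  have c1 := (hC 1).2
  have c2 := (hC 2).2
  have c3 := (hC 3).2
  simp only [Fin.forall_fin_succ, A, st] at c0 c1 c2 c3
  simp at c0 c1 c2 c3
  fin_cases e <;> simp [oa, ob] at he ⊢ <;> constructor <;> linarith

theorem eqrows {c : Fin 6 → ℝ} {e : Fin 6} (he : c e = -1) (h1 : c (oa e).1 = c (oa e).2)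
    (h2 : c (ob e).1 = c (ob e).2) :
    adjd c (TetRel.ea e) = 0 ∧ adjd c (TetRel.eb e) = 0 ∧
      adjd c (TetRel.ec e) = -TET.xfun c e ∧ adjd c (TetRel.ed e) = -TET.xfun c e := by
  fin_cases e <;>
    simp [oa, ob, adjd, TetRel.ea, TetRel.eb, TetRel.ec, TetRel.ed, TET.xfun, TET.xpoly, st]
      at he h1 h2 ⊢ <;> rw [he, h1, h2] <;> refine ⟨?_, ?_, ?_, ?_⟩ <;> ring

theorem all_ends : ∀ (e : Fin 6) (d : Fin 4), d = TetRel.ea e ∨ d = TetRel.eb e ∨
    d = TetRel.ec e ∨ d = TetRel.ed e := by decide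

/-- no angle is `π` when some minor is positive -/
theorem no_pi (hG : ∀ τ : ℝ, gram (cosv (seg4 t0 k τ)) = 0) (h1 : Star t0)
    (h2 : ∀ e, 0 < TET.xfun (cosv t0) e) (hC : StarC (seg4 t0 k 1)) {d : Fin 4}
    (hd : 0 < adjd (cosv (seg4 t0 k 1)) d) (e : Fin 6) : seg4 t0 k 1 e ≠ π := by
  intro he
  obtain ⟨ha, hb⟩ := starC_pi hC he
  have hx := xfun_nonneg hG h1 h2 hC e
  obtain ⟨r1, r2, r3, r4⟩ := eqrows (c := cosv (seg4 t0 k 1)) (e := e)
    (by simp only [cosv]; rw [he, cos_pi]) (by simp only [cosv]; rw [ha])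
    (by simp only [cosv]; rw [hb])
  rcases all_ends e d with h | h | h | h
  · rw [h, r1] at hd; exact lt_irrefl _ hd
  · rw [h, r2] at hd; exact lt_irrefl _ hd
  · rw [h, r3] at hd; linarith
  · rw [h, r4] at hd; linarith

theorem other_end : ∀ (q : Fin 4) (j : Fin 3), ∃ q' j', q' ≠ q ∧ st q' j' = st q j := by decide

end B4

open B4

/-- (T4b, 1) -/
theorem interior_pos {t0 k : Fin 6 → ℝ} (hG : ∀ τ : ℝ, gram (cosv (seg4 t0 k τ)) = 0)
    (h1 : Star t0) (h2 : ∀ e, 0 < TET.xfun (cosv t0) e) (hC : StarC (seg4 t0 k 1)) {τ : ℝ}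
    (h0 : 0 ≤ τ) (hτ : τ < 1) : Star (seg4 t0 k τ) ∧ (∀ q, 0 < adjd (cosv (seg4 t0 k τ)) q) ∧
      ∀ e, 0 < TET.xfun (cosv (seg4 t0 k τ)) e := by
  have hS := seg_star h1 hC h0 hτ
  exact ⟨hS, adjd_pos hS, xfun_pos hG h1 h2 hC h0 hτ⟩

/-- (T4b, 2) at a boundary point where some minor is positive, two vertices have angle sum `π` -/
theorem deriv_case {t0 k : Fin 6 → ℝ} (hG : ∀ τ : ℝ, gram (cosv (seg4 t0 k τ)) = 0)
    (h1 : Star t0) (h2 : ∀ e, 0 < TET.xfun (cosv t0) e) (hC : StarC (seg4 t0 k 1))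
    (hN : ¬ Star (seg4 t0 k 1)) {d : Fin 4} (hd : 0 < adjd (cosv (seg4 t0 k 1)) d) :
    ∃ p q, p ≠ q ∧ A (seg4 t0 k 1) p = π ∧ A (seg4 t0 k 1) q = π := by
  have hC' := (starC_iff _).1 hC
  rw [star_iff] at hN
  push Not at hN
  obtain ⟨q, i0, hq⟩ := hN
  have hq0 : z (seg4 t0 k 1) q i0 = 0 := le_antisymm hq (hC' q i0)
  obtain ⟨i1, hne, hq1⟩ := second_zero hG h1 hC hq0 hd
  -- the case of the forms `A = π` and `t = 0`
  have key : ∀ j : Fin 3, A (seg4 t0 k 1) q = π → π + 2 * seg4 t0 k 1 (st q j) -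
      A (seg4 t0 k 1) q = 0 → ∃ p q, p ≠ q ∧ A (seg4 t0 k 1) p = π ∧ A (seg4 t0 k 1) q = π := by
    intro j hA hj
    obtain ⟨q', j', hq', he⟩ := other_end q j
    refine ⟨q', q, hq', ?_, hA⟩
    have h3 := (hC q').1
    have h4 := (hC q').2 j'
    rw [he] at h4
    linarith
  have nopi := no_pi hG h1 h2 hC hd
  have key2 : ∀ a b c : Fin 3, (∀ t : Fin 3 → ℝ, t 0 + t 1 + t 2 = t a + t b + t c) →
      π + 2 * seg4 t0 k 1 (st q a) - A (seg4 t0 k 1) q = 0 →
      π + 2 * seg4 t0 k 1 (st q b) - A (seg4 t0 k 1) q = 0 → False := by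
    intro a b c hs ha hb
    apply nopi (st q c)
    have h3 := hs (fun j => seg4 t0 k 1 (st q j))
    have h4 : A (seg4 t0 k 1) q = seg4 t0 k 1 (st q 0) + seg4 t0 k 1 (st q 1) +
      seg4 t0 k 1 (st q 2) := rfl
    linarith
  have z0 : z (seg4 t0 k 1) q 0 = A (seg4 t0 k 1) q - π := rfl
  have z1 : z (seg4 t0 k 1) q 1 = π + 2 * seg4 t0 k 1 (st q 0) - A (seg4 t0 k 1) q := rfl
  have z2 : z (seg4 t0 k 1) q 2 = π + 2 * seg4 t0 k 1 (st q 1) - A (seg4 t0 k 1) q := rfl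
  have z3 : z (seg4 t0 k 1) q 3 = π + 2 * seg4 t0 k 1 (st q 2) - A (seg4 t0 k 1) q := rfl
  have main : ∀ i j : Fin 4, i < j → z (seg4 t0 k 1) q i = 0 → z (seg4 t0 k 1) q j = 0 →
      ∃ p q, p ≠ q ∧ A (seg4 t0 k 1) p = π ∧ A (seg4 t0 k 1) q = π := by
    intro i j hij hi hj
    have hcase := pair_cases i j hij
    rcases hcase with ⟨rfl, rfl⟩ | ⟨rfl, rfl⟩ | ⟨rfl, rfl⟩ | ⟨rfl, rfl⟩ | ⟨rfl, rfl⟩ | ⟨rfl, rfl⟩
    · exact key 0 (by linarith) (by linarith)
    · exact key 1 (by linarith) (by linarith)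
    · exact key 2 (by linarith) (by linarith)
    · exact absurd (key2 0 1 2 (fun t => by ring) (by linarith) (by linarith)) id
    · exact absurd (key2 0 2 1 (fun t => by ring) (by linarith) (by linarith)) id
    · exact absurd (key2 1 2 0 (fun t => by ring) (by linarith) (by linarith)) id
  rcases lt_or_gt_of_ne hne with h | h
  · exact main i1 i0 h hq1 hq0
  · exact main i0 i1 h hq0 hq1

section plane

variable {t0 : Fin 6 → ℝ} {K : (Fin 2 → ℝ) →ₗ[ℝ] (Fin 6 → ℝ)}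

theorem seg_plane (τ : ℝ) (s : Fin 2 → ℝ) :
    seg4 t0 (K s) τ = fun e => t0 e + K (τ • s) e := by
  funext e
  simp [seg4]

theorem seg_plane_one (s : Fin 2 → ℝ) : seg4 t0 (K s) 1 = fun e => t0 e + K s e := by
  funext e
  simp [seg4]

/-- the first hypothesis of `no4_of` -/
theorem hint4 (hG : ∀ s, gram (cosv (fun e => t0 e + K s e)) = 0) (h1 : Star t0)
    (h2 : ∀ e, 0 < TET.xfun (cosv t0) e) (s : Fin 2 → ℝ)
    (hs : Star (fun e => t0 e + K s e)) :
    (∀ q, 0 < adjd (cosv (fun e => t0 e + K s e)) q) ∧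
      ∀ e, 0 < TET.xfun (cosv (fun e => t0 e + K s e)) e := by
  have hG' : ∀ τ : ℝ, gram (cosv (seg4 t0 (K s) τ)) = 0 := fun τ => by
    rw [seg_plane]; exact hG _
  refine ⟨adjd_pos hs, fun e => ?_⟩
  rw [← seg_plane_one (t0 := t0) (K := K) s] at hs ⊢
  have hC : StarC (seg4 t0 (K s) 1) := by
    rw [starC_iff]
    intro q i
    exact ((star_iff _).1 hs q i).le
  exact lt_of_le_of_ne (xfun_nonneg hG' h1 h2 hC e) (Ne.symm (xfun_ne hG' hs e))

/-- the second hypothesis of `no4_of` -/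
theorem hder4 (hG : ∀ s, gram (cosv (fun e => t0 e + K s e)) = 0) (h1 : Star t0)
    (h2 : ∀ e, 0 < TET.xfun (cosv t0) e) (s : Fin 2 → ℝ)
    (hC : StarC (fun e => t0 e + K s e)) (hN : ¬ Star (fun e => t0 e + K s e)) (d : Fin 4)
    (hd : 0 < adjd (cosv (fun e => t0 e + K s e)) d) :
    ∃ c d', c ≠ d' ∧ A (fun e => t0 e + K s e) c = π ∧ A (fun e => t0 e + K s e) d' = π := by
  have hG' : ∀ τ : ℝ, gram (cosv (seg4 t0 (K s) τ)) = 0 := fun τ => by
    rw [seg_plane]; exact hG _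
  rw [← seg_plane_one (t0 := t0) (K := K) s] at hC hN hd ⊢
  exact deriv_case hG' h1 h2 hC hN hd

end plane

end Pool.Agent.TetDim
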