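import Pool.Agent.TetDim.Defs

/-!
# Three relations: continuation over the whole cone of triangle inequalities

If three relations `∑ n i e * Th e = 2 π` hold at one point of the three-parameter family `J n c`
and their sines vanish at all its good points, then all points of the family which satisfy the
triangle inequalities are edge lengths of tetrahedra satisfying the three relations.
-/

set_option autoImplicit false

namespace Pool.Agent.TetDim

open Set Filter Topology

theorem J_cont {k : ℕ} (n : Fin k → Fin 6 → ℕ) (e : Fin 6) :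
    Continuous fun c : Fin k → ℝ => J n c e := by
  unfold J
  fun_prop

theorem D_cont {X : Type*} [TopologicalSpace X] {l : X → Fin 6 → ℝ}
    (hl : ∀ e, Continuous fun x => l x e) (k : Fin 3) : Continuous fun x => D (l x) k := by
  have h0 := hl 0
  have h1 := hl 1
  have h2 := hl 2
  have h3 := hl 3
  have h4 := hl 4
  have h5 := hl 5
  fin_cases k <;> simp [D] <;> fun_prop

theorem S_cont {X : Type*} [TopologicalSpace X] {l : X → Fin 6 → ℝ}
    (hl : ∀ e, Continuous fun x => l x e) (q : Fin 4) : Continuous fun x => S (l x) q := by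
  have h0 := hl 0
  have h1 := hl 1
  have h2 := hl 2
  have h3 := hl 3
  have h4 := hl 4
  have h5 := hl 5
  fin_cases q <;> simp [S] <;> fun_prop

theorem F_cont {X : Type*} [TopologicalSpace X] {l : X → Fin 6 → ℝ}
    (hl : ∀ e, Continuous fun x => l x e) (q : Fin 4) : Continuous fun x => F (l x) q := by
  have h0 := hl 0
  have h1 := hl 1
  have h2 := hl 2
  have h3 := hl 3
  have h4 := hl 4
  have h5 := hl 5
  fin_cases q <;> simp [F, heron] <;> fun_prop

theorem N_cont {X : Type*} [TopologicalSpace X] {l : X → Fin 6 → ℝ}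
    (hl : ∀ e, Continuous fun x => l x e) (i : Fin 6) : Continuous fun x => N (l x) i := by
  have h0 := hl 0
  have h1 := hl 1
  have h2 := hl 2
  have h3 := hl 3
  have h4 := hl 4
  have h5 := hl 5
  fin_cases i <;> simp [N, num] <;> fun_prop

theorem P_cont {X : Type*} [TopologicalSpace X] {l : X → Fin 6 → ℝ}
    (hl : ∀ e, Continuous fun x => l x e) : Continuous fun x => P (l x) := by
  have h0 := hl 0
  have h1 := hl 1
  have h2 := hl 2
  have h3 := hl 3
  have h4 := hl 4
  have h5 := hl 5
  unfold P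
  fun_prop

theorem Th_contAt {X : Type*} [TopologicalSpace X] {l : X → Fin 6 → ℝ}
    (hl : ∀ e, Continuous fun x => l x e) {x : X} (hF : ∀ c, 0 < F (l x) c) (i : Fin 6) :
    ContinuousAt (fun x => Th (l x) i) x := by
  unfold Th
  refine Real.continuous_arccos.continuousAt.comp ?_
  refine ((N_cont hl i).continuousAt).div ?_ ?_
  · exact (Real.continuous_sqrt.comp
      ((F_cont hl (TetRel.ec i)).mul (F_cont hl (TetRel.ed i)))).continuousAt
  · exact (Real.sqrt_pos.2 (mul_pos (hF _) (hF _))).ne'

/-- The combinatorics of a flat limit: at every vertex one or three edges have angle `π`. -/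
theorem flat_cases (t : Fin 6 → ℝ) (h0 : ∀ e, t e = 0 ∨ t e = Real.pi)
    (h1 : ∀ q, Real.pi ≤ A t q) (h2 : ∀ q j, A t q ≤ Real.pi + 2 * t (st q j)) :
    (∃ k : Fin 3, ∀ l : Fin 6 → ℝ, ∑ e, l e * t e = Real.pi * D l k) ∨
    (∃ q : Fin 4, ∀ l : Fin 6 → ℝ, (∀ e, 0 < l e) → Real.pi * S l q ≤ ∑ e, l e * t e) := by
  have hpi := Real.pi_pos
  have hv : ∀ q, (∀ j, t (st q j) = Real.pi) ∨
      (∃ j, t (st q j) = Real.pi ∧ ∀ i, i ≠ j → t (st q i) = 0) := by
    intro q
    have a1 := h1 q
    have a2 := h2 q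
    unfold A at a1 a2
    have b0 := h0 (st q 0)
    have b1 := h0 (st q 1)
    have b2 := h0 (st q 2)
    have c0 := a2 0
    have c1 := a2 1
    have c2 := a2 2
    rcases b0 with b0 | b0 <;> rcases b1 with b1 | b1 <;> rcases b2 with b2 | b2 <;>
      rw [b0, b1, b2] at a1 c0 c1 c2
    · exfalso; linarith
    · right; exact ⟨2, b2, by intro i hi; fin_cases i <;> simp_all⟩
    · right; exact ⟨1, b1, by intro i hi; fin_cases i <;> simp_all⟩
    · exfalso; linarith
    · right; exact ⟨0, b0, by intro i hi; fin_cases i <;> simp_all⟩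
    · exfalso; linarith
    · exfalso; linarith
    · left; intro j; fin_cases j <;> simp_all
  by_cases hs : ∃ q, ∀ j, t (st q j) = Real.pi
  · obtain ⟨q, hq⟩ := hs
    right
    refine ⟨q, fun l hl => ?_⟩
    have ht : ∀ e, 0 ≤ l e * t e := by
      intro e
      refine mul_nonneg (hl e).le ?_
      rcases h0 e with h | h <;> rw [h]
      exact hpi.le
    have k0 := ht 0
    have k1 := ht 1
    have k2 := ht 2
    have k3 := ht 3
    have k4 := ht 4
    have k5 := ht 5
    have q0 := hq 0
    have q1 := hq 1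
    have q2 := hq 2
    rw [Fin.sum_univ_six]
    fin_cases q <;> simp [st, S] at q0 q1 q2 ⊢ <;> rw [q0, q1, q2] at * <;> nlinarith
  · left
    have hv' : ∀ q, ∃ j, t (st q j) = Real.pi ∧ ∀ i, i ≠ j → t (st q i) = 0 := by
      intro q
      rcases hv q with h | h
      · exact absurd ⟨q, h⟩ hs
      · exact h
    have hs0 : ∀ q, A t q = Real.pi := by
      intro q
      obtain ⟨j, hj, hi⟩ := hv' q
      unfold A
      fin_cases j
      · rw [hi 1 (by decide), hi 2 (by decide)]
        have : t (st q 0) = Real.pi := hj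
        rw [this]; ring
      · rw [hi 0 (by decide), hi 2 (by decide)]
        have : t (st q 1) = Real.pi := hj
        rw [this]; ring
      · rw [hi 0 (by decide), hi 1 (by decide)]
        have : t (st q 2) = Real.pi := hj
        rw [this]; ring
    have e0 := hs0 0
    have e1 := hs0 1
    have e2 := hs0 2
    have e3 := hs0 3
    simp [A, st] at e0 e1 e2 e3
    have g05 : t 0 = t 5 := by linarith
    have g14 : t 1 = t 4 := by linarith
    have g23 : t 2 = t 3 := by linarith
    rcases h0 0 with b0 | b0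
    · rcases h0 1 with b1 | b1
      · refine ⟨2, fun l => ?_⟩
        rw [Fin.sum_univ_six, ← g05, ← g14, ← g23, b0, b1, show t 2 = Real.pi by linarith]
        simp [D]
        ring
      · refine ⟨1, fun l => ?_⟩
        rw [Fin.sum_univ_six, ← g05, ← g14, ← g23, b0, b1, show t 2 = 0 by linarith]
        simp [D]
        ring
    · rcases h0 1 with b1 | b1
      · refine ⟨0, fun l => ?_⟩
        rw [Fin.sum_univ_six, ← g05, ← g14, ← g23, b0, b1, show t 2 = 0 by linarith]
        simp [D]
        ring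
      · exfalso
        rcases h0 2 with b2 | b2 <;> rw [b0, b1, b2] at e0 <;> linarith

/-- The continuation argument, with the needed facts about tetrahedra as hypotheses. -/
theorem cont3_core
    (hGP : ∀ l : Fin 6 → ℝ, Tri l → (∀ i, 0 < l i) ∧ ∀ c, 0 < F l c)
    (hFM : ∀ (l : Fin 6 → ℝ) i, F l (TetRel.ec i) * F l (TetRel.ed i) = N l i ^ 2 + 4 * l i ^ 2 * P l)
    (hS : ∀ l : Fin 6 → ℝ, Good l → Star (Th l))
    (hI : ∀ l : Fin 6 → ℝ, Good l → (∀ k, Real.pi * D l k < ∑ e, l e * Th l e) ∧
      ∀ q, ∑ e, l e * Th l e < Real.pi * S l q)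
    (n : Fin 3 → Fin 6 → ℕ) (c0 : Fin 3 → ℝ) (h0 : Good (J n c0))
    (h1 : ∀ i, ∑ e, (n i e : ℝ) * Th (J n c0) e = 2 * Real.pi)
    (h2 : ∀ c, Good (J n c) → ∀ i, Real.sin (∑ e, (n i e : ℝ) * Th (J n c) e) = 0) :
    ∀ c, Tri (J n c) → Good (J n c) ∧ ∀ i, ∑ e, (n i e : ℝ) * Th (J n c) e = 2 * Real.pi := by
  have hpi := Real.pi_pos
  have hJ : ∀ e, Continuous fun c : Fin 3 → ℝ => J n c e := J_cont n
  have hTri : IsOpen {c | Tri (J n c)} := by
    have : {c | Tri (J n c)} = ⋂ q, ⋂ k, {c | D (J n c) k < S (J n c) q} := by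
      ext c
      simp [Tri]
    rw [this]
    exact isOpen_iInter_of_finite fun q => isOpen_iInter_of_finite fun k =>
      isOpen_lt (D_cont hJ k) (S_cont hJ q)
  have hlin : ∀ (a b : ℝ) (c c' : Fin 3 → ℝ) e, J n (a • c + b • c') e =
      a * J n c e + b * J n c' e := by
    intro a b c c' e
    simp only [J, Pi.add_apply, Pi.smul_apply, smul_eq_mul, Finset.mul_sum,
      ← Finset.sum_add_distrib]
    exact Finset.sum_congr rfl fun i _ => by ring
  have hconv : Convex ℝ {c | Tri (J n c)} := by
    intro c hc c' hc' a b ha hb hab q k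
    have hD : D (J n (a • c + b • c')) k = a * D (J n c) k + b * D (J n c') k := by
      fin_cases k <;> simp [D, hlin] <;> ring
    have hSS : S (J n (a • c + b • c')) q = a * S (J n c) q + b * S (J n c') q := by
      fin_cases q <;> simp [S, hlin] <;> ring
    rw [hD, hSS]
    have h3 := hc q k
    have h4 := hc' q k
    rcases ha.eq_or_lt with h | h
    · rw [← h] at hab ⊢
      rw [zero_add] at hab
      rw [hab]
      linarith
    · have := mul_lt_mul_of_pos_left h3 h
      have := mul_le_mul_of_nonneg_left h4.le hb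
      linarith
  let V : Set (Fin 3 → ℝ) :=
    {c | Good (J n c) ∧ ∀ i, ∑ e, (n i e : ℝ) * Th (J n c) e = 2 * Real.pi}
  have hThc : ∀ c, Tri (J n c) → ∀ i, ContinuousAt (fun c => Th (J n c) i) c :=
    fun c hc i => Th_contAt hJ (hGP _ hc).2 i
  have hsumc : ∀ c, Tri (J n c) → ∀ i,
      ContinuousAt (fun c => ∑ e, (n i e : ℝ) * Th (J n c) e) c := by
    intro c hc i
    refine tendsto_finsetSum _ fun e _ => ?_
    exact (hThc c hc e).const_mul _
  have hopen : IsOpen V := by
    rw [isOpen_iff_mem_nhds]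
    rintro c ⟨hG, hs⟩
    have e1 : ∀ᶠ x in 𝓝 c, Tri (J n x) := hTri.mem_nhds hG.1
    have e2 : ∀ᶠ x in 𝓝 c, 0 < P (J n x) := (P_cont hJ).continuousAt.eventually_const_lt hG.2
    have e3 : ∀ i, ∀ᶠ x in 𝓝 c, |∑ e, (n i e : ℝ) * Th (J n x) e - 2 * Real.pi| < Real.pi := by
      intro i
      have := (((hsumc c hG.1 i).sub_const (2 * Real.pi)).abs).eventually_lt_const
        (show |∑ e, (n i e : ℝ) * Th (J n c) e - 2 * Real.pi| < Real.pi by
          rw [hs i, sub_self, abs_zero]; exact hpi)
      exact this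
    filter_upwards [e1, e2, eventually_all.2 e3] with x hx1 hx2 hx3
    refine ⟨⟨hx1, hx2⟩, fun i => ?_⟩
    have h3 := h2 x ⟨hx1, hx2⟩ i
    rw [Real.sin_eq_zero_iff] at h3
    obtain ⟨m, hm⟩ := h3
    have h4 := hx3 i
    rw [← hm] at h4 ⊢
    have h5 : |((m - 2 : ℤ) : ℝ)| * Real.pi < 1 * Real.pi := by
      rw [one_mul, Int.cast_sub, Int.cast_ofNat, ← abs_of_pos hpi, ← abs_mul, abs_of_pos hpi,
        sub_mul]
      exact h4
    have h6 : |((m - 2 : ℤ) : ℝ)| < 1 := lt_of_mul_lt_mul_right h5 hpi.le
    have h7 : |m - 2| < 1 := by exact_mod_cast h6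
    have h8 : m = 2 := by
      rw [Int.abs_lt_one_iff] at h7
      omega
    rw [h8]
    norm_num
  have hclosed : closure V ∩ {c | Tri (J n c)} ⊆ V := by
    rintro c ⟨hc, hT⟩
    have hT' : Tri (J n c) := hT
    obtain ⟨u, hu, hlim⟩ := mem_closure_iff_seq_limit.1 hc
    have hPlim : Tendsto (fun m => P (J n (u m))) atTop (𝓝 (P (J n c))) :=
      (P_cont hJ).continuousAt.tendsto.comp hlim
    have hP0 : 0 ≤ P (J n c) := ge_of_tendsto' hPlim fun m => (hu m).1.2.le
    have hThlim : ∀ i, Tendsto (fun m => Th (J n (u m)) i) atTop (𝓝 (Th (J n c) i)) :=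
      fun i => (hThc c hT' i).tendsto.comp hlim
    have hsum : ∀ i, ∑ e, (n i e : ℝ) * Th (J n c) e = 2 * Real.pi := by
      intro i
      have h3 : Tendsto (fun m => ∑ e, (n i e : ℝ) * Th (J n (u m)) e) atTop
          (𝓝 (∑ e, (n i e : ℝ) * Th (J n c) e)) := (hsumc c hT' i).tendsto.comp hlim
      have h4 : (fun m => ∑ e, (n i e : ℝ) * Th (J n (u m)) e) = fun _ => 2 * Real.pi :=
        funext fun m => (hu m).2 i
      rw [h4] at h3
      exact tendsto_nhds_unique h3 tendsto_const_nhds
    rcases hP0.eq_or_lt with hP | hP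
    · exfalso
      have ht0 : ∀ e, Th (J n c) e = 0 ∨ Th (J n c) e = Real.pi := by
        intro e
        have h3 := hFM (J n c) e
        rw [← hP, mul_zero, add_zero] at h3
        have h4 : 0 < F (J n c) (TetRel.ec e) * F (J n c) (TetRel.ed e) :=
          mul_pos ((hGP _ hT').2 _) ((hGP _ hT').2 _)
        unfold Th
        rw [h3] at h4 ⊢
        rw [Real.sqrt_sq_eq_abs]
        have h5 : N (J n c) e ≠ 0 := by
          intro h
          rw [h] at h4
          norm_num at h4
        rcases lt_or_gt_of_ne h5 with h6 | h6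
        · right
          rw [abs_of_neg h6, div_neg, div_self h5, Real.arccos_neg_one]
        · left
          rw [abs_of_pos h6, div_self h5, Real.arccos_one]
      have hA : ∀ q, Tendsto (fun m => A (Th (J n (u m))) q) atTop (𝓝 (A (Th (J n c)) q)) := by
        intro q
        exact ((hThlim _).add (hThlim _)).add (hThlim _)
      have hs1 : ∀ q, Real.pi ≤ A (Th (J n c)) q := fun q =>
        ge_of_tendsto' (hA q) fun m => ((hS _ (hu m).1) q).1.le
      have hs2 : ∀ q j, A (Th (J n c)) q ≤ Real.pi + 2 * Th (J n c) (st q j) := fun q j =>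
        le_of_tendsto_of_tendsto' (hA q) (((hThlim _).const_mul 2).const_add Real.pi)
          fun m => (((hS _ (hu m).1) q).2 j).le
      -- the linear form on the family
      have hf : ∀ (x : Fin 3 → ℝ) (t : Fin 6 → ℝ), (∀ i, ∑ e, (n i e : ℝ) * t e = 2 * Real.pi) →
          ∑ e, J n x e * t e = Real.pi * (2 * ∑ i, x i) := by
        intro x t ht
        calc ∑ e, J n x e * t e = ∑ e, ∑ i, x i * ((n i e : ℝ) * t e) := by
              refine Finset.sum_congr rfl fun e _ => ?_
              rw [J, Finset.sum_mul]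
              exact Finset.sum_congr rfl fun i _ => by ring
          _ = ∑ i, x i * ∑ e, (n i e : ℝ) * t e := by
              rw [Finset.sum_comm]
              exact Finset.sum_congr rfl fun i _ => by rw [Finset.mul_sum]
          _ = Real.pi * (2 * ∑ i, x i) := by
              simp only [ht]
              rw [← Finset.sum_mul]
              ring
      have hI0 := hI _ h0
      rw [hf c0 _ h1] at hI0
      rcases flat_cases _ ht0 hs1 hs2 with ⟨k, hk⟩ | ⟨q, hq⟩
      · have h3 := hk (J n c0)
        rw [hf c0 _ hsum] at h3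
        have h4 := hI0.1 k
        linarith
      · have h3 := hq (J n c0) (hGP _ h0.1).1
        rw [hf c0 _ hsum] at h3
        have h4 := hI0.2 q
        linarith
    · exact ⟨⟨hT', hP⟩, hsum⟩
  have hsub := hconv.isPreconnected.subset_of_closure_inter_subset hopen
    ⟨c0, h0.1, h0, h1⟩ hclosed
  intro c hc
  exact hsub hc

end Pool.Agent.TetDim
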