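import Pool.Agent.TetDim.Cont3Of
import Pool.Agent.TetDim.Pointwise

/-!
# The continuation theorem
-/

set_option autoImplicit false

namespace Pool.Agent.TetDim

/-- PACKAGE T3a. -/
theorem cont3 (n : Fin 3 → Fin 6 → ℕ) (c0 : Fin 3 → ℝ) (h0 : Good (J n c0))
    (h1 : ∀ i, ∑ e, (n i e : ℝ) * Th (J n c0) e = 2 * Real.pi)
    (h2 : ∀ c, Good (J n c) → ∀ i, Real.sin (∑ e, (n i e : ℝ) * Th (J n c) e) = 0) :
    ∀ c, Tri (J n c) → Good (J n c) ∧ ∀ i, ∑ e, (n i e : ℝ) * Th (J n c) e = 2 * Real.pi :=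
  cont3_of ineq n c0 h0 h1 h2

end Pool.Agent.TetDim
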