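import Pool.Agent.TetRel.Defs

/-! # Explicit functions of the six edge lengths (dimension theorem for tetrahedra that tile)

Edges: 0 = 01, 1 = 02, 2 = 03, 3 = 12, 4 = 13, 5 = 23. -/

set_option autoImplicit false

namespace Pool.Agent.TetDim

/-- `(a+b+c)(-a+b+c)(a-b+c)(a+b-c)`, 16 times the squared area -/
def heron (a b c : ℝ) : ℝ := (a + b + c) * (-a + b + c) * (a - b + c) * (a + b - c)

/-- 16 times the squared area of the face opposite to a vertex -/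
def F (l : Fin 6 → ℝ) : Fin 4 → ℝ :=
  ![heron (l 3) (l 4) (l 5), heron (l 1) (l 2) (l 5), heron (l 0) (l 2) (l 4),
    heron (l 0) (l 1) (l 3)]

/-- sum of the edges at a vertex -/
def S (l : Fin 6 → ℝ) : Fin 4 → ℝ :=
  ![l 0 + l 1 + l 2, l 0 + l 3 + l 4, l 1 + l 3 + l 5, l 2 + l 4 + l 5]

/-- sum of two opposite edges -/
def D (l : Fin 6 → ℝ) : Fin 3 → ℝ := ![l 0 + l 5, l 1 + l 4, l 2 + l 3]

/-- all twelve strict triangle inequalities (they are exactly `D l k < S l q`) -/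
def Tri (l : Fin 6 → ℝ) : Prop := ∀ q k, D l k < S l q

/-- 144 times the squared volume, as a polynomial in the edge lengths -/
def P (l : Fin 6 → ℝ) : ℝ :=
  l 0 ^ 2 * l 5 ^ 2 * (-l 0 ^ 2 - l 5 ^ 2 + l 1 ^ 2 + l 4 ^ 2 + l 2 ^ 2 + l 3 ^ 2) +
  l 1 ^ 2 * l 4 ^ 2 * (-l 1 ^ 2 - l 4 ^ 2 + l 0 ^ 2 + l 5 ^ 2 + l 2 ^ 2 + l 3 ^ 2) +
  l 2 ^ 2 * l 3 ^ 2 * (-l 2 ^ 2 - l 3 ^ 2 + l 0 ^ 2 + l 5 ^ 2 + l 1 ^ 2 + l 4 ^ 2) -
  l 0 ^ 2 * l 3 ^ 2 * l 1 ^ 2 - l 0 ^ 2 * l 4 ^ 2 * l 2 ^ 2 - l 1 ^ 2 * l 5 ^ 2 * l 2 ^ 2 -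
  l 3 ^ 2 * l 5 ^ 2 * l 4 ^ 2

/-- `a` edge `XY`, `b = XZ`, `c = YZ`, `d = XW`, `e = YW`, `g = ZW`: numerator of the cosine of the
dihedral angle at `XY` -/
def num (a b c d e g : ℝ) : ℝ :=
  2 * a ^ 2 * (b ^ 2 + d ^ 2 - g ^ 2) - (b ^ 2 + a ^ 2 - c ^ 2) * (d ^ 2 + a ^ 2 - e ^ 2)

/-- numerator of the cosine of the dihedral angle at edge `i`; the denominator is
`√ (F l (ec i) * F l (ed i))` -/
def N (l : Fin 6 → ℝ) : Fin 6 → ℝ :=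
  ![num (l 0) (l 1) (l 3) (l 2) (l 4) (l 5), num (l 1) (l 0) (l 3) (l 2) (l 5) (l 4),
    num (l 2) (l 0) (l 4) (l 1) (l 5) (l 3), num (l 3) (l 0) (l 1) (l 4) (l 5) (l 2),
    num (l 4) (l 0) (l 2) (l 3) (l 5) (l 1), num (l 5) (l 1) (l 2) (l 3) (l 4) (l 0)]

/-- the dihedral angle as a function of the edge lengths -/
noncomputable def Th (l : Fin 6 → ℝ) (i : Fin 6) : ℝ :=
  Real.arccos (N l i / √(F l (TetRel.ec i) * F l (TetRel.ed i)))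

/-- the six numbers are the edge lengths of a nondegenerate tetrahedron -/
def Good (l : Fin 6 → ℝ) : Prop := Tri l ∧ 0 < P l

/-- the edges at a vertex -/
def st : Fin 4 → Fin 3 → Fin 6 := ![![0, 1, 2], ![0, 3, 4], ![1, 3, 5], ![2, 4, 5]]

/-- sum of the values `t` at the three edges at a vertex -/
def A (t : Fin 6 → ℝ) (q : Fin 4) : ℝ := t (st q 0) + t (st q 1) + t (st q 2)

/-- strict star inequalities: at every vertex the three angles are the angles of a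
nondegenerate spherical triangle -/
def Star (t : Fin 6 → ℝ) : Prop :=
  ∀ q, Real.pi < A t q ∧ ∀ j, A t q < Real.pi + 2 * t (st q j)

/-- the determinant of the Gram matrix of the four unit normals, `c i` = cosine of the dihedral
angle at edge `i` -/
def gram (c : Fin 6 → ℝ) : ℝ :=
  1 - c 0 ^ 2 - c 1 ^ 2 - c 2 ^ 2 - c 3 ^ 2 - c 4 ^ 2 - c 5 ^ 2
  - 2 * (c 0 * c 1 * c 2 + c 0 * c 3 * c 4 + c 1 * c 3 * c 5 + c 2 * c 4 * c 5)
  + c 0 ^ 2 * c 5 ^ 2 + c 1 ^ 2 * c 4 ^ 2 + c 2 ^ 2 * c 3 ^ 2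
  - 2 * (c 0 * c 5 * c 1 * c 4 + c 0 * c 5 * c 2 * c 3 + c 1 * c 4 * c 2 * c 3)

/-- the combination with coefficients `c` of the integer vectors `n i` -/
def J {k : ℕ} (n : Fin k → Fin 6 → ℕ) (c : Fin k → ℝ) (e : Fin 6) : ℝ := ∑ i, c i * (n i e : ℝ)

end Pool.Agent.TetDim
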