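import Pool.Agent.TetDim.Defs

/-! # The three-type case: change of coordinates and facets (T3b (i), (ii)) -/

set_option autoImplicit false

namespace Pool.Agent.TetDim

theorem D_add (l m : Fin 6 → ℝ) (k : Fin 3) : D (l + m) k = D l k + D m k := by
  fin_cases k <;> simp [D] <;> ring

theorem D_smul (t : ℝ) (l : Fin 6 → ℝ) (k : Fin 3) : D (t • l) k = t * D l k := by
  fin_cases k <;> simp [D] <;> ring

theorem S_add (l m : Fin 6 → ℝ) (q : Fin 4) : S (l + m) q = S l q + S m q := by
  fin_cases q <;> simp [S] <;> ring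

theorem S_smul (t : ℝ) (l : Fin 6 → ℝ) (q : Fin 4) : S (t • l) q = t * S l q := by
  fin_cases q <;> simp [S] <;> ring

/-- the lengths are positive -/
theorem tri_pos {l : Fin 6 → ℝ} (h : Tri l) (i : Fin 6) : 0 < l i := by
  have h00 := h 0 0
  have h01 := h 0 1
  have h02 := h 0 2
  have h10 := h 1 0
  have h11 := h 1 1
  have h12 := h 1 2
  have h20 := h 2 0
  have h21 := h 2 1
  have h22 := h 2 2
  have h30 := h 3 0
  have h31 := h 3 1
  have h32 := h 3 2
  simp only [D, S, Matrix.cons_val] at *
  fin_cases i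
  · change 0 < l 0
    linarith
  · change 0 < l 1
    linarith
  · change 0 < l 2
    linarith
  · change 0 < l 3
    linarith
  · change 0 < l 4
    linarith
  · change 0 < l 5
    linarith

section

variable (j : (Fin 3 → ℝ) →ₗ[ℝ] (Fin 6 → ℝ)) (f : (Fin 3 → ℝ) →ₗ[ℝ] ℝ)

/-- the new coordinates `f - D k` -/
def mu : (Fin 3 → ℝ) →ₗ[ℝ] (Fin 3 → ℝ) where
  toFun c k := f c - D (j c) k
  map_add' c d := by
    funext k
    simp only [map_add, D_add, Pi.add_apply]
    ring
  map_smul' t c := by
    funext k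
    simp only [map_smul, D_smul, Pi.smul_apply, smul_eq_mul, RingHom.id_apply]
    ring

theorem mu_apply (c : Fin 3 → ℝ) (k : Fin 3) : mu j f c k = f c - D (j c) k := rfl

variable {j f} {c0 : Fin 3 → ℝ} (h0 : Tri (j c0))
  (H : ∀ c, Tri (j c) → (∀ k, D (j c) k < f c) ∧ ∀ q, f c < S (j c) q)

include h0 H

/-- the inequalities on the closure -/
theorem closed_tri {c : Fin 3 → ℝ} (hc : ∀ q k, D (j c) k ≤ S (j c) q) :
    (∀ k, D (j c) k ≤ f c) ∧ ∀ q, f c ≤ S (j c) q := by
  have key : ∀ e : ℝ, 0 < e → Tri (j (c + e • c0)) := by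
    intro e he q k
    have h1 := hc q k
    have h2 := h0 q k
    rw [map_add, map_smul, D_add, S_add, D_smul, S_smul]
    nlinarith
  constructor
  · intro k
    by_contra hcon
    push Not at hcon
    have h2 := (H c0 h0).1 k
    have hp : 0 < (D (j c) k - f c) / (f c0 - D (j c0) k) := div_pos (by linarith) (by linarith)
    have h3 := (H _ (key _ hp)).1 k
    rw [map_add, map_smul, map_add, map_smul, D_add, D_smul, smul_eq_mul] at h3
    have h4 : (D (j c) k - f c) / (f c0 - D (j c0) k) * (f c0 - D (j c0) k) = D (j c) k - f c :=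
      div_mul_cancel₀ _ (by linarith)
    nlinarith
  · intro q
    by_contra hcon
    push Not at hcon
    have h2 := (H c0 h0).2 q
    have hp : 0 < (f c - S (j c) q) / (S (j c0) q - f c0) := div_pos (by linarith) (by linarith)
    have h3 := (H _ (key _ hp)).2 q
    rw [map_add, map_smul, map_add, map_smul, S_add, S_smul, smul_eq_mul] at h3
    have h4 : (f c - S (j c) q) / (S (j c0) q - f c0) * (S (j c0) q - f c0) = f c - S (j c) q :=
      div_mul_cancel₀ _ (by linarith)
    nlinarith

/-- only the inequalities `D k < f` matter -/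
theorem tri_iff (c : Fin 3 → ℝ) : Tri (j c) ↔ ∀ k, 0 < mu j f c k := by
  constructor
  · intro h k
    rw [mu_apply]
    have := (H c h).1 k
    linarith
  · intro h
    by_contra hcon
    unfold Tri at hcon
    push Not at hcon
    obtain ⟨q1, k1, hqk⟩ := hcon
    obtain ⟨⟨q, k⟩, hmax⟩ := Finite.exists_max (fun p : Fin 4 × Fin 3 =>
      (D (j c) p.2 - S (j c) p.1) / (S (j c0) p.1 - D (j c0) p.2))
    set s := (D (j c) k - S (j c) q) / (S (j c0) q - D (j c0) k) with hs
    have hpos : ∀ q k, 0 < S (j c0) q - D (j c0) k := fun q k => sub_pos.2 (h0 q k)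
    have hs0 : 0 ≤ s :=
      (div_nonneg (by linarith) (hpos q1 k1).le).trans (hmax (q1, k1))
    have hcl : ∀ q k, D (j (c + s • c0)) k ≤ S (j (c + s • c0)) q := by
      intro q' k'
      have h1 : (D (j c) k' - S (j c) q') / (S (j c0) q' - D (j c0) k') ≤ s := hmax (q', k')
      rw [div_le_iff₀ (hpos q' k')] at h1
      rw [map_add, map_smul, D_add, S_add, D_smul, S_smul]
      linarith
    obtain ⟨h1, h2⟩ := closed_tri h0 H hcl
    have h3 := h1 k
    have h4 := h2 q
    have h5 : s * (S (j c0) q - D (j c0) k) = D (j c) k - S (j c) q :=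
      div_mul_cancel₀ _ (hpos q k).ne'
    have h6 := h k
    rw [mu_apply] at h6
    have h7 := (H c0 h0).1 k
    rw [map_add, map_smul, map_add, map_smul, D_add, D_smul, smul_eq_mul] at h3
    rw [map_add, map_smul, map_add, map_smul, S_add, S_smul, smul_eq_mul] at h4
    nlinarith [mul_nonneg hs0 (sub_nonneg.2 h7.le)]

theorem mu_injective (hj : Function.Injective j) : Function.Injective (mu j f) := by
  rw [← LinearMap.ker_eq_bot, LinearMap.ker_eq_bot']
  intro c hc
  have key : ∀ t : ℝ, Tri (j (c0 + t • c)) := by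
    intro t
    rw [tri_iff h0 H]
    intro k
    rw [map_add, map_smul, hc, smul_zero, add_zero]
    exact (tri_iff h0 H c0).1 h0 k
  have h1 : j c = 0 := by
    funext i
    by_contra hne
    change j c i ≠ 0 at hne
    have h2 := tri_pos (key (-(j c0 i) / j c i)) i
    rw [map_add, map_smul, Pi.add_apply, Pi.smul_apply, smul_eq_mul, div_mul_cancel₀ _ hne] at h2
    linarith
  exact hj (h1.trans (map_zero j).symm)

/-- Change of coordinates in the three-type case: in the new coordinates the cone `Tri` is the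
positive octant, and every facet of it is given by one of the triangle inequalities. -/
theorem facets (hj : Function.Injective j) : ∃ T : (Fin 3 → ℝ) ≃ₗ[ℝ] (Fin 3 → ℝ),
    (∀ x, Tri (j (T x)) ↔ ∀ k, 0 < x k) ∧ (∀ x k, D (j (T x)) k = f (T x) - x k) ∧
    (∀ x : Fin 3 → ℝ, (∀ k, 0 ≤ x k) → ∀ q, f (T x) ≤ S (j (T x)) q) ∧
    ∀ k, ∃ q al, 1 < al ∧ ∀ x, S (j (T x)) q = f (T x) + (al - 1) * x k := by
  let M := LinearEquiv.ofInjectiveEndo (mu j f) (mu_injective h0 H hj)
  have hM : ∀ x k, f (M.symm x) - D (j (M.symm x)) k = x k := by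
    intro x k
    rw [← mu_apply]
    exact congrFun (M.apply_symm_apply x) k
  have hT : ∀ x, Tri (j (M.symm x)) ↔ ∀ k, 0 < x k := by
    intro x
    rw [tri_iff h0 H]
    simp only [mu_apply, hM]
  have hS : ∀ x : Fin 3 → ℝ, (∀ k, 0 ≤ x k) → ∀ q, f (M.symm x) ≤ S (j (M.symm x)) q := by
    intro x hx q
    by_contra hcon
    push Not at hcon
    have h1 : Tri (j (M.symm (fun _ => 1))) := (hT _).2 fun _ => one_pos
    have h2 := (H _ h1).2 q
    set y : Fin 3 → ℝ := fun _ => 1 with hy
    have hp : 0 < (f (M.symm x) - S (j (M.symm x)) q) / (S (j (M.symm y)) q - f (M.symm y)) :=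
      div_pos (by linarith) (by linarith)
    set e := (f (M.symm x) - S (j (M.symm x)) q) / (S (j (M.symm y)) q - f (M.symm y)) with he
    have h3 : Tri (j (M.symm (x + e • y))) := by
      rw [hT]
      intro k
      have := hx k
      simp only [Pi.add_apply, Pi.smul_apply, smul_eq_mul, hy, mul_one]
      linarith
    have h4 := (H _ h3).2 q
    rw [map_add, map_smul, map_add, map_smul, map_add, map_smul, S_add, S_smul,
      smul_eq_mul] at h4
    have h5 : e * (S (j (M.symm y)) q - f (M.symm y)) = f (M.symm x) - S (j (M.symm x)) q :=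
      div_mul_cancel₀ _ (by linarith)
    nlinarith
  refine ⟨M.symm, hT, fun x k => by linarith [hM x k], hS, fun k => ?_⟩
  -- the point with `x k = 0` and the others equal to `1` is not in `Tri`
  have hsum : ∀ (q : Fin 4) (k' : Fin 3) (x : Fin 3 → ℝ),
      S (j (M.symm x)) q - D (j (M.symm x)) k' =
      ∑ i, x i * (S (j (M.symm (Pi.single i 1))) q - D (j (M.symm (Pi.single i 1))) k') := by
    intro q k' x
    have hx : x = ∑ i, x i • (Pi.single i 1 : Fin 3 → ℝ) := by
      funext i
      simp [Finset.sum_apply, Pi.single_apply]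
    conv_lhs => rw [hx]
    rw [Fin.sum_univ_three, Fin.sum_univ_three]
    simp only [map_add, map_smul, S_add, D_add, S_smul, D_smul]
    ring
  have hnn : ∀ (q : Fin 4) (k' : Fin 3) (i : Fin 3),
      (Pi.single i 1 : Fin 3 → ℝ) k' ≤
        S (j (M.symm (Pi.single i 1))) q - D (j (M.symm (Pi.single i 1))) k' := by
    intro q k' i
    have h1 := hS (Pi.single i 1) (fun k => by
      rw [Pi.single_apply]
      split_ifs <;> norm_num) q
    have h2 := hM (Pi.single i 1) k'
    linarith
  have hnn0 : ∀ (q : Fin 4) (k' : Fin 3) (i : Fin 3),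
      0 ≤ S (j (M.symm (Pi.single i 1))) q - D (j (M.symm (Pi.single i 1))) k' := by
    intro q k' i
    refine le_trans ?_ (hnn q k' i)
    rw [Pi.single_apply]
    split_ifs <;> norm_num
  have hnot : ¬ Tri (j (M.symm (fun i => if i = k then 0 else 1))) := by
    rw [hT]
    intro h
    have := h k
    simp at this
  unfold Tri at hnot
  push Not at hnot
  obtain ⟨q, k', hqk⟩ := hnot
  have h1 := hsum q k' (fun i => if i = k then 0 else 1)
  have h2 : ∑ i : Fin 3, (if i = k then (0 : ℝ) else 1) *
      (S (j (M.symm (Pi.single i 1))) q - D (j (M.symm (Pi.single i 1))) k') = 0 := by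
    refine le_antisymm (by linarith) (Finset.sum_nonneg fun i _ => mul_nonneg ?_ (hnn0 q k' i))
    split_ifs <;> norm_num
  have h3 : ∀ i, i ≠ k →
      S (j (M.symm (Pi.single i 1))) q - D (j (M.symm (Pi.single i 1))) k' = 0 := by
    intro i hi
    have h4 := (Finset.sum_eq_zero_iff_of_nonneg (fun i _ => mul_nonneg (by
      split_ifs <;> norm_num) (hnn0 q k' i))).1 h2 i (Finset.mem_univ i)
    simpa [hi] using h4
  have hkk : k' = k := by
    by_contra hne
    have h4 := hnn q k' k'
    rw [h3 k' hne] at h4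
    simp at h4
    linarith
  subst hkk
  set al := S (j (M.symm (Pi.single k' 1))) q - D (j (M.symm (Pi.single k' 1))) k' with hal
  have h5 : ∀ x, S (j (M.symm x)) q - D (j (M.symm x)) k' = x k' * al := by
    intro x
    rw [hsum q k' x, Finset.sum_eq_single k']
    · intro i _ hi
      rw [h3 i hi, mul_zero]
    · intro h
      exact absurd (Finset.mem_univ _) h
  refine ⟨q, al, ?_, fun x => ?_⟩
  · have h6 : Tri (j (M.symm (fun _ => 1))) := (hT _).2 fun _ => one_pos
    have h7 := (H _ h6).2 q
    have h8 := h5 (fun _ => 1)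
    have h9 := hM (fun _ => 1) k'
    simp only [one_mul] at h8
    linarith
  · have h6 := h5 x
    have h7 := hM x k'
    linarith

end

end Pool.Agent.TetDim
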