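import Pool.Agent.TetDim.Defs
import Pool.Agent.TetRel.Bridge

/-! # Integration of the pointwise inequalities (assembly for `ineq`)

`w d z` is a weight (in the application the norm of the cross product). The edge `i` of the
tetrahedron is hidden in the direction `z` if the linear parts of the two barycentric coordinates
which vanish on it have the same sign. -/

set_option autoImplicit false

open MeasureTheory Set Module Metric

namespace Pool.Agent.TetDim

open Pool.Agent.TetRel

/-- the edge number `i` as a vector -/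
noncomputable def ev (b : AffineBasis (Fin 4) ℝ E3) (i : Fin 6) : E3 := b (eb i) - b (ea i)

/-- the edge number `i` is hidden in the direction `z` -/
def Hid (b : AffineBasis (Fin 4) ℝ E3) (i : Fin 6) : Set E3 :=
  {z | 0 < lin b (ec i) z * lin b (ed i) z}

/-- the directions which are not parallel to a face -/
def Gen (b : AffineBasis (Fin 4) ℝ E3) : Set E3 := {z | ∀ c, lin b c z ≠ 0}

/-- the sum of the weights of the hidden edges -/
noncomputable def hs (w : E3 → E3 → ℝ) (b : AffineBasis (Fin 4) ℝ E3) (z : E3) : ℝ :=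
  ∑ i, (Hid b i).indicator (w (ev b i)) z

/-- the edges opposite to `0`, `1`, `2` -/
def opp : Fin 3 → Fin 6 := ![5, 4, 3]

/-- the edges `0`, `1`, `2` -/
def fst3 : Fin 3 → Fin 6 := ![0, 1, 2]

/-- properties of the weight -/
structure Weight (w : E3 → E3 → ℝ) (κ : ℝ) : Prop where
  cont : ∀ d, Continuous (w d)
  neg : ∀ d z, w d (-z) = w d z
  smul : ∀ d z (t : ℝ), 0 < t → w d (t • z) = t * w d z
  pos : 0 < κ
  onBall : ∀ d, ∫ z in ball (0 : E3) 1, w d z = κ * ‖d‖
  onWedge : ∀ d p q : E3, LinearIndependent ℝ ![d, p, q] →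
    ∫ z in Pool.TetraTile.wedge d p q ∩ ball (0 : E3) 1, w d z =
      InnerProductGeometry.angle (Pool.TetraTile.orth d p) (Pool.TetraTile.orth d q) /
        (2 * Real.pi) * κ * ‖d‖

variable {w : E3 → E3 → ℝ} {κ : ℝ} (b : AffineBasis (Fin 4) ℝ E3)

theorem lin_cts (c : Fin 4) : Continuous (lin b c) := lin_cont b c

theorem hid_open (i : Fin 6) : IsOpen (Hid b i) :=
  isOpen_lt continuous_const ((lin_cts b _).mul (lin_cts b _))

theorem hid_smul (i : Fin 6) {t : ℝ} (ht : 0 < t) (z : E3) : t • z ∈ Hid b i ↔ z ∈ Hid b i := by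
  unfold Hid
  simp only [mem_ofPred_eq, map_smul, smul_eq_mul]
  have : t * lin b (ec i) z * (t * lin b (ed i) z) =
      (t * t) * (lin b (ec i) z * lin b (ed i) z) := by ring
  rw [this]
  exact mul_pos_iff_of_pos_left (by positivity)

theorem gen_open : IsOpen (Gen b) := by
  have : Gen b = ⋂ c, {z | lin b c z ≠ 0} := by
    ext z
    simp [Gen]
  rw [this]
  exact isOpen_iInter_of_finite fun c => isOpen_ne_fun (lin_cts b c) continuous_const

theorem null_ker (c : Fin 4) : volume {z : E3 | lin b c z = 0} = 0 := by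
  have h : ({w | lin b c w = 0} : Set E3) = (LinearMap.ker (lin b c) : Set E3) := by
    ext w; simp
  rw [h]
  apply Measure.addHaar_submodule
  intro h0
  exact lin_ne b c (LinearMap.ker_eq_top.1 h0)

theorem ae_gen : ∀ᵐ z : E3, z ∈ Gen b := by
  have h : ∀ c, ∀ᵐ z : E3, lin b c z ≠ 0 := fun c => by
    rw [ae_iff]
    simpa using null_ker b c
  exact ae_all_iff.2 h

theorem Weight.integrableOn (hw : Weight w κ) (d : E3) {s : Set E3} (hs : s ⊆ ball (0 : E3) 1) :
    IntegrableOn (w d) s :=
  ((hw.cont d).continuousOn.integrableOn_compact (isCompact_closedBall (0 : E3) 1)).mono_set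
    (hs.trans ball_subset_closedBall)

theorem Weight.indicator_integrable (hw : Weight w κ) (i : Fin 6) :
    IntegrableOn ((Hid b i).indicator (w (ev b i))) (ball (0 : E3) 1) :=
  (hw.integrableOn (ev b i) subset_rfl).indicator (hid_open b i).measurableSet

/-- the positive part of the wedge -/
theorem pos_ae (i : Fin 6) : (ball (0 : E3) 1 ∩ {z | 0 < lin b (ec i) z ∧ 0 < lin b (ed i) z} :
    Set E3) =ᵐ[volume] W b (fc i) 1 := by
  filter_upwards [ae_gen b] with z hz
  refine propext ⟨?_, ?_⟩
  · rintro ⟨h1, h2, h3⟩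
    refine ⟨h1, fun c hc => ?_⟩
    simp only [fc, Finset.mem_insert, Finset.mem_singleton] at hc
    rcases hc with rfl | rfl
    exacts [h2.le, h3.le]
  · rintro ⟨h1, h2⟩
    exact ⟨h1, lt_of_le_of_ne (h2 _ (by simp [fc])) (hz _).symm,
      lt_of_le_of_ne (h2 _ (by simp [fc])) (hz _).symm⟩

theorem Weight.hid_integral (hw : Weight w κ) (i : Fin 6) :
    ∫ z in ball (0 : E3) 1, (Hid b i).indicator (w (ev b i)) z =
      κ / Real.pi * (len b i * dih b i) := by
  set Pp : Set E3 := {z | 0 < lin b (ec i) z ∧ 0 < lin b (ed i) z} with hPp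
  set Nn : Set E3 := {z | lin b (ec i) z < 0 ∧ lin b (ed i) z < 0} with hNn
  have hPm : MeasurableSet Pp :=
    ((isOpen_lt continuous_const (lin_cts b _)).inter
      (isOpen_lt continuous_const (lin_cts b _))).measurableSet
  have hNm : MeasurableSet Nn :=
    ((isOpen_lt (lin_cts b _) continuous_const).inter
      (isOpen_lt (lin_cts b _) continuous_const)).measurableSet
  have e1 : ball (0 : E3) 1 ∩ Hid b i = (ball (0 : E3) 1 ∩ Pp) ∪ (ball (0 : E3) 1 ∩ Nn) := by
    ext z
    simp only [Hid, mem_inter_iff, mem_ofPred_eq, mem_union, hPp, hNn, mul_pos_iff]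
    tauto
  have e2 : Disjoint (ball (0 : E3) 1 ∩ Pp) (ball (0 : E3) 1 ∩ Nn) := by
    rw [Set.disjoint_left]
    rintro z ⟨-, h1, -⟩ ⟨-, h2, -⟩
    exact absurd h1 (not_lt.2 h2.le)
  have e3 : ∫ z in ball (0 : E3) 1 ∩ Nn, w (ev b i) z =
      ∫ z in ball (0 : E3) 1 ∩ Pp, w (ev b i) z := by
    have h := (Measure.measurePreserving_neg (volume : Measure E3)).setIntegral_preimage_emb
      (MeasurableEquiv.neg E3).measurableEmbedding (w (ev b i)) (ball (0 : E3) 1 ∩ Pp)
    rw [← h]
    have h2 : (Neg.neg ⁻¹' (ball (0 : E3) 1 ∩ Pp) : Set E3) = ball (0 : E3) 1 ∩ Nn := by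
      ext z
      simp [hPp, hNn]
    rw [h2]
    simp only [hw.neg]
  have e4 : ∫ z in ball (0 : E3) 1 ∩ Pp, w (ev b i) z =
      dih b i / (2 * Real.pi) * κ * len b i := by
    rw [setIntegral_congr_set (pos_ae b i), W_eq_wedge]
    refine (hw.onWedge _ _ _ (li b i)).trans ?_
    have h5 : ‖b (eb i) - b (ea i)‖ = len b i := by
      unfold len
      rw [dist_comm, dist_eq_norm]
    rw [h5]
    rfl
  rw [setIntegral_indicator (hid_open b i).measurableSet, e1,
    setIntegral_union e2 (measurableSet_ball.inter hNm)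
      (hw.integrableOn _ inter_subset_left) (hw.integrableOn _ inter_subset_left), e3, e4]
  have := Real.pi_pos
  field_simp
  ring

theorem Weight.hs_integrable (hw : Weight w κ) : IntegrableOn (hs w b) (ball (0 : E3) 1) :=
  integrable_finsetSum _ fun i _ => hw.indicator_integrable b i

theorem Weight.hs_integral (hw : Weight w κ) :
    ∫ z in ball (0 : E3) 1, hs w b z = κ / Real.pi * ∑ i, len b i * dih b i := by
  unfold hs
  rw [integral_finsetSum _ fun i _ => hw.indicator_integrable b i, Finset.mul_sum]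
  exact Finset.sum_congr rfl fun i _ => hw.hid_integral b i

/-- `hs` is continuous at the generic directions -/
theorem Weight.hs_continuousAt (hw : Weight w κ) {z : E3} (hz : z ∈ Gen b) :
    ContinuousAt (hs w b) z := by
  unfold hs
  refine tendsto_finsetSum _ fun i _ => ?_
  by_cases h : z ∈ Hid b i
  · have h1 : (Hid b i).indicator (w (ev b i)) =ᶠ[nhds z] w (ev b i) := by
      filter_upwards [(hid_open b i).mem_nhds h] with y hy
      exact indicator_of_mem hy _
    exact ((hw.cont (ev b i)).continuousAt.congr h1.symm)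
  · have h2 : IsOpen {y : E3 | lin b (ec i) y * lin b (ed i) y < 0} :=
      isOpen_lt ((lin_cts b _).mul (lin_cts b _)) continuous_const
    have h3 : z ∈ {y : E3 | lin b (ec i) y * lin b (ed i) y < 0} :=
      lt_of_le_of_ne (not_lt.1 h) (mul_ne_zero (hz _) (hz _))
    have h1 : (Hid b i).indicator (w (ev b i)) =ᶠ[nhds z] fun _ => (0 : ℝ) := by
      filter_upwards [h2.mem_nhds h3] with y hy
      exact indicator_of_notMem (show y ∉ Hid b i from not_lt.2 (le_of_lt hy)) _
    exact (continuousAt_const.congr h1.symm)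

theorem Weight.hs_smul (hw : Weight w κ) {t : ℝ} (ht : 0 < t) (z : E3) :
    hs w b (t • z) = t * hs w b z := by
  unfold hs
  rw [Finset.mul_sum]
  refine Finset.sum_congr rfl fun i _ => ?_
  by_cases h : z ∈ Hid b i
  · rw [indicator_of_mem h, indicator_of_mem ((hid_smul b i ht z).2 h), hw.smul _ _ _ ht]
  · rw [indicator_of_notMem h, indicator_of_notMem (fun h' => h ((hid_smul b i ht z).1 h')),
      mul_zero]

/-- A function which is nonnegative at the generic directions of the ball and positive at one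
generic direction has a positive integral. -/
theorem pos_integral {g : E3 → ℝ} (hi : IntegrableOn g (ball (0 : E3) 1))
    (hc : ∀ z ∈ Gen b, ContinuousAt g z) (hg : ∀ z ∈ Gen b, 0 ≤ g z)
    (hs : ∀ (t : ℝ) z, 0 < t → g (t • z) = t * g z) {z0 : E3} (h0 : z0 ∈ Gen b) (hp : 0 < g z0) :
    0 < ∫ z in ball (0 : E3) 1, g z := by
  -- move the point into the ball
  obtain ⟨z1, h1, h2, h3⟩ : ∃ z1 : E3, z1 ∈ Gen b ∧ z1 ∈ ball (0 : E3) 1 ∧ 0 < g z1 := by
    have hd : 0 < ‖z0‖ + 1 := by positivity
    have hd' : 0 < (‖z0‖ + 1)⁻¹ := inv_pos.2 hd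
    refine ⟨(‖z0‖ + 1)⁻¹ • z0, fun c => ?_, ?_, ?_⟩
    · rw [map_smul, smul_eq_mul]
      exact mul_ne_zero hd'.ne' (h0 c)
    · rw [mem_ball, dist_zero_right, norm_smul, norm_inv, Real.norm_of_nonneg hd.le,
        inv_mul_lt_iff₀ hd]
      linarith
    · rw [hs _ _ hd']
      exact mul_pos hd' hp
  have h4 : ∀ᶠ z in nhds z1, z ∈ ball (0 : E3) 1 ∧ 0 < g z :=
    Filter.Eventually.and (isOpen_ball.mem_nhds h2) ((hc z1 h1).eventually (lt_mem_nhds h3))
  obtain ⟨U, hU, hUo, hU1⟩ := _root_.mem_nhds_iff.1 h4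
  rw [integral_pos_iff_support_of_nonneg_ae]
  · rw [Measure.restrict_apply' measurableSet_ball]
    refine (hUo.measure_pos volume ⟨z1, hU1⟩).trans_le (measure_mono fun z hz => ?_)
    exact ⟨(hU hz).2.ne', (hU hz).1⟩
  · refine ae_restrict_of_ae ?_
    filter_upwards [ae_gen b] with z hz
    exact hg z hz
  · exact hi

/-- The two families of inequalities, from the pointwise ones. -/
theorem ineq_of (hw : Weight w κ)
    (P1 : ∀ z ∈ Gen b, ∀ k, w (ev b (fst3 k)) z + w (ev b (opp k)) z ≤ hs w b z)
    (P2 : ∀ z ∈ Gen b, ∀ q, hs w b z ≤ ∑ j, w (ev b (st q j)) z)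
    (Q1 : ∀ k, ∃ z ∈ Gen b, w (ev b (fst3 k)) z + w (ev b (opp k)) z < hs w b z)
    (Q2 : ∀ q, ∃ z ∈ Gen b, hs w b z < ∑ j, w (ev b (st q j)) z) :
    (∀ k, Real.pi * D (len b) k < ∑ e, len b e * dih b e) ∧
    (∀ q, ∑ e, len b e * dih b e < Real.pi * S (len b) q) := by
  have hpi := Real.pi_pos
  have hlen : ∀ i, ‖ev b i‖ = len b i := by
    intro i
    unfold ev len
    rw [dist_comm, dist_eq_norm]
  have hI := hw.hs_integral b
  have hκ := hw.pos
  constructor
  · intro k
    obtain ⟨z0, hz0, h0⟩ := Q1 k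
    have hJ : IntegrableOn (fun z => w (ev b (fst3 k)) z + w (ev b (opp k)) z)
        (ball (0 : E3) 1) := (hw.integrableOn _ subset_rfl).add (hw.integrableOn _ subset_rfl)
    have h := pos_integral b (g := fun z => hs w b z - (w (ev b (fst3 k)) z + w (ev b (opp k)) z))
      ((hw.hs_integrable b).sub hJ)
      (fun z hz => (hw.hs_continuousAt b hz).sub
        ((hw.cont _).continuousAt.add (hw.cont _).continuousAt))
      (fun z hz => sub_nonneg.2 (P1 z hz k))
      (fun t z ht => by
        rw [hw.hs_smul b ht, hw.smul _ _ _ ht, hw.smul _ _ _ ht]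
        ring) hz0 (sub_pos.2 h0)
    rw [integral_sub (hw.hs_integrable b) hJ,
      integral_add (hw.integrableOn _ subset_rfl) (hw.integrableOn _ subset_rfl), hw.onBall,
      hw.onBall,
      hI, hlen, hlen] at h
    have hD : D (len b) k = len b (fst3 k) + len b (opp k) := by
      fin_cases k <;> rfl
    rw [hD]
    have h5 : 0 < κ * ((∑ e, len b e * dih b e) - Real.pi * (len b (fst3 k) + len b (opp k))) := by
      have h6 : κ * ((∑ e, len b e * dih b e) - Real.pi * (len b (fst3 k) + len b (opp k))) =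
          Real.pi * (κ / Real.pi * (∑ e, len b e * dih b e) -
            (κ * len b (fst3 k) + κ * len b (opp k))) := by
        field_simp
      rw [h6]
      exact mul_pos hpi h
    linarith [(mul_pos_iff_of_pos_left hκ).1 h5]
  · intro q
    obtain ⟨z0, hz0, h0⟩ := Q2 q
    have hJ : IntegrableOn (fun z => ∑ j, w (ev b (st q j)) z) (ball (0 : E3) 1) :=
      integrable_finsetSum _ fun j _ => hw.integrableOn _ subset_rfl
    have h := pos_integral b (g := fun z => (∑ j, w (ev b (st q j)) z) - hs w b z)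
      (hJ.sub (hw.hs_integrable b))
      (fun z hz => (tendsto_finsetSum _ fun j _ => (hw.cont _).continuousAt).sub
        (hw.hs_continuousAt b hz))
      (fun z hz => sub_nonneg.2 (P2 z hz q))
      (fun t z ht => by
        rw [hw.hs_smul b ht]
        simp only [hw.smul _ _ _ ht]
        rw [← Finset.mul_sum]
        ring) hz0 (sub_pos.2 h0)
    rw [integral_sub hJ (hw.hs_integrable b),
      integral_finsetSum _ (fun j _ => hw.integrableOn _ subset_rfl), hI] at h
    simp only [hw.onBall, hlen] at h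
    have hS : S (len b) q = ∑ j, len b (st q j) := by
      rw [Fin.sum_univ_three]
      fin_cases q <;> rfl
    rw [hS]
    have h5 : 0 < κ * (Real.pi * (∑ j, len b (st q j)) - ∑ e, len b e * dih b e) := by
      have h6 : κ * (Real.pi * (∑ j, len b (st q j)) - ∑ e, len b e * dih b e) =
          Real.pi * ((∑ j, κ * len b (st q j)) - κ / Real.pi * (∑ e, len b e * dih b e)) := by
        rw [← Finset.mul_sum]
        field_simp
      rw [h6]
      exact mul_pos hpi h
    linarith [(mul_pos_iff_of_pos_left hκ).1 h5]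

end Pool.Agent.TetDim
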