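import Pool.Agent.TetDim.Defs

/-! # Nonnegative kernel vectors of the Gram matrix of the four unit normals -/

set_option autoImplicit false

namespace Pool.Agent.TetDim

open Real

/-- Three angles in `[0, π]` that satisfy the three projection formulas of a planar triangle with
nonnegative side lengths `a, b, c` (not all zero) have sum `π`. -/
theorem tri_sum_aux {x y z a b c : ℝ} (hx : 0 ≤ x) (hx' : x ≤ π) (hy : 0 ≤ y) (hy' : y ≤ π)
    (hz : 0 ≤ z) (hz' : z ≤ π) (ha : 0 ≤ a) (hb : 0 < b) (hc : 0 ≤ c)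
    (e1 : a = b * cos x + c * cos y) (e2 : b = a * cos x + c * cos z)
    (e3 : c = a * cos y + b * cos z) : x + y + z = π := by
  have px := sin_sq_add_cos_sq x
  have py := sin_sq_add_cos_sq y
  have pz := sin_sq_add_cos_sq z
  have nx := sin_nonneg_of_nonneg_of_le_pi hx hx'
  have ny := sin_nonneg_of_nonneg_of_le_pi hy hy'
  have nz := sin_nonneg_of_nonneg_of_le_pi hz hz'
  have s1 : a * sin y = b * sin z := by
    refine (sq_eq_sq₀ (by positivity) (by positivity)).1 ?_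
    linear_combination a ^ 2 * py - b ^ 2 * pz + a * e1 - b * e2 + (a * cos y - b * cos z) * e3
  have s2 : b * sin x = c * sin y := by
    refine (sq_eq_sq₀ (by positivity) (by positivity)).1 ?_
    linear_combination b ^ 2 * px - c ^ 2 * py + b * e2 - c * e3 + (b * cos x - c * cos y) * e1
  have h1 : cos (y + z) = -cos x := by
    refine mul_left_cancel₀ hb.ne' ?_
    rw [cos_add]
    linear_combination sin y * s1 - a * py - cos y * e3 - e1
  have h2 : sin (y + z) = sin x := by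
    refine mul_left_cancel₀ hb.ne' ?_
    rw [sin_add]
    linear_combination -cos y * s1 - sin y * e3 - s2
  have h3 : cos (x + y + z - π) = 1 := by
    rw [cos_sub_pi, add_assoc, cos_add, h1, h2]
    linear_combination px
  have h4 : x + y + z - π < 2 * π := by
    by_contra hcon
    push Not at hcon
    have hx3 : x = π := by linarith
    have hz3 : z = π := by linarith
    rw [hx3, hz3, cos_pi] at e2
    linarith
  have h5 := (cos_eq_one_iff_of_lt_of_lt (by linarith [pi_pos]) h4).1 h3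
  linarith

theorem tri_sum {x y z a b c : ℝ} (hx : 0 ≤ x) (hx' : x ≤ π) (hy : 0 ≤ y) (hy' : y ≤ π)
    (hz : 0 ≤ z) (hz' : z ≤ π) (ha : 0 ≤ a) (hb : 0 ≤ b) (hc : 0 ≤ c)
    (hne : ¬ (a = 0 ∧ b = 0 ∧ c = 0))
    (e1 : a = b * cos x + c * cos y) (e2 : b = a * cos x + c * cos z)
    (e3 : c = a * cos y + b * cos z) : x + y + z = π := by
  rcases hb.lt_or_eq with hb0 | hb0
  · exact tri_sum_aux hx hx' hy hy' hz hz' ha hb0 hc e1 e2 e3
  rcases ha.lt_or_eq with ha0 | ha0
  · have := tri_sum_aux hx hx' hz hz' hy hy' hb ha0 hc e2 e1 (by linarith)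
    linarith
  rcases hc.lt_or_eq with hc0 | hc0
  · have := tri_sum_aux hy hy' hx hx' hz hz' ha hc0 hb (by linarith) e3 e2
    linarith
  · exact absurd ⟨ha0.symm, hb0.symm, hc0.symm⟩ hne

/-- The Gram matrix of the unit normals; the faces `c` and `d` (opposite to the vertices `c` and
`d`) share the edge `i` with `{ec i, ed i} = {c, d}`. -/
noncomputable def G4 (t : Fin 6 → ℝ) : Matrix (Fin 4) (Fin 4) ℝ :=
  !![1, -cos (t 5), -cos (t 4), -cos (t 3);
     -cos (t 5), 1, -cos (t 2), -cos (t 1);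
     -cos (t 4), -cos (t 2), 1, -cos (t 0);
     -cos (t 3), -cos (t 1), -cos (t 0), 1]

/-- The principal `3 × 3` minor of `G4 t` without the face `c`. -/
noncomputable def m3 (t : Fin 6 → ℝ) (c : Fin 4) : ℝ :=
  1 - cos (t (st c 0)) ^ 2 - cos (t (st c 1)) ^ 2 - cos (t (st c 2)) ^ 2 -
    2 * cos (t (st c 0)) * cos (t (st c 1)) * cos (t (st c 2))

theorem G4_isHermitian (t : Fin 6 → ℝ) : (G4 t).IsHermitian := by
  unfold G4
  ext i j
  fin_cases i <;> fin_cases j <;> simp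

/-- the four rows of `G4 t a = 0` -/
theorem G4_rows {t : Fin 6 → ℝ} {a : Fin 4 → ℝ} (h : (G4 t).mulVec a = 0) :
    a 0 - cos (t 5) * a 1 - cos (t 4) * a 2 - cos (t 3) * a 3 = 0 ∧
    a 1 - cos (t 5) * a 0 - cos (t 2) * a 2 - cos (t 1) * a 3 = 0 ∧
    a 2 - cos (t 4) * a 0 - cos (t 2) * a 1 - cos (t 0) * a 3 = 0 ∧
    a 3 - cos (t 3) * a 0 - cos (t 1) * a 1 - cos (t 0) * a 2 = 0 := by
  have h0 := congrFun h 0
  have h1 := congrFun h 1
  have h2 := congrFun h 2
  have h3 := congrFun h 3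
  simp only [G4, Matrix.mulVec, dotProduct, Fin.sum_univ_four, Matrix.of_apply,
    Matrix.cons_val', Matrix.cons_val, Matrix.cons_val_zero, Matrix.cons_val_one,
    Pi.zero_apply] at h0 h1 h2 h3
  refine ⟨?_, ?_, ?_, ?_⟩ <;> linarith

/-- (T4a, 1) a nonnegative kernel vector with a zero at `c` makes the angle sum at `c` equal to
`π` -/
theorem kernel_angle {t : Fin 6 → ℝ} (h0 : ∀ e, 0 ≤ t e) (h1 : ∀ e, t e ≤ π) {a : Fin 4 → ℝ}
    (ha : ∀ c, 0 ≤ a c) (hne : a ≠ 0) (hG : (G4 t).mulVec a = 0) {c : Fin 4} (hc : a c = 0) :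
    A t c = π := by
  obtain ⟨r0, r1, r2, r3⟩ := G4_rows hG
  have hn : ¬ (a 0 = 0 ∧ a 1 = 0 ∧ a 2 = 0 ∧ a 3 = 0) := by
    rintro ⟨z0, z1, z2, z3⟩
    apply hne
    funext i
    fin_cases i
    · exact z0
    · exact z1
    · exact z2
    · exact z3
  fin_cases c
  · have hc : a 0 = 0 := hc
    rw [hc] at r1 r2 r3
    have := tri_sum (h0 2) (h1 2) (h0 1) (h1 1) (h0 0) (h1 0) (ha 1) (ha 2) (ha 3)
      (fun h => hn ⟨hc, h.1, h.2.1, h.2.2⟩) (by linarith) (by linarith) (by linarith)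
    show t 0 + t 1 + t 2 = π
    linarith
  · have hc : a 1 = 0 := hc
    rw [hc] at r0 r2 r3
    have := tri_sum (h0 4) (h1 4) (h0 3) (h1 3) (h0 0) (h1 0) (ha 0) (ha 2) (ha 3)
      (fun h => hn ⟨h.1, hc, h.2.1, h.2.2⟩) (by linarith) (by linarith) (by linarith)
    show t 0 + t 3 + t 4 = π
    linarith
  · have hc : a 2 = 0 := hc
    rw [hc] at r0 r1 r3
    have := tri_sum (h0 5) (h1 5) (h0 3) (h1 3) (h0 1) (h1 1) (ha 0) (ha 1) (ha 3)
      (fun h => hn ⟨h.1, h.2.1, hc, h.2.2⟩) (by linarith) (by linarith) (by linarith)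
    show t 1 + t 3 + t 5 = π
    linarith
  · have hc : a 3 = 0 := hc
    rw [hc] at r0 r1 r2
    have := tri_sum (h0 5) (h1 5) (h0 4) (h1 4) (h0 2) (h1 2) (ha 0) (ha 1) (ha 2)
      (fun h => hn ⟨h.1, h.2.1, h.2.2, hc⟩) (by linarith) (by linarith) (by linarith)
    show t 2 + t 4 + t 5 = π
    linarith

/-- a `3 × 3` block with determinant zero has a kernel vector -/
theorem block_kernel {x y z : ℝ} (h : 1 - x ^ 2 - y ^ 2 - z ^ 2 - 2 * x * y * z = 0) :
    ∃ p q r : ℝ, ¬ (p = 0 ∧ q = 0 ∧ r = 0) ∧ p - x * q - y * r = 0 ∧ q - x * p - z * r = 0 ∧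
      r - y * p - z * q = 0 := by
  have hdet : (!![1, -x, -y; -x, 1, -z; -y, -z, 1] : Matrix (Fin 3) (Fin 3) ℝ).det = 0 := by
    rw [Matrix.det_fin_three]
    simp only [Matrix.of_apply, Matrix.cons_val', Matrix.cons_val, Matrix.cons_val_zero,
      Matrix.cons_val_one]
    linear_combination h
  obtain ⟨v, hv, hMv⟩ := Matrix.exists_mulVec_eq_zero_iff.2 hdet
  have h0 := congrFun hMv 0
  have h1 := congrFun hMv 1
  have h2 := congrFun hMv 2
  simp only [Matrix.mulVec, dotProduct, Fin.sum_univ_three, Matrix.of_apply,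
    Matrix.cons_val', Matrix.cons_val, Matrix.cons_val_zero, Matrix.cons_val_one,
    Pi.zero_apply] at h0 h1 h2
  refine ⟨v 0, v 1, v 2, ?_, by linarith, by linarith, by linarith⟩
  rintro ⟨z0, z1, z2⟩
  apply hv
  funext i
  fin_cases i
  · exact z0
  · exact z1
  · exact z2

theorem kernel_of_m3 {t : Fin 6 → ℝ} (hpsd : ∀ x : Fin 4 → ℝ, 0 ≤ dotProduct x ((G4 t).mulVec x))
    {i : Fin 4} (hm : m3 t i = 0) : ∃ b : Fin 4 → ℝ, b ≠ 0 ∧ b i = 0 ∧ (G4 t).mulVec b = 0 := by
  have hps : (G4 t).PosSemidef :=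
    Matrix.PosSemidef.of_dotProduct_mulVec_nonneg (G4_isHermitian t) (fun x => by
      simpa using hpsd x)
  have hfin : ∀ b : Fin 4 → ℝ, dotProduct b ((G4 t).mulVec b) = 0 → (G4 t).mulVec b = 0 := by
    intro b hb
    exact (hps.dotProduct_mulVec_zero_iff b).1 (by simpa using hb)
  fin_cases i
  · have hm' : 1 - cos (t 2) ^ 2 - cos (t 1) ^ 2 - cos (t 0) ^ 2 -
        2 * cos (t 2) * cos (t 1) * cos (t 0) = 0 := by
      have : 1 - cos (t 0) ^ 2 - cos (t 1) ^ 2 - cos (t 2) ^ 2 -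
        2 * cos (t 0) * cos (t 1) * cos (t 2) = 0 := hm
      linarith
    obtain ⟨p, q, r, hne, k0, k1, k2⟩ := block_kernel hm'
    refine ⟨![0, p, q, r], ?_, rfl, ?_⟩
    · intro h
      exact hne ⟨congrFun h 1, congrFun h 2, congrFun h 3⟩
    · apply hfin
      simp only [G4, Matrix.mulVec, dotProduct, Fin.sum_univ_four, Matrix.of_apply,
        Matrix.cons_val', Matrix.cons_val, Matrix.cons_val_zero, Matrix.cons_val_one]
      linear_combination p * k0 + q * k1 + r * k2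
  · have hm' : 1 - cos (t 4) ^ 2 - cos (t 3) ^ 2 - cos (t 0) ^ 2 -
        2 * cos (t 4) * cos (t 3) * cos (t 0) = 0 := by
      have : 1 - cos (t 0) ^ 2 - cos (t 3) ^ 2 - cos (t 4) ^ 2 -
        2 * cos (t 0) * cos (t 3) * cos (t 4) = 0 := hm
      linarith
    obtain ⟨p, q, r, hne, k0, k1, k2⟩ := block_kernel hm'
    refine ⟨![p, 0, q, r], ?_, rfl, ?_⟩
    · intro h
      exact hne ⟨congrFun h 0, congrFun h 2, congrFun h 3⟩
    · apply hfin
      simp only [G4, Matrix.mulVec, dotProduct, Fin.sum_univ_four, Matrix.of_apply,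
        Matrix.cons_val', Matrix.cons_val, Matrix.cons_val_zero, Matrix.cons_val_one]
      linear_combination p * k0 + q * k1 + r * k2
  · have hm' : 1 - cos (t 5) ^ 2 - cos (t 3) ^ 2 - cos (t 1) ^ 2 -
        2 * cos (t 5) * cos (t 3) * cos (t 1) = 0 := by
      have : 1 - cos (t 1) ^ 2 - cos (t 3) ^ 2 - cos (t 5) ^ 2 -
        2 * cos (t 1) * cos (t 3) * cos (t 5) = 0 := hm
      linarith
    obtain ⟨p, q, r, hne, k0, k1, k2⟩ := block_kernel hm'
    refine ⟨![p, q, 0, r], ?_, rfl, ?_⟩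
    · intro h
      exact hne ⟨congrFun h 0, congrFun h 1, congrFun h 3⟩
    · apply hfin
      simp only [G4, Matrix.mulVec, dotProduct, Fin.sum_univ_four, Matrix.of_apply,
        Matrix.cons_val', Matrix.cons_val, Matrix.cons_val_zero, Matrix.cons_val_one]
      linear_combination p * k0 + q * k1 + r * k2
  · have hm' : 1 - cos (t 5) ^ 2 - cos (t 4) ^ 2 - cos (t 2) ^ 2 -
        2 * cos (t 5) * cos (t 4) * cos (t 2) = 0 := by
      have : 1 - cos (t 2) ^ 2 - cos (t 4) ^ 2 - cos (t 5) ^ 2 -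
        2 * cos (t 2) * cos (t 4) * cos (t 5) = 0 := hm
      linarith
    obtain ⟨p, q, r, hne, k0, k1, k2⟩ := block_kernel hm'
    refine ⟨![p, q, r, 0], ?_, rfl, ?_⟩
    · intro h
      exact hne ⟨congrFun h 0, congrFun h 1, congrFun h 2⟩
    · apply hfin
      simp only [G4, Matrix.mulVec, dotProduct, Fin.sum_univ_four, Matrix.of_apply,
        Matrix.cons_val', Matrix.cons_val, Matrix.cons_val_zero, Matrix.cons_val_one]
      linear_combination p * k0 + q * k1 + r * k2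

/-- (T4a, 2) -/
theorem kernel_two {t : Fin 6 → ℝ} (h0 : ∀ e, 0 ≤ t e) (h1 : ∀ e, t e ≤ π)
    (hpsd : ∀ x : Fin 4 → ℝ, 0 ≤ dotProduct x ((G4 t).mulVec x)) (hm : ∀ c, m3 t c = 0)
    {a : Fin 4 → ℝ} (ha : ∀ c, 0 ≤ a c) (hne : a ≠ 0) (hG : (G4 t).mulVec a = 0) :
    ∃ c d, c ≠ d ∧ A t c = π ∧ A t d = π := by
  -- two zeros of `a`
  by_cases h2 : ∃ c d, c ≠ d ∧ a c = 0 ∧ a d = 0
  · obtain ⟨c, d, hcd, hc, hd⟩ := h2
    exact ⟨c, d, hcd, kernel_angle h0 h1 ha hne hG hc, kernel_angle h0 h1 ha hne hG hd⟩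
  push Not at h2
  -- a second kernel vector
  obtain ⟨i, hi⟩ : ∃ i, a i ≠ 0 := Function.ne_iff.1 hne
  obtain ⟨b, hb0, hbi, hGb⟩ := kernel_of_m3 hpsd (hm i)
  have hind : ∀ s u : ℝ, s ≠ 0 → s • b + u • a ≠ 0 := by
    intro s u hs h
    have h3 := congrFun h i
    simp only [Pi.add_apply, Pi.smul_apply, smul_eq_mul, hbi, mul_zero, zero_add,
      Pi.zero_apply] at h3
    have hu : u = 0 := (mul_eq_zero.1 h3).resolve_right hi
    rw [hu, zero_smul, add_zero] at h
    exact hb0 ((smul_eq_zero.1 h).resolve_left hs)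
  have hker : ∀ s u : ℝ, (G4 t).mulVec (s • b + u • a) = 0 := by
    intro s u
    rw [Matrix.mulVec_add, Matrix.mulVec_smul, Matrix.mulVec_smul, hG, hGb, smul_zero, smul_zero,
      add_zero]
  -- the main step: for a vector `b'` of the form `s • b` that is nonnegative where `a` vanishes
  have step : ∀ s : ℝ, s ≠ 0 → (∀ c, a c = 0 → 0 ≤ s * b c) →
      ∃ d, a d ≠ 0 ∧ A t d = π ∧ ∀ c, a c ≠ 0 → s * b d / a d ≤ s * b c / a c := by
    intro s hs hz
    obtain ⟨d, hd, hmin⟩ := Finset.exists_min_image (Finset.univ.filter fun c => a c ≠ 0)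
      (fun c => s * b c / a c) ⟨i, by simpa using hi⟩
    have hd' : a d ≠ 0 := by simpa using hd
    refine ⟨d, hd', ?_, fun c hc => hmin c (by simpa using hc)⟩
    have hk := hker s (-(s * b d / a d))
    refine kernel_angle h0 h1 (a := s • b + (-(s * b d / a d)) • a) ?_ (hind _ _ hs) hk ?_
    · intro c
      simp only [Pi.add_apply, Pi.smul_apply, smul_eq_mul]
      by_cases hc : a c = 0
      · rw [hc, mul_zero, add_zero]
        exact hz c hc
      · have h3 := hmin c (by simpa using hc)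
        have hpos : 0 < a c := lt_of_le_of_ne (ha c) (Ne.symm hc)
        rw [le_div_iff₀ hpos] at h3
        linarith
    · simp only [Pi.add_apply, Pi.smul_apply, smul_eq_mul]
      field_simp
      ring
  by_cases hz : ∃ c, a c = 0
  · obtain ⟨c, hc⟩ := hz
    have huniq : ∀ c', a c' = 0 → c' = c := by
      intro c' hc'
      by_contra hcc
      exact h2 c' c hcc hc' hc
    have hAc := kernel_angle h0 h1 ha hne hG hc
    rcases le_total 0 (b c) with hbc | hbc
    · obtain ⟨d, hd, hAd, -⟩ := step 1 one_ne_zero (fun c' hc' => by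
        rw [huniq c' hc']; linarith)
      exact ⟨c, d, fun h => hd (h ▸ hc), hAc, hAd⟩
    · obtain ⟨d, hd, hAd, -⟩ := step (-1) (by norm_num) (fun c' hc' => by
        rw [huniq c' hc']; linarith)
      exact ⟨c, d, fun h => hd (h ▸ hc), hAc, hAd⟩
  · push Not at hz
    obtain ⟨c, hc, hAc, hminc⟩ := step 1 one_ne_zero (fun c' hc' => absurd hc' (hz c'))
    obtain ⟨d, hd, hAd, hmind⟩ := step (-1) (by norm_num) (fun c' hc' => absurd hc' (hz c'))
    refine ⟨c, d, ?_, hAc, hAd⟩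
    rintro rfl
    apply hind 1 (-(b c / a c)) one_ne_zero
    funext j
    have h3 := hminc j (hz j)
    have h4 := hmind j (hz j)
    simp only [Pi.add_apply, Pi.smul_apply, smul_eq_mul, one_mul, Pi.zero_apply]
    have h5 : b j / a j = b c / a c := by
      rw [neg_one_mul, neg_one_mul, neg_div, neg_div] at h4
      rw [one_mul, one_mul] at h3
      linarith
    have h6 : b j = b c / a c * a j := by
      rw [← h5]
      field_simp [hz j]
    linarith

end Pool.Agent.TetDim
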