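import Pool.Agent.TetDim.Defs

/-! # The limit of the dihedral angles when one triangle inequality becomes an equality

`pq + qr = pr` for the face `p q r`; the fourth vertex is `w`. Standard names: `q = 0`, `w = 1`,
`p = 2`, `r = 3`. -/

set_option autoImplicit false

open Filter Topology

namespace Pool.Agent.TetDim

/-! ### Algebra at the degenerate point -/

theorem F_mul_five (l : Fin 6 → ℝ) : F l 0 * F l 1 = N l 5 ^ 2 + 4 * l 5 ^ 2 * P l := by
  simp only [F, N, P, heron, num, Matrix.cons_val_zero, Matrix.cons_val_one, Matrix.cons_val]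
  ring

theorem F_mul_one (l : Fin 6 → ℝ) : F l 1 * F l 3 = N l 1 ^ 2 + 4 * l 1 ^ 2 * P l := by
  simp only [F, N, P, heron, num, Matrix.cons_val_zero, Matrix.cons_val_one, Matrix.cons_val]
  ring

theorem F_mul_two (l : Fin 6 → ℝ) : F l 1 * F l 2 = N l 2 ^ 2 + 4 * l 2 ^ 2 * P l := by
  simp only [F, N, P, heron, num, Matrix.cons_val_zero, Matrix.cons_val_one, Matrix.cons_val]
  ring

theorem F_mul_zero (l : Fin 6 → ℝ) : F l 2 * F l 3 = N l 0 ^ 2 + 4 * l 0 ^ 2 * P l := by
  simp only [F, N, P, heron, num, Matrix.cons_val_zero, Matrix.cons_val_one, Matrix.cons_val]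
  ring

theorem F_mul_three (l : Fin 6 → ℝ) : F l 0 * F l 3 = N l 3 ^ 2 + 4 * l 3 ^ 2 * P l := by
  simp only [F, N, P, heron, num, Matrix.cons_val_zero, Matrix.cons_val_one, Matrix.cons_val]
  ring

theorem F_mul_four (l : Fin 6 → ℝ) : F l 0 * F l 2 = N l 4 ^ 2 + 4 * l 4 ^ 2 * P l := by
  simp only [F, N, P, heron, num, Matrix.cons_val_zero, Matrix.cons_val_one, Matrix.cons_val]
  ring

/-- Stewart's relation gives the sign of the numerator at `wp`. -/
theorem num_wp {a b d e g : ℝ}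
    (h : (a + b) * e ^ 2 - b * d ^ 2 - a * g ^ 2 + a * b * (a + b) = 0) :
    (a + b) * num d e a g (a + b) b = a * heron d g (a + b) := by
  simp only [num, heron]
  linear_combination (d ^ 2 + (a + b) ^ 2 - g ^ 2) * h

theorem num_wr {a b d e g : ℝ}
    (h : (a + b) * e ^ 2 - b * d ^ 2 - a * g ^ 2 + a * b * (a + b) = 0) :
    (a + b) * num g e b d (a + b) a = b * heron d g (a + b) := by
  simp only [num, heron]
  linear_combination (g ^ 2 + (a + b) ^ 2 - d ^ 2) * h

theorem num_wq {a b d e g : ℝ}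
    (h : (a + b) * e ^ 2 - b * d ^ 2 - a * g ^ 2 + a * b * (a + b) = 0) :
    (a + b) ^ 2 * num e a d b g (a + b) = -(a * b * heron d g (a + b)) := by
  simp only [num, heron]
  linear_combination ((a + b) * (d ^ 2 + g ^ 2 - 2 * (a + b) ^ 2 + a ^ 2 + b ^ 2)
    - (a + b) * e ^ 2 - (b * d ^ 2 + a * g ^ 2 - a * b * (a + b))) * h

/-- The data at the degenerate point: `S 0 = D 0` and the other inequalities. -/
structure Deg (u : Fin 6 → ℝ) : Prop where
  /-- the degenerate inequality -/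
  h0 : u 1 + u 2 = u 5
  /-- `D 1` is smaller than the sums at the vertices -/
  h1 : ∀ q, D u 1 < S u q
  /-- `D 2` is smaller than the sums at the vertices -/
  h2 : ∀ q, D u 2 < S u q
  /-- `D 0` is at most the sums at the vertices -/
  h3 : ∀ q, D u 0 ≤ S u q
  /-- the volume is not imaginary -/
  hP : 0 ≤ P u

namespace Deg

variable {u : Fin 6 → ℝ} (h : Deg u)

include h

theorem f152 : 0 < u 1 + u 5 - u 2 := by
  have := h.h2 2
  simp only [D, S, Matrix.cons_val] at this
  linarith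

theorem f251 : 0 < u 2 + u 5 - u 1 := by
  have := h.h1 3
  simp only [D, S, Matrix.cons_val] at this
  linarith

theorem f013 : 0 < u 0 + u 1 - u 3 := by
  have := h.h2 0
  simp only [D, S, Matrix.cons_val] at this
  linarith

theorem f031 : 0 < u 0 + u 3 - u 1 := by
  have := h.h1 1
  simp only [D, S, Matrix.cons_val] at this
  linarith

theorem f130' : 0 ≤ u 1 + u 3 - u 0 := by
  have := h.h3 2
  simp only [D, S, Matrix.cons_val] at this
  linarith

theorem f024 : 0 < u 0 + u 2 - u 4 := by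
  have := h.h1 0
  simp only [D, S, Matrix.cons_val] at this
  linarith

theorem f042 : 0 < u 0 + u 4 - u 2 := by
  have := h.h2 1
  simp only [D, S, Matrix.cons_val] at this
  linarith

theorem f240' : 0 ≤ u 2 + u 4 - u 0 := by
  have := h.h3 3
  simp only [D, S, Matrix.cons_val] at this
  linarith

theorem f345' : 0 ≤ u 3 + u 4 - u 5 := by
  have := h.h3 1
  simp only [D, S, Matrix.cons_val] at this
  linarith

theorem f354 : 0 < u 3 + u 5 - u 4 := by
  have := h.h1 2
  simp only [D, S, Matrix.cons_val] at this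
  linarith

theorem f453 : 0 < u 4 + u 5 - u 3 := by
  have := h.h2 3
  simp only [D, S, Matrix.cons_val] at this
  linarith

theorem pos : ∀ i, 0 < u i := by
  have := h.h0
  have := h.f152
  have := h.f251
  have := h.f013
  have := h.f031
  have := h.f130'
  have := h.f024
  have := h.f042
  have := h.f240'
  intro i
  fin_cases i <;> simp only [Fin.zero_eta, Fin.mk_one, Fin.reduceFinMk] <;> linarith

theorem F1 : F u 1 = 0 := by
  have h0 := h.h0
  simp only [F, heron, Matrix.cons_val]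
  rw [← h0]
  ring

theorem P0 : P u = 0 := by
  have h1 := F_mul_one u
  rw [h.F1, zero_mul] at h1
  have h2 := h.hP
  have h3 := h.pos 1
  by_contra hne
  have h4 : 0 < P u := lt_of_le_of_ne h2 (Ne.symm hne)
  have : 0 < 4 * u 1 ^ 2 * P u := by positivity
  nlinarith [sq_nonneg (N u 1)]

theorem N1 : N u 1 = 0 := by
  have h1 := F_mul_one u
  rw [h.F1, h.P0, zero_mul, mul_zero, add_zero] at h1
  exact pow_eq_zero_iff (two_ne_zero) |>.1 h1.symm

theorem N2 : N u 2 = 0 := by
  have h1 := F_mul_two u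
  rw [h.F1, h.P0, zero_mul, mul_zero, add_zero] at h1
  exact pow_eq_zero_iff (two_ne_zero) |>.1 h1.symm

theorem N5 : N u 5 = 0 := by
  have h1 := F_mul_five u
  rw [h.F1, h.P0, mul_zero, mul_zero, add_zero] at h1
  exact pow_eq_zero_iff (two_ne_zero) |>.1 h1.symm

/-- Stewart's relation. -/
theorem stewart : (u 1 + u 2) * u 0 ^ 2 - u 2 * u 3 ^ 2 - u 1 * u 4 ^ 2 +
    u 1 * u 2 * (u 1 + u 2) = 0 := by
  have h1 := h.N1
  simp only [N, num, Matrix.cons_val] at h1
  rw [← h.h0] at h1
  have h2 := h.pos 1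
  have h3 : u 1 * ((u 1 + u 2) * u 0 ^ 2 - u 2 * u 3 ^ 2 - u 1 * u 4 ^ 2 +
    u 1 * u 2 * (u 1 + u 2)) = 0 := by
    linear_combination h1 / 2
  exact (mul_eq_zero.1 h3).resolve_left h2.ne'

theorem f345 : 0 < u 3 + u 4 - u 5 := by
  by_contra hne
  have h1 : u 5 = u 3 + u 4 := by
    have := h.f345'
    linarith
  have h2 := h.h0
  have h3 := h.stewart
  have h4 : u 4 = u 1 + u 2 - u 3 := by linarith
  rw [h4] at h3
  have h5 : (u 1 + u 2) * (u 0 ^ 2 - (u 1 - u 3) ^ 2) = 0 := by linear_combination h3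
  have h6 := h.f013
  have h7 := h.f031
  have h8 := h.pos 1
  have h9 := h.pos 2
  have : 0 < (u 1 + u 2) * ((u 0 + u 1 - u 3) * (u 0 + u 3 - u 1)) := by positivity
  nlinarith

theorem f130 : 0 < u 1 + u 3 - u 0 := by
  by_contra hne
  have h1 : u 0 = u 1 + u 3 := by
    have := h.f130'
    linarith
  have h3 := h.stewart
  rw [h1] at h3
  have h5 : u 1 * ((u 1 + u 2 + u 3) ^ 2 - u 4 ^ 2) = 0 := by linear_combination h3
  have h6 := h.f024
  have h8 := h.pos 1
  have h9 := h.pos 2
  have h10 := h.pos 3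
  have h11 := h.pos 4
  have h12 : 0 < u 1 + u 2 + u 3 - u 4 := by linarith
  have : 0 < u 1 * ((u 1 + u 2 + u 3 - u 4) * (u 1 + u 2 + u 3 + u 4)) := by positivity
  nlinarith

theorem f240 : 0 < u 2 + u 4 - u 0 := by
  by_contra hne
  have h1 : u 0 = u 2 + u 4 := by
    have := h.f240'
    linarith
  have h3 := h.stewart
  rw [h1] at h3
  have h5 : u 2 * ((u 1 + u 2 + u 4) ^ 2 - u 3 ^ 2) = 0 := by linear_combination h3
  have h6 := h.f013
  have h8 := h.pos 1
  have h9 := h.pos 2
  have h10 := h.pos 3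
  have h11 := h.pos 4
  have h12 : 0 < u 1 + u 2 + u 4 - u 3 := by linarith
  have : 0 < u 2 * ((u 1 + u 2 + u 4 - u 3) * (u 1 + u 2 + u 4 + u 3)) := by positivity
  nlinarith

theorem F0 : 0 < F u 0 := by
  simp only [F, heron, Matrix.cons_val]
  have h1 := h.f345
  have h2 := h.f354
  have h3 := h.f453
  have h4 := h.pos 3
  have h5 := h.pos 4
  have h6 := h.pos 5
  have e1 : 0 < u 3 + u 4 + u 5 := by positivity
  have e2 : 0 < -u 3 + u 4 + u 5 := by linarith
  have e3 : 0 < u 3 - u 4 + u 5 := by linarith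
  positivity

theorem F2 : 0 < F u 2 := by
  simp only [F, heron, Matrix.cons_val]
  have h1 := h.f024
  have h2 := h.f042
  have h3 := h.f240
  have h4 := h.pos 0
  have h5 := h.pos 2
  have h6 := h.pos 4
  have e1 : 0 < u 0 + u 2 + u 4 := by positivity
  have e2 : 0 < -u 0 + u 2 + u 4 := by linarith
  have e3 : 0 < u 0 - u 2 + u 4 := by linarith
  positivity

theorem F3 : 0 < F u 3 := by
  simp only [F, heron, Matrix.cons_val]
  have h1 := h.f013
  have h2 := h.f031
  have h3 := h.f130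
  have h4 := h.pos 0
  have h5 := h.pos 1
  have h6 := h.pos 3
  have e1 : 0 < u 0 + u 1 + u 3 := by positivity
  have e2 : 0 < -u 0 + u 1 + u 3 := by linarith
  have e3 : 0 < u 0 - u 1 + u 3 := by linarith
  positivity

theorem N3 : 0 < N u 3 := by
  have h1 := num_wp h.stewart
  have h2 : N u 3 = num (u 3) (u 0) (u 1) (u 4) (u 1 + u 2) (u 2) := by
    simp only [N, Matrix.cons_val, h.h0]
  have h3 : F u 0 = heron (u 3) (u 4) (u 1 + u 2) := by
    simp only [F, Matrix.cons_val, h.h0]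
  rw [← h2, ← h3] at h1
  have h4 := h.pos 1
  have h5 := h.pos 2
  have h6 := h.F0
  have h7 : 0 < (u 1 + u 2) * N u 3 := by rw [h1]; positivity
  exact (pos_iff_pos_of_mul_pos h7).1 (by positivity)

theorem N4 : 0 < N u 4 := by
  have h1 := num_wr h.stewart
  have h2 : N u 4 = num (u 4) (u 0) (u 2) (u 3) (u 1 + u 2) (u 1) := by
    simp only [N, Matrix.cons_val, h.h0]
  have h3 : F u 0 = heron (u 3) (u 4) (u 1 + u 2) := by
    simp only [F, Matrix.cons_val, h.h0]
  rw [← h2, ← h3] at h1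
  have h4 := h.pos 1
  have h5 := h.pos 2
  have h6 := h.F0
  have h7 : 0 < (u 1 + u 2) * N u 4 := by rw [h1]; positivity
  exact (pos_iff_pos_of_mul_pos h7).1 (by positivity)

theorem N0 : N u 0 < 0 := by
  have h1 := num_wq h.stewart
  have h2 : N u 0 = num (u 0) (u 1) (u 3) (u 2) (u 4) (u 1 + u 2) := by
    simp only [N, Matrix.cons_val, h.h0]
  have h3 : F u 0 = heron (u 3) (u 4) (u 1 + u 2) := by
    simp only [F, Matrix.cons_val, h.h0]
  rw [← h2, ← h3] at h1
  have h4 := h.pos 1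
  have h5 := h.pos 2
  have h6 := h.F0
  by_contra hn
  rw [not_lt] at hn
  have h7 : 0 ≤ (u 1 + u 2) ^ 2 * N u 0 := by positivity
  have h8 : 0 < u 1 * u 2 * F u 0 := by positivity
  linarith

end Deg

/-! ### The limits -/

/-- A quotient `N / √(t G F')` with `N = O(t)` tends to zero. -/
theorem tendsto_div_sqrt {N F' G : ℝ → ℝ} (hN : DifferentiableAt ℝ N 0) (hN0 : N 0 = 0)
    (hF : ContinuousAt F' 0) (hF0 : 0 < F' 0) (hG : ContinuousAt G 0) (hG0 : 0 < G 0) :
    Tendsto (fun t => N t / √(t * G t * F' t)) (𝓝[>] 0) (𝓝 0) := by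
  have h1 : Tendsto (fun t => t⁻¹ • (N (0 + t) - N 0)) (𝓝[>] 0) (𝓝 (deriv N 0)) :=
    hN.hasDerivAt.tendsto_slope_zero_right
  have h2 : Tendsto (fun t => √t / √(G t * F' t)) (𝓝[>] 0) (𝓝 (√0 / √(G 0 * F' 0))) := by
    refine Tendsto.mono_left ?_ nhdsWithin_le_nhds
    refine ContinuousAt.div ?_ ?_ ?_
    · exact Real.continuous_sqrt.continuousAt
    · exact Real.continuous_sqrt.continuousAt.comp (hG.mul hF)
    · exact (Real.sqrt_pos.2 (mul_pos hG0 hF0)).ne'
  have h3 := h1.mul h2
  rw [Real.sqrt_zero, zero_div, mul_zero] at h3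
  refine h3.congr' ?_
  have h4 : ∀ᶠ t in 𝓝[>] (0 : ℝ), 0 < t := self_mem_nhdsWithin
  filter_upwards [h4] with t ht
  rw [zero_add, hN0, sub_zero, smul_eq_mul, mul_assoc t, Real.sqrt_mul ht.le]
  have h5 : 0 < √t := Real.sqrt_pos.2 ht
  have h6 : t⁻¹ * √t = (√t)⁻¹ := by
    have : √t * √t = t := Real.mul_self_sqrt ht.le
    field_simp
    nlinarith
  generalize √(G t * F' t) = Q
  calc t⁻¹ * N t * (√t / Q) = (t⁻¹ * √t) * (N t / Q) := by ring
    _ = N t / (√t * Q) := by rw [h6]; ring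

/-- The line through `u` in the direction `v`. -/
def ray (u v : Fin 6 → ℝ) (t : ℝ) (i : Fin 6) : ℝ := u i + t * v i

theorem ray_zero (u v : Fin 6 → ℝ) : ray u v 0 = u := by
  funext i
  simp [ray]

theorem continuous_F (u v : Fin 6 → ℝ) (c : Fin 4) : Continuous fun t => F (ray u v t) c := by
  fin_cases c <;>
    simp only [F, heron, ray, Fin.zero_eta, Fin.mk_one, Fin.reduceFinMk, Matrix.cons_val] <;>
    fun_prop

theorem differentiable_N (u v : Fin 6 → ℝ) (i : Fin 6) :
    Differentiable ℝ fun t => N (ray u v t) i := by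
  fin_cases i <;>
    simp only [N, num, ray, Fin.zero_eta, Fin.mk_one, Fin.reduceFinMk, Matrix.cons_val] <;>
    fun_prop

/-- The three factors of `F 1` which do not vanish. -/
def G1 (l : Fin 6 → ℝ) : ℝ := (l 1 + l 2 + l 5) * (-l 1 + l 2 + l 5) * (l 1 - l 2 + l 5)

theorem continuous_G1 (u v : Fin 6 → ℝ) : Continuous fun t => G1 (ray u v t) := by
  simp only [G1, ray]
  fun_prop

theorem Deg.G1_pos {u : Fin 6 → ℝ} (h : Deg u) : 0 < G1 u := by
  have h1 := h.f152
  have h2 := h.f251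
  have h4 := h.pos 1
  have h5 := h.pos 2
  have h6 := h.pos 5
  have e2 : 0 < -u 1 + u 2 + u 5 := by linarith
  have e3 : 0 < u 1 - u 2 + u 5 := by linarith
  simp only [G1]
  positivity

theorem F1_ray {u v : Fin 6 → ℝ} (h : Deg u) (t : ℝ) :
    F (ray u v t) 1 = t * ((v 1 + v 2 - v 5) * G1 (ray u v t)) := by
  simp only [F, heron, G1, Matrix.cons_val]
  have : ray u v t 1 + ray u v t 2 - ray u v t 5 = t * (v 1 + v 2 - v 5) := by
    simp only [ray]
    linear_combination h.h0
  rw [this]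
  ring

/-- The angles at the edges of the degenerate face tend to `π / 2`. -/
theorem tendsto_half {u v : Fin 6 → ℝ} (h : Deg u) (hv : 0 < v 1 + v 2 - v 5) {i : Fin 6}
    {c : Fin 4} (hc : ∀ l : Fin 6 → ℝ, F l (TetRel.ec i) * F l (TetRel.ed i) = F l 1 * F l c)
    (hN : N u i = 0) (hF : 0 < F u c) :
    Tendsto (fun t => Th (ray u v t) i) (𝓝[>] 0) (𝓝 (Real.pi / 2)) := by
  rw [← Real.arccos_zero]
  refine (Real.continuous_arccos.tendsto 0).comp ?_
  have h1 := tendsto_div_sqrt (N := fun t => N (ray u v t) i) (F' := fun t => F (ray u v t) c)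
    (G := fun t => (v 1 + v 2 - v 5) * G1 (ray u v t)) (differentiable_N u v i).differentiableAt
    (by rw [ray_zero, hN]) (continuous_F u v c).continuousAt (by rw [ray_zero]; exact hF)
    (continuous_const.mul (continuous_G1 u v)).continuousAt
    (by rw [ray_zero]; exact mul_pos hv h.G1_pos)
  refine h1.congr fun t => ?_
  rw [hc, F1_ray h]

/-- The other angles tend to `0` or `π`. -/
theorem tendsto_regular {u : Fin 6 → ℝ} (v : Fin 6 → ℝ) {i : Fin 6}
    (hF : 0 < F u (TetRel.ec i) * F u (TetRel.ed i)) :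
    Tendsto (fun t => Th (ray u v t) i) (𝓝[>] 0) (𝓝 (Th u i)) := by
  refine (Real.continuous_arccos.tendsto _).comp (Tendsto.mono_left ?_ nhdsWithin_le_nhds)
  have h1 : ContinuousAt (fun t => N (ray u v t) i /
      √(F (ray u v t) (TetRel.ec i) * F (ray u v t) (TetRel.ed i))) 0 := by
    refine ContinuousAt.div (differentiable_N u v i).continuous.continuousAt ?_ ?_
    · exact (Real.continuous_sqrt.comp
        ((continuous_F u v _).mul (continuous_F u v _))).continuousAt
    · rw [ray_zero]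
      exact (Real.sqrt_pos.2 hF).ne'
  have h2 := h1.tendsto
  rw [ray_zero] at h2
  exact h2

theorem Th_eq_zero {u : Fin 6 → ℝ} {i : Fin 6}
    (hF : F u (TetRel.ec i) * F u (TetRel.ed i) = N u i ^ 2) (hN : 0 < N u i) : Th u i = 0 := by
  unfold Th
  rw [hF, Real.sqrt_sq hN.le, div_self hN.ne', Real.arccos_one]

theorem Th_eq_pi {u : Fin 6 → ℝ} {i : Fin 6}
    (hF : F u (TetRel.ec i) * F u (TetRel.ed i) = N u i ^ 2) (hN : N u i < 0) :
    Th u i = Real.pi := by
  unfold Th
  have h1 : √(N u i ^ 2) = -N u i := by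
    rw [Real.sqrt_sq_eq_abs, abs_of_neg hN]
  rw [hF, h1, div_neg, div_self hN.ne, Real.arccos_neg_one]

/-- The limits of the six angles. -/
theorem tendsto_Th {u v : Fin 6 → ℝ} (h : Deg u) (hv : 0 < v 1 + v 2 - v 5) (i : Fin 6) :
    Tendsto (fun t => Th (ray u v t) i) (𝓝[>] 0)
      (𝓝 ((![Real.pi, Real.pi / 2, Real.pi / 2, 0, 0, Real.pi / 2] : Fin 6 → ℝ) i)) := by
  have hP := h.P0
  fin_cases i
  · have h1 : F u (TetRel.ec 0) * F u (TetRel.ed 0) = N u 0 ^ 2 := by
      have := F_mul_zero u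
      rw [hP, mul_zero, add_zero] at this
      exact this
    have h2 := tendsto_regular (u := u) v (i := 0) (mul_pos h.F2 h.F3)
    rw [Th_eq_pi h1 h.N0] at h2
    exact h2
  · exact tendsto_half h hv (c := 3) (fun l => rfl) h.N1 h.F3
  · exact tendsto_half h hv (c := 2) (fun l => rfl) h.N2 h.F2
  · have h1 : F u (TetRel.ec 3) * F u (TetRel.ed 3) = N u 3 ^ 2 := by
      have := F_mul_three u
      rw [hP, mul_zero, add_zero] at this
      exact this
    have h2 := tendsto_regular (u := u) v (i := 3) (mul_pos h.F0 h.F3)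
    rw [Th_eq_zero h1 h.N3] at h2
    exact h2
  · have h1 : F u (TetRel.ec 4) * F u (TetRel.ed 4) = N u 4 ^ 2 := by
      have := F_mul_four u
      rw [hP, mul_zero, add_zero] at this
      exact this
    have h2 := tendsto_regular (u := u) v (i := 4) (mul_pos h.F0 h.F2)
    rw [Th_eq_zero h1 h.N4] at h2
    exact h2
  · exact tendsto_half h hv (c := 0) (fun l => mul_comm _ _) h.N5 h.F0

end Pool.Agent.TetDim
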