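import Pool.Agent.TetDim.Four

/-! # T4, part c: the planar argument -/

set_option autoImplicit false

namespace Pool.Agent.TetDim

theorem fin4_cover : ∀ c d c' d' e : Fin 4, c ≠ d → c' ≠ d' → c ≠ c' → c ≠ d' → d ≠ c' → d ≠ d' →
    e = c ∨ e = d ∨ e = c' ∨ e = d' := by decide

/-- a generic vector separates different linear forms -/
theorem exists_generic (r : Fin 4 → ((Fin 2 → ℝ) →ₗ[ℝ] ℝ)) :
    ∃ u : Fin 2 → ℝ, u ≠ 0 ∧ ∀ c d, r c u = r d u → r c = r d := by
  classical
  let p : Fin 4 × Fin 4 → Submodule ℝ (Fin 2 → ℝ) := fun i =>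
    if r i.1 = r i.2 then ⊥ else LinearMap.ker (r i.1 - r i.2)
  have hp : ∀ i, p i ≠ ⊤ := by
    intro i
    by_cases h : r i.1 = r i.2
    · simp only [p, h, if_true]
      exact bot_ne_top
    · simp only [p, h, if_false]
      intro h2
      rw [LinearMap.ker_eq_top] at h2
      exact h (sub_eq_zero.1 h2)
  have h1 : ⋃ i, (p i : Set (Fin 2 → ℝ)) ≠ Set.univ := by
    intro h
    obtain ⟨i, hi⟩ := Subspace.exists_eq_top_of_iUnion_eq_univ h
    exact hp i hi
  obtain ⟨u, hu⟩ := (Set.ne_univ_iff_exists_notMem _).1 h1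
  rw [Set.mem_iUnion, not_exists] at hu
  refine ⟨u, ?_, ?_⟩
  · rintro rfl
    exact hu (0, 0) (Submodule.zero_mem _)
  · intro c d h
    by_contra hne
    apply hu (c, d)
    have : p (c, d) = LinearMap.ker (r c - r d) := by simp only [p, hne, if_false]
    rw [this]
    change u ∈ LinearMap.ker (r c - r d)
    rw [LinearMap.mem_ker, LinearMap.sub_apply, h, sub_self]

theorem exists_nonpos (f g : (Fin 2 → ℝ) →ₗ[ℝ] ℝ) :
    ∃ w : Fin 2 → ℝ, w ≠ 0 ∧ f w ≤ 0 ∧ g w ≤ 0 := by
  let L : (Fin 2 → ℝ) →ₗ[ℝ] (Fin 2 → ℝ) := LinearMap.pi ![f, g]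
  have hL0 : ∀ x, L x 0 = f x := fun x => rfl
  have hL1 : ∀ x, L x 1 = g x := fun x => rfl
  by_cases h : Function.Injective L
  · have h2 : Function.Surjective L := LinearMap.injective_iff_surjective.1 h
    obtain ⟨w, hw⟩ := h2 (fun _ => -1)
    refine ⟨w, ?_, ?_, ?_⟩
    · rintro rfl
      rw [map_zero] at hw
      have := congrFun hw 0
      simp at this
    · rw [← hL0, hw]; norm_num
    · rw [← hL1, hw]; norm_num
  · rw [← LinearMap.ker_eq_bot, Submodule.eq_bot_iff] at h
    push Not at h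
    obtain ⟨w, hw, hne⟩ := h
    rw [LinearMap.mem_ker] at hw
    refine ⟨w, hne, ?_, ?_⟩
    · rw [← hL0, hw]; exact le_refl _
    · rw [← hL1, hw]; exact le_refl _

/-- four linear forms in the plane whose maximum is in every direction positive and attained
twice do not exist -/
theorem plane (r : Fin 4 → ((Fin 2 → ℝ) →ₗ[ℝ] ℝ))
    (h : ∀ u, u ≠ 0 → ∃ c d, c ≠ d ∧ r c u = r d u ∧ 0 < r c u) : False := by
  obtain ⟨u, hu, hg⟩ := exists_generic r
  obtain ⟨c, d, hcd, e1, p1⟩ := h u hu
  obtain ⟨c', d', hcd', e2, p2⟩ := h (-u) (neg_ne_zero.2 hu)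
  have f1 : r c = r d := hg c d e1
  have f2 : r c' = r d' := by
    apply hg
    rw [map_neg, map_neg] at e2
    linarith
  rw [map_neg] at p2
  have q1 : 0 < r d u := e1 ▸ p1
  have q2 : r c' u < 0 := by linarith
  have q3 : r d' u < 0 := by rw [← f2]; exact q2
  obtain ⟨w, hw, n1, n2⟩ := exists_nonpos (r c) (r c')
  obtain ⟨e, _, _, _, p3⟩ := h w hw
  rcases fin4_cover c d c' d' e hcd hcd' (fun h => by rw [h] at p1; linarith)
    (fun h => by rw [h] at p1; linarith) (fun h => by rw [h] at q1; linarith)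
    (fun h => by rw [h] at q1; linarith) with h1 | h1 | h1 | h1
  · rw [h1] at p3; linarith
  · rw [h1, ← f1] at p3; linarith
  · rw [h1] at p3; linarith
  · rw [h1, ← f2] at p3; linarith

theorem isClosed_starC : IsClosed {t : Fin 6 → ℝ | StarC t} := by
  simp only [StarC, Set.setOf_forall, Set.setOf_and, A]
  refine isClosed_iInter fun q => (isClosed_le (by fun_prop) (by fun_prop)).inter
    (isClosed_iInter fun j => isClosed_le (by fun_prop) (by fun_prop))

theorem isOpen_star : IsOpen {t : Fin 6 → ℝ | Star t} := by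
  simp only [Star, Set.setOf_forall, Set.setOf_and, A]
  refine isOpen_iInter_of_finite fun q => (isOpen_lt (by fun_prop) (by fun_prop)).inter
    (isOpen_iInter_of_finite fun j => isOpen_lt (by fun_prop) (by fun_prop))

theorem Star.starC {t : Fin 6 → ℝ} (h : Star t) : StarC t :=
  fun q => ⟨(h q).1.le, fun j => ((h q).2 j).le⟩

theorem StarC.range {t : Fin 6 → ℝ} (h : StarC t) (e : Fin 6) : 0 ≤ t e ∧ t e ≤ Real.pi := by
  have a0 := h 0
  have a3 := h 3
  have a1 := h 1
  have b0 := a0.1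
  have b00 := a0.2 0
  have b01 := a0.2 1
  have b02 := a0.2 2
  have c0 := a3.1
  have c00 := a3.2 0
  have c01 := a3.2 1
  have c02 := a3.2 2
  have d0 := a1.1
  have d00 := a1.2 0
  have d01 := a1.2 1
  have d02 := a1.2 2
  simp only [A, st, Matrix.cons_val_zero, Matrix.cons_val_one, Matrix.cons_val] at *
  fin_cases e <;> constructor <;> simp <;> linarith

/-- From the boundary claim to the contradiction. -/
theorem plane_glue (t0 : Fin 6 → ℝ) (K : (Fin 2 → ℝ) →ₗ[ℝ] (Fin 6 → ℝ))
    (hK : Function.Injective K) (h1 : Star t0)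
    (hc : ∀ s, StarC (fun e => t0 e + K s e) → ¬ Star (fun e => t0 e + K s e) →
      ∃ c d, c ≠ d ∧ A (fun e => t0 e + K s e) c = Real.pi ∧
        A (fun e => t0 e + K s e) d = Real.pi) : False := by
  -- linear parts
  let lin : Fin 4 → ((Fin 2 → ℝ) →ₗ[ℝ] ℝ) := fun c =>
    (LinearMap.proj (R := ℝ) (φ := fun _ : Fin 6 => ℝ) (st c 0) +
      LinearMap.proj (R := ℝ) (φ := fun _ : Fin 6 => ℝ) (st c 1) +
      LinearMap.proj (R := ℝ) (φ := fun _ : Fin 6 => ℝ) (st c 2)) ∘ₗ K
  have hlin : ∀ c s, A (fun e => t0 e + K s e) c = A t0 c + lin c s := by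
    intro c s
    have : lin c s = K s (st c 0) + K s (st c 1) + K s (st c 2) := rfl
    rw [this]
    simp only [A]
    ring
  have hpos : ∀ c, 0 < A t0 c - Real.pi := fun c => by have := (h1 c).1; linarith
  refine plane (fun c => -((A t0 c - Real.pi)⁻¹ • lin c)) ?_
  intro u hu
  have hKu : K u ≠ 0 := by
    intro h
    exact hu (hK (by rw [h, map_zero]))
  obtain ⟨e, he⟩ := Function.ne_iff.1 hKu
  simp only [Pi.zero_apply] at he
  -- the set of admissible times
  let T : Set ℝ := {τ | 0 ≤ τ ∧ StarC (fun e => t0 e + K (τ • u) e)}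
  have hcont : Continuous (fun τ : ℝ => (fun e => t0 e + K (τ • u) e : Fin 6 → ℝ)) := by
    simp only [map_smul]
    fun_prop
  have hTc : IsClosed T := by
    refine IsClosed.inter isClosed_Ici ?_
    exact isClosed_starC.preimage hcont
  have h0 : (0 : ℝ) ∈ T := by
    refine ⟨le_refl _, ?_⟩
    simp only [zero_smul, map_zero, Pi.zero_apply, add_zero]
    exact h1.starC
  have hb : BddAbove T := by
    refine ⟨Real.pi / |K u e|, ?_⟩
    rintro τ ⟨hτ, hs⟩
    have r1 := hs.range e
    have r2 := h1.starC.range e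
    simp only [map_smul, Pi.smul_apply, smul_eq_mul] at r1
    rw [le_div_iff₀ (abs_pos.2 he), ← abs_of_nonneg hτ, ← abs_mul]
    rw [abs_le]
    constructor <;> linarith
  have hmem : sSup T ∈ T := hTc.csSup_mem ⟨0, h0⟩ hb
  have hns : ¬ Star (fun e => t0 e + K (sSup T • u) e) := by
    intro hS
    have h2 : {τ : ℝ | Star (fun e => t0 e + K (τ • u) e)} ∈ nhds (sSup T) :=
      (isOpen_star.preimage hcont).mem_nhds hS
    obtain ⟨ε, hε, hball⟩ := Metric.mem_nhds_iff.1 h2
    have h3 : sSup T + ε / 2 ∈ Metric.ball (sSup T) ε := by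
      rw [Metric.mem_ball, Real.dist_eq, add_sub_cancel_left, abs_of_pos (by positivity)]
      linarith
    have h4 := hball h3
    have h5 : sSup T + ε / 2 ∈ T := ⟨by have := hmem.1; positivity, h4.starC⟩
    have := le_csSup hb h5
    linarith
  obtain ⟨c, d, hcd, ec, ed⟩ := hc (sSup T • u) hmem.2 hns
  rw [hlin, map_smul, smul_eq_mul] at ec ed
  have hT0 : 0 ≤ sSup T := hmem.1
  have key : ∀ c, A t0 c + sSup T * lin c u = Real.pi →
      (-((A t0 c - Real.pi)⁻¹ • lin c)) u = (sSup T)⁻¹ := by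
    intro c h
    have hne : sSup T ≠ 0 := by
      intro h'
      rw [h'] at h
      have := hpos c
      linarith
    change -((A t0 c - Real.pi)⁻¹ * lin c u) = _
    have hp := (hpos c).ne'
    field_simp
    linarith
  have hTpos : 0 < sSup T := by
    rcases hT0.lt_or_eq with h | h
    · exact h
    · rw [← h] at ec
      have := hpos c
      linarith
  refine ⟨c, d, hcd, ?_, ?_⟩
  · rw [key c ec, key d ed]
  · rw [key c ec]; exact inv_pos.2 hTpos

end Pool.Agent.TetDim
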