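import Pool.Agent.TetDim.WeightInst

/-! # `ineq` from the pointwise inequalities for the norm of the cross product -/

set_option autoImplicit false

open MeasureTheory Set Module Metric

namespace Pool.Agent.TetDim

open Pool.Agent.TetRel

/-- `ineq` from the pointwise inequalities for `wt`. -/
theorem ineq_of_pointwise
    (P1 : ∀ (b : AffineBasis (Fin 4) ℝ E3) (z : E3), (∀ c, lin b c z ≠ 0) → ∀ k,
      D (fun i => wt (b (eb i) - b (ea i)) z) k ≤
        ∑ i, if 0 < lin b (ec i) z * lin b (ed i) z then wt (b (eb i) - b (ea i)) z else 0)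
    (P2 : ∀ (b : AffineBasis (Fin 4) ℝ E3) (z : E3), (∀ c, lin b c z ≠ 0) → ∀ q,
      (∑ i, if 0 < lin b (ec i) z * lin b (ed i) z then wt (b (eb i) - b (ea i)) z else 0) ≤
        S (fun i => wt (b (eb i) - b (ea i)) z) q)
    (Q1 : ∀ (b : AffineBasis (Fin 4) ℝ E3), ∃ z, (∀ c, lin b c z ≠ 0) ∧ ∀ k,
      D (fun i => wt (b (eb i) - b (ea i)) z) k <
        ∑ i, if 0 < lin b (ec i) z * lin b (ed i) z then wt (b (eb i) - b (ea i)) z else 0)
    (Q2 : ∀ (b : AffineBasis (Fin 4) ℝ E3), ∃ z, (∀ c, lin b c z ≠ 0) ∧ ∀ q,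
      (∑ i, if 0 < lin b (ec i) z * lin b (ed i) z then wt (b (eb i) - b (ea i)) z else 0) <
        S (fun i => wt (b (eb i) - b (ea i)) z) q)
    (v : Fin 4 → E3) (hv : AffineIndependent ℝ v) :
    (∀ k, Real.pi * D (len v) k < ∑ e, len v e * dih v e) ∧
    (∀ q, ∑ e, len v e * dih v e < Real.pi * S (len v) q) := by
  have htop : affineSpan ℝ (range v) = ⊤ := by
    rw [hv.affineSpan_eq_top_iff_card_eq_finrank_add_one]
    simp
  let b : AffineBasis (Fin 4) ℝ E3 := ⟨v, hv, htop⟩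
  obtain ⟨κ, hw⟩ := weight
  have hh : ∀ z, hs wt b z =
      ∑ i, if 0 < lin b (ec i) z * lin b (ed i) z then wt (b (eb i) - b (ea i)) z else 0 := by
    intro z
    rfl
  have hD : ∀ z k, D (fun i => wt (b (eb i) - b (ea i)) z) k =
      wt (ev b (fst3 k)) z + wt (ev b (opp k)) z := by
    intro z k
    fin_cases k <;> rfl
  have hS : ∀ z q, S (fun i => wt (b (eb i) - b (ea i)) z) q = ∑ j, wt (ev b (st q j)) z := by
    intro z q
    rw [Fin.sum_univ_three]
    fin_cases q <;> rfl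
  obtain ⟨z1, hz1, h1⟩ := Q1 b
  obtain ⟨z2, hz2, h2⟩ := Q2 b
  refine ineq_of b hw (fun z hz k => ?_) (fun z hz q => ?_) (fun k => ⟨z1, hz1, ?_⟩)
    (fun q => ⟨z2, hz2, ?_⟩)
  · rw [hh, ← hD]
    exact P1 b z hz k
  · rw [hh, ← hS]
    exact P2 b z hz q
  · rw [hh, ← hD]
    exact h1 k
  · rw [hh, ← hS]
    exact h2 q

end Pool.Agent.TetDim
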