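import Mathlib
import Pool.Agent.TetraTile.Wedge

/-! # The weighted wedge integral (helper97)

With the weight `wt d z = |d × z|` the wedge with edge direction `d` takes the fraction
(dihedral angle) / (2 π) of the integral over the unit ball, and the latter is `κ |d|`. -/

set_option autoImplicit false

open MeasureTheory Set Real
open scoped InnerProductSpace

namespace Pool.Agent.TetDim

open Pool.TetraTile

lemma lint_polar (G : ℝ → ENNReal) (hG : Measurable G) (A : Set (ℝ × ℝ)) (hA : MeasurableSet A)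
    (B : Set ℝ) (hB : MeasurableSet B)
    (h : ∀ r φ : ℝ, 0 < r → -π < φ → φ < π → ((r * cos φ, r * sin φ) ∈ A ↔ φ ∈ B)) :
    ∫⁻ p in A, G (p.1 ^ 2 + p.2 ^ 2) =
      (∫⁻ r in Ioi (0 : ℝ), ENNReal.ofReal r * G (r ^ 2)) * volume (B ∩ Ioo (-π) π) := by
  rw [← lintegral_indicator hA, ← lintegral_comp_polarCoord_symm]
  have h1 : ∫⁻ p in polarCoord.target, ENNReal.ofReal p.1 •
        (indicator A (fun p : ℝ × ℝ => G (p.1 ^ 2 + p.2 ^ 2)) (polarCoord.symm p) : ENNReal)
      = ∫⁻ p in polarCoord.target, (ENNReal.ofReal p.1 * G (p.1 ^ 2)) *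
          (indicator B 1 p.2 : ENNReal) := by
    apply setLIntegral_congr_fun polarCoord.open_target.measurableSet
    rintro ⟨r, φ⟩ hp
    rw [polarCoord_target] at hp
    obtain ⟨hr, hφ⟩ := hp
    simp only [mem_Ioi] at hr
    simp only [mem_Ioo] at hφ
    have hm := h r φ hr hφ.1 hφ.2
    have hd : (r * cos φ) ^ 2 + (r * sin φ) ^ 2 = r ^ 2 := by
      have := sin_sq_add_cos_sq φ
      nlinarith
    simp only [polarCoord_symm_apply, smul_eq_mul]
    by_cases hx : φ ∈ B
    · rw [indicator_of_mem (hm.2 hx), indicator_of_mem hx]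
      simp only [hd, Pi.one_apply, mul_one]
    · rw [indicator_of_notMem (fun hh => hx (hm.1 hh)), indicator_of_notMem hx]
      simp
  rw [h1, polarCoord_target, Measure.volume_eq_prod, ← Measure.prod_restrict,
    lintegral_prod_mul (f := fun r : ℝ => ENNReal.ofReal r * G (r ^ 2))
      (g := fun φ : ℝ => (indicator B 1 φ : ENNReal))]
  · congr 1
    rw [lintegral_indicator_one hB, Measure.restrict_apply hB]
  · apply AEMeasurable.mul
    · exact (ENNReal.measurable_ofReal).aemeasurable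
    · exact (hG.comp (measurable_id.pow_const 2)).aemeasurable
  · exact (measurable_one.indicator hB).aemeasurable

lemma lint_sector {θ : ℝ} (h0 : 0 < θ) (hπ : θ < π) (G : ℝ → ENNReal) (hG : Measurable G) :
    ∫⁻ p in sector θ, G (p.1 ^ 2 + p.2 ^ 2) =
      ENNReal.ofReal (θ / (2 * π)) * ∫⁻ p : ℝ × ℝ, G (p.1 ^ 2 + p.2 ^ 2) := by
  have hpi := Real.pi_pos
  have h1 := lint_polar G hG (sector θ) (measurableSet_sector θ) (Icc 0 θ) measurableSet_Icc
    (fun r φ hr h1 h2 => polar_mem_sector h0 hπ hr h1 h2)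
  have h2 := lint_polar G hG univ MeasurableSet.univ univ MeasurableSet.univ
    (fun r φ _ _ _ => by simp)
  rw [setLIntegral_univ, univ_inter, Real.volume_Ioo] at h2
  have h3 : Icc (0 : ℝ) θ ∩ Ioo (-π) π = Icc 0 θ := by
    apply inter_eq_left.2
    intro x hx
    exact ⟨by linarith [hx.1], by linarith [hx.2]⟩
  rw [h3, Real.volume_Icc] at h1
  rw [h1, h2, mul_left_comm, ← ENNReal.ofReal_mul (by positivity)]
  congr 2
  field_simp
  ring

lemma lint_cyl (H : ℝ → ℝ → ENNReal) (hH : Measurable (Function.uncurry H)) {A : Set (ℝ × ℝ)}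
    (hA : MeasurableSet A) :
    ∫⁻ x in {x : E3 | (x 0, x 1) ∈ A}, H (x 2) (x 0 ^ 2 + x 1 ^ 2)
      = ∫⁻ z : ℝ, ∫⁻ p in A, H z (p.1 ^ 2 + p.2 ^ 2) := by
  have hS : MeasurableSet {x : E3 | (x 0, x 1) ∈ A} := by
    have : Measurable (fun x : E3 => (x 0, x 1)) := by fun_prop
    exact this hA
  let Φ : ℝ × (ℝ × ℝ) → ENNReal := fun w =>
    indicator {w : ℝ × (ℝ × ℝ) | w.2 ∈ A} (fun w => H w.1 (w.2.1 ^ 2 + w.2.2 ^ 2)) w
  have hΦ : Measurable Φ := by
    refine Measurable.indicator ?_ (measurable_snd hA)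
    have : Measurable (fun w : ℝ × (ℝ × ℝ) => (w.1, w.2.1 ^ 2 + w.2.2 ^ 2)) := by fun_prop
    exact hH.comp this
  rw [← lintegral_indicator hS]
  have e1 : (fun x : E3 => indicator {x : E3 | (x 0, x 1) ∈ A}
      (fun x => H (x 2) (x 0 ^ 2 + x 1 ^ 2)) x) = fun x => Φ (toProd x) := by
    funext x
    by_cases hx : (x 0, x 1) ∈ A
    · rw [indicator_of_mem (show x ∈ {x : E3 | (x 0, x 1) ∈ A} from hx)]
      change _ = indicator {w : ℝ × (ℝ × ℝ) | w.2 ∈ A} _ (toProd x)
      rw [indicator_of_mem (show toProd x ∈ {w : ℝ × (ℝ × ℝ) | w.2 ∈ A} from hx)]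
      rfl
    · rw [indicator_of_notMem (show ¬ x ∈ {x : E3 | (x 0, x 1) ∈ A} from hx)]
      change _ = indicator {w : ℝ × (ℝ × ℝ) | w.2 ∈ A} _ (toProd x)
      rw [indicator_of_notMem (show ¬ toProd x ∈ {w : ℝ × (ℝ × ℝ) | w.2 ∈ A} from hx)]
  rw [e1, measurePreserving_toProd.lintegral_comp hΦ, Measure.volume_eq_prod,
    lintegral_prod _ hΦ.aemeasurable]
  refine lintegral_congr fun z => ?_
  rw [← lintegral_indicator hA]
  rfl

/-- the radial weight in the ball -/
noncomputable def HH (t s : ℝ) : ENNReal := if s < 1 - t ^ 2 then ENNReal.ofReal (√s) else 0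

lemma measurable_HH : Measurable (Function.uncurry HH) := by
  have : Function.uncurry HH = fun p : ℝ × ℝ =>
      if p.2 < 1 - p.1 ^ 2 then ENNReal.ofReal (√p.2) else 0 := rfl
  rw [this]
  refine Measurable.ite ?_ ?_ measurable_const
  · exact measurableSet_lt measurable_snd (measurable_const.sub (measurable_fst.pow_const 2))
  · exact (measurable_snd.sqrt).ennreal_ofReal

/-- the constant -/
noncomputable def KL : ENNReal := ∫⁻ x : E3, HH (x 2) (x 0 ^ 2 + x 1 ^ 2)

lemma lint_sector_ball {θ : ℝ} (h0 : 0 < θ) (hπ : θ < π) :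
    ∫⁻ x in {x : E3 | (x 0, x 1) ∈ sector θ}, HH (x 2) (x 0 ^ 2 + x 1 ^ 2)
      = ENNReal.ofReal (θ / (2 * π)) * KL := by
  rw [lint_cyl HH measurable_HH (measurableSet_sector θ)]
  have h2 : KL = ∫⁻ z : ℝ, ∫⁻ p : ℝ × ℝ, HH z (p.1 ^ 2 + p.2 ^ 2) := by
    have h3 := lint_cyl HH measurable_HH (A := univ) MeasurableSet.univ
    simpa [KL] using h3
  rw [h2, ← lintegral_const_mul' _ _ ENNReal.ofReal_ne_top]
  refine lintegral_congr fun z => ?_
  exact lint_sector h0 hπ (HH z) (measurable_HH.comp measurable_prodMk_left)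

/-- `|d × z|` -/
noncomputable def wt (d z : E3) : ℝ := √(‖d‖ ^ 2 * ‖z‖ ^ 2 - ⟪d, z⟫_ℝ ^ 2)

lemma wt_nonneg (d z : E3) : 0 ≤ wt d z := sqrt_nonneg _

lemma wt_eq {d : E3} (b : OrthonormalBasis (Fin 3) ℝ E3) (hb : d = ‖d‖ • b 2) (z : E3) :
    wt d z = ‖d‖ * √((b.repr z) 0 ^ 2 + (b.repr z) 1 ^ 2) := by
  have h1 : ‖z‖ ^ 2 = (b.repr z) 0 ^ 2 + (b.repr z) 1 ^ 2 + (b.repr z) 2 ^ 2 := by
    rw [← LinearIsometryEquiv.norm_map b.repr z, EuclideanSpace.norm_sq_eq, Fin.sum_univ_three]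
    simp only [Real.norm_eq_abs, sq_abs]
  have h2 : ⟪d, z⟫_ℝ = ‖d‖ * (b.repr z) 2 := by
    conv_lhs => rw [hb]
    rw [real_inner_smul_left, b.repr_apply_apply]
  unfold wt
  rw [h1, h2]
  have h3 : ‖d‖ ^ 2 * ((b.repr z) 0 ^ 2 + (b.repr z) 1 ^ 2 + (b.repr z) 2 ^ 2) -
      (‖d‖ * (b.repr z) 2) ^ 2 = ‖d‖ ^ 2 * ((b.repr z) 0 ^ 2 + (b.repr z) 1 ^ 2) := by ring
  rw [h3, sqrt_mul (sq_nonneg _), sqrt_sq (norm_nonneg _)]

lemma exists_adapted (d : E3) (hd : d ≠ 0) :
    ∃ b : OrthonormalBasis (Fin 3) ℝ E3, d = ‖d‖ • b 2 := by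
  have hn : ‖d‖ ≠ 0 := norm_ne_zero_iff.2 hd
  have hv : Orthonormal ℝ (({2} : Set (Fin 3)).domRestrict (fun _ => ‖d‖⁻¹ • d)) := by
    constructor
    · intro i
      change ‖(‖d‖⁻¹ • d : E3)‖ = 1
      rw [norm_smul, norm_inv, norm_norm, inv_mul_cancel₀ hn]
    · intro i j hij
      exact absurd (Subsingleton.elim i j) hij
  obtain ⟨b, hb⟩ := hv.exists_orthonormalBasis_extension_of_card_eq
    (by simp)
  refine ⟨b, ?_⟩
  rw [hb 2 rfl, smul_smul, mul_inv_cancel₀ hn, one_smul]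

lemma measurable_weight : Measurable (fun x : E3 => HH (x 2) (x 0 ^ 2 + x 1 ^ 2)) := by
  have : Measurable (fun x : E3 => (x 2, x 0 ^ 2 + x 1 ^ 2)) := by fun_prop
  exact measurable_HH.comp this

lemma HH_repr {d : E3} (b : OrthonormalBasis (Fin 3) ℝ E3) (hb : d = ‖d‖ • b 2) (z : E3) :
    indicator (Metric.ball (0 : E3) 1) (fun z => ENNReal.ofReal (wt d z)) z =
      ENNReal.ofReal ‖d‖ * HH ((b.repr z) 2) ((b.repr z) 0 ^ 2 + (b.repr z) 1 ^ 2) := by
  have hiff : z ∈ Metric.ball (0 : E3) 1 ↔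
      (b.repr z) 0 ^ 2 + (b.repr z) 1 ^ 2 < 1 - (b.repr z) 2 ^ 2 := by
    rw [← norm_lt_one_iff, LinearIsometryEquiv.norm_map, Metric.mem_ball, dist_zero_right]
  unfold HH
  by_cases hz : z ∈ Metric.ball (0 : E3) 1
  · rw [indicator_of_mem hz, if_pos (hiff.1 hz), wt_eq b hb, ENNReal.ofReal_mul (norm_nonneg _)]
  · rw [indicator_of_notMem hz, if_neg (fun h => hz (hiff.2 h)), mul_zero]

lemma lint_ball {d : E3} (hd : d ≠ 0) :
    ∫⁻ z in Metric.ball (0 : E3) 1, ENNReal.ofReal (wt d z) = ENNReal.ofReal ‖d‖ * KL := by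
  obtain ⟨b, hb⟩ := exists_adapted d hd
  rw [← lintegral_indicator Metric.isOpen_ball.measurableSet, lintegral_congr (HH_repr b hb),
    lintegral_const_mul' _ _ ENNReal.ofReal_ne_top]
  congr 1
  exact (LinearIsometryEquiv.measurePreserving b.repr).lintegral_comp measurable_weight

lemma mem_wedge_iff {d p q : E3} {θ : ℝ} (hd : d ≠ 0) (hp : p ≠ 0) (hq : q ≠ 0)
    (hs : 0 < sin θ) (b : OrthonormalBasis (Fin 3) ℝ E3) (hbp : p = ‖p‖ • b 0)
    (hbd : d = ‖d‖ • b 2) (hbq : q = (‖q‖ * cos θ) • b 0 + (‖q‖ * sin θ) • b 1) (z : E3) :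
    z ∈ wedge d p q ↔ ((b.repr z) 0, (b.repr z) 1) ∈ sector θ := by
  have hp' : 0 < ‖p‖ := norm_pos_iff.2 hp
  have hq' : 0 < ‖q‖ := norm_pos_iff.2 hq
  have hd' : 0 < ‖d‖ := norm_pos_iff.2 hd
  generalize ‖p‖ = P at *
  generalize ‖q‖ = Q at *
  generalize ‖d‖ = D at *
  have hz : z = (b.repr z 0) • b 0 + (b.repr z 1) • b 1 + (b.repr z 2) • b 2 := by
    conv_lhs => rw [← b.sum_repr z]
    rw [Fin.sum_univ_three]
  constructor
  · rintro ⟨t, a, c, ha, hc, hzz⟩
    have e0 : b.repr z 0 = a * P + c * (Q * cos θ) := by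
      rw [hzz, hbp, hbq, hbd]
      simp [OrthonormalBasis.repr_self]
    have e1 : b.repr z 1 = c * (Q * sin θ) := by
      rw [hzz, hbp, hbq, hbd]
      simp [OrthonormalBasis.repr_self]
    unfold sector
    simp only [mem_ofPred_eq, e0, e1]
    refine ⟨by positivity, ?_⟩
    have : 0 ≤ a * P * sin θ := by positivity
    nlinarith
  · intro hz2
    unfold sector at hz2
    simp only [mem_ofPred_eq] at hz2
    obtain ⟨h1, h2⟩ := hz2
    refine ⟨b.repr z 2 / D, (b.repr z 0 * sin θ - b.repr z 1 * cos θ) / (sin θ * P),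
      b.repr z 1 / (Q * sin θ), ?_, ?_, ?_⟩
    · apply div_nonneg
      · linarith
      · positivity
    · positivity
    · conv_lhs => rw [hz]
      conv_rhs => rw [hbp, hbq, hbd]
      match_scalars
      · field_simp
        ring
      · field_simp
      · field_simp

lemma lint_wedge {d p q : E3} (h : LinearIndependent ℝ ![d, p, q]) :
    MeasurableSet (wedge d p q) ∧
    ∫⁻ z in wedge d p q ∩ Metric.ball (0 : E3) 1, ENNReal.ofReal (wt d z) =
      ENNReal.ofReal (InnerProductGeometry.angle (orth d p) (orth d q) / (2 * π)) *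
        (ENNReal.ofReal ‖d‖ * KL) := by
  obtain ⟨hd, hp, hq, h0, hπ⟩ := orth_facts h
  rw [← wedge_orth]
  have hs := sin_pos_of_pos_of_lt_pi h0 hπ
  obtain ⟨b, hbp, hbd, hbq⟩ := exists_basis (inner_orth hd p) (inner_orth hd q) hd hp hq hs
  generalize InnerProductGeometry.angle (orth d p) (orth d q) = θ at *
  generalize orth d p = p' at *
  generalize orth d q = q' at *
  have hiff := mem_wedge_iff hd hp hq hs b hbp hbd hbq
  have hSec : MeasurableSet {x : E3 | (x 0, x 1) ∈ sector θ} := by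
    have : Measurable (fun x : E3 => (x 0, x 1)) := by fun_prop
    exact this (measurableSet_sector θ)
  have hW : wedge d p' q' = b.repr ⁻¹' {x : E3 | (x 0, x 1) ∈ sector θ} := by
    ext z
    exact hiff z
  have hWm : MeasurableSet (wedge d p' q') := by
    rw [hW]
    exact (LinearIsometryEquiv.measurePreserving b.repr).measurable hSec
  refine ⟨hWm, ?_⟩
  rw [← lintegral_indicator (hWm.inter Metric.isOpen_ball.measurableSet)]
  have e1 : ∀ z : E3, indicator (wedge d p' q' ∩ Metric.ball (0 : E3) 1)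
      (fun z => ENNReal.ofReal (wt d z)) z =
      ENNReal.ofReal ‖d‖ * indicator {x : E3 | (x 0, x 1) ∈ sector θ}
        (fun x => HH (x 2) (x 0 ^ 2 + x 1 ^ 2)) (b.repr z) := by
    intro z
    rw [← indicator_indicator]
    by_cases hz : z ∈ wedge d p' q'
    · rw [indicator_of_mem hz, HH_repr b hbd,
        indicator_of_mem (show b.repr z ∈ {x : E3 | (x 0, x 1) ∈ sector θ} from (hiff z).1 hz)]
    · rw [indicator_of_notMem hz, indicator_of_notMem
        (show ¬ b.repr z ∈ {x : E3 | (x 0, x 1) ∈ sector θ} from fun h' => hz ((hiff z).2 h')),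
        mul_zero]
  rw [lintegral_congr e1, lintegral_const_mul' _ _ ENNReal.ofReal_ne_top,
    (LinearIsometryEquiv.measurePreserving b.repr).lintegral_comp
      (measurable_weight.indicator hSec), lintegral_indicator hSec, lint_sector_ball h0 hπ]
  ring

lemma KL_ne_top : KL ≠ ⊤ := by
  have h1 : KL ≤ ∫⁻ x : E3, indicator (Metric.ball (0 : E3) 1) 1 x := by
    refine lintegral_mono fun x => ?_
    unfold HH
    split_ifs with h
    · have hx : x ∈ Metric.ball (0 : E3) 1 := by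
        rw [Metric.mem_ball, dist_zero_right, norm_lt_one_iff]; exact h
      rw [indicator_of_mem hx, Pi.one_apply]
      rw [ENNReal.ofReal_le_one]
      rw [sqrt_le_iff]
      exact ⟨zero_le_one, by nlinarith [sq_nonneg (x 2)]⟩
    · exact zero_le
  rw [lintegral_indicator_one Metric.isOpen_ball.measurableSet] at h1
  exact ne_top_of_le_ne_top measure_ball_lt_top.ne h1

lemma KL_pos : 0 < KL := by
  let U : Set E3 := Metric.ball (0 : E3) 1 ∩ {x | 0 < x 0}
  have hU : IsOpen U := Metric.isOpen_ball.inter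
    (isOpen_lt continuous_const (by fun_prop))
  have hUn : U.Nonempty := by
    refine ⟨!₂[1/2, 0, 0], ?_, ?_⟩
    · rw [Metric.mem_ball, dist_zero_right, norm_lt_one_iff]
      simp; norm_num
    · simp
  have hpos : 0 < volume U := hU.measure_pos volume hUn
  rw [pos_iff_ne_zero]
  intro h0
  unfold KL at h0
  rw [lintegral_eq_zero_iff measurable_weight] at h0
  have h1 : U ⊆ {x : E3 | ¬ (HH (x 2) (x 0 ^ 2 + x 1 ^ 2) = (0 : E3 → ENNReal) x)} := by
    rintro x ⟨hx1, hx2⟩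
    rw [Metric.mem_ball, dist_zero_right, norm_lt_one_iff] at hx1
    have hx3 : 0 < x 0 := hx2
    simp only [mem_ofPred_eq, HH, Pi.zero_apply]
    rw [if_pos hx1, ENNReal.ofReal_eq_zero, not_le]
    positivity
  have h2 : volume U ≤ 0 := (measure_mono h1).trans (le_of_eq h0)
  exact absurd hpos (not_lt.2 h2)

/-- **The weighted wedge integral.** -/
theorem weighted_wedge : ∃ κ : ℝ, 0 < κ ∧
    (∀ d : E3, ∫ z in Metric.ball (0 : E3) 1, wt d z = κ * ‖d‖) ∧
    ∀ d p q : E3, LinearIndependent ℝ ![d, p, q] →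
      MeasurableSet (wedge d p q) ∧
      ∫ z in wedge d p q ∩ Metric.ball (0 : E3) 1, wt d z =
        InnerProductGeometry.angle (orth d p) (orth d q) / (2 * π) * κ * ‖d‖ := by
  have hc : ∀ d : E3, Continuous (fun z => wt d z) := fun d => by unfold wt; fun_prop
  have hi : ∀ (d : E3) (s : Set E3), ∫ z in s, wt d z =
      (∫⁻ z in s, ENNReal.ofReal (wt d z)).toReal := fun d s =>
    integral_eq_lintegral_of_nonneg_ae (Filter.Eventually.of_forall fun z => wt_nonneg d z)
      (hc d).aestronglyMeasurable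
  refine ⟨KL.toReal, ENNReal.toReal_pos KL_pos.ne' KL_ne_top, fun d => ?_, fun d p q h => ?_⟩
  · by_cases hd : d = 0
    · subst hd
      simp [wt]
    · rw [hi, lint_ball hd, ENNReal.toReal_mul, ENNReal.toReal_ofReal (norm_nonneg _), mul_comm]
  · obtain ⟨h1, h2⟩ := lint_wedge h
    refine ⟨h1, ?_⟩
    rw [hi, h2, ENNReal.toReal_mul, ENNReal.toReal_mul, ENNReal.toReal_ofReal (norm_nonneg _),
      ENNReal.toReal_ofReal
        (div_nonneg (InnerProductGeometry.angle_nonneg _ _) (by positivity))]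
    ring

end Pool.Agent.TetDim
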