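import Pool.Agent.TetDim.Ineq0
import Pool.Agent.TetDim.Weighted

/-! # The weight `|d × z|` has the properties which `Ineq0` uses (helper97) -/

set_option autoImplicit false

open MeasureTheory Set Real
open scoped InnerProductSpace

namespace Pool.Agent.TetDim

open Pool.TetraTile

lemma wt_neg (d z : E3) : wt d (-z) = wt d z := by
  unfold wt
  rw [norm_neg, inner_neg_right, neg_sq]

lemma wt_smul (d z : E3) (t : ℝ) (ht : 0 < t) : wt d (t • z) = t * wt d z := by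
  unfold wt
  rw [norm_smul, real_inner_smul_right, Real.norm_eq_abs, mul_pow, sq_abs, mul_pow]
  have h : ‖d‖ ^ 2 * (t ^ 2 * ‖z‖ ^ 2) - t ^ 2 * ⟪d, z⟫_ℝ ^ 2 =
      t ^ 2 * (‖d‖ ^ 2 * ‖z‖ ^ 2 - ⟪d, z⟫_ℝ ^ 2) := by ring
  rw [h, sqrt_mul (sq_nonneg t), sqrt_sq ht.le]

theorem weight : ∃ κ : ℝ, Weight wt κ := by
  obtain ⟨κ, h0, h1, h2⟩ := weighted_wedge
  exact ⟨κ, ⟨fun d => by unfold wt; fun_prop, wt_neg, wt_smul, h0, h1,
    fun d p q h => (h2 d p q h).2⟩⟩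

end Pool.Agent.TetDim
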