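import Mathlib

/-!
# The zero set of a nonzero real-analytic function has codimension at least one

At a zero `x` of `g` with `Dg(x) ≠ 0` the projection onto the kernel of `Dg(x)` is antilipschitz
on the zeros near `x` (strict differentiability); the zero set of an analytic function is the
union of countably many sets `{D_v^k f = 0, D_v^(k+1) f ≠ 0}`.
-/

set_option autoImplicit false

namespace Pool.Agent.TetDim

open Set Topology Filter

/-- Local dimension of the zero set at a point with nonzero strict derivative. -/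
theorem exists_ball_dimH_le {E : Type*} [NormedAddCommGroup E] [NormedSpace ℝ E]
    [FiniteDimensional ℝ E] {g : E → ℝ} {x : E} {L : E →L[ℝ] ℝ} (hg : HasStrictFDerivAt g L x)
    (hL : L ≠ 0) {n : ℕ} (hn : Module.finrank ℝ E = n + 1) :
    ∃ U ∈ 𝓝 x, dimH (U ∩ {y | g y = 0}) ≤ n := by
  obtain ⟨v, hv⟩ : ∃ v, L v ≠ 0 := by
    by_contra h
    push Not at h
    exact hL (ContinuousLinearMap.ext h)
  -- the projection onto the kernel along `v`
  let K : Submodule ℝ E := LinearMap.ker (L : E →ₗ[ℝ] ℝ)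
  have hK : ∀ w : E, w - (L w / L v) • v ∈ K := by
    intro w
    rw [LinearMap.mem_ker, ContinuousLinearMap.coe_coe, map_sub, map_smul, smul_eq_mul,
      div_mul_cancel₀ _ hv, sub_self]
  have hdimK : Module.finrank ℝ K = n := by
    have h1 := LinearMap.finrank_range_add_finrank_ker (L : E →ₗ[ℝ] ℝ)
    have h2 : LinearMap.range (L : E →ₗ[ℝ] ℝ) = ⊤ := by
      apply LinearMap.range_eq_top.2
      intro r
      refine ⟨(r / L v) • v, ?_⟩
      rw [ContinuousLinearMap.coe_coe, map_smul, smul_eq_mul, div_mul_cancel₀ _ hv]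
    rw [h2, finrank_top, Module.finrank_self, hn] at h1
    change Module.finrank ℝ (LinearMap.ker (L : E →ₗ[ℝ] ℝ)) = n
    omega
  let c : ℝ := |L v| / (2 * (‖v‖ + 1))
  have hvn : 0 < ‖v‖ + 1 := by positivity
  have hc : 0 < c := div_pos (abs_pos.2 hv) (by positivity)
  have hev := hg.isLittleO.def hc
  rw [nhds_prod_eq, Filter.eventually_iff, Filter.mem_prod_self_iff] at hev
  obtain ⟨U, hU, hUd'⟩ := hev
  have hUd : ∀ y ∈ U, ∀ z ∈ U, ‖g y - g z - L (y - z)‖ ≤ c * ‖y - z‖ :=
    fun y hy z hz => hUd' (mk_mem_prod hy hz)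
  refine ⟨U, hU, ?_⟩
  -- the antilipschitz map
  let Z : Set E := U ∩ {y | g y = 0}
  let π : Z → K := fun y => ⟨(y : E) - (L y / L v) • v, hK y⟩
  have hπ : AntilipschitzWith 2 π := by
    apply AntilipschitzWith.of_le_mul_dist
    intro y z
    have h1 := hUd y y.2.1 z z.2.1
    rw [show g (y : E) = 0 from y.2.2, show g (z : E) = 0 from z.2.2, sub_zero, zero_sub,
      norm_neg, Real.norm_eq_abs] at h1
    have h2 : ((π y : K) : E) - (π z : K) = ((y : E) - z) - (L ((y : E) - z) / L v) • v := by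
      simp only [π, map_sub, sub_div, sub_smul]
      abel
    have h3 : ‖(y : E) - z‖ ≤ ‖((π y : K) : E) - (π z : K)‖ + ‖(L ((y : E) - z) / L v) • v‖ := by
      rw [h2]
      have := norm_add_le (((y : E) - z) - (L ((y : E) - z) / L v) • v)
        ((L ((y : E) - z) / L v) • v)
      rwa [sub_add_cancel] at this
    have h4 : ‖(L ((y : E) - z) / L v) • v‖ ≤ ‖(y : E) - z‖ / 2 := by
      rw [norm_smul, Real.norm_eq_abs, abs_div, div_mul_eq_mul_div, div_le_iff₀ (abs_pos.2 hv)]
      calc |L ((y : E) - z)| * ‖v‖ ≤ (c * ‖(y : E) - z‖) * (‖v‖ + 1) := by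
            apply mul_le_mul h1 (by linarith) (norm_nonneg _) (by positivity)
        _ = ‖(y : E) - z‖ / 2 * |L v| := by
            simp only [c]
            field_simp
    rw [Subtype.dist_eq, dist_eq_norm, Subtype.dist_eq, dist_eq_norm]
    have h5 : ((2 : NNReal) : ℝ) = 2 := rfl
    rw [h5]
    linarith
  have h6 : dimH (univ : Set Z) = dimH Z := by
    have := Isometry.dimH_image (isometry_subtype_coe (s := Z)) univ
    rw [image_univ, Subtype.range_coe] at this
    exact this.symm
  calc dimH Z = dimH (univ : Set Z) := h6.symm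
    _ ≤ dimH (π '' univ) := hπ.le_dimH_image univ
    _ ≤ dimH (univ : Set K) := dimH_mono (subset_univ _)
    _ = n := by rw [Real.dimH_univ_eq_finrank, hdimK]

/-- The zeros at which the strict derivative is nonzero. -/
theorem dimH_le_of_fderiv_ne_zero {E : Type*} [NormedAddCommGroup E] [NormedSpace ℝ E]
    [FiniteDimensional ℝ E] {g : E → ℝ} {s : Set E} {n : ℕ} (hn : Module.finrank ℝ E = n + 1)
    (hs : ∀ x ∈ s, g x = 0 ∧ ∃ L : E →L[ℝ] ℝ, HasStrictFDerivAt g L x ∧ L ≠ 0) :
    dimH s ≤ n := by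
  by_contra hcon
  rw [not_le] at hcon
  have : SecondCountableTopology E := inferInstance
  obtain ⟨x, hx, hxt⟩ := exists_mem_nhdsWithin_lt_dimH_of_lt_dimH hcon
  obtain ⟨_, L, hL, hL0⟩ := hs x hx
  obtain ⟨U, hU, hUd⟩ := exists_ball_dimH_le hL hL0 hn
  have h1 := hxt (U ∩ s) (inter_mem (mem_nhdsWithin_of_mem_nhds hU) self_mem_nhdsWithin)
  have h2 : dimH (U ∩ s) ≤ dimH (U ∩ {y | g y = 0}) :=
    dimH_mono fun y hy => ⟨hy.1, (hs y hy.2).1⟩
  exact absurd (h1.trans_le (h2.trans hUd)) (lt_irrefl _)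

/-- The directional derivatives `D_v^k f`. -/
noncomputable def dirDeriv {E : Type*} [NormedAddCommGroup E] [NormedSpace ℝ E] (v : E)
    (f : E → ℝ) : ℕ → E → ℝ
  | 0 => f
  | k + 1 => fun x => fderiv ℝ (dirDeriv v f k) x v

theorem dirDeriv_analytic {E : Type*} [NormedAddCommGroup E] [NormedSpace ℝ E] (v : E)
    {f : E → ℝ} (hf : AnalyticOnNhd ℝ f univ) : ∀ k, AnalyticOnNhd ℝ (dirDeriv v f k) univ
  | 0 => hf
  | k + 1 => by
    have h := (dirDeriv_analytic v hf k).fderiv
    exact (ContinuousLinearMap.apply ℝ ℝ v).comp_analyticOnNhd h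

/-- Along a line the iterated derivatives are the directional derivatives. -/
theorem iteratedDeriv_line {E : Type*} [NormedAddCommGroup E] [NormedSpace ℝ E] (v x : E)
    {f : E → ℝ} (hf : AnalyticOnNhd ℝ f univ) : ∀ k : ℕ, ∀ t : ℝ,
      iteratedDeriv k (fun t : ℝ => f (x + t • v)) t = dirDeriv v f k (x + t • v)
  | 0, t => by rw [iteratedDeriv_zero]; rfl
  | k + 1, t => by
    rw [iteratedDeriv_succ]
    have h1 : iteratedDeriv k (fun t : ℝ => f (x + t • v)) =
        fun t => dirDeriv v f k (x + t • v) := funext (iteratedDeriv_line v x hf k)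
    rw [h1]
    have h2 : HasFDerivAt (dirDeriv v f k) (fderiv ℝ (dirDeriv v f k) (x + t • v)) (x + t • v) :=
      ((dirDeriv_analytic v hf k) _ (mem_univ _)).differentiableAt.hasFDerivAt
    have h3 : HasDerivAt (fun t : ℝ => x + t • v) v t := by
      have := ((hasDerivAt_id t).smul_const v).const_add x
      simpa using this
    have h4 := h2.comp_hasDerivAt t h3
    exact h4.deriv

/-- If all iterated directional derivatives vanish at a point, the function vanishes on the
line. -/
theorem eq_zero_of_dirDeriv {E : Type*} [NormedAddCommGroup E] [NormedSpace ℝ E] (v x : E)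
    {f : E → ℝ} (hf : AnalyticOnNhd ℝ f univ) (h : ∀ k, dirDeriv v f k x = 0) :
    f (x + v) = 0 := by
  let h₀ : ℝ → ℝ := fun t => f (x + t • v)
  have han : AnalyticOnNhd ℝ h₀ univ := by
    intro t _
    have h1 : AnalyticAt ℝ (fun t : ℝ => x + t • v) t := by fun_prop
    exact (hf _ (mem_univ _)).comp h1
  have htop : analyticOrderAt h₀ 0 = ⊤ := by
    rw [ENat.eq_top_iff_forall_ge]
    intro m
    rw [natCast_le_analyticOrderAt_iff_iteratedDeriv_eq_zero (han 0 (mem_univ _))]
    intro i _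
    rw [iteratedDeriv_line v x hf i 0, zero_smul, add_zero]
    exact h i
  rw [analyticOrderAt_eq_top] at htop
  have h2 := han.eqOn_zero_of_preconnected_of_eventuallyEq_zero isPreconnected_univ
    (mem_univ 0) htop (mem_univ 1)
  simpa [h₀] using h2

/-- The zero set of a nonzero analytic function on a space of dimension `n + 1`. -/
theorem dimH_zero_le' {E : Type*} [NormedAddCommGroup E] [NormedSpace ℝ E]
    [FiniteDimensional ℝ E] {n : ℕ} (hn : Module.finrank ℝ E = n + 1) (f : E → ℝ)
    (hf : AnalyticOnNhd ℝ f univ) (hne : ∃ x, f x ≠ 0) : dimH {x | f x = 0} ≤ n := by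
  have hcont : Continuous f := continuousOn_univ.1 hf.continuousOn
  obtain ⟨Q, hQc, hQd⟩ := TopologicalSpace.exists_countable_dense E
  have hsub : {x | f x = 0} ⊆ ⋃ v ∈ Q, ⋃ k : ℕ,
      {x | dirDeriv v f k x = 0 ∧ dirDeriv v f (k + 1) x ≠ 0} := by
    intro x hx
    obtain ⟨z, hz⟩ := hne
    have hopen : IsOpen {v : E | f (x + v) ≠ 0} :=
      isOpen_ne.preimage (hcont.comp (continuous_const.add continuous_id))
    obtain ⟨v, hvQ, hv⟩ := hQd.exists_mem_open hopen ⟨z - x, by simpa using hz⟩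
    have hk : ∃ k, dirDeriv v f k x ≠ 0 := by
      by_contra hcon
      push Not at hcon
      exact hv (eq_zero_of_dirDeriv v x hf hcon)
    classical
    let k := Nat.find hk
    have hk1 : dirDeriv v f k x ≠ 0 := Nat.find_spec hk
    have hk0 : k ≠ 0 := by
      intro h0
      rw [h0] at hk1
      exact hk1 hx
    obtain ⟨m, hm⟩ := Nat.exists_eq_succ_of_ne_zero hk0
    have hm0 : dirDeriv v f m x = 0 := by
      by_contra hcon
      exact absurd (Nat.find_min' hk hcon) (by omega)
    refine mem_biUnion hvQ (mem_iUnion.2 ⟨m, hm0, ?_⟩)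
    rw [← Nat.succ_eq_add_one, ← hm]
    exact hk1
  refine (dimH_mono hsub).trans ?_
  rw [dimH_bUnion hQc]
  refine iSup₂_le fun v _ => ?_
  rw [dimH_iUnion]
  refine iSup_le fun k => ?_
  refine dimH_le_of_fderiv_ne_zero (g := dirDeriv v f k) hn ?_
  rintro x ⟨h1, h2⟩
  refine ⟨h1, fderiv ℝ (dirDeriv v f k) x,
    ((dirDeriv_analytic v hf k) x (mem_univ _)).hasStrictFDerivAt, ?_⟩
  intro h0
  apply h2
  change fderiv ℝ (dirDeriv v f k) x v = 0
  rw [h0]
  rfl

/-- PACKAGE Z: the zero set of a nonzero real-analytic function on `ℝ^(n+1)` has Hausdorff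
dimension at most `n`. -/
theorem dimH_zero_le {n : ℕ} (f : (Fin (n + 1) → ℝ) → ℝ) (hf : AnalyticOnNhd ℝ f univ)
    (hne : ∃ x, f x ≠ 0) : dimH {x | f x = 0} ≤ n :=
  dimH_zero_le' (by simp) f hf hne

end Pool.Agent.TetDim
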